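import Pool.Agent.Lib_helper92.LVA.Defs
import Pool.Agent.Lib_helper92.ASA.All

/-!
# Project LVK, part A, block AB: Abel summation
-/

namespace Pool.Agent.LVA

open Complex MeasureTheory Filter Topology Set Pool.Agent.AS

variable {P : Type} {N : P → ℕ}

theorem ab_integrable {T : ℝ} (hT : 0 ≤ T) {F' : ℝ → ℂ} (hF' : ContinuousOn F' (Icc 0 T))
    (τ : ℝ) : IntervalIntegrable ((Ici τ).indicator F') volume 0 T := by
  have h1 : IntervalIntegrable F' volume 0 T := by
    refine ContinuousOn.intervalIntegrable ?_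
    rwa [uIcc_of_le hT]
  rw [intervalIntegrable_iff] at h1 ⊢
  exact h1.indicator measurableSet_Ici

theorem ab_tail {T : ℝ} {F' : ℝ → ℂ} (hF' : ContinuousOn F' (Icc 0 T))
    {τ : ℝ} (h0 : 0 ≤ τ) (h1 : τ ≤ T) :
    ∫ t in (0 : ℝ)..T, (Ici τ).indicator F' t = ∫ t in τ..T, F' t := by
  have hT : 0 ≤ T := h0.trans h1
  have hi := ab_integrable hT hF' τ
  have hi1 : IntervalIntegrable ((Ici τ).indicator F') volume 0 τ := by
    refine hi.mono_set ?_
    rw [uIcc_of_le h0, uIcc_of_le hT]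
    exact Icc_subset_Icc_right h1
  have hi2 : IntervalIntegrable ((Ici τ).indicator F') volume τ T := by
    refine hi.mono_set ?_
    rw [uIcc_of_le h1, uIcc_of_le hT]
    exact Icc_subset_Icc_left h0
  rw [← intervalIntegral.integral_add_adjacent_intervals hi1 hi2]
  have e1 : ∫ t in (0 : ℝ)..τ, (Ici τ).indicator F' t = 0 := by
    refine intervalIntegral.integral_zero_ae ?_
    have : ∀ᵐ t : ℝ, t ≠ τ := by
      simp [ae_iff]
    filter_upwards [this] with t ht htm
    rw [uIoc_of_le h0] at htm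
    refine indicator_of_notMem ?_ _
    intro h
    exact ht (le_antisymm htm.2 h)
  have e2 : ∫ t in τ..T, (Ici τ).indicator F' t = ∫ t in τ..T, F' t := by
    refine intervalIntegral.integral_congr ?_
    intro t ht
    rw [uIcc_of_le h1] at ht
    exact indicator_of_mem (show t ∈ Ici τ from ht.1) _
  rw [e1, e2, zero_add]

open scoped Classical in
theorem ab_point {ι : Type} (S : Finset ι) (ν : ι → ℂ) (τ : ι → ℝ) (F' : ℝ → ℂ) (t : ℝ) :
    ∑ i ∈ S, ν i * (Ici (τ i)).indicator F' t =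
      F' t * ∑ i ∈ S.filter (fun i => τ i ≤ t), ν i := by
  rw [Finset.sum_filter, Finset.mul_sum]
  refine Finset.sum_congr rfl fun i _ => ?_
  by_cases h : τ i ≤ t
  · rw [indicator_of_mem (show t ∈ Ici (τ i) from h), if_pos h, mul_comm]
  · rw [indicator_of_notMem (show t ∉ Ici (τ i) from h), if_neg h, mul_zero, mul_zero]

open scoped Classical in
theorem abel_sum_pr {ι : Type} (S : Finset ι) (ν : ι → ℂ) (τ : ι → ℝ) (T δ K : ℝ) (hT : 0 ≤ T)
    (hτ : ∀ i ∈ S, 0 ≤ τ i ∧ τ i ≤ T) (M : ℝ → ℂ) (hM : ContinuousOn M (Icc 0 T)) (hδ0 : 0 ≤ δ)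
    (hδ : ∀ t ∈ Icc 0 T, ‖∑ i ∈ S.filter (fun i => τ i ≤ t), ν i - M t‖ ≤ δ)
    (F F' : ℝ → ℂ) (hF : ∀ t ∈ Icc 0 T, HasDerivAt F (F' t) t) (hF' : ContinuousOn F' (Icc 0 T))
    (hK : ‖F T‖ + ∫ t in (0 : ℝ)..T, ‖F' t‖ ≤ K) :
    ‖∑ i ∈ S, ν i * F (τ i) - (F T * M T - ∫ t in (0 : ℝ)..T, F' t * M t)‖ ≤ δ * K := by
  have hF'' : ContinuousOn F' (uIcc 0 T) := by rwa [uIcc_of_le hT]
  have hM'' : ContinuousOn M (uIcc 0 T) := by rwa [uIcc_of_le hT]
  -- each value
  have hval : ∀ i ∈ S, F (τ i) = F T - ∫ t in (0 : ℝ)..T, (Ici (τ i)).indicator F' t := by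
    intro i hi
    obtain ⟨h0, h1⟩ := hτ i hi
    rw [ab_tail hF' h0 h1]
    have h2 : ∫ t in (τ i)..T, F' t = F T - F (τ i) := by
      refine intervalIntegral.integral_eq_sub_of_hasDerivAt ?_ ?_
      · intro t ht
        rw [uIcc_of_le h1] at ht
        exact hF t ⟨h0.trans ht.1, ht.2⟩
      · refine ContinuousOn.intervalIntegrable ?_
        rw [uIcc_of_le h1]
        exact hF'.mono (Icc_subset_Icc_left h0)
    rw [h2]
    ring
  have hint : ∀ i ∈ S, IntervalIntegrable (fun t => ν i * (Ici (τ i)).indicator F' t)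
      volume 0 T := fun i _ => (ab_integrable hT hF' (τ i)).const_mul _
  have hsum : ∑ i ∈ S, ν i * F (τ i) = F T * ∑ i ∈ S, ν i -
      ∫ t in (0 : ℝ)..T, F' t * ∑ i ∈ S.filter (fun i => τ i ≤ t), ν i := by
    have h1 : ∑ i ∈ S, ν i * F (τ i) = ∑ i ∈ S, (ν i * F T -
        ∫ t in (0 : ℝ)..T, ν i * (Ici (τ i)).indicator F' t) := by
      refine Finset.sum_congr rfl fun i hi => ?_
      rw [hval i hi, intervalIntegral.integral_const_mul]
      ring
    rw [h1, Finset.sum_sub_distrib, ← Finset.sum_mul, ← intervalIntegral.integral_finsetSum hint]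
    congr 1
    · ring
    · refine intervalIntegral.integral_congr fun t _ => ?_
      exact ab_point S ν τ F' t
  have hA : IntervalIntegrable (fun t => F' t * ∑ i ∈ S.filter (fun i => τ i ≤ t), ν i)
      volume 0 T := by
    have h1 : IntervalIntegrable (∑ i ∈ S, fun t => ν i * (Ici (τ i)).indicator F' t)
        volume 0 T := IntervalIntegrable.sum S hint
    refine h1.congr ?_
    intro t _
    simp only [Finset.sum_apply]
    exact ab_point S ν τ F' t
  have hB : IntervalIntegrable (fun t => F' t * M t) volume 0 T :=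
    (hF''.mul hM'').intervalIntegrable
  have hN : IntervalIntegrable (fun t => ‖F' t‖) volume 0 T := hF''.norm.intervalIntegrable
  have hST : ∑ i ∈ S.filter (fun i => τ i ≤ T), ν i = ∑ i ∈ S, ν i := by
    rw [Finset.filter_true_of_mem fun i hi => (hτ i hi).2]
  have hkey : ∑ i ∈ S, ν i * F (τ i) - (F T * M T - ∫ t in (0 : ℝ)..T, F' t * M t) =
      F T * (∑ i ∈ S.filter (fun i => τ i ≤ T), ν i - M T) -
        ∫ t in (0 : ℝ)..T, F' t * (∑ i ∈ S.filter (fun i => τ i ≤ t), ν i - M t) := by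
    have h1 : ∫ t in (0 : ℝ)..T, F' t * (∑ i ∈ S.filter (fun i => τ i ≤ t), ν i - M t) =
        (∫ t in (0 : ℝ)..T, F' t * ∑ i ∈ S.filter (fun i => τ i ≤ t), ν i) -
          ∫ t in (0 : ℝ)..T, F' t * M t := by
      rw [← intervalIntegral.integral_sub hA hB]
      refine intervalIntegral.integral_congr fun t _ => ?_
      exact mul_sub _ _ _
    rw [h1, hST, hsum]
    ring
  have hC : IntervalIntegrable (fun t => F' t * (∑ i ∈ S.filter (fun i => τ i ≤ t), ν i - M t))
      volume 0 T := by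
    refine (hA.sub hB).congr ?_
    intro t _
    exact (mul_sub _ _ _).symm
  rw [hkey]
  have hb1 : ‖F T * (∑ i ∈ S.filter (fun i => τ i ≤ T), ν i - M T)‖ ≤ ‖F T‖ * δ := by
    rw [norm_mul]
    exact mul_le_mul_of_nonneg_left (hδ T ⟨hT, le_rfl⟩) (norm_nonneg _)
  have hb2 : ‖∫ t in (0 : ℝ)..T, F' t * (∑ i ∈ S.filter (fun i => τ i ≤ t), ν i - M t)‖ ≤
      (∫ t in (0 : ℝ)..T, ‖F' t‖) * δ := by
    refine (intervalIntegral.norm_integral_le_integral_norm hT).trans ?_
    rw [← intervalIntegral.integral_mul_const]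
    refine intervalIntegral.integral_mono_on hT hC.norm (hN.mul_const _) ?_
    intro t ht
    rw [norm_mul]
    exact mul_le_mul_of_nonneg_left (hδ t ht) (norm_nonneg _)
  refine (norm_sub_le _ _).trans ?_
  have h3 : δ * (‖F T‖ + ∫ t in (0 : ℝ)..T, ‖F' t‖) ≤ δ * K :=
    mul_le_mul_of_nonneg_left hK hδ0
  linarith [h3, hb1, hb2, mul_add δ ‖F T‖ (∫ t in (0 : ℝ)..T, ‖F' t‖),
    mul_comm δ ‖F T‖, mul_comm δ (∫ t in (0 : ℝ)..T, ‖F' t‖)]

alias abel_sum := abel_sum_pr

end Pool.Agent.LVA
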