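import Pool.Agent.Lib_helper92.LVA.Defs
import Pool.Agent.Lib_helper92.ASA.All

/-! LVK part A, block BA: elementary facts. -/

set_option autoImplicit false

namespace Pool.Agent.LVA

open Complex MeasureTheory Filter Topology Set Pool.Agent.AS

variable {P : Type} {N : P → ℕ}

theorem ba_Npos (hN : Good N) (p : P) : (0 : ℝ) < N p := by
  have := hN.two_le p
  exact_mod_cast (by omega : 0 < N p)

theorem ba_N2 (hN : Good N) (p : P) : (2 : ℝ) ≤ N p := by
  exact_mod_cast hN.two_le p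

theorem ba_logpos (hN : Good N) (p : P) : 0 < Real.log (N p) :=
  Real.log_pos (by linarith [ba_N2 hN p])

theorem PB_fin_pr (hN : Good N) (t : ℝ) : {p : P | Real.log (N p) ≤ t}.Finite := by
  have h1 := BAS_finite hN (Real.exp t)
  have h2 : Set.InjOn (fun p : P => (Finsupp.single p 1 : P →₀ ℕ)) {p : P | Real.log (N p) ≤ t} := by
    intro p _ p' _ h
    exact (Finsupp.single_left_inj one_ne_zero).1 h
  refine Set.Finite.of_finite_image (h1.subset ?_) h2
  rintro g ⟨p, hp, rfl⟩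
  show (nm N (Finsupp.single p 1) : ℝ) ≤ Real.exp t
  rw [nm_single, pow_one]
  rw [Set.mem_ofPred_eq, Real.log_le_iff_le_exp (ba_Npos hN p)] at hp
  exact hp

theorem mem_PB_pr (hN : Good N) {t : ℝ} {p : P} : p ∈ PB N t ↔ Real.log (N p) ≤ t := by
  unfold PB
  rw [dif_pos (PB_fin_pr hN t), Set.Finite.mem_toFinset]
  rfl

theorem lg_nonneg_pr (hN : Good N) (m : Finset P) : 0 ≤ lg N m :=
  Finset.sum_nonneg fun p _ => (ba_logpos hN p).le

theorem lg_empty_pr : lg N (∅ : Finset P) = 0 := by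
  unfold lg
  rw [Finset.sum_empty]

theorem lg_mono_pr (hN : Good N) {m n : Finset P} (h : m ⊆ n) : lg N m ≤ lg N n :=
  Finset.sum_le_sum_of_subset_of_nonneg h fun p _ _ => (ba_logpos hN p).le

theorem mem_SF_pr (hN : Good N) {R : Finset P} {t : ℝ} {m : Finset P} :
    m ∈ SF N R t ↔ Disjoint m R ∧ lg N m ≤ t := by
  classical
  unfold SF
  rw [Finset.mem_filter, Finset.mem_powerset]
  refine ⟨fun h => h.2, fun h => ⟨fun p hp => ?_, h⟩⟩
  rw [mem_PB_pr hN]
  exact (Finset.single_le_sum (f := fun p => Real.log (N p)) (fun p _ => (ba_logpos hN p).le)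
    hp).trans h.2

theorem lg_union_pr [DecidableEq P] {m n : Finset P} (h : Disjoint m n) :
    lg N (m ∪ n) = lg N m + lg N n := Finset.sum_union h

theorem lg_inter_union_pr [DecidableEq P] (m n : Finset P) :
    lg N (m ∪ n) + lg N (m ∩ n) = lg N m + lg N n := Finset.sum_union_inter

theorem vf_union_pr [DecidableEq P] {m n : Finset P} (h : Disjoint m n) :
    vf N (m ∪ n) = vf N m * vf N n := Finset.prod_union h

theorem one_le_vf_pr (hN : Good N) (m : Finset P) : 1 ≤ vf N m := by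
  unfold vf
  refine Finset.prod_induction _ (fun x => 1 ≤ x) (fun a b ha hb => ?_) le_rfl (fun p _ => ?_)
  · nlinarith
  · linarith [ba_N2 hN p]

theorem vf_eq_pr (hN : Good N) (m : Finset P) : vf N m = Real.exp (lg N m) * ph N m := by
  unfold vf lg ph
  rw [Real.exp_sum, ← Finset.prod_mul_distrib]
  refine Finset.prod_congr rfl fun p _ => ?_
  have h := ba_Npos hN p
  rw [Real.exp_log h]
  field_simp

theorem ph_pos_pr (hN : Good N) (m : Finset P) : 0 < ph N m := by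
  refine Finset.prod_pos fun p _ => ?_
  have h := ba_N2 hN p
  have : ((N p : ℝ))⁻¹ ≤ 2⁻¹ := inv_anti₀ (by norm_num) h
  linarith

theorem ph_le_one_pr (hN : Good N) (m : Finset P) : ph N m ≤ 1 := by
  refine Finset.prod_le_one (fun p _ => ?_) (fun p _ => ?_)
  · have h := ba_N2 hN p
    have : ((N p : ℝ))⁻¹ ≤ 2⁻¹ := inv_anti₀ (by norm_num) h
    linarith
  · have := ba_Npos hN p
    have : 0 ≤ ((N p : ℝ))⁻¹ := by positivity
    linarith

theorem ph_union_pr [DecidableEq P] {m n : Finset P} (h : Disjoint m n) :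
    ph N (m ∪ n) = ph N m * ph N n := Finset.prod_union h

theorem SF_neg_pr (hN : Good N) (R : Finset P) {t : ℝ} (ht : t < 0) : SF N R t = ∅ := by
  rw [Finset.eq_empty_iff_forall_notMem]
  intro m hm
  rw [mem_SF_pr hN] at hm
  linarith [lg_nonneg_pr hN m, hm.2]

theorem SF_sub_pr (hN : Good N) {R m n : Finset P} {t : ℝ} (hm : m ∈ SF N R t) (h : n ⊆ m) :
    n ∈ SF N R t := by
  rw [mem_SF_pr hN] at hm ⊢
  exact ⟨hm.1.mono_left h, (lg_mono_pr hN h).trans hm.2⟩

theorem empty_mem_pr (hN : Good N) (R : Finset P) {t : ℝ} (ht : 0 ≤ t) : ∅ ∈ SF N R t := by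
  rw [mem_SF_pr hN]
  refine ⟨Finset.disjoint_empty_left R, ?_⟩
  rwa [lg_empty_pr]

theorem wt_bounds_pr {b x : ℝ} (hb : |b| ≤ 1 / 2) (h0 : 0 ≤ x) (h1 : x ≤ 1) :
    1 / 2 ≤ wt b x ∧ wt b x ≤ 3 / 2 := by
  unfold wt
  have h2 : |1 - 2 * x| ≤ 1 := abs_le.2 ⟨by linarith, by linarith⟩
  have h3 : |b * (1 - 2 * x)| ≤ 1 / 2 := by
    rw [abs_mul]
    calc |b| * |1 - 2 * x| ≤ 1 / 2 * 1 := mul_le_mul hb h2 (abs_nonneg _) (by norm_num)
      _ = 1 / 2 := mul_one _
  have h4 := abs_le.1 h3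
  constructor <;> linarith

theorem Pt_bounds_pr {b x : ℝ} (hb : |b| ≤ 1 / 2) (h0 : 0 ≤ x) (h1 : x ≤ 1) :
    0 ≤ Pt b x ∧ Pt b x ≤ 3 / 2 := by
  unfold Pt
  have h2 := abs_le.1 hb
  have h3 : 0 ≤ x * (1 - x) := mul_nonneg h0 (by linarith)
  have h4 : x * (1 - x) ≤ x := by nlinarith
  constructor <;> nlinarith

theorem Pt_deriv_pr (b x : ℝ) : HasDerivAt (Pt b) (wt b x) x := by
  unfold wt
  have h1 : HasDerivAt (fun x : ℝ => x + b * x * (1 - x)) (1 + (b * 1 * (1 - x) + b * x * (0 - 1))) x :=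
    (hasDerivAt_id x).add ((((hasDerivAt_id x).const_mul b)).mul
      ((hasDerivAt_const x (1 : ℝ)).sub (hasDerivAt_id x)))
  have h2 : (1 + (b * 1 * (1 - x) + b * x * (0 - 1)) : ℝ) = 1 + b * (1 - 2 * x) := by ring
  rw [h2] at h1
  exact h1

alias PB_fin := PB_fin_pr
alias mem_PB := mem_PB_pr
alias mem_SF := mem_SF_pr
alias lg_nonneg := lg_nonneg_pr
alias lg_empty := lg_empty_pr
alias lg_mono := lg_mono_pr
alias lg_union := lg_union_pr
alias lg_inter_union := lg_inter_union_pr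
alias vf_union := vf_union_pr
alias one_le_vf := one_le_vf_pr
alias vf_eq := vf_eq_pr
alias ph_pos := ph_pos_pr
alias ph_le_one := ph_le_one_pr
alias ph_union := ph_union_pr
alias SF_neg := SF_neg_pr
alias SF_sub := SF_sub_pr
alias empty_mem := empty_mem_pr
alias wt_bounds := wt_bounds_pr
alias Pt_bounds := Pt_bounds_pr
alias Pt_deriv := Pt_deriv_pr

end Pool.Agent.LVA
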