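import Pool.Agent.Lib_helper92.LVA.Defs
import Pool.Agent.Lib_helper92.ASA.All
import Pool.Agent.Lib_helper92.LVAF.BA

/-!
# Project LVK, part A, block BB: products over a finite set of primes
-/

namespace Pool.Agent.LVA

open Complex MeasureTheory Filter Topology Set Pool.Agent.AS

variable {P : Type} {N : P → ℕ}

theorem bb_N (hN : Good N) (p : P) : (2 : ℝ) ≤ (N p : ℝ) := by exact_mod_cast hN.two_le p

theorem bb_log (hN : Good N) (p : P) : 0 ≤ Real.log (N p) :=
  Real.log_nonneg (by linarith [bb_N hN p])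

theorem small_prod_pr (hN : Good N) (f : P → ℝ) (B : ℝ) (h0 : ∀ p, 0 ≤ f p) (hB : ∀ p, f p ≤ B)
    {ε : ℝ} (hε : 0 < ε) :
    ∃ C : ℝ, 1 ≤ C ∧ ∀ R : Finset P, ∏ p ∈ R, (1 + f p) ≤ C * Real.exp (ε * lg N R) := by
  classical
  set B' : ℝ := max B 0 with hB'
  have hB0 : 0 ≤ B' := le_max_right _ _
  have hfB : ∀ p, f p ≤ B' := fun p => le_trans (hB p) (le_max_left _ _)
  set t0 : ℝ := Real.log (1 + B') / ε with ht0
  have hpos : 0 < 1 + B' := by linarith
  have h1 : (1 : ℝ) ≤ (1 + B') ^ (PB N t0).card := one_le_pow₀ (by linarith)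
  refine ⟨(1 + B') ^ (PB N t0).card, h1, fun R => ?_⟩
  have hpt : ∀ p ∈ R, 1 + f p ≤ (if p ∈ PB N t0 then 1 + B' else 1) *
      Real.exp (ε * Real.log (N p)) := by
    intro p _
    have hl := bb_log hN p
    by_cases hp : p ∈ PB N t0
    · rw [if_pos hp]
      have he : 1 ≤ Real.exp (ε * Real.log (N p)) := Real.one_le_exp (by positivity)
      have := hfB p
      nlinarith
    · rw [if_neg hp, one_mul]
      rw [mem_PB hN] at hp
      push Not at hp
      rw [ht0, div_lt_iff₀ hε] at hp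
      calc 1 + f p ≤ 1 + B' := by linarith [hfB p]
        _ = Real.exp (Real.log (1 + B')) := (Real.exp_log hpos).symm
        _ ≤ Real.exp (ε * Real.log (N p)) := Real.exp_le_exp.2 (by linarith)
  calc ∏ p ∈ R, (1 + f p) ≤ ∏ p ∈ R, ((if p ∈ PB N t0 then 1 + B' else 1) *
        Real.exp (ε * Real.log (N p))) :=
        Finset.prod_le_prod (fun p _ => by linarith [h0 p]) hpt
    _ = (∏ p ∈ R, (if p ∈ PB N t0 then 1 + B' else 1)) * Real.exp (ε * lg N R) := by
        rw [Finset.prod_mul_distrib, ← Real.exp_sum, lg, Finset.mul_sum]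
    _ ≤ (1 + B') ^ (PB N t0).card * Real.exp (ε * lg N R) := by
        refine mul_le_mul_of_nonneg_right ?_ (Real.exp_pos _).le
        rw [← Finset.prod_filter, Finset.prod_const]
        refine pow_le_pow_right₀ (by linarith) (Finset.card_le_card ?_)
        intro p hp
        exact (Finset.mem_filter.1 hp).2

theorem small_sum_pr (hN : Good N) {ε : ℝ} (hε : 0 < ε) : ∃ C : ℝ, 0 ≤ C ∧ ∀ R : Finset P,
    ∑ p ∈ R, Real.log (N p) / ((N p : ℝ) - 1) ≤ ε * lg N R + C := by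
  classical
  set F : Finset P := PB N (Real.log (1 + 1 / ε)) with hF
  have ha : ∀ p, 0 ≤ Real.log (N p) / ((N p : ℝ) - 1) := fun p =>
    div_nonneg (bb_log hN p) (by linarith [bb_N hN p])
  refine ⟨∑ p ∈ F, Real.log (N p) / ((N p : ℝ) - 1), Finset.sum_nonneg fun p _ => ha p,
    fun R => ?_⟩
  have hpt : ∀ p ∈ R, Real.log (N p) / ((N p : ℝ) - 1) ≤ ε * Real.log (N p) +
      (if p ∈ F then Real.log (N p) / ((N p : ℝ) - 1) else 0) := by
    intro p _
    have hl := bb_log hN p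
    by_cases hp : p ∈ F
    · rw [if_pos hp]
      have : 0 ≤ ε * Real.log (N p) := by positivity
      linarith
    · rw [if_neg hp, add_zero]
      rw [hF, mem_PB hN] at hp
      push Not at hp
      have hNp : 0 < (N p : ℝ) := by linarith [bb_N hN p]
      have h1 : 1 + 1 / ε < (N p : ℝ) := (Real.log_lt_log_iff (by positivity) hNp).1 hp
      have h2 : 0 < (N p : ℝ) - 1 := by linarith [bb_N hN p]
      rw [div_le_iff₀ h2]
      have h3 : 1 ≤ ε * ((N p : ℝ) - 1) := by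
        have : ε * (1 / ε) = 1 := by field_simp
        nlinarith
      nlinarith
  calc ∑ p ∈ R, Real.log (N p) / ((N p : ℝ) - 1) ≤ ∑ p ∈ R, (ε * Real.log (N p) +
      (if p ∈ F then Real.log (N p) / ((N p : ℝ) - 1) else 0)) := Finset.sum_le_sum hpt
    _ = ε * lg N R + ∑ p ∈ R.filter (fun p => p ∈ F), Real.log (N p) / ((N p : ℝ) - 1) := by
        rw [Finset.sum_add_distrib, lg, Finset.mul_sum, Finset.sum_filter]
    _ ≤ ε * lg N R + ∑ p ∈ F, Real.log (N p) / ((N p : ℝ) - 1) := by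
        have : ∑ p ∈ R.filter (fun p => p ∈ F), Real.log (N p) / ((N p : ℝ) - 1) ≤
            ∑ p ∈ F, Real.log (N p) / ((N p : ℝ) - 1) :=
          Finset.sum_le_sum_of_subset_of_nonneg (fun p hp => (Finset.mem_filter.1 hp).2)
            (fun p _ _ => ha p)
        linarith

theorem two_pow_pr (hN : Good N) {ε : ℝ} (hε : 0 < ε) : ∃ C : ℝ, 1 ≤ C ∧ ∀ R : Finset P,
    (2 : ℝ) ^ R.card ≤ C * Real.exp (ε * lg N R) := by
  obtain ⟨C, hC, H⟩ := small_prod_pr hN (fun _ => 1) 1 (fun _ => zero_le_one) (fun _ => le_rfl) hε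
  refine ⟨C, hC, fun R => ?_⟩
  have h := H R
  rw [Finset.prod_const] at h
  norm_num at h
  exact h

theorem bb_inv (hN : Good N) (p : P) : (1 - ((N p : ℝ))⁻¹)⁻¹ = 1 + ((N p : ℝ) - 1)⁻¹ := by
  have h := bb_N hN p
  have h1 : (N p : ℝ) ≠ 0 := by linarith
  have h2 : (N p : ℝ) - 1 ≠ 0 := by linarith
  have h3 : 1 - ((N p : ℝ))⁻¹ ≠ 0 := by
    have : 1 - ((N p : ℝ))⁻¹ = ((N p : ℝ) - 1) / N p := by field_simp
    rw [this]
    exact div_ne_zero h2 h1
  rw [inv_eq_iff_eq_inv, eq_comm, inv_eq_iff_eq_inv, eq_comm]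
  field_simp
  ring

theorem inv_ph_pr (hN : Good N) {ε : ℝ} (hε : 0 < ε) : ∃ C : ℝ, 1 ≤ C ∧ ∀ R : Finset P,
    (ph N R)⁻¹ ≤ C * Real.exp (ε * lg N R) := by
  obtain ⟨C, hC, H⟩ := small_prod_pr hN (fun p => ((N p : ℝ) - 1)⁻¹) 1
    (fun p => inv_nonneg.2 (by linarith [bb_N hN p]))
    (fun p => inv_le_one_of_one_le₀ (by linarith [bb_N hN p])) hε
  refine ⟨C, hC, fun R => ?_⟩
  have h := H R
  rw [ph, ← Finset.prod_inv_distrib]
  simp only [bb_inv hN]
  exact h

theorem sum_vf_inv_pr (hN : Good N) (R : Finset P) :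
    ∑ l ∈ R.powerset, (vf N l)⁻¹ = (ph N R)⁻¹ := by
  classical
  rw [ph, ← Finset.prod_inv_distrib]
  simp only [bb_inv hN]
  rw [Finset.prod_one_add]
  refine Finset.sum_congr rfl fun l _ => ?_
  rw [vf, Finset.prod_inv_distrib]

open scoped Classical in
theorem tail_R_pr (hN : Good N) {ε : ℝ} (hε : 0 < ε) : ∃ C : ℝ, 1 ≤ C ∧ ∀ (R : Finset P) (ω : ℝ),
    ∑ l ∈ R.powerset.filter (fun l => ω < lg N l), (vf N l)⁻¹ ≤
      C * Real.exp (ε * lg N R - ω / 2) := by
  set f : P → ℝ := fun p => Real.exp (Real.log (N p) / 2) * ((N p : ℝ) - 1)⁻¹ with hf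
  have hsq : ∀ p, Real.exp (Real.log (N p) / 2) ≤ (N p : ℝ) := by
    intro p
    have h := bb_N hN p
    have hl := bb_log hN p
    calc Real.exp (Real.log (N p) / 2) ≤ Real.exp (Real.log (N p)) :=
          Real.exp_le_exp.2 (by linarith)
      _ = N p := Real.exp_log (by linarith)
  have hf0 : ∀ p, 0 ≤ f p := fun p =>
    mul_nonneg (Real.exp_pos _).le (inv_nonneg.2 (by linarith [bb_N hN p]))
  have hf2 : ∀ p, f p ≤ 2 := by
    intro p
    have h := bb_N hN p
    have h2 : 0 < (N p : ℝ) - 1 := by linarith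
    rw [hf]
    simp only
    rw [mul_inv_le_iff₀ h2]
    have := hsq p
    linarith
  obtain ⟨C, hC, H⟩ := small_prod_pr hN f 2 hf0 hf2 hε
  refine ⟨C, hC, fun R ω => ?_⟩
  have hvf : ∀ l : Finset P, 0 ≤ (vf N l)⁻¹ := by
    intro l
    rw [vf]
    exact inv_nonneg.2 (Finset.prod_nonneg fun p _ => by linarith [bb_N hN p])
  have hterm : ∀ l : Finset P, Real.exp (lg N l / 2) * (vf N l)⁻¹ = ∏ p ∈ l, f p := by
    intro l
    rw [hf]
    simp only
    rw [Finset.prod_mul_distrib, ← Real.exp_sum, Finset.prod_inv_distrib, vf, lg, Finset.sum_div]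
  calc ∑ l ∈ R.powerset.filter (fun l => ω < lg N l), (vf N l)⁻¹
      ≤ ∑ l ∈ R.powerset.filter (fun l => ω < lg N l),
          Real.exp (-(ω / 2)) * (Real.exp (lg N l / 2) * (vf N l)⁻¹) := by
        refine Finset.sum_le_sum fun l hl => ?_
        have hlt := (Finset.mem_filter.1 hl).2
        rw [← mul_assoc, ← Real.exp_add]
        have h1 : 1 ≤ Real.exp (-(ω / 2) + lg N l / 2) := Real.one_le_exp (by linarith)
        calc (vf N l)⁻¹ = 1 * (vf N l)⁻¹ := (one_mul _).symm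
          _ ≤ _ := mul_le_mul_of_nonneg_right h1 (hvf l)
    _ ≤ ∑ l ∈ R.powerset, Real.exp (-(ω / 2)) * (Real.exp (lg N l / 2) * (vf N l)⁻¹) := by
        refine Finset.sum_le_sum_of_subset_of_nonneg (Finset.filter_subset _ _) fun l _ _ => ?_
        exact mul_nonneg (Real.exp_pos _).le (mul_nonneg (Real.exp_pos _).le (hvf l))
    _ = Real.exp (-(ω / 2)) * ∏ p ∈ R, (1 + f p) := by
        rw [← Finset.mul_sum, Finset.prod_one_add]
        congr 1
        exact Finset.sum_congr rfl fun l _ => hterm l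
    _ ≤ Real.exp (-(ω / 2)) * (C * Real.exp (ε * lg N R)) :=
        mul_le_mul_of_nonneg_left (H R) (Real.exp_pos _).le
    _ = C * Real.exp (ε * lg N R - ω / 2) := by
        rw [sub_eq_add_neg, Real.exp_add]
        ring

alias small_prod := small_prod_pr
alias small_sum := small_sum_pr
alias two_pow := two_pow_pr
alias inv_ph := inv_ph_pr
alias tail_R := tail_R_pr
alias sum_vf_inv := sum_vf_inv_pr

end Pool.Agent.LVA
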