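import Pool.Agent.Lib_helper92.LVA.Defs
import Pool.Agent.Lib_helper92.ASA.All

/-!
# Project LVK, part A, block FI: the sum over the elements with given support
-/

namespace Pool.Agent.LVA

open Complex MeasureTheory Filter Topology Set Pool.Agent.AS

variable {P : Type} {N : P → ℕ}

open scoped Classical in
/-- the term of the sum -/
noncomputable def fi_F (f : P → ℕ → ℝ) (e : Finset P) (g : P →₀ ℕ) : ℝ :=
  if g.support = e then ∏ p ∈ e, f p (g p) else 0

/-- the map which adds the component at `p` -/
noncomputable def fi_i (p : P) (x : ℕ × {g : P →₀ ℕ // g p = 0}) : P →₀ ℕ :=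
  Finsupp.single p (x.1 + 1) + x.2.1

theorem fi_i_p (p : P) (x : ℕ × {g : P →₀ ℕ // g p = 0}) : fi_i p x p = x.1 + 1 := by
  unfold fi_i
  rw [Finsupp.add_apply, Finsupp.single_eq_same, x.2.2, add_zero]

theorem fi_i_ne {p q : P} (h : q ≠ p) (x : ℕ × {g : P →₀ ℕ // g p = 0}) :
    fi_i p x q = x.2.1 q := by
  unfold fi_i
  rw [Finsupp.add_apply, Finsupp.single_eq_of_ne h, zero_add]

theorem fi_i_inj (p : P) : Function.Injective (fi_i p) := by
  rintro ⟨k, g, hg⟩ ⟨k', g', hg'⟩ h
  have h1 : k = k' := by
    have := DFunLike.congr_fun h p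
    rw [fi_i_p, fi_i_p] at this
    exact Nat.succ_injective this
  subst h1
  have h2 : g = g' := by
    unfold fi_i at h
    exact add_left_cancel h
  subst h2
  rfl

theorem fi_supp [DecidableEq P] {p : P} {e : Finset P} (hp : p ∉ e)
    (x : ℕ × {g : P →₀ ℕ // g p = 0}) :
    (fi_i p x).support = insert p e ↔ x.2.1.support = e := by
  have hp' : p ∉ x.2.1.support := by
    rw [Finsupp.notMem_support_iff]
    exact x.2.2
  have h1 : (fi_i p x).support = insert p x.2.1.support := by
    ext q
    rw [Finsupp.mem_support_iff, Finset.mem_insert, Finsupp.mem_support_iff]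
    by_cases hq : q = p
    · subst hq
      rw [fi_i_p]
      simp
    · rw [fi_i_ne hq]
      simp [hq]
  rw [h1]
  constructor
  · intro h
    have := congrArg (fun s => s.erase p) h
    simpa [Finset.erase_insert hp, Finset.erase_insert hp'] using this
  · intro h
    rw [h]

theorem fi_step [DecidableEq P] (f : P → ℕ → ℝ) {p : P} {e : Finset P} (hp : p ∉ e)
    (x : ℕ × {g : P →₀ ℕ // g p = 0}) :
    fi_F f (insert p e) (fi_i p x) = f p (x.1 + 1) * fi_F f e x.2.1 := by
  unfold fi_F
  by_cases hx : x.2.1.support = e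
  · rw [if_pos ((fi_supp hp x).2 hx), if_pos hx, Finset.prod_insert hp, fi_i_p]
    congr 1
    refine Finset.prod_congr rfl fun q hq => ?_
    rw [fi_i_ne (by
      rintro rfl
      exact hp hq)]
  · rw [if_neg (fun h' => hx ((fi_supp hp x).1 h')), if_neg hx, mul_zero]

theorem fi_mul {X Y : Type*} {a : X → ℝ} {c : Y → ℝ} {s t : ℝ} (ha : HasSum a s) (hc : HasSum c t)
    (ha0 : ∀ x, 0 ≤ a x) (hc0 : ∀ y, 0 ≤ c y) :
    HasSum (fun x : X × Y => a x.1 * c x.2) (s * t) :=
  ha.mul hc (ha.summable.mul_of_nonneg hc.summable ha0 hc0)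

theorem fi_main (f : P → ℕ → ℝ) (σ : P → ℝ) (hf : ∀ p k, 0 ≤ f p k) (e : Finset P)
    (h : ∀ p ∈ e, HasSum (fun k : ℕ => f p (k + 1)) (σ p)) :
    HasSum (fi_F f e) (∏ p ∈ e, σ p) := by
  classical
  induction e using Finset.induction_on with
  | empty =>
    rw [Finset.prod_empty]
    have h1 : fi_F f ∅ = fun g => if g = 0 then (1 : ℝ) else 0 := by
      funext g
      unfold fi_F
      rw [Finset.prod_empty]
      simp only [Finsupp.support_eq_empty]
    rw [h1]
    exact hasSum_ite_eq 0 1
  | insert p e hp ih =>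
    have ih' := ih (fun q hq => h q (Finset.mem_insert_of_mem hq))
    have hp' := h p (Finset.mem_insert_self p e)
    -- restriction to the elements which are not divisible by p
    have hsub : Function.support (fi_F f e) ⊆ {g : P →₀ ℕ | g p = 0} := by
      intro g hg
      by_contra hcon
      apply hg
      unfold fi_F
      rw [if_neg]
      intro h2
      apply hp
      rw [← h2, Finsupp.mem_support_iff]
      exact hcon
    have h1' := (hasSum_subtype_iff_of_support_subset hsub).2 ih'
    have h1 : HasSum (fun g : {g : P →₀ ℕ // g p = 0} => fi_F f e g.1) (∏ q ∈ e, σ q) := h1'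
    have h0 : ∀ g : {g : P →₀ ℕ // g p = 0}, 0 ≤ fi_F f e g.1 := by
      intro g
      unfold fi_F
      split_ifs
      · exact Finset.prod_nonneg fun q _ => hf _ _
      · exact le_rfl
    have h3 := fi_mul hp' h1 (fun k => hf p (k + 1)) h0
    rw [Finset.prod_insert hp, ← (fi_i_inj p).hasSum_iff]
    · have e1 : fi_F f (insert p e) ∘ fi_i p = fun x : ℕ × {g : P →₀ ℕ // g p = 0} =>
          f p (x.1 + 1) * fi_F f e x.2.1 := by
        funext x
        rw [Function.comp_apply]
        exact fi_step f hp x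
      rw [e1]
      exact h3
    · intro g hg
      unfold fi_F
      rw [if_neg]
      intro hs
      apply hg
      have hgp : g p ≠ 0 := by
        rw [← Finsupp.mem_support_iff, hs]
        exact Finset.mem_insert_self p e
      refine ⟨(g p - 1, ⟨g.erase p, Finsupp.erase_same⟩), ?_⟩
      unfold fi_i
      simp only
      rw [Nat.sub_add_cancel (Nat.one_le_iff_ne_zero.2 hgp)]
      exact Finsupp.single_add_erase p g

open scoped Classical in
theorem fiber_sum_pr (f : P → ℕ → ℝ) (σ : P → ℝ) (hf : ∀ p k, 0 ≤ f p k) (e : Finset P)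
    (h : ∀ p ∈ e, HasSum (fun k : ℕ => f p (k + 1)) (σ p)) :
    HasSum (fun g : P →₀ ℕ => if g.support = e then ∏ p ∈ e, f p (g p) else 0)
      (∏ p ∈ e, σ p) := fi_main f σ hf e h


alias fiber_sum := fiber_sum_pr

end Pool.Agent.LVA
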