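import Pool.Agent.Lib_helper92.LVA.Defs
import Pool.Agent.Lib_helper92.ASA.All
import Pool.Agent.Lib_helper92.LVAF.BA

/-!
# Project LVK, part A, block CN: consequences of the density
-/

namespace Pool.Agent.LVA

open Complex MeasureTheory Filter Topology Set Pool.Agent.AS

variable {P : Type} {N : P → ℕ}

theorem cn_card (hN : Good N) {ρ : ℝ} (hC : Cnt N ρ) {δ : ℝ} (hδ : 0 < δ) :
    ∃ C : ℝ, 0 ≤ C ∧ ∀ v : ℝ,
      |((ball N (Real.exp v)).card : ℝ) - ρ * Real.exp v| ≤ δ * Real.exp v + C := by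
  obtain ⟨hρ, hlim⟩ := hC
  obtain ⟨x0, hx0⟩ := Metric.tendsto_atTop.1 hlim δ hδ
  obtain ⟨x1, hx1⟩ : ∃ x1 : ℝ, x1 = max x0 1 := ⟨_, rfl⟩
  have h1 : 1 ≤ x1 := by rw [hx1]; exact le_max_right _ _
  have h0 : x0 ≤ x1 := by rw [hx1]; exact le_max_left _ _
  have hC0 : 0 ≤ ((ball N x1).card : ℝ) + ρ * x1 := by positivity
  refine ⟨((ball N x1).card : ℝ) + ρ * x1, hC0, ?_⟩
  intro v
  have hv : 0 < Real.exp v := Real.exp_pos v
  rcases le_total x1 (Real.exp v) with h | h
  · have h2 := hx0 (Real.exp v) (h0.trans h)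
    rw [Real.dist_eq] at h2
    have h3 : ((ball N (Real.exp v)).card : ℝ) - ρ * Real.exp v =
        (((ball N (Real.exp v)).card : ℝ) / Real.exp v - ρ) * Real.exp v := by
      field_simp
    rw [h3, abs_mul, abs_of_pos hv]
    have h4 := mul_le_mul_of_nonneg_right h2.le hv.le
    linarith
  · have h2 : ((ball N (Real.exp v)).card : ℝ) ≤ (ball N x1).card := by
      have : ball N (Real.exp v) ⊆ ball N x1 := by
        intro g hg
        rw [mem_ball hN] at hg ⊢
        exact hg.trans h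
      exact_mod_cast Finset.card_le_card this
    have h3 : ρ * Real.exp v ≤ ρ * x1 := mul_le_mul_of_nonneg_left h hρ.le
    have h4 : (0 : ℝ) ≤ ((ball N (Real.exp v)).card : ℝ) := by positivity
    have h5 : (0 : ℝ) ≤ ρ * Real.exp v := by positivity
    have h6 : 0 ≤ δ * Real.exp v := by positivity
    rw [abs_le]
    constructor <;> linarith

theorem ball_le_pr (hN : Good N) {ρ : ℝ} (hC : Cnt N ρ) : ∃ C : ℝ, 1 ≤ C ∧ ∀ t : ℝ, 0 ≤ t →
    ((ball N (Real.exp t)).card : ℝ) ≤ C * Real.exp t := by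
  obtain ⟨C, hC0, h⟩ := cn_card hN hC one_pos
  have hρ := hC.1
  refine ⟨ρ + 1 + C, by linarith, fun t ht => ?_⟩
  have h1 := (abs_le.1 (h t)).2
  have h2 : 1 ≤ Real.exp t := Real.one_le_exp ht
  have h3 : C * 1 ≤ C * Real.exp t := mul_le_mul_of_nonneg_left h2 hC0
  nlinarith

/-- the square free elements as elements of the semigroup -/
theorem cn_inj : Function.Injective (fun m : Finset P => ∑ p ∈ m, Finsupp.single p (1 : ℕ)) := by
  classical
  have h : ∀ m : Finset P, (∑ p ∈ m, Finsupp.single p (1 : ℕ)).support = m := by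
    intro m
    ext q
    rw [Finsupp.mem_support_iff, Finsupp.finsetSum_apply]
    simp only [Finsupp.single_apply]
    rw [Finset.sum_ite_eq' m q (fun _ => 1)]
    by_cases hq : q ∈ m <;> simp [hq]
  intro m m' hm
  rw [← h m, ← h m']
  exact congrArg Finsupp.support hm

theorem cn_nm (hN : Good N) (m : Finset P) :
    (nm N (∑ p ∈ m, Finsupp.single p (1 : ℕ)) : ℝ) = Real.exp (lg N m) := by
  classical
  induction m using Finset.induction_on with
  | empty =>
    rw [Finset.sum_empty, nm_zero]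
    simp [lg]
  | insert p m hp ih =>
    rw [Finset.sum_insert hp, nm_add, nm_single, pow_one]
    push_cast
    rw [ih]
    have h1 : lg N (insert p m) = Real.log (N p) + lg N m := by
      unfold lg
      rw [Finset.sum_insert hp]
    have h2 : (0 : ℝ) < N p := by
      have := hN.two_le p
      exact_mod_cast (by omega : 0 < N p)
    rw [h1, Real.exp_add, Real.exp_log h2]

theorem card_SF_pr (hN : Good N) {ρ : ℝ} (hC : Cnt N ρ) : ∃ C : ℝ, 1 ≤ C ∧ ∀ (R : Finset P)
    (t : ℝ), 0 ≤ t → ((SF N R t).card : ℝ) ≤ C * Real.exp t := by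
  obtain ⟨C, hC1, h⟩ := ball_le_pr hN hC
  refine ⟨C, hC1, fun R t ht => le_trans ?_ (h t ht)⟩
  have h1 : (SF N R t).card ≤ (ball N (Real.exp t)).card := by
    apply Finset.card_le_card_of_injOn (fun m : Finset P => ∑ p ∈ m, Finsupp.single p (1 : ℕ))
    · intro m hm
      have hm' := (mem_SF hN).1 (Finset.mem_coe.1 hm)
      rw [Finset.mem_coe, mem_ball hN, cn_nm hN]
      exact Real.exp_le_exp.2 hm'.2
    · exact cn_inj.injOn
  exact_mod_cast h1


alias ball_le := ball_le_pr
alias card_SF := card_SF_pr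

end Pool.Agent.LVA
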