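import Pool.Agent.Lib_helper92.LVA.Defs
import Pool.Agent.Lib_helper92.ASA.All
import Pool.Agent.Lib_helper92.LVAF.CN

/-!
# Project LVK, part A, block LS: the sum of the logarithms
-/

namespace Pool.Agent.LVA

open Complex MeasureTheory Filter Topology Set Pool.Agent.AS

variable {P : Type} {N : P → ℕ}

theorem log_sum_pr (hN : Good N) {ρ : ℝ} (hC : Cnt N ρ) {ε : ℝ} (hε : 0 < ε) :
    ∃ C : ℝ, 0 ≤ C ∧ ∀ t : ℝ, 0 ≤ t →
      |∑ g ∈ ball N (Real.exp t), Real.log (nm N g) - ρ * t * Real.exp t| ≤
        (ε * t + C) * Real.exp t := by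
  have hρ := hC.1
  -- the parameters
  obtain ⟨δ, hδ⟩ : ∃ δ, δ = ε / (ρ + 3) := ⟨_, rfl⟩
  have hδ0 : 0 < δ := by rw [hδ]; positivity
  have hδε : δ * (ρ + 3) = ε := by rw [hδ]; field_simp
  obtain ⟨τ, hτ0, hτ⟩ : ∃ τ : ℝ, 0 ≤ τ ∧ Real.exp (-τ) ≤ min δ 1 := by
    have hm : 0 < min δ 1 := lt_min hδ0 one_pos
    refine ⟨max 0 (-Real.log (min δ 1)), le_max_left _ _, ?_⟩
    rw [← Real.exp_log hm]
    apply Real.exp_le_exp.2
    have := le_max_right 0 (-Real.log (min δ 1))
    rw [Real.exp_log hm]
    linarith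
  have hτ1 : Real.exp (-τ) ≤ δ := hτ.trans (min_le_left _ _)
  have hτ2 : Real.exp (-τ) ≤ 1 := hτ.trans (min_le_right _ _)
  obtain ⟨C, hC0, h⟩ := cn_card hN hC hδ0
  refine ⟨2 * C + ρ * τ + ρ, by positivity, fun t ht => ?_⟩
  have het : 1 ≤ Real.exp t := Real.one_le_exp ht
  have hte : t ≤ Real.exp t := by linarith [Real.add_one_le_exp t]
  have hCt : C * t ≤ C * Real.exp t := mul_le_mul_of_nonneg_left hte hC0
  have hlog0 : ∀ g, 0 ≤ Real.log (nm N g) := fun g => Real.log_nonneg (by
    have := nm_pos hN.two_le g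
    exact_mod_cast (by omega : 1 ≤ nm N g))
  have hlogt : ∀ g ∈ ball N (Real.exp t), Real.log (nm N g) ≤ t := by
    intro g hg
    have h1 := (mem_ball hN).1 hg
    have h2 : (0 : ℝ) < nm N g := by
      have := nm_pos hN.two_le g
      exact_mod_cast this
    exact (Real.log_le_iff_le_exp h2).2 h1
  rw [abs_le]
  constructor
  · -- the lower bound
    rcases le_total t τ with htτ | htτ
    · have h1 : 0 ≤ ∑ g ∈ ball N (Real.exp t), Real.log (nm N g) :=
        Finset.sum_nonneg fun g _ => hlog0 g
      have h2 : ρ * t * Real.exp t ≤ ρ * τ * Real.exp t := by gcongr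
      have h3 : 0 ≤ (ε * t + 2 * C + ρ) * Real.exp t := by positivity
      nlinarith
    · have hsub : ball N (Real.exp (t - τ)) ⊆ ball N (Real.exp t) := by
        intro g hg
        rw [mem_ball hN] at hg ⊢
        exact hg.trans (Real.exp_le_exp.2 (by linarith))
      classical
      have h1 : (t - τ) * (((ball N (Real.exp t)).card : ℝ) - (ball N (Real.exp (t - τ))).card) ≤
          ∑ g ∈ ball N (Real.exp t), Real.log (nm N g) := by
        have h2 : ∑ g ∈ ball N (Real.exp t) \ ball N (Real.exp (t - τ)), (t - τ) ≤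
            ∑ g ∈ ball N (Real.exp t) \ ball N (Real.exp (t - τ)), Real.log (nm N g) := by
          apply Finset.sum_le_sum
          intro g hg
          rw [Finset.mem_sdiff, mem_ball hN, mem_ball hN, not_le] at hg
          have h3 : (0 : ℝ) < nm N g := (Real.exp_pos _).trans hg.2
          exact (Real.le_log_iff_exp_le h3).2 hg.2.le
        have h3 : ∑ g ∈ ball N (Real.exp t) \ ball N (Real.exp (t - τ)), Real.log (nm N g) ≤
            ∑ g ∈ ball N (Real.exp t), Real.log (nm N g) :=
          Finset.sum_le_sum_of_subset_of_nonneg Finset.sdiff_subset fun g _ _ => hlog0 g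
        refine le_trans (le_of_eq ?_) (h2.trans h3)
        rw [Finset.sum_const, nsmul_eq_mul, Finset.card_sdiff_of_subset hsub,
          Nat.cast_sub (Finset.card_le_card hsub)]
        ring
      have h4 := (abs_le.1 (h t)).1
      have h5 := (abs_le.1 (h (t - τ))).2
      have h6 : Real.exp (t - τ) = Real.exp t * Real.exp (-τ) := by
        rw [← Real.exp_add]; rfl
      have h7 : Real.exp (t - τ) ≤ δ * Real.exp t := by
        rw [h6]; nlinarith
      have h8 : Real.exp (t - τ) ≤ Real.exp t := Real.exp_le_exp.2 (by linarith)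
      -- the difference of the cardinalities
      have h9 : ρ * Real.exp t - (ρ * δ + 2 * δ) * Real.exp t - 2 * C ≤
          ((ball N (Real.exp t)).card : ℝ) - (ball N (Real.exp (t - τ))).card := by
        have a1 : ρ * Real.exp (t - τ) ≤ ρ * (δ * Real.exp t) :=
          mul_le_mul_of_nonneg_left h7 hρ.le
        have a2 : δ * Real.exp (t - τ) ≤ δ * Real.exp t := mul_le_mul_of_nonneg_left h8 hδ0.le
        nlinarith
      have h10 := mul_le_mul_of_nonneg_left h9 (show 0 ≤ t - τ by linarith)
      have h11 := h10.trans h1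
      -- expand
      have h12 : (t - τ) * (ρ * Real.exp t) = ρ * t * Real.exp t - ρ * τ * Real.exp t := by ring
      have h13 : (t - τ) * ((ρ * δ + 2 * δ) * Real.exp t) ≤ ε * t * Real.exp t := by
        have a1 : ρ * δ + 2 * δ ≤ ε := by nlinarith
        have a2 : (t - τ) * ((ρ * δ + 2 * δ) * Real.exp t) ≤
            t * ((ρ * δ + 2 * δ) * Real.exp t) := by
          apply mul_le_mul_of_nonneg_right (by linarith) (by positivity)
        have a3 : t * ((ρ * δ + 2 * δ) * Real.exp t) ≤ t * (ε * Real.exp t) := by gcongr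
        linarith [a2.trans a3, mul_comm ε t, show t * (ε * Real.exp t) = ε * t * Real.exp t by ring]
      have h14 : (t - τ) * (2 * C) ≤ 2 * C * Real.exp t := by nlinarith
      have h15 : 0 ≤ ρ * Real.exp t := by positivity
      nlinarith
  · -- the upper bound
    have h1 : ∑ g ∈ ball N (Real.exp t), Real.log (nm N g) ≤
        (ball N (Real.exp t)).card * t := by
      have := Finset.sum_le_card_nsmul (ball N (Real.exp t)) (fun g => Real.log (nm N g)) t hlogt
      rwa [nsmul_eq_mul] at this
    have h2 := (abs_le.1 (h t)).2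
    have h3 : (ball N (Real.exp t)).card * t ≤ (ρ * Real.exp t + δ * Real.exp t + C) * t :=
      mul_le_mul_of_nonneg_right (by linarith) ht
    have h4 : δ * t * Real.exp t ≤ ε * t * Real.exp t := by
      have : δ ≤ ε := by nlinarith
      gcongr
    have h5 : 0 ≤ (ρ * τ + ρ + C) * Real.exp t := by positivity
    nlinarith


alias log_sum := log_sum_pr

end Pool.Agent.LVA
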