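import Pool.Agent.Lib_helper92.LVA.Defs
import Pool.Agent.Lib_helper92.ASA.All
import Pool.Agent.Lib_helper92.LVAF.CN
import Pool.Agent.Lib_helper92.LVAF.LS

/-!
# Project LVK, part A, block MV: weak Mertens for the von Mangoldt function
-/

namespace Pool.Agent.LVA

open Complex MeasureTheory Filter Topology Set Pool.Agent.AS

variable {P : Type} {N : P → ℕ}

theorem mv_nonneg (hN : Good N) (g : P →₀ ℕ) : 0 ≤ vM N g := by
  unfold vM
  split_ifs
  · refine Finset.sum_nonneg fun p _ => Real.log_nonneg ?_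
    exact_mod_cast (by have := hN.two_le p; omega : 1 ≤ N p)
  · exact le_rfl

theorem mv_key (hN : Good N) (x : ℝ) : ∑ g ∈ ball N x, Real.log (nm N g) =
    ∑ a ∈ ball N x, vM N a * ((ball N (x / nm N a)).card : ℝ) := by
  classical
  have hpos : ∀ g : P →₀ ℕ, (0 : ℝ) < nm N g := fun g => by exact_mod_cast nm_pos hN.two_le g
  have hone : ∀ g : P →₀ ℕ, (1 : ℝ) ≤ nm N g := fun g => by exact_mod_cast nm_pos hN.two_le g
  have h1 : ∀ g ∈ ball N x, Real.log (nm N g) =
      ∑ p ∈ Finset.HasAntidiagonal.antidiagonal g, vM N p.1 := by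
    intro g _
    rw [← one_mul_vM hN.two_le, mul_comm, mul_app]
    simp [one]
  have h2 : ∀ a ∈ ball N x, vM N a * ((ball N (x / nm N a)).card : ℝ) =
      ∑ b ∈ ball N (x / nm N a), vM N a := by
    intro a _
    rw [Finset.sum_const, nsmul_eq_mul, mul_comm]
  rw [Finset.sum_congr rfl h1, Finset.sum_congr rfl h2]
  rw [Finset.sum_sigma', Finset.sum_sigma']
  refine Finset.sum_nbij' (fun z => ⟨z.2.1, z.2.2⟩) (fun z => ⟨z.1 + z.2, (z.1, z.2)⟩) ?_ ?_ ?_ ?_ ?_
  · rintro ⟨g, a, b⟩ hz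
    simp only [Finset.mem_sigma, mem_ball hN, Finset.HasAntidiagonal.mem_antidiagonal] at hz ⊢
    obtain ⟨h3, rfl⟩ := hz
    rw [nm_add] at h3
    push_cast at h3
    refine ⟨?_, ?_⟩
    · nlinarith [hpos a, hone b]
    · rw [le_div_iff₀ (hpos a)]
      linarith
  · rintro ⟨a, b⟩ hz
    simp only [Finset.mem_sigma, mem_ball hN, Finset.HasAntidiagonal.mem_antidiagonal] at hz ⊢
    have h4 := (le_div_iff₀ (hpos a)).1 hz.2
    refine ⟨?_, trivial⟩
    rw [nm_add]
    push_cast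
    linarith
  · rintro ⟨g, a, b⟩ hz
    simp only [Finset.mem_sigma, mem_ball hN, Finset.HasAntidiagonal.mem_antidiagonal] at hz
    obtain ⟨h3, rfl⟩ := hz
    rfl
  · rintro ⟨a, b⟩ hz
    rfl
  · rintro ⟨g, a, b⟩ hz
    rfl

theorem mert_vM_pr (hN : Good N) {ρ : ℝ} (hC : Cnt N ρ) {ε : ℝ} (hε : 0 < ε) :
    ∃ C : ℝ, 0 ≤ C ∧ ∀ t : ℝ, 0 ≤ t →
      |∑ g ∈ ball N (Real.exp t), vM N g / nm N g - t| ≤ ε * t + C := by
  classical
  have hpos : ∀ g : P →₀ ℕ, (0 : ℝ) < nm N g := fun g => by exact_mod_cast nm_pos hN.two_le g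
  obtain ⟨C0, hC0, h0⟩ := ball_le hN hC
  obtain ⟨C1, hC1, h1⟩ := psi_le hN
  obtain ⟨C2, hC2, h2⟩ := mert_le hN
  have hρ := hC.1
  obtain ⟨δ, hδ⟩ : ∃ δ : ℝ, δ = ε * ρ / (2 * (C2 + 1)) := ⟨_, rfl⟩
  have hδp : 0 < δ := by rw [hδ]; positivity
  obtain ⟨C3, hC3, h3⟩ := log_sum hN hC (ε := ε * ρ / 2) (by positivity)
  obtain ⟨T0, hT0⟩ := Metric.tendsto_atTop.mp hC.2 δ hδp
  obtain ⟨T, hT⟩ : ∃ T : ℝ, T = max T0 1 := ⟨_, rfl⟩
  have hT1 : 1 ≤ T := by rw [hT]; exact le_max_right _ _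
  have hTT : T0 ≤ T := by rw [hT]; exact le_max_left _ _
  have hI1 : ∀ y : ℝ, T ≤ y → |((ball N y).card : ℝ) - ρ * y| ≤ δ * y := by
    intro y hy
    have hy0 : 0 < y := by linarith
    have h4 := (hT0 y (hTT.trans hy)).le
    rw [Real.dist_eq] at h4
    have h5 : ((ball N y).card : ℝ) - ρ * y = (((ball N y).card : ℝ) / y - ρ) * y := by
      field_simp
    rw [h5, abs_mul, abs_of_pos hy0]
    exact mul_le_mul_of_nonneg_right h4 hy0.le
  have hI2 : ∀ y : ℝ, 1 ≤ y → |((ball N y).card : ℝ) - ρ * y| ≤ (C0 + ρ) * y := by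
    intro y hy
    have hy0 : 0 < y := by linarith
    have h4 := h0 (Real.log y) (Real.log_nonneg hy)
    rw [Real.exp_log hy0] at h4
    have h5 : (0 : ℝ) ≤ (ball N y).card := Nat.cast_nonneg _
    have h6 : 0 < ρ * y := by positivity
    rw [abs_le]
    constructor <;> nlinarith
  refine ⟨(δ * C2 + (C0 + ρ) * T * C1 + C3) / ρ, by positivity, fun t ht => ?_⟩
  obtain ⟨x, hx⟩ : ∃ x : ℝ, x = Real.exp t := ⟨_, rfl⟩
  have hx1 : 1 ≤ x := by rw [hx]; exact Real.one_le_exp ht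
  have hx0 : 0 < x := by linarith
  have hlogx : Real.log x = t := by rw [hx, Real.log_exp]
  have hls := h3 t ht
  have hps := h1 x hx1
  have hml := h2 x hx1
  rw [hlogx] at hml
  rw [← hx] at hls ⊢
  rw [mv_key hN x] at hls
  -- the difference
  have hdiff : |∑ a ∈ ball N x, vM N a * ((ball N (x / nm N a)).card : ℝ) -
      ρ * x * ∑ g ∈ ball N x, vM N g / nm N g| ≤
      δ * x * (C2 * (1 + t)) + (C0 + ρ) * T * (C1 * x) := by
    have h4 : ∑ a ∈ ball N x, vM N a * ((ball N (x / nm N a)).card : ℝ) -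
        ρ * x * ∑ g ∈ ball N x, vM N g / nm N g =
        ∑ a ∈ ball N x, vM N a * (((ball N (x / nm N a)).card : ℝ) - ρ * (x / nm N a)) := by
      rw [Finset.mul_sum, ← Finset.sum_sub_distrib]
      refine Finset.sum_congr rfl fun a _ => by ring
    rw [h4]
    have h5 : ∀ a ∈ ball N x,
        |vM N a * (((ball N (x / nm N a)).card : ℝ) - ρ * (x / nm N a))| ≤
          δ * x * (vM N a / nm N a) + (C0 + ρ) * T * vM N a := by
      intro a ha
      have hv := mv_nonneg hN a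
      have hax := (mem_ball hN).1 ha
      have hy1 : 1 ≤ x / nm N a := by
        rw [le_div_iff₀ (hpos a), one_mul]
        exact hax
      rw [abs_mul, abs_of_nonneg hv]
      by_cases hTy : T ≤ x / nm N a
      · have h6 := mul_le_mul_of_nonneg_left (hI1 _ hTy) hv
        have h7 : vM N a * (δ * (x / nm N a)) = δ * x * (vM N a / nm N a) := by ring
        rw [h7] at h6
        have h8 : 0 ≤ (C0 + ρ) * T * vM N a := by positivity
        linarith
      · rw [not_le] at hTy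
        have h6 := mul_le_mul_of_nonneg_left (hI2 _ hy1) hv
        have h7 : vM N a * ((C0 + ρ) * (x / nm N a)) ≤ (C0 + ρ) * T * vM N a := by
          have h9 : (C0 + ρ) * vM N a * (x / nm N a) ≤ (C0 + ρ) * vM N a * T :=
            mul_le_mul_of_nonneg_left hTy.le (by positivity)
          linarith
        have h8 : 0 ≤ δ * x * (vM N a / nm N a) := by
          have := (hpos a).le
          positivity
        linarith
    refine (Finset.abs_sum_le_sum_abs _ _).trans ((Finset.sum_le_sum h5).trans ?_)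
    have h6 : ∑ a ∈ ball N x, (δ * x * (vM N a / nm N a) + (C0 + ρ) * T * vM N a) =
        δ * x * ∑ a ∈ ball N x, vM N a / nm N a + (C0 + ρ) * T * ∑ a ∈ ball N x, vM N a := by
      rw [Finset.sum_add_distrib]
      exact congrArg₂ (· + ·) (Finset.mul_sum _ _ _).symm (Finset.mul_sum _ _ _).symm
    rw [h6]
    exact add_le_add (mul_le_mul_of_nonneg_left hml (by positivity))
      (mul_le_mul_of_nonneg_left hps (by positivity))
  -- conclusion
  obtain ⟨M, hM⟩ : ∃ M : ℝ, M = ∑ g ∈ ball N x, vM N g / nm N g := ⟨_, rfl⟩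
  obtain ⟨S, hS⟩ : ∃ S : ℝ, S = ∑ a ∈ ball N x, vM N a * ((ball N (x / nm N a)).card : ℝ) :=
    ⟨_, rfl⟩
  rw [← hM, ← hS] at hdiff
  rw [← hS] at hls
  rw [← hM]
  have h6 : |ρ * x * (M - t)| ≤ δ * x * (C2 * (1 + t)) + (C0 + ρ) * T * (C1 * x) +
      (ε * ρ / 2 * t + C3) * x := by
    have h7 : ρ * x * (M - t) = -(S - ρ * x * M) + (S - ρ * t * x) := by ring
    rw [h7]
    refine (abs_add_le _ _).trans ?_
    rw [abs_neg]
    exact add_le_add hdiff hls
  rw [abs_mul, abs_of_pos (by positivity : 0 < ρ * x)] at h6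
  have h8 : δ * C2 ≤ ε * ρ / 2 := by
    rw [hδ, div_mul_eq_mul_div, div_le_div_iff₀ (by positivity) (by norm_num)]
    nlinarith [mul_pos hε hρ]
  have h9 : ρ * x * |M - t| ≤ ρ * x * (ε * t + (δ * C2 + (C0 + ρ) * T * C1 + C3) / ρ) := by
    refine h6.trans ?_
    have h10 : ρ * x * (ε * t + (δ * C2 + (C0 + ρ) * T * C1 + C3) / ρ) =
        x * (ρ * ε * t + (δ * C2 + (C0 + ρ) * T * C1 + C3)) := by
      field_simp
    rw [h10]
    have h11 : x * (δ * C2 * t) ≤ x * (ε * ρ / 2 * t) :=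
      mul_le_mul_of_nonneg_left (mul_le_mul_of_nonneg_right h8 ht) hx0.le
    nlinarith
  exact le_of_mul_le_mul_left h9 (by positivity)


alias mert_vM := mert_vM_pr

end Pool.Agent.LVA
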