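import Pool.Agent.Lib_helper92.LVA.Defs
import Pool.Agent.Lib_helper92.ASA.All
import Pool.Agent.Lib_helper92.LVAF.BA
import Pool.Agent.Lib_helper92.LVAF.BB
import Pool.Agent.Lib_helper92.LVAF.MV

/-! # Project LVA, block MP: weak Mertens for primes -/

namespace Pool.Agent.LVA

open Complex MeasureTheory Filter Topology Set Pool.Agent.AS

variable {P : Type} {N : P → ℕ}

theorem mp_one_lt (hN : Good N) (p : P) : (1 : ℝ) < N p := by
  exact_mod_cast lt_of_lt_of_le (by norm_num) (hN.two_le p)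

theorem mp_two_le (hN : Good N) (p : P) : (2 : ℝ) ≤ N p := by
  exact_mod_cast hN.two_le p

theorem mp_log_pos (hN : Good N) (p : P) : 0 < Real.log (N p) := Real.log_pos (mp_one_lt hN p)

theorem mp_log_le (x : ℝ) (hx : 0 < x) : Real.log x ≤ 2 * √x := by
  have h1 : Real.log x = 2 * Real.log (√x) := by
    rw [Real.log_sqrt hx.le]; ring
  have h2 := Real.log_le_sub_one_of_pos (x := √x) (by positivity)
  linarith

theorem mp_inj (k : ℕ) (hk : k ≠ 0) : Function.Injective (fun p : P => Finsupp.single p k) := by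
  intro p q h
  rcases (Finsupp.single_eq_single_iff p q k k).mp h with h | h
  · exact h.1
  · exact absurd h.1 hk

theorem mp_summable (hN : Good N) :
    Summable (fun p : P => Real.log (N p) / (N p : ℝ) ^ 2) := by
  have h1 := (hN.summable (1 / 2) (by norm_num)).comp_injective (mp_inj (P := P) 1 one_ne_zero)
  refine Summable.of_nonneg_of_le (fun p => ?_) (fun p => ?_) (h1.mul_left 2)
  · have := mp_log_pos hN p
    positivity
  · have h2 := mp_one_lt hN p
    have h3 : (0 : ℝ) < N p := by linarith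
    simp only [Function.comp_apply, nm_single, pow_one]
    have h4 := mp_log_le (N p : ℝ) h3
    have h5 : (N p : ℝ) ^ (-(1 + 1 / 2 : ℝ)) = √(N p) / (N p : ℝ) ^ 2 := by
      rw [Real.sqrt_eq_rpow, ← Real.rpow_natCast, ← Real.rpow_sub h3]
      norm_num
    rw [h5, ← mul_div_assoc]
    exact div_le_div_of_nonneg_right h4 (by positivity)

/-- the primes are prime powers -/
theorem mp_low (hN : Good N) (t : ℝ) :
    ∑ p ∈ PB N t, Real.log (N p) / (N p : ℝ) ≤ ∑ g ∈ ball N (Real.exp t), vM N g / nm N g := by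
  classical
  have h1 : ∑ p ∈ PB N t, Real.log (N p) / (N p : ℝ) =
      ∑ g ∈ (PB N t).image (fun p : P => Finsupp.single p 1), vM N g / nm N g := by
    rw [Finset.sum_image (fun a _ b _ h => mp_inj (P := P) 1 one_ne_zero h)]
    refine Finset.sum_congr rfl fun p _ => ?_
    rw [cheb_vM_single N p one_ne_zero, nm_single, pow_one]
  rw [h1]
  apply Finset.sum_le_sum_of_subset_of_nonneg
  · intro g hg
    rw [Finset.mem_image] at hg
    obtain ⟨p, hp, rfl⟩ := hg
    rw [mem_PB hN] at hp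
    rw [mem_ball hN, nm_single, pow_one, ← Real.log_le_iff_le_exp (by have := mp_one_lt hN p; linarith)]
    exact hp
  · intro g _ _
    exact div_nonneg (cheb_vM_nonneg hN.two_le g) (Nat.cast_nonneg _)

theorem mp_geo (a n : ℝ) (K : ℕ) : ∑ k ∈ Finset.Icc 1 K, a / n ^ k =
    a * n⁻¹ * ∑ k ∈ Finset.range K, (n⁻¹) ^ k := by
  induction K with
  | zero => simp
  | succ K ih =>
    rw [Finset.sum_Icc_succ_top (by omega), ih, Finset.sum_range_succ, mul_add]
    congr 1
    rw [pow_succ, inv_pow, div_eq_mul_inv, mul_inv]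
    ring

theorem mp_up (hN : Good N) (t : ℝ) :
    ∑ g ∈ ball N (Real.exp t), vM N g / nm N g ≤
      ∑ p ∈ PB N t, Real.log (N p) / ((N p : ℝ) - 1) := by
  classical
  set K : ℕ := ⌊t / Real.log 2⌋₊ with hK
  set T : Finset ((_ : P) × ℕ) := (PB N t).sigma (fun _ => Finset.Icc 1 K) with hT
  set i : ((_ : P) × ℕ) → (P →₀ ℕ) := fun j => Finsupp.single j.1 j.2 with hi
  have hlog2 : 0 < Real.log 2 := Real.log_pos (by norm_num)
  have hinj : Set.InjOn i (T : Set ((_ : P) × ℕ)) := by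
    intro a ha b hb hab
    have ha' : 1 ≤ a.2 := (Finset.mem_Icc.mp (Finset.mem_sigma.mp (Finset.mem_coe.mp ha)).2).1
    have hb' : 1 ≤ b.2 := (Finset.mem_Icc.mp (Finset.mem_sigma.mp (Finset.mem_coe.mp hb)).2).1
    rcases Finsupp.single_eq_single_iff a.1 b.1 a.2 b.2 |>.mp hab with h | h
    · obtain ⟨a1, a2⟩ := a
      obtain ⟨b1, b2⟩ := b
      obtain ⟨h1, h2⟩ := h
      simp only at h1 h2
      subst h1 h2
      rfl
    · omega
  have hsub : (ball N (Real.exp t)).filter (fun g => vM N g / nm N g ≠ 0) ⊆ T.image i := by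
    intro g hg
    rw [Finset.mem_filter] at hg
    obtain ⟨hgb, hgv⟩ := hg
    have hcard : g.support.card = 1 := by
      by_contra h
      apply hgv
      unfold vM
      rw [if_neg h, zero_div]
    obtain ⟨p, hp⟩ := Finset.card_eq_one.mp hcard
    have hgs : g = Finsupp.single p (g p) := by
      ext q
      by_cases hq : q = p
      · subst hq; simp
      · rw [Finsupp.single_apply, if_neg (Ne.symm hq)]
        have : q ∉ g.support := by rw [hp]; simpa using hq
        exact Finsupp.notMem_support_iff.mp this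
    have hgp : g p ≠ 0 := by
      have : p ∈ g.support := by rw [hp]; simp
      exact Finsupp.mem_support_iff.mp this
    rw [mem_ball hN] at hgb
    have hnm : nm N g = N p ^ (g p) := by
      conv_lhs => rw [hgs]
      rw [nm_single]
    have hNp1 : (1 : ℝ) < N p := mp_one_lt hN p
    have hlogp : 0 < Real.log (N p) := Real.log_pos hNp1
    have hpow : (N p : ℝ) ^ (g p) ≤ Real.exp t := by
      rw [hnm] at hgb
      exact_mod_cast hgb
    have hpl : (g p : ℝ) * Real.log (N p) ≤ t := by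
      rw [← Real.log_pow, Real.log_le_iff_le_exp (by positivity)]
      exact hpow
    rw [Finset.mem_image]
    refine ⟨⟨p, g p⟩, ?_, hgs.symm⟩
    rw [hT, Finset.mem_sigma]
    have hgp1 : 1 ≤ g p := Nat.one_le_iff_ne_zero.mpr hgp
    have hgp2 : (1 : ℝ) ≤ g p := by exact_mod_cast hgp1
    constructor
    · rw [mem_PB hN]
      nlinarith
    · rw [Finset.mem_Icc]
      refine ⟨hgp1, ?_⟩
      apply Nat.le_floor
      rw [le_div_iff₀ hlog2]
      have h5 : Real.log 2 ≤ Real.log (N p) :=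
        Real.log_le_log (by norm_num) (mp_two_le hN p)
      nlinarith
  calc ∑ g ∈ ball N (Real.exp t), vM N g / nm N g =
        ∑ g ∈ (ball N (Real.exp t)).filter (fun g => vM N g / nm N g ≠ 0), vM N g / nm N g :=
        (Finset.sum_filter_ne_zero _).symm
    _ ≤ ∑ g ∈ T.image i, vM N g / nm N g :=
        Finset.sum_le_sum_of_subset_of_nonneg hsub fun g _ _ =>
          div_nonneg (cheb_vM_nonneg hN.two_le g) (Nat.cast_nonneg _)
    _ = ∑ j ∈ T, vM N (i j) / nm N (i j) := Finset.sum_image hinj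
    _ = ∑ j ∈ T, Real.log (N j.1) / (N j.1 : ℝ) ^ j.2 := by
        refine Finset.sum_congr rfl fun j hj => ?_
        have hj' : 1 ≤ j.2 := (Finset.mem_Icc.mp (Finset.mem_sigma.mp hj).2).1
        rw [hi]
        simp only
        rw [cheb_vM_single N j.1 (by omega), nm_single]
        push_cast
        rfl
    _ ≤ _ := by
        rw [hT, Finset.sum_sigma]
        refine Finset.sum_le_sum fun p _ => ?_
        have h1 := mp_two_le hN p
        have h2 := mp_log_pos hN p
        have hx0 : (0 : ℝ) ≤ ((N p : ℝ))⁻¹ := by positivity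
        have hx1 : ((N p : ℝ))⁻¹ < 1 := inv_lt_one_of_one_lt₀ (by linarith)
        have h3 := mp_geo (Real.log (N p)) (N p : ℝ) K
        have h4 : ∑ k ∈ Finset.range K, (((N p : ℝ))⁻¹) ^ k ≤ (1 - ((N p : ℝ))⁻¹)⁻¹ := by
          rw [← tsum_geometric_of_lt_one hx0 hx1]
          exact (summable_geometric_of_lt_one hx0 hx1).sum_le_tsum _ (fun k _ => pow_nonneg hx0 k)
        simp only
        rw [h3]
        have h5 : Real.log (N p) / ((N p : ℝ) - 1) =
            Real.log (N p) * ((N p : ℝ))⁻¹ * (1 - ((N p : ℝ))⁻¹)⁻¹ := by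
          have h6 : (N p : ℝ) - 1 ≠ 0 := by linarith
          have h7 : (N p : ℝ) ≠ 0 := by linarith
          field_simp
        rw [h5]
        exact mul_le_mul_of_nonneg_left h4 (by positivity)

theorem mert_p_pr (hN : Good N) {ρ : ℝ} (hC : Cnt N ρ) {ε : ℝ} (hε : 0 < ε) :
    ∃ C : ℝ, 0 ≤ C ∧ ∀ t : ℝ, 0 ≤ t →
      |∑ p ∈ PB N t, Real.log (N p) / ((N p : ℝ) - 1) - t| ≤ ε * t + C := by
  obtain ⟨C, hC0, hC1⟩ := mert_vM hN hC hε
  have hs := mp_summable hN
  set D : ℝ := ∑' p : P, Real.log (N p) / (N p : ℝ) ^ 2 with hD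
  have hD0 : 0 ≤ D := tsum_nonneg (fun p => by
    have := mp_log_pos hN p
    positivity)
  refine ⟨C + 2 * D, by positivity, fun t ht => ?_⟩
  have h1 := hC1 t ht
  have h2 := mp_up hN t
  have h3 := mp_low hN t
  have h4 : ∑ p ∈ PB N t, Real.log (N p) / ((N p : ℝ) - 1) ≤
      ∑ p ∈ PB N t, Real.log (N p) / (N p : ℝ) + 2 * D := by
    have h5 : ∑ p ∈ PB N t, Real.log (N p) / (N p : ℝ) ^ 2 ≤ D :=
      hs.sum_le_tsum _ (fun p _ => by
        have := mp_log_pos hN p
        positivity)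
    have h6 : ∑ p ∈ PB N t, Real.log (N p) / ((N p : ℝ) - 1) ≤
        ∑ p ∈ PB N t, (Real.log (N p) / (N p : ℝ) + 2 * (Real.log (N p) / (N p : ℝ) ^ 2)) := by
      refine Finset.sum_le_sum fun p _ => ?_
      have h7 := mp_two_le hN p
      have h8 := mp_log_pos hN p
      have h9 : (0 : ℝ) < (N p : ℝ) - 1 := by linarith
      have h10 : (0 : ℝ) < N p := by linarith
      have h11 : Real.log (N p) / (N p : ℝ) + 2 * (Real.log (N p) / (N p : ℝ) ^ 2) =
          Real.log (N p) * ((N p + 2) / (N p : ℝ) ^ 2) := by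
        field_simp
      rw [h11, div_eq_mul_inv]
      apply mul_le_mul_of_nonneg_left _ h8.le
      rw [inv_le_comm₀ h9 (by positivity), inv_div, div_le_iff₀ (by positivity)]
      nlinarith
    rw [Finset.sum_add_distrib, ← Finset.mul_sum] at h6
    linarith
  rw [abs_le] at h1 ⊢
  constructor <;> linarith [h1.1, h1.2]

theorem sum_inv_pr (hN : Good N) {ε : ℝ} (hε : 0 < ε) : ∃ C : ℝ, 0 ≤ C ∧ ∀ t : ℝ, 0 ≤ t →
    ∑ p ∈ PB N t, ((N p : ℝ) - √(N p))⁻¹ ≤ ε * t + C := by
  classical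
  obtain ⟨C, hC0, hC1⟩ := mert_le hN
  set T : ℝ := 4 * C / ε + 1 with hT
  have hT0 : 0 < T := by positivity
  refine ⟨ε + ∑ p ∈ PB N T, 4 / (N p : ℝ), ?_, fun t ht => ?_⟩
  · have : 0 ≤ ∑ p ∈ PB N T, 4 / (N p : ℝ) := Finset.sum_nonneg (fun p _ => by positivity)
    linarith
  have h1 : ∀ p : P, ((N p : ℝ) - √(N p))⁻¹ ≤ 4 / (N p : ℝ) := by
    intro p
    have h2 := mp_two_le hN p
    have h3 : √(N p : ℝ) ≤ 3 / 4 * N p := by
      rw [Real.sqrt_le_left (by linarith)]
      nlinarith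
    have h4 : (0 : ℝ) < N p := by linarith
    rw [inv_le_comm₀ (by linarith) (by positivity), inv_div]
    linarith
  have h2 : ∀ p ∈ PB N t, ((N p : ℝ) - √(N p))⁻¹ ≤
      4 / T * (Real.log (N p) / N p) + (if p ∈ PB N T then 4 / (N p : ℝ) else 0) := by
    intro p _
    have h3 := h1 p
    have h4 := mp_two_le hN p
    have h5 := mp_log_pos hN p
    have h6 : (0 : ℝ) < N p := by linarith
    split_ifs with h
    · have : 0 ≤ 4 / T * (Real.log (N p) / N p) := by positivity
      linarith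
    · rw [mem_PB hN, not_le] at h
      have h7 : 4 / (N p : ℝ) ≤ 4 / T * (Real.log (N p) / N p) := by
        rw [div_mul_div_comm, div_le_div_iff₀ h6 (by positivity)]
        nlinarith [mul_pos h6 (sub_pos.2 h)]
      linarith
  have h3 := Finset.sum_le_sum h2
  rw [Finset.sum_add_distrib, ← Finset.mul_sum] at h3
  have h4 := mp_low hN t
  have h5 := hC1 (Real.exp t) (Real.one_le_exp ht)
  rw [Real.log_exp] at h5
  have h6 : ∑ p ∈ PB N t, (if p ∈ PB N T then 4 / (N p : ℝ) else 0) ≤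
      ∑ p ∈ PB N T, 4 / (N p : ℝ) := by
    rw [← Finset.sum_filter]
    apply Finset.sum_le_sum_of_subset_of_nonneg
    · intro p hp
      exact (Finset.mem_filter.1 hp).2
    · intro p _ _
      positivity
  have h7 : 4 / T * ∑ p ∈ PB N t, Real.log (N p) / (N p : ℝ) ≤ ε * (1 + t) := by
    have h8 : 4 / T * ∑ p ∈ PB N t, Real.log (N p) / (N p : ℝ) ≤ 4 / T * (C * (1 + t)) :=
      mul_le_mul_of_nonneg_left (h4.trans h5) (by positivity)
    have h9 : 4 / T * C ≤ ε := by
      rw [div_mul_eq_mul_div, div_le_iff₀ hT0, hT]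
      have : ε * (4 * C / ε + 1) = 4 * C + ε := by
        field_simp
      rw [this]
      linarith
    have h10 : 4 / T * (C * (1 + t)) = 4 / T * C * (1 + t) := by ring
    rw [h10] at h8
    exact h8.trans (mul_le_mul_of_nonneg_right h9 (by linarith))
  linarith

theorem mert_R_pr [DecidableEq P] (hN : Good N) {ρ : ℝ} (hC : Cnt N ρ) {A ε : ℝ} (hA : 0 < A)
    (hε : 0 < ε) : ∃ L₀ : ℝ, 1 ≤ L₀ ∧ ∀ L, L₀ ≤ L → ∀ R : Finset P, lg N R ≤ A * L →
      ∀ t, 0 ≤ t → t ≤ A * L →
        |∑ p ∈ PB N t \ R, Real.log (N p) / ((N p : ℝ) - 1) - t| ≤ ε * L := by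
  have hε' : 0 < ε / (4 * A) := by positivity
  obtain ⟨C1, hC1, h1⟩ := mert_p_pr hN hC hε'
  obtain ⟨C2, hC2, h2⟩ := small_sum hN hε'
  refine ⟨max 1 (2 * (C1 + C2) / ε), le_max_left _ _, fun L hL R hR t ht htL => ?_⟩
  have hL1 : 1 ≤ L := (le_max_left _ _).trans hL
  have hL2 : 2 * (C1 + C2) / ε ≤ L := (le_max_right _ _).trans hL
  rw [div_le_iff₀ hε] at hL2
  have h3 := h1 t ht
  have h4 := h2 R
  have h5 : ∑ p ∈ PB N t \ R, Real.log (N p) / ((N p : ℝ) - 1) +
      ∑ p ∈ PB N t ∩ R, Real.log (N p) / ((N p : ℝ) - 1) =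
      ∑ p ∈ PB N t, Real.log (N p) / ((N p : ℝ) - 1) := by
    have h := Finset.sum_sdiff (Finset.inter_subset_left : PB N t ∩ R ⊆ PB N t)
      (f := fun p => Real.log (N p) / ((N p : ℝ) - 1))
    rwa [Finset.sdiff_inter_self_left] at h
  have hpos : ∀ p : P, 0 ≤ Real.log (N p) / ((N p : ℝ) - 1) := by
    intro p
    have h7 := mp_two_le hN p
    have h8 := mp_log_pos hN p
    exact div_nonneg h8.le (by linarith)
  have h6 : ∑ p ∈ PB N t ∩ R, Real.log (N p) / ((N p : ℝ) - 1) ≤
      ∑ p ∈ R, Real.log (N p) / ((N p : ℝ) - 1) :=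
    Finset.sum_le_sum_of_subset_of_nonneg Finset.inter_subset_right (fun p _ _ => hpos p)
  have h7 : 0 ≤ ∑ p ∈ PB N t ∩ R, Real.log (N p) / ((N p : ℝ) - 1) :=
    Finset.sum_nonneg (fun p _ => hpos p)
  have h8 : ε / (4 * A) * t ≤ ε / 4 * L := by
    have := mul_le_mul_of_nonneg_left htL hε'.le
    refine this.trans (le_of_eq ?_)
    field_simp
  have h9 : ε / (4 * A) * lg N R ≤ ε / 4 * L := by
    have := mul_le_mul_of_nonneg_left hR hε'.le
    refine this.trans (le_of_eq ?_)
    field_simp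
  rw [abs_le] at h3 ⊢
  constructor <;> nlinarith [h3.1, h3.2]


alias mert_p := mert_p_pr
alias sum_inv := sum_inv_pr
alias mert_R := mert_R_pr

end Pool.Agent.LVA
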