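import Pool.Agent.Lib_helper92.LVA.Defs
import Pool.Agent.Lib_helper92.ASA.All

/-!
# Project LVK, part A, block SH: the harmonic sum
-/

namespace Pool.Agent.LVA

open Complex MeasureTheory Filter Topology Set Pool.Agent.AS

variable {P : Type} {N : P → ℕ}

theorem sh_card (hN : Good N) {ρ : ℝ} (hC : Cnt N ρ) {δ : ℝ} (hδ : 0 < δ) :
    ∃ C : ℝ, 0 ≤ C ∧ ∀ v : ℝ, 0 ≤ v →
      |((ball N (Real.exp v)).card : ℝ) - ρ * Real.exp v| ≤ δ * Real.exp v + C := by
  obtain ⟨hρ, hlim⟩ := hC
  obtain ⟨x0, hx0⟩ := Metric.tendsto_atTop.1 hlim δ hδ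
  set x1 : ℝ := max x0 1 with hx1
  have h1 : 1 ≤ x1 := le_max_right _ _
  have hC0 : 0 ≤ ((ball N x1).card : ℝ) + ρ * x1 := by positivity
  refine ⟨((ball N x1).card : ℝ) + ρ * x1, hC0, ?_⟩
  intro v _
  have hv : 0 < Real.exp v := Real.exp_pos v
  rcases le_total x1 (Real.exp v) with h | h
  · have h2 := hx0 (Real.exp v) (le_trans (le_max_left _ _) h)
    rw [Real.dist_eq] at h2
    have h3 : ((ball N (Real.exp v)).card : ℝ) - ρ * Real.exp v =
        (((ball N (Real.exp v)).card : ℝ) / Real.exp v - ρ) * Real.exp v := by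
      field_simp
    rw [h3, abs_mul, abs_of_pos hv]
    have h4 := mul_le_mul_of_nonneg_right h2.le hv.le
    linarith
  · have h2 : ((ball N (Real.exp v)).card : ℝ) ≤ (ball N x1).card := by
      have : ball N (Real.exp v) ⊆ ball N x1 := by
        intro g hg
        rw [mem_ball_pr hN] at hg ⊢
        exact hg.trans h
      exact_mod_cast Finset.card_le_card this
    have h3 : ρ * Real.exp v ≤ ρ * x1 := mul_le_mul_of_nonneg_left h hρ.le
    have h4 : (0 : ℝ) ≤ ((ball N (Real.exp v)).card : ℝ) := by positivity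
    have h5 : (0 : ℝ) ≤ ρ * Real.exp v := by positivity
    have h6 : 0 ≤ δ * Real.exp v := by positivity
    rw [abs_le]
    constructor <;> linarith

theorem sh_ii (l t : ℝ) :
    IntervalIntegrable (fun v : ℝ => if l ≤ v then Real.exp (-v) else 0) volume 0 t := by
  have h1 : IntervalIntegrable (fun v : ℝ => Real.exp (-v)) volume 0 t :=
    (by fun_prop : Continuous fun v : ℝ => Real.exp (-v)).intervalIntegrable _ _
  have h2 : (fun v : ℝ => if l ≤ v then Real.exp (-v) else 0) =
      (Ici l).indicator fun v : ℝ => Real.exp (-v) := by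
    funext v
    by_cases h : l ≤ v
    · rw [if_pos h, indicator_of_mem (mem_Ici.2 h)]
    · rw [if_neg h, indicator_of_notMem (by simpa using h)]
  rw [h2]
  constructor
  · exact h1.1.indicator measurableSet_Ici
  · exact h1.2.indicator measurableSet_Ici

theorem sh_int {l t : ℝ} (hl : 0 ≤ l) (hlt : l ≤ t) :
    ∫ v in (0 : ℝ)..t, (if l ≤ v then Real.exp (-v) else 0) = Real.exp (-l) - Real.exp (-t) := by
  have e : ∀ a b : ℝ, ∫ v in a..b, Real.exp (-v) = Real.exp (-a) - Real.exp (-b) := by
    intro a b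
    have h := intervalIntegral.integral_comp_neg (a := a) (b := b) (fun v : ℝ => Real.exp v)
    rw [h, integral_exp]
  rw [← intervalIntegral.integral_add_adjacent_intervals (sh_ii l l)
    ((sh_ii l l).symm.trans (sh_ii l t))]
  have h1 : ∫ v in (0 : ℝ)..l, (if l ≤ v then Real.exp (-v) else 0) = 0 := by
    have hz : ∫ _v in (0 : ℝ)..l, (0 : ℝ) = 0 := intervalIntegral.integral_zero
    refine Eq.trans (intervalIntegral.integral_congr_ae ?_) hz
    have h0 : ∀ᵐ v : ℝ, v ≠ l := by
      have := (Set.countable_singleton l).ae_notMem (volume : Measure ℝ)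
      filter_upwards [this] with v hv
      simpa using hv
    filter_upwards [h0] with v hv hvm
    rw [uIoc_of_le hl] at hvm
    rw [if_neg]
    intro h
    exact hv (le_antisymm hvm.2 h)
  have h2 : ∫ v in l..t, (if l ≤ v then Real.exp (-v) else 0) = ∫ v in l..t, Real.exp (-v) := by
    refine intervalIntegral.integral_congr fun v hv => ?_
    rw [uIcc_of_le hlt] at hv
    simp only [if_pos hv.1]
  rw [h1, h2, e, zero_add]

theorem sh_sum (hN : Good N) {t v : ℝ} (hv : v ≤ t) :
    ∑ g ∈ ball N (Real.exp t), (if Real.log (nm N g) ≤ v then Real.exp (-v) else 0) =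
      ((ball N (Real.exp v)).card : ℝ) * Real.exp (-v) := by
  classical
  rw [← Finset.sum_filter]
  have h : (ball N (Real.exp t)).filter (fun g => Real.log (nm N g) ≤ v) =
      ball N (Real.exp v) := by
    ext g
    have hp : (0 : ℝ) < nm N g := by exact_mod_cast nm_pos_pr hN.two_le g
    rw [Finset.mem_filter, mem_ball_pr hN, mem_ball_pr hN, Real.log_le_iff_le_exp hp]
    constructor
    · exact fun h => h.2
    · exact fun h => ⟨h.trans (Real.exp_le_exp.2 hv), h⟩
  rw [h, Finset.sum_const, nsmul_eq_mul]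

theorem sh_eq (hN : Good N) {t : ℝ} (ht : 0 ≤ t) :
    IntervalIntegrable (fun v : ℝ => ((ball N (Real.exp v)).card : ℝ) * Real.exp (-v)) volume 0 t ∧
    Sh N t = ((ball N (Real.exp t)).card : ℝ) * Real.exp (-t) +
      ∫ v in (0 : ℝ)..t, ((ball N (Real.exp v)).card : ℝ) * Real.exp (-v) := by
  have hI : ∀ g ∈ ball N (Real.exp t), IntervalIntegrable
      (fun v : ℝ => if Real.log (nm N g) ≤ v then Real.exp (-v) else 0) volume 0 t :=
    fun g _ => sh_ii _ _
  have hII : IntervalIntegrable (fun v : ℝ => ∑ g ∈ ball N (Real.exp t),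
      (if Real.log (nm N g) ≤ v then Real.exp (-v) else 0)) volume 0 t := by
    have := IntervalIntegrable.sum (ball N (Real.exp t)) hI
    refine this.congr_ae (ae_of_all _ fun v => ?_)
    simp
  have hae : ∀ v ∈ uIcc 0 t, ∑ g ∈ ball N (Real.exp t),
      (if Real.log (nm N g) ≤ v then Real.exp (-v) else 0) =
      ((ball N (Real.exp v)).card : ℝ) * Real.exp (-v) := by
    intro v hv
    rw [uIcc_of_le ht] at hv
    exact sh_sum hN hv.2
  refine ⟨?_, ?_⟩
  · refine hII.congr_ae ?_
    rw [EventuallyEq, ae_restrict_iff' measurableSet_uIoc]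
    exact ae_of_all _ fun v hv => hae v (uIoc_subset_uIcc hv)
  · rw [← intervalIntegral.integral_congr (fun v hv => hae v hv),
      intervalIntegral.integral_finsetSum hI]
    unfold Sh
    rw [← nsmul_eq_mul, ← Finset.sum_const, ← Finset.sum_add_distrib]
    refine Finset.sum_congr rfl fun g hg => ?_
    have hp : (0 : ℝ) < nm N g := by exact_mod_cast nm_pos_pr hN.two_le g
    have h1 : (1 : ℝ) ≤ nm N g := by exact_mod_cast nm_pos_pr hN.two_le g
    rw [mem_ball_pr hN] at hg
    rw [sh_int (Real.log_nonneg h1) ((Real.log_le_iff_le_exp hp).2 hg),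
      Real.exp_neg (Real.log _), Real.exp_log hp]
    ring

theorem Sh_asymp_pr (hN : Good N) {ρ : ℝ} (hC : Cnt N ρ) {ε : ℝ} (hε : 0 < ε) :
    ∃ C : ℝ, 0 ≤ C ∧ ∀ t : ℝ, 0 ≤ t → |Sh N t - ρ * t| ≤ ε * t + C := by
  obtain ⟨C, hC0, hCb⟩ := sh_card hN hC hε
  have hρ := hC.1
  refine ⟨ρ + ε + 2 * C, by positivity, ?_⟩
  intro t ht
  obtain ⟨hI, hS⟩ := sh_eq hN ht
  have key : ∀ v : ℝ, 0 ≤ v → |((ball N (Real.exp v)).card : ℝ) * Real.exp (-v) - ρ| ≤
      ε + C * Real.exp (-v) := by
    intro v hv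
    have h1 := hCb v hv
    have h2 : ((ball N (Real.exp v)).card : ℝ) * Real.exp (-v) - ρ =
        (((ball N (Real.exp v)).card : ℝ) - ρ * Real.exp v) * Real.exp (-v) := by
      rw [sub_mul, mul_assoc ρ, ← Real.exp_add, add_neg_cancel, Real.exp_zero, mul_one]
    have hp : 0 < Real.exp (-v) := Real.exp_pos _
    rw [h2, abs_mul, abs_of_pos hp]
    calc |((ball N (Real.exp v)).card : ℝ) - ρ * Real.exp v| * Real.exp (-v)
        ≤ (ε * Real.exp v + C) * Real.exp (-v) := mul_le_mul_of_nonneg_right h1 hp.le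
      _ = ε + C * Real.exp (-v) := by
          rw [add_mul, mul_assoc ε, ← Real.exp_add, add_neg_cancel, Real.exp_zero, mul_one]
  have e : ∀ a b : ℝ, ∫ v in a..b, Real.exp (-v) = Real.exp (-a) - Real.exp (-b) := by
    intro a b
    have h := intervalIntegral.integral_comp_neg (a := a) (b := b) (fun v : ℝ => Real.exp v)
    rw [h, integral_exp]
  have hint : |(∫ v in (0 : ℝ)..t, ((ball N (Real.exp v)).card : ℝ) * Real.exp (-v)) - ρ * t| ≤
      ε * t + C := by
    have h1 : (∫ v in (0 : ℝ)..t, ((ball N (Real.exp v)).card : ℝ) * Real.exp (-v)) - ρ * t =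
        ∫ v in (0 : ℝ)..t, (((ball N (Real.exp v)).card : ℝ) * Real.exp (-v) - ρ) := by
      rw [intervalIntegral.integral_sub hI (intervalIntegrable_const (c := ρ)),
        intervalIntegral.integral_const, smul_eq_mul, sub_zero, mul_comm ρ]
    have hgi : IntervalIntegrable (fun v : ℝ => ε + C * Real.exp (-v)) volume 0 t :=
      (by fun_prop : Continuous fun v : ℝ => ε + C * Real.exp (-v)).intervalIntegrable _ _
    have h2 := intervalIntegral.norm_integral_le_of_norm_le ht (μ := (volume : Measure ℝ))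
      (f := fun v : ℝ => ((ball N (Real.exp v)).card : ℝ) * Real.exp (-v) - ρ)
      (g := fun v : ℝ => ε + C * Real.exp (-v))
      (ae_of_all _ fun v hv => key v hv.1.le) hgi
    have h3 : ∫ v in (0 : ℝ)..t, (ε + C * Real.exp (-v)) = ε * t + C * (1 - Real.exp (-t)) := by
      rw [intervalIntegral.integral_add intervalIntegrable_const
        ((by fun_prop : Continuous fun v : ℝ => C * Real.exp (-v)).intervalIntegrable _ _),
        intervalIntegral.integral_const, intervalIntegral.integral_const_mul, e, smul_eq_mul,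
        sub_zero, neg_zero, Real.exp_zero, mul_comm ε]
    rw [h1, ← Real.norm_eq_abs]
    refine h2.trans ?_
    rw [h3]
    have : 0 ≤ C * Real.exp (-t) := by positivity
    linarith
  have hfirst := key t ht
  have hexp : Real.exp (-t) ≤ 1 := by
    rw [Real.exp_le_one_iff]
    linarith
  have hCe : C * Real.exp (-t) ≤ C := by
    calc C * Real.exp (-t) ≤ C * 1 := mul_le_mul_of_nonneg_left hexp hC0
      _ = C := mul_one C
  rw [hS]
  rw [abs_le] at hfirst hint ⊢
  constructor <;> linarith [hfirst.1, hfirst.2, hint.1, hint.2]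


alias Sh_asymp := Sh_asymp_pr

end Pool.Agent.LVA
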