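import Pool.Agent.Lib_helper92.LVA.Defs
import Pool.Agent.Lib_helper92.ASA.All
import Pool.Agent.Lib_helper92.LVAF.BA
import Pool.Agent.Lib_helper92.LVAF.SH
import Pool.Agent.Lib_helper92.LVAF.MP
import Pool.Agent.Lib_helper92.LVAF.FI

/-! Block GU of LVA (MP_77948b_nt): the sum `G` for `R = ∅`. -/

namespace Pool.Agent.LVA

open Complex MeasureTheory Filter Topology Set Pool.Agent.AS

variable {P : Type} {N : P → ℕ}

theorem gu_two (hN : Good N) (p : P) : (2 : ℝ) ≤ N p := by exact_mod_cast hN.two_le p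

/-- The norm as an exponential. -/
theorem gu_log_nm (hN : Good N) (g : P →₀ ℕ) :
    Real.log (nm N g) = ∑ p ∈ g.support, (g p : ℝ) * Real.log (N p) := by
  unfold nm
  rw [Finsupp.prod]
  push_cast
  rw [Real.log_prod]
  · refine Finset.sum_congr rfl fun p _ => ?_
    rw [Real.log_pow]
  · intro p _
    have := gu_two hN p
    positivity

theorem gu_lg_supp (hN : Good N) (g : P →₀ ℕ) : lg N g.support ≤ Real.log (nm N g) := by
  rw [gu_log_nm hN]
  unfold lg
  refine Finset.sum_le_sum fun p hp => ?_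
  have h1 : (1 : ℝ) ≤ g p := by
    have := Finsupp.mem_support_iff.1 hp
    exact_mod_cast Nat.one_le_iff_ne_zero.2 this
  have h2 : 0 ≤ Real.log (N p) := Real.log_nonneg (by linarith [gu_two hN p])
  nlinarith

theorem gu_nm_pos (hN : Good N) (g : P →₀ ℕ) : (0 : ℝ) < nm N g := by
  exact_mod_cast nm_pos hN.two_le g

theorem gu_mem_ball (hN : Good N) (g : P →₀ ℕ) (t : ℝ) :
    g ∈ ball N (Real.exp t) ↔ Real.log (nm N g) ≤ t := by
  rw [mem_ball hN, Real.log_le_iff_le_exp (gu_nm_pos hN g)]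

theorem gu_geom (x : ℝ) (h0 : 0 < x) (h1 : x < 1) (c : ℝ) :
    HasSum (fun k : ℕ => c * x ^ k) (c * (1 - x)⁻¹) :=
  (hasSum_geometric_of_lt_one h0.le h1).mul_left c

theorem gu_cast_nm (g : P →₀ ℕ) {e : Finset P} (h : g.support = e) :
    ((nm N g : ℝ)) = ∏ p ∈ e, (N p : ℝ) ^ (g p) := by
  unfold nm
  rw [Finsupp.prod, h]
  push_cast
  rfl

/-- The sum of `1/N g` over the elements of support `e`. -/
theorem gu_fib1 (hN : Good N) (e : Finset P) : open scoped Classical in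
    HasSum (fun g : P →₀ ℕ => if g.support = e then ((nm N g : ℝ))⁻¹ else 0) (vf N e)⁻¹ := by
  classical
  have key := fiber_sum (fun p k => ((N p : ℝ)⁻¹) ^ k) (fun p => ((N p : ℝ) - 1)⁻¹)
    (fun p k => by positivity) e (fun p _ => by
      have h2 := gu_two hN p
      have hx0 : 0 < (N p : ℝ)⁻¹ := by positivity
      have hx1 : (N p : ℝ)⁻¹ < 1 := by
        rw [inv_lt_one₀ (by linarith)]
        linarith
      have := gu_geom ((N p : ℝ)⁻¹) hx0 hx1 ((N p : ℝ)⁻¹)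
      have e1 : (N p : ℝ)⁻¹ * (1 - (N p : ℝ)⁻¹)⁻¹ = ((N p : ℝ) - 1)⁻¹ := by
        have h3 : (N p : ℝ) ≠ 0 := by linarith
        have h4 : (N p : ℝ) - 1 ≠ 0 := by linarith
        rw [← mul_inv]
        congr 1
        field_simp
      rw [e1] at this
      have e2 : (fun k : ℕ => ((N p : ℝ)⁻¹) ^ (k + 1)) =
          fun k : ℕ => (N p : ℝ)⁻¹ * (N p : ℝ)⁻¹ ^ k := by
        funext k
        rw [pow_succ']
      rw [e2]
      exact this)
  have e3 : (vf N e)⁻¹ = ∏ p ∈ e, ((N p : ℝ) - 1)⁻¹ := by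
    unfold vf
    rw [Finset.prod_inv_distrib]
  rw [e3]
  convert key using 1
  funext g
  split_ifs with h
  · rw [gu_cast_nm g h, ← Finset.prod_inv_distrib]
    refine Finset.prod_congr rfl fun p _ => ?_
    rw [inv_pow]
  · rfl

/-- The majorant: `∑ ∏ (N p)^{-(k+1)/2}` over the elements of support `e`. -/
theorem gu_fib2 (hN : Good N) (e : Finset P) : open scoped Classical in
    HasSum (fun g : P →₀ ℕ => if g.support = e then ∏ p ∈ e, ((√(N p))⁻¹) ^ (g p + 1) else 0)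
      (∏ p ∈ e, ((N p : ℝ) - √(N p))⁻¹) := by
  classical
  refine fiber_sum (fun p k => ((√(N p : ℝ))⁻¹) ^ (k + 1)) (fun p => ((N p : ℝ) - √(N p))⁻¹)
    (fun p k => by positivity) e (fun p _ => ?_)
  have h2 := gu_two hN p
  have hs : 1 < √(N p : ℝ) := by
    rw [Real.lt_sqrt (by norm_num)]
    linarith
  have hx0 : 0 < (√(N p : ℝ))⁻¹ := by positivity
  have hx1 : (√(N p : ℝ))⁻¹ < 1 := by
    rw [inv_lt_one₀ (by linarith)]
    linarith
  have := gu_geom ((√(N p : ℝ))⁻¹) hx0 hx1 (((√(N p : ℝ))⁻¹) ^ 2)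
  have hsq : √(N p : ℝ) * √(N p : ℝ) = N p := Real.mul_self_sqrt (by linarith)
  have e1 : ((√(N p : ℝ))⁻¹) ^ 2 * (1 - (√(N p : ℝ))⁻¹)⁻¹ = ((N p : ℝ) - √(N p))⁻¹ := by
    have h3 : √(N p : ℝ) ≠ 0 := by linarith
    have h4 : √(N p : ℝ) - 1 ≠ 0 := by linarith
    rw [inv_pow, ← mul_inv]
    congr 1
    nth_rewrite 3 [← hsq]
    field_simp
  rw [e1] at this
  have e2 : (fun k : ℕ => ((√(N p : ℝ))⁻¹) ^ (k + 1 + 1)) =
      fun k : ℕ => ((√(N p : ℝ))⁻¹) ^ 2 * ((√(N p : ℝ))⁻¹) ^ k := by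
    funext k
    rw [← pow_add]
    congr 1
    ring
  show HasSum (fun k : ℕ => ((√(N p : ℝ))⁻¹) ^ (k + 1 + 1)) _
  rw [e2]
  exact this

theorem GG_lower_pr (hN : Good N) (t : ℝ) : Sh N t ≤ GG N ∅ t := by
  classical
  unfold Sh GG
  have hmap : ∀ g ∈ ball N (Real.exp t), g.support ∈ SF N ∅ t := by
    intro g hg
    rw [mem_SF hN]
    refine ⟨Finset.disjoint_empty_right _, ?_⟩
    exact (gu_lg_supp hN g).trans ((gu_mem_ball hN g t).1 hg)
  rw [← Finset.sum_fiberwise_of_maps_to hmap]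
  refine Finset.sum_le_sum fun e _ => ?_
  have h := gu_fib1 hN e
  rw [Finset.sum_filter]
  exact sum_le_hasSum (ball N (Real.exp t)) (fun g _ => by split_ifs <;> positivity) h

/-- The pointwise inequality behind `GG_upper_pr`. -/
theorem gu_point (hN : Good N) {t ω : ℝ} {e : Finset P} (he : lg N e ≤ t) (g : P →₀ ℕ)
    (hg : g.support = e) (hb : t + ω < Real.log (nm N g)) :
    ((nm N g : ℝ))⁻¹ ≤ Real.exp (-(ω / 2)) * ∏ p ∈ e, ((√(N p))⁻¹) ^ (g p + 1) := by
  have hp : ∀ p : P, (0 : ℝ) < N p := fun p => by linarith [gu_two hN p]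
  have e1 : ∀ p : P, (√(N p : ℝ))⁻¹ = Real.exp (-(Real.log (N p) / 2)) := by
    intro p
    rw [Real.exp_neg, Real.sqrt_eq_rpow, Real.rpow_def_of_pos (hp p)]
    congr 2
    ring
  have e2 : ∏ p ∈ e, ((√(N p : ℝ))⁻¹) ^ (g p + 1) =
      Real.exp (-((Real.log (nm N g) + lg N e) / 2)) := by
    rw [gu_log_nm hN, hg]
    unfold lg
    rw [← Finset.sum_add_distrib, Finset.sum_div, ← Finset.sum_neg_distrib, Real.exp_sum]
    refine Finset.prod_congr rfl fun p _ => ?_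
    rw [e1 p, ← Real.exp_nat_mul]
    congr 1
    push_cast
    ring
  have e3 : ((nm N g : ℝ))⁻¹ = Real.exp (-Real.log (nm N g)) := by
    rw [Real.exp_neg, Real.exp_log (gu_nm_pos hN g)]
  rw [e2, e3, ← Real.exp_add]
  apply Real.exp_le_exp.2
  linarith

/-- The inequality for one support. -/
theorem gu_one (hN : Good N) {t ω : ℝ} {e : Finset P} (he : lg N e ≤ t) :
    open scoped Classical in
    (vf N e)⁻¹ ≤ (∑ g ∈ (ball N (Real.exp (t + ω))).filter (fun g => g.support = e),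
      ((nm N g : ℝ))⁻¹) + Real.exp (-(ω / 2)) * ∏ p ∈ e, ((N p : ℝ) - √(N p))⁻¹ := by
  classical
  have h1 := gu_fib1 hN e
  have h2 := (gu_fib2 hN e).mul_left (Real.exp (-(ω / 2)))
  have h3 : HasSum (fun g : P →₀ ℕ => if g ∈ (ball N (Real.exp (t + ω))).filter
      (fun g => g.support = e) then ((nm N g : ℝ))⁻¹ else 0)
      (∑ g ∈ (ball N (Real.exp (t + ω))).filter (fun g => g.support = e),
        ((nm N g : ℝ))⁻¹) := by
    have := hasSum_sum_of_ne_finset_zero (L := SummationFilter.unconditional _) (f := fun g : P →₀ ℕ => if g ∈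
      (ball N (Real.exp (t + ω))).filter (fun g => g.support = e) then ((nm N g : ℝ))⁻¹ else 0)
      (s := (ball N (Real.exp (t + ω))).filter (fun g => g.support = e))
      (fun g hg => if_neg hg)
    convert this using 1
    refine Finset.sum_congr rfl fun g hg => ?_
    rw [if_pos hg]
  refine hasSum_le (fun g => ?_) h1 (h3.add h2)
  by_cases hg : g.support = e
  · rw [if_pos hg, if_pos hg]
    by_cases hb : g ∈ ball N (Real.exp (t + ω))
    · rw [if_pos (Finset.mem_filter.2 ⟨hb, hg⟩)]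
      have : 0 ≤ Real.exp (-(ω / 2)) * ∏ p ∈ e, ((√(N p : ℝ))⁻¹) ^ (g p + 1) := by positivity
      linarith
    · rw [if_neg (fun h => hb (Finset.mem_filter.1 h).1), zero_add]
      rw [gu_mem_ball hN, not_le] at hb
      exact gu_point hN he g hg hb
  · rw [if_neg hg, if_neg hg]
    split_ifs
    · have := gu_nm_pos hN g
      simp only [mul_zero, add_zero]
      positivity
    · simp

theorem gu_prod (hN : Good N) (t : ℝ) :
    ∑ e ∈ SF N ∅ t, ∏ p ∈ e, ((N p : ℝ) - √(N p))⁻¹ ≤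
      Real.exp (∑ p ∈ PB N t, ((N p : ℝ) - √(N p))⁻¹) := by
  classical
  have hpos : ∀ p : P, 0 ≤ ((N p : ℝ) - √(N p))⁻¹ := by
    intro p
    have h2 := gu_two hN p
    have h3 : √(N p : ℝ) ≤ N p := by
      rw [Real.sqrt_le_left (by linarith)]
      nlinarith
    exact inv_nonneg.2 (by linarith)
  calc ∑ e ∈ SF N ∅ t, ∏ p ∈ e, ((N p : ℝ) - √(N p))⁻¹
      ≤ ∑ e ∈ (PB N t).powerset, ∏ p ∈ e, ((N p : ℝ) - √(N p))⁻¹ := by
        apply Finset.sum_le_sum_of_subset_of_nonneg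
        · unfold SF
          intro e he
          exact (Finset.mem_filter.1 he).1
        · intro e _ _
          exact Finset.prod_nonneg fun p _ => hpos p
    _ = ∏ p ∈ PB N t, (1 + ((N p : ℝ) - √(N p))⁻¹) := by
        rw [Finset.prod_one_add]
    _ ≤ ∏ p ∈ PB N t, Real.exp (((N p : ℝ) - √(N p))⁻¹) := by
        refine Finset.prod_le_prod (fun p _ => ?_) fun p _ => ?_
        · linarith [hpos p]
        · linarith [Real.add_one_le_exp (((N p : ℝ) - √(N p))⁻¹)]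
    _ = _ := by rw [Real.exp_sum]

theorem GG_upper_pr (hN : Good N) {ε : ℝ} (hε : 0 < ε) : ∃ C : ℝ, 0 ≤ C ∧ ∀ t : ℝ, 0 ≤ t →
    GG N ∅ t ≤ Sh N ((1 + ε) * t) + C := by
  classical
  obtain ⟨C, hC0, hC⟩ := sum_inv hN (ε := ε / 4) (by linarith)
  refine ⟨Real.exp C, (Real.exp_pos C).le, fun t ht => ?_⟩
  have hle : ∀ e ∈ SF N ∅ t, (vf N e)⁻¹ ≤
      (∑ g ∈ (ball N (Real.exp (t + ε * t))).filter (fun g => g.support = e),
      ((nm N g : ℝ))⁻¹) + Real.exp (-(ε * t / 2)) * ∏ p ∈ e, ((N p : ℝ) - √(N p))⁻¹ :=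
    fun e he => gu_one hN ((mem_SF hN).1 he).2
  have h1 : ∑ e ∈ SF N ∅ t, ∑ g ∈ (ball N (Real.exp (t + ε * t))).filter
      (fun g => g.support = e), ((nm N g : ℝ))⁻¹ ≤ Sh N ((1 + ε) * t) := by
    unfold Sh
    have e0 : (1 + ε) * t = t + ε * t := by ring
    rw [e0]
    have hinj : ∀ e ∈ SF N ∅ t, ∀ e' ∈ SF N ∅ t, e ≠ e' →
        Disjoint ((ball N (Real.exp (t + ε * t))).filter (fun g => g.support = e))
          ((ball N (Real.exp (t + ε * t))).filter (fun g => g.support = e')) := by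
      intro e _ e' _ hne
      rw [Finset.disjoint_left]
      intro g hg hg'
      exact hne ((Finset.mem_filter.1 hg).2.symm.trans (Finset.mem_filter.1 hg').2)
    rw [← Finset.sum_biUnion hinj]
    apply Finset.sum_le_sum_of_subset_of_nonneg
    · intro g hg
      obtain ⟨e, _, he⟩ := Finset.mem_biUnion.1 hg
      exact (Finset.mem_filter.1 he).1
    · intro g _ _
      have := gu_nm_pos hN g
      positivity
  have h2 : Real.exp (-(ε * t / 2)) * ∑ e ∈ SF N ∅ t, ∏ p ∈ e, ((N p : ℝ) - √(N p))⁻¹ ≤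
      Real.exp C := by
    have h3 := gu_prod hN t
    have h4 := hC t ht
    calc Real.exp (-(ε * t / 2)) * ∑ e ∈ SF N ∅ t, ∏ p ∈ e, ((N p : ℝ) - √(N p))⁻¹
        ≤ Real.exp (-(ε * t / 2)) * Real.exp (ε / 4 * t + C) :=
          mul_le_mul_of_nonneg_left (h3.trans (Real.exp_le_exp.2 h4)) (Real.exp_pos _).le
      _ = Real.exp (C - ε * t / 4) := by
          rw [← Real.exp_add]
          congr 1
          ring
      _ ≤ Real.exp C := by
          apply Real.exp_le_exp.2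
          nlinarith
  unfold GG
  calc ∑ e ∈ SF N ∅ t, (vf N e)⁻¹
      ≤ ∑ e ∈ SF N ∅ t, ((∑ g ∈ (ball N (Real.exp (t + ε * t))).filter
          (fun g => g.support = e), ((nm N g : ℝ))⁻¹) +
          Real.exp (-(ε * t / 2)) * ∏ p ∈ e, ((N p : ℝ) - √(N p))⁻¹) := Finset.sum_le_sum hle
    _ ≤ Sh N ((1 + ε) * t) + Real.exp C := by
        rw [Finset.sum_add_distrib, ← Finset.mul_sum]
        linarith

theorem GG_zero_pr (hN : Good N) {ρ : ℝ} (hC : Cnt N ρ) {ε : ℝ} (hε : 0 < ε) :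
    ∃ C : ℝ, 0 ≤ C ∧ ∀ t : ℝ, 0 ≤ t → |GG N ∅ t - ρ * t| ≤ ε * t + C := by
  have hρ : 0 < ρ := hC.1
  set η : ℝ := min 1 (ε / (2 * ρ)) with hη
  have hη0 : 0 < η := lt_min one_pos (by positivity)
  have hη1 : η ≤ 1 := min_le_left _ _
  have hη2 : ρ * η ≤ ε / 2 := by
    have : η ≤ ε / (2 * ρ) := min_le_right _ _
    calc ρ * η ≤ ρ * (ε / (2 * ρ)) := mul_le_mul_of_nonneg_left this hρ.le
      _ = ε / 2 := by field_simp
  obtain ⟨C1, hC1, h1⟩ := GG_upper_pr hN hη0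
  obtain ⟨C2, hC2, h2⟩ := Sh_asymp hN hC (ε := ε / 4) (by linarith)
  refine ⟨C1 + C2, by linarith, fun t ht => ?_⟩
  have h3 := GG_lower_pr hN t
  have h4 := h1 t ht
  have h5 := abs_le.1 (h2 t ht)
  have h6 := abs_le.1 (h2 ((1 + η) * t) (by positivity))
  rw [abs_le]
  constructor
  · nlinarith [h5.1]
  · have h7 : ρ * ((1 + η) * t) = ρ * t + ρ * η * t := by ring
    have h8 : ρ * η * t ≤ ε / 2 * t := mul_le_mul_of_nonneg_right hη2 ht
    have h9 : ε / 4 * ((1 + η) * t) ≤ ε / 2 * t := by nlinarith [mul_nonneg hε.le ht]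
    linarith [h6.2]


alias GG_lower := GG_lower_pr
alias GG_upper := GG_upper_pr
alias GG_zero := GG_zero_pr

end Pool.Agent.LVA
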