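import Pool.Agent.Lib_helper92.LVA.Defs
import Pool.Agent.Lib_helper92.ASA.All
import Pool.Agent.Lib_helper92.LVAF.BA
import Pool.Agent.Lib_helper92.LVAF.BB
import Pool.Agent.Lib_helper92.LVAF.GU

/-! Block GA of LVA (MP_77948b_nt): the sums `G_R`. -/

namespace Pool.Agent.LVA

open Complex MeasureTheory Filter Topology Set Pool.Agent.AS

variable {P : Type} {N : P → ℕ}

theorem ga_vf_pos (hN : Good N) (m : Finset P) : 0 < vf N m :=
  lt_of_lt_of_le one_pos (one_le_vf hN m)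

theorem GG_split_pr (hN : Good N) (R : Finset P) (t : ℝ) :
    GG N ∅ t = ∑ l ∈ R.powerset, (vf N l)⁻¹ * GG N R (t - lg N l) := by
  classical
  have hmap : ∀ e ∈ SF N ∅ t, e ∩ R ∈ R.powerset := by
    intro e _
    rw [Finset.mem_powerset]
    exact Finset.inter_subset_right
  unfold GG
  rw [← Finset.sum_fiberwise_of_maps_to hmap]
  refine Finset.sum_congr rfl fun l hl => ?_
  rw [Finset.mem_powerset] at hl
  rw [Finset.mul_sum]
  refine Finset.sum_bij' (fun e _ => e \ R) (fun k _ => l ∪ k) ?_ ?_ ?_ ?_ ?_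
  · intro e he
    obtain ⟨he1, he2⟩ := Finset.mem_filter.1 he
    rw [mem_SF hN] at he1 ⊢
    refine ⟨Finset.sdiff_disjoint, ?_⟩
    have h1 : lg N (e ∩ R ∪ e \ R) = lg N (e ∩ R) + lg N (e \ R) := by
      apply lg_union
      rw [Finset.disjoint_left]
      intro p hp hq
      exact (Finset.mem_sdiff.1 hq).2 (Finset.mem_inter.1 hp).2
    have h2 : e ∩ R ∪ e \ R = e := by
      rw [Finset.union_comm]
      exact Finset.sdiff_union_inter e R
    rw [h2, he2] at h1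
    linarith [he1.2]
  · intro k hk
    rw [mem_SF hN] at hk
    rw [Finset.mem_filter, mem_SF hN]
    have hd : Disjoint l k := by
      rw [Finset.disjoint_left]
      intro p hp hq
      exact (Finset.disjoint_left.1 hk.1 hq) (hl hp)
    refine ⟨⟨Finset.disjoint_empty_right _, ?_⟩, ?_⟩
    · rw [lg_union hd]
      linarith [hk.2]
    · rw [Finset.union_inter_distrib_right]
      rw [Finset.disjoint_iff_inter_eq_empty.1 hk.1, Finset.union_empty]
      exact Finset.inter_eq_left.2 hl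
  · intro e he
    obtain ⟨he1, he2⟩ := Finset.mem_filter.1 he
    show l ∪ e \ R = e
    rw [← he2, Finset.union_comm]
    exact Finset.sdiff_union_inter e R
  · intro k hk
    rw [mem_SF hN] at hk
    show (l ∪ k) \ R = k
    rw [Finset.union_sdiff_distrib, Finset.sdiff_eq_empty_iff_subset.2 hl, Finset.empty_union]
    exact Finset.sdiff_eq_self_of_disjoint hk.1
  · intro e he
    obtain ⟨he1, he2⟩ := Finset.mem_filter.1 he
    have h2 : l ∪ e \ R = e := by
      rw [← he2, Finset.union_comm]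
      exact Finset.sdiff_union_inter e R
    have hd : Disjoint l (e \ R) := by
      rw [Finset.disjoint_left]
      intro p hp hq
      exact (Finset.mem_sdiff.1 hq).2 (hl hp)
    have h3 := vf_union (N := N) hd
    rw [h2] at h3
    rw [h3, mul_inv]

theorem GG_mono_pr (hN : Good N) (R : Finset P) {s t : ℝ} (h : s ≤ t) :
    GG N R s ≤ GG N R t := by
  unfold GG
  apply Finset.sum_le_sum_of_subset_of_nonneg
  · intro e he
    rw [mem_SF hN] at he ⊢
    exact ⟨he.1, he.2.trans h⟩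
  · intro e _ _
    exact (inv_pos.2 (ga_vf_pos hN e)).le

theorem ga_nonneg (hN : Good N) (R : Finset P) (t : ℝ) : 0 ≤ GG N R t := by
  unfold GG
  exact Finset.sum_nonneg fun e _ => (inv_pos.2 (ga_vf_pos hN e)).le

/-- Lower bound. -/
theorem ga_low (hN : Good N) (R : Finset P) (t : ℝ) : ph N R * GG N ∅ t ≤ GG N R t := by
  have hph := ph_pos hN R
  have h1 : GG N ∅ t ≤ (ph N R)⁻¹ * GG N R t := by
    rw [GG_split_pr hN R t, ← sum_vf_inv hN R, Finset.sum_mul]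
    refine Finset.sum_le_sum fun l _ => ?_
    refine mul_le_mul_of_nonneg_left (GG_mono_pr hN R ?_) (inv_pos.2 (ga_vf_pos hN l)).le
    linarith [lg_nonneg hN l]
  calc ph N R * GG N ∅ t ≤ ph N R * ((ph N R)⁻¹ * GG N R t) :=
        mul_le_mul_of_nonneg_left h1 hph.le
    _ = GG N R t := by
        rw [← mul_assoc, mul_inv_cancel₀ hph.ne', one_mul]

/-- Upper bound. -/
theorem ga_up (hN : Good N) (R : Finset P) (t ω : ℝ) : open scoped Classical in
    GG N R t * (1 - ∑ l ∈ R.powerset.filter (fun l => ω < lg N l), (vf N l)⁻¹) ≤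
      ph N R * GG N ∅ (t + ω) := by
  classical
  have hph := ph_pos hN R
  have hph1 := ph_le_one hN R
  set τ := ∑ l ∈ R.powerset.filter (fun l => ω < lg N l), (vf N l)⁻¹ with hτ
  have hτ0 : 0 ≤ τ := Finset.sum_nonneg fun l _ => (inv_pos.2 (ga_vf_pos hN l)).le
  have hG := ga_nonneg hN R t
  have h0 : (∑ l ∈ R.powerset.filter (fun l => ω < lg N l), (vf N l)⁻¹) +
      ∑ l ∈ R.powerset.filter (fun l => ¬ ω < lg N l), (vf N l)⁻¹ = (ph N R)⁻¹ := by
    rw [Finset.sum_filter_add_sum_filter_not, sum_vf_inv hN R]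
  have h1 : GG N R t * ((ph N R)⁻¹ - τ) ≤ GG N ∅ (t + ω) := by
    have e1 : (ph N R)⁻¹ - τ = ∑ l ∈ R.powerset.filter (fun l => ¬ ω < lg N l), (vf N l)⁻¹ := by
      linarith
    rw [e1, GG_split_pr hN R (t + ω), Finset.mul_sum]
    calc ∑ l ∈ R.powerset.filter (fun l => ¬ ω < lg N l), GG N R t * (vf N l)⁻¹
        ≤ ∑ l ∈ R.powerset.filter (fun l => ¬ ω < lg N l),
            (vf N l)⁻¹ * GG N R (t + ω - lg N l) := by
          refine Finset.sum_le_sum fun l hl => ?_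
          have h2 := (Finset.mem_filter.1 hl).2
          rw [mul_comm]
          refine mul_le_mul_of_nonneg_left (GG_mono_pr hN R ?_) (inv_pos.2 (ga_vf_pos hN l)).le
          linarith [not_lt.1 h2]
      _ ≤ _ := by
          apply Finset.sum_le_sum_of_subset_of_nonneg
          · exact Finset.filter_subset _ _
          · intro l _ _
            exact mul_nonneg (inv_pos.2 (ga_vf_pos hN l)).le (ga_nonneg hN R _)
  have h2 : GG N R t * (1 - τ) ≤ ph N R * (GG N R t * ((ph N R)⁻¹ - τ)) := by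
    have e2 : ph N R * (GG N R t * ((ph N R)⁻¹ - τ)) = GG N R t * (1 - ph N R * τ) := by
      have := mul_inv_cancel₀ hph.ne'
      calc ph N R * (GG N R t * ((ph N R)⁻¹ - τ))
          = GG N R t * (ph N R * (ph N R)⁻¹ - ph N R * τ) := by ring
        _ = _ := by rw [this]
    rw [e2]
    apply mul_le_mul_of_nonneg_left _ hG
    nlinarith
  exact h2.trans (mul_le_mul_of_nonneg_left h1 hph.le)

theorem ga_final {G p ρ A ε ε₁ ε₂ L t C₁ τ K : ℝ} (hp : 0 < p) (hρ : 0 < ρ)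
    (hε : 0 < ε) (hε₁ : 0 < ε₁) (hε₂ : 0 < ε₂) (hε₁1 : ε₁ ≤ 1) (hε₂1 : ε₂ ≤ 1)
    (hL : 1 ≤ L) (ht : 0 ≤ t) (htA : t ≤ A * L) (hC₁ : 0 ≤ C₁)
    (h1 : ε₁ * A ≤ ε / 8) (h2 : (ρ + 1) * ε₂ ≤ ε / 8) (h3 : C₁ ≤ ε / 8 * L)
    (hτ0 : 0 ≤ τ) (hτ1 : τ ≤ 1 / 2) (hK : K = (ρ + 1) * (A + 1) + C₁)
    (hτ2 : 2 * τ * K ≤ ε / 8)
    (hG : 0 ≤ G)
    (hU : G * (1 - τ) ≤ p * ((ρ + ε₁) * (t + ε₂ * L) + C₁)) :
    G ≤ p * (ρ * t) + ε * p * L := by
  set X := (ρ + ε₁) * (t + ε₂ * L) + C₁ with hX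
  have hL0 : 0 < L := by linarith
  have hX0 : 0 ≤ X := by positivity
  have hX1 : X ≤ ρ * t + 3 / 8 * ε * L := by
    have a1 : ε₁ * t ≤ ε / 8 * L := by
      calc ε₁ * t ≤ ε₁ * (A * L) := mul_le_mul_of_nonneg_left htA hε₁.le
        _ = ε₁ * A * L := by ring
        _ ≤ ε / 8 * L := mul_le_mul_of_nonneg_right h1 hL0.le
    have a2 : (ρ + ε₁) * (ε₂ * L) ≤ ε / 8 * L := by
      calc (ρ + ε₁) * (ε₂ * L) ≤ (ρ + 1) * (ε₂ * L) :=
            mul_le_mul_of_nonneg_right (by linarith) (by positivity)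
        _ = (ρ + 1) * ε₂ * L := by ring
        _ ≤ ε / 8 * L := mul_le_mul_of_nonneg_right h2 hL0.le
    have a3 : X = ρ * t + ε₁ * t + (ρ + ε₁) * (ε₂ * L) + C₁ := by rw [hX]; ring
    rw [a3]
    nlinarith
  have hX2 : X ≤ K * L := by
    have a1 : (ρ + ε₁) * (t + ε₂ * L) ≤ (ρ + 1) * ((A + 1) * L) := by
      apply mul_le_mul (by linarith) _ (by positivity) (by linarith)
      nlinarith
    have a2 : C₁ ≤ C₁ * L := by nlinarith
    rw [hX, hK]
    nlinarith
  have hG1 : G ≤ p * X * (1 + 2 * τ) := by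
    have a1 : G * (1 - τ) * (1 + 2 * τ) ≤ p * X * (1 + 2 * τ) :=
      mul_le_mul_of_nonneg_right hU (by linarith)
    have a2 : G ≤ G * (1 - τ) * (1 + 2 * τ) := by
      have a3 : 1 ≤ (1 - τ) * (1 + 2 * τ) := by nlinarith
      nlinarith
    linarith
  have h5 : 2 * τ * X ≤ ε / 8 * L := by
    calc 2 * τ * X ≤ 2 * τ * (K * L) := mul_le_mul_of_nonneg_left hX2 (by linarith)
      _ = 2 * τ * K * L := by ring
      _ ≤ ε / 8 * L := mul_le_mul_of_nonneg_right hτ2 hL0.le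
  have h6 : X * (1 + 2 * τ) ≤ ρ * t + ε * L := by
    have : X * (1 + 2 * τ) = X + 2 * τ * X := by ring
    rw [this]
    nlinarith
  calc G ≤ p * X * (1 + 2 * τ) := hG1
    _ = p * (X * (1 + 2 * τ)) := by ring
    _ ≤ p * (ρ * t + ε * L) := mul_le_mul_of_nonneg_left h6 hp.le
    _ = _ := by ring

theorem GG_asymp_pr (hN : Good N) {ρ : ℝ} (hC : Cnt N ρ) {A ε : ℝ} (hA : 0 < A) (hε : 0 < ε) :
    ∃ L₀ : ℝ, 1 ≤ L₀ ∧ ∀ L, L₀ ≤ L → ∀ R : Finset P, lg N R ≤ A * L → ∀ t, 0 ≤ t → t ≤ A * L →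
      |GG N R t - ρ * ph N R * t| ≤ ε * ph N R * L := by
  classical
  have hρ : 0 < ρ := hC.1
  set ε₁ : ℝ := min 1 (ε / (8 * A)) with hε₁
  have hε₁0 : 0 < ε₁ := lt_min one_pos (by positivity)
  have hε₁1 : ε₁ ≤ 1 := min_le_left _ _
  have hε₁A : ε₁ * A ≤ ε / 8 := by
    calc ε₁ * A ≤ ε / (8 * A) * A := mul_le_mul_of_nonneg_right (min_le_right _ _) hA.le
      _ = ε / 8 := by field_simp
  set ε₂ : ℝ := min 1 (ε / (8 * (ρ + 1))) with hε₂
  have hε₂0 : 0 < ε₂ := lt_min one_pos (by positivity)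
  have hε₂1 : ε₂ ≤ 1 := min_le_left _ _
  have hε₂A : (ρ + 1) * ε₂ ≤ ε / 8 := by
    calc (ρ + 1) * ε₂ ≤ (ρ + 1) * (ε / (8 * (ρ + 1))) :=
          mul_le_mul_of_nonneg_left (min_le_right _ _) (by linarith)
      _ = ε / 8 := by field_simp
  obtain ⟨C₁, hC₁, h1⟩ := GG_zero hN hC hε₁0
  obtain ⟨C₃, hC₃, h3⟩ := tail_R hN (ε := ε₂ / (4 * A)) (by positivity)
  set K : ℝ := (ρ + 1) * (A + 1) + C₁ with hK
  have hK0 : 0 < K := by positivity
  set L₀ : ℝ := max 1 (max (8 * C₁ / ε) (max (8 * C₃ / ε₂) (64 * C₃ * K / (ε₂ * ε)))) with hL₀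
  refine ⟨L₀, le_max_left _ _, fun L hL R hR t ht htA => ?_⟩
  have hL1 : 1 ≤ L := (le_max_left _ _).trans hL
  have hL0 : 0 < L := by linarith
  have hLa : 8 * C₁ / ε ≤ L := ((le_max_left _ _).trans (le_max_right _ _)).trans hL
  have hLb : 8 * C₃ / ε₂ ≤ L :=
    (((le_max_left _ _).trans (le_max_right _ _)).trans (le_max_right _ _)).trans hL
  have hLc : 64 * C₃ * K / (ε₂ * ε) ≤ L :=
    (((le_max_right _ _).trans (le_max_right _ _)).trans (le_max_right _ _)).trans hL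
  have hC₁L : C₁ ≤ ε / 8 * L := by
    rw [div_le_iff₀ hε] at hLa
    linarith
  have hph := ph_pos hN R
  have hph1 := ph_le_one hN R
  rw [abs_le]
  constructor
  · have h4 := ga_low hN R t
    have h5 := (abs_le.1 (h1 t ht)).1
    have h6 : ρ * t - ε * L ≤ GG N ∅ t := by
      have : ε₁ * t ≤ ε / 8 * L := by
        calc ε₁ * t ≤ ε₁ * (A * L) := mul_le_mul_of_nonneg_left htA hε₁0.le
          _ = ε₁ * A * L := by ring
          _ ≤ ε / 8 * L := mul_le_mul_of_nonneg_right hε₁A hL0.le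
      nlinarith
    have h7 : ph N R * (ρ * t - ε * L) ≤ ph N R * GG N ∅ t :=
      mul_le_mul_of_nonneg_left h6 hph.le
    nlinarith
  · set τ := ∑ l ∈ R.powerset.filter (fun l => ε₂ * L < lg N l), (vf N l)⁻¹ with hτ
    have hτ0 : 0 ≤ τ := Finset.sum_nonneg fun l _ => (inv_pos.2 (ga_vf_pos hN l)).le
    have hτ3 : τ ≤ 4 * C₃ / (ε₂ * L) := by
      have a1 := h3 R (ε₂ * L)
      have a2 : ε₂ / (4 * A) * lg N R - ε₂ * L / 2 ≤ -(ε₂ * L / 4) := by
        have : ε₂ / (4 * A) * lg N R ≤ ε₂ / (4 * A) * (A * L) :=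
          mul_le_mul_of_nonneg_left hR (by positivity)
        have e1 : ε₂ / (4 * A) * (A * L) = ε₂ * L / 4 := by field_simp
        linarith
      have a3 : Real.exp (ε₂ / (4 * A) * lg N R - ε₂ * L / 2) ≤ (ε₂ * L / 4)⁻¹ := by
        calc Real.exp (ε₂ / (4 * A) * lg N R - ε₂ * L / 2) ≤ Real.exp (-(ε₂ * L / 4)) :=
              Real.exp_le_exp.2 a2
          _ ≤ (ε₂ * L / 4)⁻¹ := by
              rw [Real.exp_neg]
              apply inv_anti₀ (by positivity)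
              linarith [Real.add_one_le_exp (ε₂ * L / 4)]
      calc τ ≤ C₃ * Real.exp (ε₂ / (4 * A) * lg N R - ε₂ * L / 2) := a1
        _ ≤ C₃ * (ε₂ * L / 4)⁻¹ := mul_le_mul_of_nonneg_left a3 (by linarith)
        _ = 4 * C₃ / (ε₂ * L) := by
            field_simp
    have hτ1 : τ ≤ 1 / 2 := by
      refine hτ3.trans ?_
      rw [div_le_iff₀ (by positivity)]
      rw [div_le_iff₀ hε₂0] at hLb
      linarith
    have hτ2 : 2 * τ * K ≤ ε / 8 := by
      have a1 : 2 * τ * K ≤ 2 * (4 * C₃ / (ε₂ * L)) * K := by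
        apply mul_le_mul_of_nonneg_right _ hK0.le
        linarith
      refine a1.trans ?_
      have e1 : 2 * (4 * C₃ / (ε₂ * L)) * K = 8 * C₃ * K / (ε₂ * L) := by ring
      rw [e1, div_le_iff₀ (by positivity)]
      rw [div_le_iff₀ (by positivity)] at hLc
      nlinarith
    have hU : GG N R t * (1 - τ) ≤ ph N R * ((ρ + ε₁) * (t + ε₂ * L) + C₁) := by
      refine (ga_up hN R t (ε₂ * L)).trans (mul_le_mul_of_nonneg_left ?_ hph.le)
      have := (abs_le.1 (h1 (t + ε₂ * L) (by positivity))).2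
      linarith
    have := ga_final (G := GG N R t) hph hρ hε hε₁0 hε₂0 hε₁1 hε₂1 hL1 ht htA hC₁ hε₁A hε₂A
      hC₁L hτ0 hτ1 hK hτ2 (ga_nonneg hN R t) hU
    linarith


alias GG_split := GG_split_pr
alias GG_mono := GG_mono_pr
alias GG_asymp := GG_asymp_pr

end Pool.Agent.LVA
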