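import Pool.Agent.Lib_helper92.LVA.Defs
import Pool.Agent.Lib_helper92.ASA.All
import Pool.Agent.Lib_helper92.LVAF.BA
import Pool.Agent.Lib_helper92.LVAF.GA
import Pool.Agent.Lib_helper92.LVAF.AB

/-!
# Project LVK, part A, block GW: weighted sums (helper6)
-/

namespace Pool.Agent.LVA

open Complex MeasureTheory Filter Topology Set Pool.Agent.AS

variable {P : Type} {N : P → ℕ}

/-- integration by parts on `[0, 1]` -/
theorem gw_parts {F F' : ℝ → ℂ} (hF : ∀ x ∈ Icc (0 : ℝ) 1, HasDerivAt F (F' x) x)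
    (hF' : ContinuousOn F' (Icc 0 1)) :
    ∫ x in (0 : ℝ)..1, F' x * (x : ℂ) = F 1 - ∫ x in (0 : ℝ)..1, F x := by
  have hu : uIcc (0 : ℝ) 1 = Icc 0 1 := uIcc_of_le zero_le_one
  have hFc : ContinuousOn F (Icc 0 1) := fun x hx => (hF x hx).continuousAt.continuousWithinAt
  have i1 : IntervalIntegrable F volume 0 1 := by
    apply ContinuousOn.intervalIntegrable
    rwa [hu]
  have i2 : IntervalIntegrable (fun x : ℝ => F' x * (x : ℂ)) volume 0 1 := by
    apply ContinuousOn.intervalIntegrable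
    rw [hu]
    exact hF'.mul Complex.continuous_ofReal.continuousOn
  have h1 : ∫ x in (0 : ℝ)..1, (F' x * (x : ℂ) + F x) = F 1 * ((1 : ℝ) : ℂ) - F 0 * ((0 : ℝ) : ℂ) := by
    apply intervalIntegral.integral_eq_sub_of_hasDerivAt (f := fun x : ℝ => F x * ((x : ℝ) : ℂ))
    · intro x hx
      rw [hu] at hx
      have h2 : HasDerivAt (fun x : ℝ => F x * ((x : ℝ) : ℂ)) (F' x * (x : ℂ) + F x * ((1 : ℝ) : ℂ)) x :=
        (hF x hx).mul (hasDerivAt_id x).ofReal_comp
      rw [Complex.ofReal_one, mul_one] at h2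
      exact h2
    · exact i2.add i1
  rw [intervalIntegral.integral_add i2 i1] at h1
  rw [Complex.ofReal_one, Complex.ofReal_zero, mul_one, mul_zero, sub_zero] at h1
  rw [← h1]
  ring

theorem gw_main {F F' : ℝ → ℂ} (hF : ∀ x ∈ Icc (0 : ℝ) 1, HasDerivAt F (F' x) x)
    (hF' : ContinuousOn F' (Icc 0 1)) (c T : ℝ) (hT : 0 < T) :
    F (T / T) * ((c * T : ℝ) : ℂ) - ∫ t in (0 : ℝ)..T, F' (t / T) / T * ((c * t : ℝ) : ℂ) =
      ((c * T : ℝ) : ℂ) * ∫ x in (0 : ℝ)..1, F x := by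
  have h1 : (fun t : ℝ => F' (t / T) / T * ((c * t : ℝ) : ℂ)) =
      fun t : ℝ => (fun x : ℝ => (c : ℂ) * (F' x * (x : ℂ))) (t / T) := by
    funext t
    push_cast
    have : (T : ℂ) ≠ 0 := by exact_mod_cast hT.ne'
    field_simp
  rw [h1, intervalIntegral.integral_comp_div (fun x : ℝ => (c : ℂ) * (F' x * (x : ℂ))) hT.ne',
    zero_div, div_self hT.ne', intervalIntegral.integral_const_mul, gw_parts hF hF']
  rw [Complex.real_smul]
  push_cast
  ring

theorem GG_weight_pr (hN : Good N) {ρ : ℝ} (hC : Cnt N ρ) {A K ε : ℝ} (hA : 0 < A) (hK : 0 < K)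
    (hε : 0 < ε) :
    ∃ L₀ : ℝ, 1 ≤ L₀ ∧ ∀ L, L₀ ≤ L → ∀ R : Finset P, lg N R ≤ A * L → ∀ T, 0 < T → T ≤ A * L →
      ∀ F F' : ℝ → ℂ, (∀ x ∈ Icc (0 : ℝ) 1, HasDerivAt F (F' x) x) → ContinuousOn F' (Icc 0 1) →
        (∀ x ∈ Icc (0 : ℝ) 1, ‖F x‖ ≤ K ∧ ‖F' x‖ ≤ K) →
        ‖∑ e ∈ SF N R T, F (lg N e / T) * ((vf N e : ℝ) : ℂ)⁻¹ -
          (ρ * ph N R * T : ℝ) * ∫ x in (0 : ℝ)..1, F x‖ ≤ ε * ph N R * L := by
  have hε' : 0 < ε / (2 * K) := by positivity
  obtain ⟨L₀, hL₀, h⟩ := GG_asymp hN hC hA hε'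
  refine ⟨L₀, hL₀, fun L hL R hR T hT hTA F F' hF hF' hb => ?_⟩
  have hph : 0 < ph N R := ph_pos hN R
  have hL0 : 0 < L := by linarith
  have hmem : ∀ t ∈ Icc 0 T, t / T ∈ Icc (0 : ℝ) 1 := by
    intro t ht
    refine ⟨div_nonneg ht.1 hT.le, ?_⟩
    rw [div_le_one hT]
    exact ht.2
  have hcomp : ContinuousOn (fun t : ℝ => F' (t / T) / T) (Icc 0 T) := by
    apply ContinuousOn.div_const
    exact hF'.comp (continuousOn_id.div_const T) hmem
  have key := abel_sum (SF N R T) (fun e => ((vf N e : ℝ) : ℂ)⁻¹) (fun e => lg N e) T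
    (ε / (2 * K) * ph N R * L) (2 * K) hT.le
    (fun e he => ⟨lg_nonneg hN e, ((mem_SF hN).1 he).2⟩)
    (fun t => ((ρ * ph N R * t : ℝ) : ℂ)) (by fun_prop) (by positivity) ?_
    (fun t => F (t / T)) (fun t => F' (t / T) / T) ?_ hcomp ?_
  · have e1 : F (T / T) * ((ρ * ph N R * T : ℝ) : ℂ) -
        ∫ t in (0 : ℝ)..T, F' (t / T) / T * ((ρ * ph N R * t : ℝ) : ℂ) =
        ((ρ * ph N R * T : ℝ) : ℂ) * ∫ x in (0 : ℝ)..1, F x := gw_main hF hF' (ρ * ph N R) T hT
    rw [e1] at key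
    have e2 : ∑ e ∈ SF N R T, F (lg N e / T) * ((vf N e : ℝ) : ℂ)⁻¹ =
        ∑ e ∈ SF N R T, ((vf N e : ℝ) : ℂ)⁻¹ * F (lg N e / T) :=
      Finset.sum_congr rfl fun e _ => mul_comm _ _
    rw [e2]
    refine key.trans (le_of_eq ?_)
    field_simp
  · intro t ht
    have hs : ∀ (inst : DecidablePred fun e : Finset P => lg N e ≤ t),
        @Finset.filter _ (fun e => lg N e ≤ t) inst (SF N R T) = SF N R t := by
      intro inst
      ext e
      rw [Finset.mem_filter, mem_SF hN, mem_SF hN]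
      constructor
      · rintro ⟨⟨h1, _⟩, h3⟩
        exact ⟨h1, h3⟩
      · rintro ⟨h1, h3⟩
        exact ⟨⟨h1, h3.trans ht.2⟩, h3⟩
    rw [hs]
    have h1 := h L hL R hR t ht.1 (ht.2.trans hTA)
    have e3 : ∑ e ∈ SF N R t, ((vf N e : ℝ) : ℂ)⁻¹ - ((ρ * ph N R * t : ℝ) : ℂ) =
        ((GG N R t - ρ * ph N R * t : ℝ) : ℂ) := by
      unfold GG
      push_cast
      ring
    rw [e3, Complex.norm_real, Real.norm_eq_abs]
    exact h1
  · intro t ht
    have h2 := HasDerivAt.scomp t (g₁ := F) (h := fun t : ℝ => t / T)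
      (hF (t / T) (hmem t ht)) ((hasDerivAt_id t).div_const T)
    have h3 : F' (t / T) / (T : ℂ) = (1 / T) • F' (t / T) := by
      rw [Complex.real_smul]
      push_cast
      ring
    rw [h3]
    exact h2
  · have h3 : ∫ t in (0 : ℝ)..T, ‖F' (t / T) / T‖ ≤ K := by
      have h4 : ∫ t in (0 : ℝ)..T, ‖F' (t / T) / T‖ ≤ ∫ _t in (0 : ℝ)..T, K / T := by
        apply intervalIntegral.integral_mono_on hT.le
        · apply ContinuousOn.intervalIntegrable
          rw [uIcc_of_le hT.le]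
          exact hcomp.norm
        · exact intervalIntegrable_const
        · intro t ht
          rw [norm_div, Complex.norm_real, Real.norm_of_nonneg hT.le]
          exact div_le_div_of_nonneg_right (hb _ (hmem t ht)).2 hT.le
      rw [intervalIntegral.integral_const, sub_zero, smul_eq_mul, mul_div_cancel₀ _ hT.ne'] at h4
      exact h4
    have h5 : ‖F (T / T)‖ ≤ K := (hb _ (hmem T ⟨hT.le, le_rfl⟩)).1
    show ‖F (T / T)‖ + ∫ t in (0 : ℝ)..T, ‖F' (t / T) / T‖ ≤ 2 * K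
    linarith

theorem Gw_asymp_pr (hN : Good N) {ρ : ℝ} (hC : Cnt N ρ) {b θ ε : ℝ} (hb : |b| ≤ 1 / 2) (hθ : 0 < θ)
    (hθ1 : θ ≤ 1) (hε : 0 < ε) :
    ∃ L₀ : ℝ, 1 ≤ L₀ ∧ ∀ L, L₀ ≤ L → ∀ Q : Finset P, lg N Q ≤ L →
      |Gw N b (θ * L) Q - ρ * ph N Q * (θ * L)| ≤ ε * ph N Q * L := by
  obtain ⟨L₀, hL₀, h⟩ := GG_weight_pr hN hC (A := 1) (K := 3 / 2) one_pos (by norm_num) hε
  refine ⟨L₀, hL₀, fun L hL Q hQ => ?_⟩
  have hL0 : 0 < L := by linarith
  have hT : 0 < θ * L := by positivity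
  have hb' := abs_le.1 hb
  have h1 := h L hL Q (by linarith) (θ * L) hT (by nlinarith)
    (fun x => ((wt b (1 - x) : ℝ) : ℂ)) (fun _ => ((2 * b : ℝ) : ℂ)) ?_ continuousOn_const ?_
  · have e1 : ∫ x in (0 : ℝ)..1, ((wt b (1 - x) : ℝ) : ℂ) = 1 := by
      rw [intervalIntegral.integral_ofReal]
      have e2 : ∫ x in (0 : ℝ)..1, wt b (1 - x) = 1 := by
        have e3 : ∫ x in (0 : ℝ)..1, wt b (1 - x) =
            ((1 : ℝ) - b * 1 * (1 - 1)) - ((0 : ℝ) - b * 0 * (1 - 0)) := by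
          apply intervalIntegral.integral_eq_sub_of_hasDerivAt
            (f := fun x : ℝ => x - b * x * (1 - x))
          · intro x _
            have h3 : HasDerivAt (fun x : ℝ => x - b * x * (1 - x))
                (1 - ((b * 1) * (1 - x) + b * x * (0 - 1))) x := by
              apply (hasDerivAt_id x).sub
              exact ((hasDerivAt_id x).const_mul b).mul ((hasDerivAt_const x (1 : ℝ)).sub
                (hasDerivAt_id x))
            have h4 : wt b (1 - x) = 1 - ((b * 1) * (1 - x) + b * x * (0 - 1)) := by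
              unfold wt
              ring
            rw [h4]
            exact h3
          · apply Continuous.intervalIntegrable
            unfold wt
            fun_prop
        rw [e3]
        ring
      rw [e2]
      simp
    rw [e1, mul_one] at h1
    have e4 : ∑ e ∈ SF N Q (θ * L), ((wt b (1 - lg N e / (θ * L)) : ℝ) : ℂ) * ((vf N e : ℝ) : ℂ)⁻¹ -
        ((ρ * ph N Q * (θ * L) : ℝ) : ℂ) =
        ((Gw N b (θ * L) Q - ρ * ph N Q * (θ * L) : ℝ) : ℂ) := by
      unfold Gw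
      push_cast
      simp_rw [div_eq_mul_inv]
    rw [e4, Complex.norm_real, Real.norm_eq_abs] at h1
    exact h1
  · intro x _
    have h3 : HasDerivAt (fun x : ℝ => wt b (1 - x)) (2 * b) x := by
      unfold wt
      have h4 : HasDerivAt (fun x : ℝ => 1 + b * (1 - 2 * (1 - x))) (b * (0 - 2 * (0 - 1))) x := by
        apply HasDerivAt.const_add
        apply HasDerivAt.const_mul
        apply (hasDerivAt_const x (1 : ℝ)).sub
        apply HasDerivAt.const_mul
        exact (hasDerivAt_const x (1 : ℝ)).sub (hasDerivAt_id x)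
      have h5 : 2 * b = b * (0 - 2 * (0 - 1)) := by ring
      rw [h5]
      exact h4
    exact h3.ofReal_comp
  · intro x hx
    have h3 := wt_bounds hb (show 0 ≤ 1 - x by linarith [hx.2]) (show 1 - x ≤ 1 by linarith [hx.1])
    constructor
    · rw [Complex.norm_real, Real.norm_of_nonneg (by linarith)]
      exact h3.2
    · rw [Complex.norm_real, Real.norm_eq_abs, abs_mul, abs_two]
      linarith

theorem Gw_pos_pr (hN : Good N) {b T : ℝ} (hb : |b| ≤ 1 / 2) (hT : 0 < T) (Q : Finset P) :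
    0 < Gw N b T Q ∧ GG N Q T ≤ 2 * Gw N b T Q := by
  have h1 : GG N Q T ≤ 2 * Gw N b T Q := by
    unfold GG Gw
    rw [Finset.mul_sum]
    apply Finset.sum_le_sum
    intro e he
    have h2 := (mem_SF hN).1 he
    have h3 := lg_nonneg hN e
    have h4 : lg N e / T ≤ 1 := by
      rw [div_le_one hT]
      exact h2.2
    have h5 : 0 ≤ lg N e / T := div_nonneg h3 hT.le
    have h6 := (wt_bounds hb (show 0 ≤ 1 - lg N e / T by linarith)
      (show 1 - lg N e / T ≤ 1 by linarith)).1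
    have h7 := one_le_vf hN e
    rw [inv_eq_one_div, ← mul_div_assoc]
    apply div_le_div_of_nonneg_right _ (by linarith)
    linarith
  have h8 : 0 < GG N Q T := by
    unfold GG
    apply Finset.sum_pos
    · intro e _
      have := one_le_vf hN e
      positivity
    · exact ⟨∅, empty_mem hN Q hT.le⟩
  exact ⟨by linarith, h1⟩


alias GG_weight := GG_weight_pr
alias Gw_asymp := Gw_asymp_pr
alias Gw_pos := Gw_pos_pr

end Pool.Agent.LVA
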