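import Pool.Agent.Lib_helper92.LVA.Defs
import Pool.Agent.Lib_helper92.ASA.All
import Pool.Agent.Lib_helper92.LVAF.BA
import Pool.Agent.Lib_helper92.LVAF.GW

/-!
# Project LVK, part A, block LA: Selberg's coefficients (helper6)
-/

namespace Pool.Agent.LVA

open Complex MeasureTheory Filter Topology Set Pool.Agent.AS

variable {P : Type} {N : P → ℕ}

theorem lam_zero_pr (hN : Good N) {b T : ℝ} {Q m : Finset P} (hm : m ∉ SF N Q T) :
    lam N b T Q m = 0 := by
  have h : ∀ (inst : DecidablePred fun e : Finset P => m ⊆ e),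
      ∑ e ∈ @Finset.filter _ (fun e => m ⊆ e) inst (SF N Q T),
        wt b (1 - lg N e / T) / vf N e = 0 := by
    intro inst
    apply Finset.sum_eq_zero
    intro e he
    rw [Finset.mem_filter] at he
    exact absurd (SF_sub hN he.1 he.2) hm
  unfold lam
  rw [h, mul_zero]

theorem lam_empty_pr (hN : Good N) {b T : ℝ} (hb : |b| ≤ 1 / 2) (hT : 0 < T) (Q : Finset P) :
    lam N b T Q ∅ = 1 := by
  have h1 := (Gw_pos hN hb hT Q).1
  unfold lam
  rw [Finset.card_empty, pow_zero, lg_empty, Real.exp_zero, mul_one]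
  have h2 : ∀ (inst : DecidablePred fun e : Finset P => (∅ : Finset P) ⊆ e),
      @Finset.filter _ (fun e => (∅ : Finset P) ⊆ e) inst (SF N Q T) = SF N Q T := by
    intro inst
    exact Finset.filter_true_of_mem fun e _ => Finset.empty_subset e
  rw [h2]
  show 1 / Gw N b T Q * Gw N b T Q = 1
  field_simp

/-- the sum over the multiples of `m` -/
theorem la_sum [DecidableEq P] (hN : Good N) {b T : ℝ} {Q m : Finset P} (hm : m ∈ SF N Q T)
    (inst : DecidablePred fun e : Finset P => m ⊆ e) :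
    ∑ e ∈ @Finset.filter _ (fun e => m ⊆ e) inst (SF N Q T), wt b (1 - lg N e / T) / vf N e =
      (vf N m)⁻¹ * ∑ k ∈ SF N (Q ∪ m) (T - lg N m),
        wt b (1 - (lg N m + lg N k) / T) / vf N k := by
  rw [Finset.mul_sum]
  refine Finset.sum_bij' (fun e _ => e \ m) (fun k _ => m ∪ k) ?_ ?_ ?_ ?_ ?_
  · intro e he
    rw [Finset.mem_filter, mem_SF hN] at he
    rw [mem_SF hN]
    have h1 : lg N (m ∪ e \ m) = lg N m + lg N (e \ m) := lg_union Finset.disjoint_sdiff
    rw [Finset.union_sdiff_of_subset he.2] at h1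
    refine ⟨?_, by linarith [he.1.2]⟩
    rw [Finset.disjoint_union_right]
    exact ⟨Disjoint.mono_left Finset.sdiff_subset he.1.1, Finset.sdiff_disjoint⟩
  · intro k hk
    rw [mem_SF hN, Finset.disjoint_union_right] at hk
    have hm' := (mem_SF hN).1 hm
    rw [Finset.mem_filter, mem_SF hN]
    refine ⟨⟨?_, ?_⟩, Finset.subset_union_left⟩
    · rw [Finset.disjoint_union_left]
      exact ⟨hm'.1, hk.1.1⟩
    · rw [lg_union hk.1.2.symm]
      linarith [hk.2]
  · intro e he
    rw [Finset.mem_filter] at he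
    exact Finset.union_sdiff_of_subset he.2
  · intro k hk
    rw [mem_SF hN, Finset.disjoint_union_right] at hk
    show (m ∪ k) \ m = k
    rw [Finset.union_sdiff_left]
    exact Finset.sdiff_eq_self_of_disjoint hk.1.2
  · intro e he
    rw [Finset.mem_filter, mem_SF hN] at he
    have h1 : lg N (m ∪ e \ m) = lg N m + lg N (e \ m) := lg_union Finset.disjoint_sdiff
    have h2 : vf N (m ∪ e \ m) = vf N m * vf N (e \ m) := vf_union Finset.disjoint_sdiff
    rw [Finset.union_sdiff_of_subset he.2] at h1 h2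
    rw [h1, h2]
    have h3 := one_le_vf hN m
    have h4 := one_le_vf hN (e \ m)
    have h5 : vf N m ≠ 0 := by linarith
    have h6 : vf N (e \ m) ≠ 0 := by linarith
    field_simp

theorem lam_eq_pr [DecidableEq P] (hN : Good N) {b T : ℝ} {Q m : Finset P} (hm : m ∈ SF N Q T) :
    lam N b T Q m = (-1) ^ m.card * (ph N m)⁻¹ / Gw N b T Q *
      ∑ k ∈ SF N (Q ∪ m) (T - lg N m), wt b (1 - (lg N m + lg N k) / T) / vf N k := by
  unfold lam
  rw [la_sum hN hm, vf_eq hN]
  have h1 := ph_pos hN m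
  have h2 := Real.exp_pos (lg N m)
  rw [mul_inv]
  field_simp

theorem lam_abs_pr (hN : Good N) {b T : ℝ} (hb : |b| ≤ 1 / 2) (hT : 0 < T) (Q m : Finset P) :
    |lam N b T Q m| ≤ 3 * (ph N m)⁻¹ := by
  classical
  have hph := ph_pos hN m
  by_cases hm : m ∈ SF N Q T
  · have hG := Gw_pos hN hb hT Q
    rw [lam_eq_pr hN hm]
    have h1 : |∑ k ∈ SF N (Q ∪ m) (T - lg N m), wt b (1 - (lg N m + lg N k) / T) / vf N k| ≤
        3 / 2 * GG N Q T := by
      refine (Finset.abs_sum_le_sum_abs _ _).trans ?_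
      have hsub : SF N (Q ∪ m) (T - lg N m) ⊆ SF N Q T := by
        intro k hk
        rw [mem_SF hN, Finset.disjoint_union_right] at hk
        rw [mem_SF hN]
        exact ⟨hk.1.1, by linarith [hk.2, lg_nonneg hN m]⟩
      calc ∑ k ∈ SF N (Q ∪ m) (T - lg N m), |wt b (1 - (lg N m + lg N k) / T) / vf N k|
          ≤ ∑ k ∈ SF N (Q ∪ m) (T - lg N m), 3 / 2 * (vf N k)⁻¹ := by
            apply Finset.sum_le_sum
            intro k hk
            rw [mem_SF hN] at hk
            have h3 := lg_nonneg hN k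
            have h3' := lg_nonneg hN m
            have h4 : (lg N m + lg N k) / T ≤ 1 := by
              rw [div_le_one hT]
              linarith [hk.2]
            have h5 : 0 ≤ (lg N m + lg N k) / T := div_nonneg (by linarith) hT.le
            have h6 := wt_bounds hb (show 0 ≤ 1 - (lg N m + lg N k) / T by linarith)
              (show 1 - (lg N m + lg N k) / T ≤ 1 by linarith)
            have h7 := one_le_vf hN k
            have h8 : 0 < vf N k := by linarith
            rw [abs_div, abs_of_pos h8, abs_of_nonneg (by linarith [h6.1]), div_eq_mul_inv]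
            exact mul_le_mul_of_nonneg_right h6.2 (by positivity)
        _ ≤ ∑ k ∈ SF N Q T, 3 / 2 * (vf N k)⁻¹ := by
            apply Finset.sum_le_sum_of_subset_of_nonneg hsub
            intro k _ _
            have h7 := one_le_vf hN k
            positivity
        _ = 3 / 2 * GG N Q T := by
            unfold GG
            rw [Finset.mul_sum]
    rw [abs_mul, abs_div, abs_mul, abs_pow, abs_neg, abs_one, one_pow, one_mul,
      abs_of_pos (inv_pos.2 hph), abs_of_pos hG.1]
    have h2 : (ph N m)⁻¹ / Gw N b T Q * (3 / 2 * GG N Q T) ≤ 3 * (ph N m)⁻¹ := by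
      rw [div_mul_eq_mul_div, div_le_iff₀ hG.1]
      have h9 : 0 < (ph N m)⁻¹ := inv_pos.2 hph
      nlinarith [hG.2, hG.1]
    refine le_trans ?_ h2
    apply mul_le_mul_of_nonneg_left h1
    exact div_nonneg (inv_pos.2 hph).le hG.1.le
  · rw [lam_zero_pr hN hm, abs_zero]
    positivity

/-- the arithmetic of the limit -/
theorem la_arith {x y c u b ε : ℝ} (hc : 0 < c) (hb : |b| ≤ 1 / 2) (hε : 0 < ε) (hε1 : ε ≤ 1)
    (hu : 0 ≤ u) (hu1 : u ≤ ε / 8)
    (hx : |x - c| ≤ c * ε / 8) (hy : |y - c * ((1 - u) * (1 + b * u))| ≤ c * ε / 8) :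
    |y / x - 1| ≤ ε := by
  have hx' := abs_le.1 hx
  have hy' := abs_le.1 hy
  have hb' := abs_le.1 hb
  have hcε : 0 < c * ε := by positivity
  have hcε1 : c * ε ≤ c := by nlinarith
  have hx0 : 0 < x := by linarith
  have h1 : |(1 - u) * (1 + b * u) - 1| ≤ 2 * u := by
    have h2 : (1 - u) * (1 + b * u) - 1 = -(u * (1 - b + b * u)) := by ring
    rw [h2, abs_neg, abs_mul, abs_of_nonneg hu, mul_comm 2 u]
    apply mul_le_mul_of_nonneg_left _ hu
    rw [abs_le]
    constructor <;> nlinarith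
  have h1' := abs_le.1 h1
  have h3 : |y - x| ≤ c * ε / 2 := by
    rw [abs_le]
    constructor <;> nlinarith
  rw [div_sub_one hx0.ne', abs_div, abs_of_pos hx0, div_le_iff₀ hx0]
  nlinarith

theorem la_int (b u : ℝ) :
    ∫ x in (0 : ℝ)..1, ((wt b (1 - (u + x * (1 - u))) : ℝ) : ℂ) = ((1 + b * u : ℝ) : ℂ) := by
  rw [intervalIntegral.integral_ofReal]
  congr 1
  have e3 : ∫ x in (0 : ℝ)..1, wt b (1 - (u + x * (1 - u))) =
      ((1 + b * (2 * u - 1)) * 1 + b * (1 - u) * 1 ^ 2) -
        ((1 + b * (2 * u - 1)) * 0 + b * (1 - u) * 0 ^ 2) := by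
    apply intervalIntegral.integral_eq_sub_of_hasDerivAt
      (f := fun x : ℝ => (1 + b * (2 * u - 1)) * x + b * (1 - u) * x ^ 2)
    · intro x _
      have h3 : HasDerivAt (fun x : ℝ => (1 + b * (2 * u - 1)) * x + b * (1 - u) * x ^ 2)
          ((1 + b * (2 * u - 1)) * 1 + b * (1 - u) * (2 * x)) x := by
        apply ((hasDerivAt_id x).const_mul _).add
        apply HasDerivAt.const_mul
        have h4 := hasDerivAt_pow 2 x
        simpa using h4
      have h4 : wt b (1 - (u + x * (1 - u))) =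
          (1 + b * (2 * u - 1)) * 1 + b * (1 - u) * (2 * x) := by
        unfold wt
        ring
      rw [h4]
      exact h3
    · apply Continuous.intervalIntegrable
      unfold wt
      fun_prop
  rw [e3]
  ring

theorem lam_lim_pr (hN : Good N) {ρ : ℝ} (hC : Cnt N ρ) {b θ ε : ℝ} (hb : |b| ≤ 1 / 2) (hθ : 0 < θ)
    (hθ1 : θ ≤ 1) (hε : 0 < ε) (m : Finset P) :
    ∃ L₀ : ℝ, 1 ≤ L₀ ∧ ∀ L, L₀ ≤ L → ∀ Q : Finset P, lg N Q ≤ L → Disjoint m Q →
      |lam N b (θ * L) Q m - (-1) ^ m.card| ≤ ε := by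
  classical
  have hρ : 0 < ρ := hC.1
  set ε₁ : ℝ := min ε 1 with hε₁
  have hε₁0 : 0 < ε₁ := lt_min hε one_pos
  have hε₁1 : ε₁ ≤ 1 := min_le_right _ _
  have hη : 0 < ρ * θ * ε₁ / 8 := by positivity
  obtain ⟨L₁, hL₁, h1⟩ := Gw_asymp hN hC hb hθ hθ1 hη
  obtain ⟨L₂, hL₂, h2⟩ := GG_weight hN hC (A := 2) (K := 3 / 2) two_pos (by norm_num) hη
  have hlm := lg_nonneg hN m
  have hb' := abs_le.1 hb
  set L₃ : ℝ := (8 * lg N m + 1) / (θ * ε₁) with hL₃
  refine ⟨max (max L₁ L₂) (max L₃ (lg N m)), le_trans hL₁ (le_trans (le_max_left _ _)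
    (le_max_left _ _)), fun L hL Q hQ hd => ?_⟩
  have hLL1 : L₁ ≤ L := le_trans (le_trans (le_max_left _ _) (le_max_left _ _)) hL
  have hLL2 : L₂ ≤ L := le_trans (le_trans (le_max_right _ _) (le_max_left _ _)) hL
  have hLL3 : L₃ ≤ L := le_trans (le_trans (le_max_left _ _) (le_max_right _ _)) hL
  have hLL4 : lg N m ≤ L := le_trans (le_trans (le_max_right _ _) (le_max_right _ _)) hL
  have hL0 : 0 < L := by linarith
  have hT : 0 < θ * L := by positivity
  have hTL : θ * L ≤ L := by nlinarith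
  set T := θ * L with hTdef
  have hm8 : 8 * lg N m + 1 ≤ ε₁ * T := by
    rw [hL₃, div_le_iff₀ (by positivity)] at hLL3
    rw [hTdef]
    linarith
  have hmT : 8 * lg N m + 1 ≤ T := by nlinarith
  set u : ℝ := lg N m / T with hu
  have hu0 : 0 ≤ u := div_nonneg hlm hT.le
  have hu1 : u ≤ ε₁ / 8 := by
    rw [hu, div_le_iff₀ hT]
    linarith
  have huT : lg N m = u * T := by
    rw [hu]
    field_simp
  have hm : m ∈ SF N Q T := (mem_SF hN).2 ⟨hd, by linarith⟩
  have hphQ := ph_pos hN Q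
  have hphm := ph_pos hN m
  have hT' : 0 < T - lg N m := by linarith
  have hphu : ph N (Q ∪ m) = ph N Q * ph N m := ph_union hd.symm
  have hlgu : lg N (Q ∪ m) = lg N Q + lg N m := lg_union hd.symm
  -- the sum over `k`
  have h3 := h2 L hLL2 (Q ∪ m) (by rw [hlgu]; linarith) (T - lg N m) hT' (by linarith)
    (fun x => ((wt b (1 - (u + x * (1 - u))) : ℝ) : ℂ)) (fun _ => ((2 * b * (1 - u) : ℝ) : ℂ)) ?_
    continuousOn_const ?_
  · have e1 : ∫ x in (0 : ℝ)..1, ((wt b (1 - (u + x * (1 - u))) : ℝ) : ℂ) =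
        ((1 + b * u : ℝ) : ℂ) := la_int b u
    rw [e1] at h3
    set S : ℝ := ∑ k ∈ SF N (Q ∪ m) (T - lg N m), wt b (1 - (lg N m + lg N k) / T) / vf N k with hS
    have e2 : ∑ e ∈ SF N (Q ∪ m) (T - lg N m),
        ((wt b (1 - (u + lg N e / (T - lg N m) * (1 - u))) : ℝ) : ℂ) * ((vf N e : ℝ) : ℂ)⁻¹ -
        ((ρ * ph N (Q ∪ m) * (T - lg N m) : ℝ) : ℂ) * ((1 + b * u : ℝ) : ℂ) =
        ((S - ρ * ph N (Q ∪ m) * (T - lg N m) * (1 + b * u) : ℝ) : ℂ) := by
      rw [hS]
      push_cast
      congr 1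
      apply Finset.sum_congr rfl
      intro k _
      rw [div_eq_mul_inv]
      congr 3
      have h5 : (1 - u) = (T - lg N m) / T := by
        rw [hu]
        field_simp
      rw [h5, hu]
      field_simp
    rw [e2, Complex.norm_real, Real.norm_eq_abs] at h3
    have h4 := h1 L hLL1 Q hQ
    -- normalise
    have hq : 0 < ph N Q * L := by positivity
    have hx : |Gw N b T Q / (ph N Q * L) - ρ * θ| ≤ ρ * θ * ε₁ / 8 := by
      have h6 : Gw N b T Q / (ph N Q * L) - ρ * θ =
          (Gw N b T Q - ρ * ph N Q * T) / (ph N Q * L) := by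
        rw [hTdef]
        field_simp
      rw [h6, abs_div, abs_of_pos hq, div_le_iff₀ hq]
      refine h4.trans (le_of_eq ?_)
      ring
    have hqm : 0 < ph N (Q ∪ m) * L := by
      rw [hphu]
      positivity
    have hy : |S / (ph N (Q ∪ m) * L) - ρ * θ * ((1 - u) * (1 + b * u))| ≤ ρ * θ * ε₁ / 8 := by
      have h6 : S / (ph N (Q ∪ m) * L) - ρ * θ * ((1 - u) * (1 + b * u)) =
          (S - ρ * ph N (Q ∪ m) * (T - lg N m) * (1 + b * u)) / (ph N (Q ∪ m) * L) := by
        rw [sub_div]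
        congr 1
        rw [eq_div_iff hqm.ne', huT, hTdef]
        ring
      rw [h6, abs_div, abs_of_pos hqm, div_le_iff₀ hqm]
      refine h3.trans (le_of_eq ?_)
      ring
    have h7 := la_arith (x := Gw N b T Q / (ph N Q * L)) (y := S / (ph N (Q ∪ m) * L))
      (c := ρ * θ) (u := u) (b := b) (ε := ε₁) (by positivity) hb hε₁0 hε₁1 hu0 hu1 hx hy
    have hG := (Gw_pos hN hb hT Q).1
    have h8 : lam N b T Q m - (-1) ^ m.card =
        (-1) ^ m.card * (S / (ph N (Q ∪ m) * L) / (Gw N b T Q / (ph N Q * L)) - 1) := by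
      rw [lam_eq_pr hN hm, ← hS, hphu]
      field_simp
    rw [h8, abs_mul, abs_pow, abs_neg, abs_one, one_pow, one_mul]
    exact h7.trans (min_le_left _ _)
  · intro x _
    have h3 : HasDerivAt (fun x : ℝ => wt b (1 - (u + x * (1 - u)))) (2 * b * (1 - u)) x := by
      unfold wt
      have h4 : HasDerivAt (fun x : ℝ => 1 + b * (1 - 2 * (1 - (u + x * (1 - u)))))
          (b * (0 - 2 * (0 - (1 * (1 - u))))) x := by
        apply HasDerivAt.const_add
        apply HasDerivAt.const_mul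
        apply (hasDerivAt_const x (1 : ℝ)).sub
        apply HasDerivAt.const_mul
        apply (hasDerivAt_const x (1 : ℝ)).sub
        apply HasDerivAt.const_add
        exact (hasDerivAt_id x).mul_const _
      have h5 : 2 * b * (1 - u) = b * (0 - 2 * (0 - (1 * (1 - u)))) := by ring
      rw [h5]
      exact h4
    exact h3.ofReal_comp
  · intro x hx
    have hu1' : u ≤ 1 := by linarith
    have h4 : 0 ≤ x * (1 - u) := mul_nonneg hx.1 (by linarith)
    have h5 : x * (1 - u) ≤ 1 - u := by nlinarith [hx.2]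
    have h3 := wt_bounds hb (show 0 ≤ 1 - (u + x * (1 - u)) by linarith)
      (show 1 - (u + x * (1 - u)) ≤ 1 by linarith)
    constructor
    · rw [Complex.norm_real, Real.norm_of_nonneg (by linarith)]
      exact h3.2
    · rw [Complex.norm_real, Real.norm_eq_abs, abs_mul, abs_mul, abs_two,
        abs_of_nonneg (show 0 ≤ 1 - u by linarith)]
      nlinarith [abs_nonneg b]


alias lam_zero := lam_zero_pr
alias lam_empty := lam_empty_pr
alias lam_eq := lam_eq_pr
alias lam_abs := lam_abs_pr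
alias lam_lim := lam_lim_pr

end Pool.Agent.LVA
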