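import Pool.Agent.Lib_helper92.LVA.Defs
import Pool.Agent.Lib_helper92.ASA.All
import Pool.Agent.Lib_helper92.LVAF.BA
import Pool.Agent.Lib_helper92.LVAF.BB
import Pool.Agent.Lib_helper92.LVAF.LA

/-!
# Project LVK, part A, block KC: inclusion-exclusion and products over `Q`
-/

namespace Pool.Agent.LVA

open Complex MeasureTheory Filter Topology Set Pool.Agent.AS

variable {P : Type} {N : P → ℕ}

theorem kc_lg_insert [DecidableEq P] {p : P} {d : Finset P} (h : p ∉ d) :
    lg N (insert p d) = Real.log (N p) + lg N d := by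
  unfold lg
  rw [Finset.sum_insert h]

theorem WW_exp_pr (hN : Good N) {k : ℝ → ℝ} {ρ₂ : ℝ} (hk : Kern N k ρ₂) (Q : Finset P) (v : ℝ) :
    WW N k Q v = ∑ d ∈ Q.powerset, (-1) ^ d.card * W1 N k (v + lg N d) := by
  classical
  induction Q using Finset.induction_on generalizing v with
  | empty =>
    rw [Finset.powerset_empty, Finset.sum_singleton, lg_empty]
    simp only [Finset.card_empty, pow_zero, one_mul, add_zero]
    unfold WW W1
    refine tsum_congr fun g => ?_
    rw [if_pos]
    intro p hp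
    exact absurd hp (Finset.notMem_empty p)
  | insert p Q hp ih =>
    rw [gsum_step hN hk v Q p hp inferInstance, ih v, ih (v + Real.log (N p)),
      Finset.sum_powerset_insert hp, sub_eq_add_neg, ← Finset.sum_neg_distrib]
    congr 1
    refine Finset.sum_congr rfl fun d hd => ?_
    have hpd : p ∉ d := fun h => hp (Finset.mem_powerset.mp hd h)
    rw [Finset.card_insert_of_notMem hpd, kc_lg_insert hpd, ← add_assoc, pow_succ]
    ring

theorem ps_sum_pr (Q : Finset P) (s : ℂ) :
    ∑ d ∈ Q.powerset, (-1) ^ d.card * Complex.exp (-(s * lg N d)) = ps N Q s := by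
  classical
  unfold ps
  induction Q using Finset.induction_on with
  | empty =>
    rw [Finset.powerset_empty, Finset.sum_singleton, lg_empty]
    simp
  | insert p Q hp ih =>
    rw [Finset.sum_powerset_insert hp, Finset.prod_insert hp, ← ih, sub_mul, one_mul,
      sub_eq_add_neg, Finset.mul_sum, ← Finset.sum_neg_distrib]
    congr 1
    refine Finset.sum_congr rfl fun d hd => ?_
    have hpd : p ∉ d := fun h => hp (Finset.mem_powerset.mp hd h)
    rw [Finset.card_insert_of_notMem hpd, kc_lg_insert hpd, pow_succ]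
    have e : Complex.exp (-(s * ((Real.log (N p) + lg N d : ℝ) : ℂ))) =
        Complex.exp (-(s * (Real.log (N p) : ℝ))) * Complex.exp (-(s * (lg N d : ℝ))) := by
      rw [← Complex.exp_add]
      congr 1
      push_cast
      ring
    rw [e]
    ring

theorem ps_one_pr (hN : Good N) (Q : Finset P) : ps N Q 1 = (ph N Q : ℝ) := by
  unfold ps ph
  rw [Complex.ofReal_prod]
  refine Finset.prod_congr rfl fun p _ => ?_
  have h2 : (0 : ℝ) < N p := by
    have := hN.two_le p
    exact_mod_cast (by omega : 0 < N p)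
  rw [one_mul, Complex.exp_neg, ← Complex.ofReal_exp, Real.exp_log h2]
  push_cast
  ring

/-- `|e^{-z} - 1| ≤ |z| e^{|z|}` -/
theorem kc_exp (z : ℂ) : ‖1 - Complex.exp (-z)‖ ≤ ‖z‖ * Real.exp ‖z‖ := by
  have h := Complex.norm_exp_sub_sum_le_norm_mul_exp (-z) 1
  rw [norm_neg] at h
  rw [norm_sub_rev]
  simpa using h

theorem ps_asymp_pr (hN : Good N) {C ε : ℝ} (hC0 : 0 < C) (hε : 0 < ε) :
    ∃ L₀ : ℝ, 1 ≤ L₀ ∧ ∀ L, L₀ ≤ L → ∀ Q : Finset P, lg N Q ≤ L → ∀ c : ℂ, ‖c‖ ≤ C →
      ‖ps N Q (1 + c / L) - (ph N Q : ℝ)‖ ≤ ε * ph N Q := by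
  classical
  have hlog : 0 < Real.log (1 + ε) := Real.log_pos (by linarith)
  have hE : 0 < C * Real.exp C := by positivity
  obtain ⟨C', hC', hsm⟩ := small_sum hN (ε := Real.log (1 + ε) / (2 * (C * Real.exp C)))
    (by positivity)
  refine ⟨max 1 (2 * (C * Real.exp C) * C' / Real.log (1 + ε)), le_max_left _ _, ?_⟩
  intro L hL Q hQ c hc
  have hL1 : 1 ≤ L := le_trans (le_max_left _ _) hL
  have hL2 : 2 * (C * Real.exp C) * C' / Real.log (1 + ε) ≤ L := le_trans (le_max_right _ _) hL
  have hLpos : 0 < L := by linarith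
  have hphpos := ph_pos hN Q
  obtain ⟨η, hη⟩ : ∃ η : P → ℂ, ∀ p, η p =
      (1 - Complex.exp (-(c / L * Real.log (N p)))) / ((N p : ℝ) - 1 : ℝ) := ⟨_, fun _ => rfl⟩
  have hN2 : ∀ p, (2 : ℝ) ≤ N p := fun p => by exact_mod_cast hN.two_le p
  -- the factorization
  have hfac : ps N Q (1 + c / L) = (ph N Q : ℝ) * ∏ p ∈ Q, (1 + η p) := by
    unfold ps ph
    rw [Complex.ofReal_prod, ← Finset.prod_mul_distrib]
    refine Finset.prod_congr rfl fun p _ => ?_
    have h2 := hN2 p
    have h0 : (N p : ℂ) ≠ 0 := by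
      have : (N p : ℝ) ≠ 0 := by linarith
      exact_mod_cast this
    have h1 : ((N p : ℂ) - 1) ≠ 0 := by
      have : ((N p : ℝ) - 1) ≠ 0 := by linarith
      exact_mod_cast this
    have e : Complex.exp (-((1 + c / L) * Real.log (N p))) =
        (N p : ℂ)⁻¹ * Complex.exp (-(c / L * Real.log (N p))) := by
      have e1 : -((1 + c / L) * (Real.log (N p) : ℂ)) =
          -(Real.log (N p) : ℂ) + -(c / L * Real.log (N p)) := by ring
      rw [e1, Complex.exp_add, Complex.exp_neg, ← Complex.ofReal_exp,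
        Real.exp_log (by linarith)]
      push_cast
      rfl
    rw [e, hη]
    push_cast
    field_simp
    ring
  rw [hfac]
  have h1 : (ph N Q : ℂ) * ∏ p ∈ Q, (1 + η p) - (ph N Q : ℝ) =
      (ph N Q : ℝ) * (∏ p ∈ Q, (1 + η p) - 1) := by ring
  rw [h1, norm_mul, Complex.norm_real, Real.norm_of_nonneg hphpos.le, mul_comm ε]
  apply mul_le_mul_of_nonneg_left _ hphpos.le
  refine (Finset.norm_prod_one_add_sub_one_le Q η).trans ?_
  -- the sum of the `η`
  have hsum : ∑ p ∈ Q, ‖η p‖ ≤ Real.log (1 + ε) := by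
    have h3 : ∀ p ∈ Q, ‖η p‖ ≤ C * Real.exp C / L * (Real.log (N p) / ((N p : ℝ) - 1)) := by
      intro p hp
      have h2 := hN2 p
      have hl0 : 0 ≤ Real.log (N p) := Real.log_nonneg (by linarith)
      have hlL : Real.log (N p) ≤ L := by
        refine le_trans ?_ hQ
        unfold lg
        exact Finset.single_le_sum (f := fun p => Real.log (N p))
          (fun q _ => Real.log_nonneg (by linarith [hN2 q])) hp
      have hz : ‖c / L * (Real.log (N p) : ℂ)‖ ≤ C / L * Real.log (N p) := by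
        rw [norm_mul, norm_div, Complex.norm_real, Complex.norm_real,
          Real.norm_of_nonneg hLpos.le, Real.norm_of_nonneg hl0]
        exact mul_le_mul_of_nonneg_right (div_le_div_of_nonneg_right hc hLpos.le) hl0
      have hz2 : C / L * Real.log (N p) ≤ C := by
        rw [div_mul_eq_mul_div, div_le_iff₀ hLpos]
        exact mul_le_mul_of_nonneg_left hlL hC0.le
      rw [hη, norm_div, Complex.norm_real, Real.norm_of_nonneg (by linarith)]
      have h4 : ‖1 - Complex.exp (-(c / L * (Real.log (N p) : ℂ)))‖ ≤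
          C / L * Real.log (N p) * Real.exp C := by
        refine (kc_exp _).trans ?_
        exact mul_le_mul hz (Real.exp_le_exp.mpr (hz.trans hz2)) (Real.exp_pos _).le
          (by positivity)
      calc ‖1 - Complex.exp (-(c / L * (Real.log (N p) : ℂ)))‖ / ((N p : ℝ) - 1)
          ≤ C / L * Real.log (N p) * Real.exp C / ((N p : ℝ) - 1) :=
            div_le_div_of_nonneg_right h4 (by linarith)
        _ = C * Real.exp C / L * (Real.log (N p) / ((N p : ℝ) - 1)) := by ring
    calc ∑ p ∈ Q, ‖η p‖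
        ≤ ∑ p ∈ Q, C * Real.exp C / L * (Real.log (N p) / ((N p : ℝ) - 1)) :=
          Finset.sum_le_sum h3
      _ = C * Real.exp C / L * ∑ p ∈ Q, Real.log (N p) / ((N p : ℝ) - 1) := by
          rw [Finset.mul_sum]
      _ ≤ C * Real.exp C / L *
          (Real.log (1 + ε) / (2 * (C * Real.exp C)) * lg N Q + C') :=
          mul_le_mul_of_nonneg_left (hsm Q) (by positivity)
      _ ≤ C * Real.exp C / L *
          (Real.log (1 + ε) / (2 * (C * Real.exp C)) * L + C') := by
          apply mul_le_mul_of_nonneg_left _ (by positivity)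
          have := mul_le_mul_of_nonneg_left hQ
            (show 0 ≤ Real.log (1 + ε) / (2 * (C * Real.exp C)) by positivity)
          linarith
      _ = Real.log (1 + ε) / 2 + C * Real.exp C * C' / L := by
          field_simp
      _ ≤ Real.log (1 + ε) := by
          have h5 : C * Real.exp C * C' / L ≤ Real.log (1 + ε) / 2 := by
            rw [div_le_iff₀ hLpos]
            rw [div_le_iff₀ hlog] at hL2
            linarith
          linarith
  have h6 : Real.exp (∑ p ∈ Q, ‖η p‖) ≤ 1 + ε := by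
    rw [← Real.exp_log (show 0 < 1 + ε by linarith)]
    exact Real.exp_le_exp.mpr hsum
  linarith

theorem am_abs_pr (hN : Good N) {ε : ℝ} (hε : 0 < ε) : ∃ C : ℝ, 1 ≤ C ∧
    ∀ (b θ R L : ℝ) (Q m : Finset P), |b| ≤ 1 / 2 → 0 < θ → 0 ≤ R → 0 < L →
      |am N b θ R L Q m| ≤ C * Real.exp (ε * lg N m) := by
  obtain ⟨C, hC, h⟩ := inv_ph hN hε
  refine ⟨3 * C, by linarith, ?_⟩
  intro b θ R L Q m hb hθ hR hL
  have h1 := lam_abs hN hb (show 0 < θ * L by positivity) Q m
  have h2 : Real.exp (-(R / L) * lg N m) ≤ 1 := by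
    rw [Real.exp_le_one_iff]
    have : 0 ≤ R / L * lg N m := mul_nonneg (by positivity) (lg_nonneg hN m)
    linarith
  unfold am
  rw [abs_mul, abs_of_pos (Real.exp_pos _)]
  calc |lam N b (θ * L) Q m| * Real.exp (-(R / L) * lg N m)
      ≤ |lam N b (θ * L) Q m| * 1 := mul_le_mul_of_nonneg_left h2 (abs_nonneg _)
    _ ≤ 3 * (ph N m)⁻¹ := by rw [mul_one]; exact h1
    _ ≤ 3 * (C * Real.exp (ε * lg N m)) := by linarith [h m]
    _ = 3 * C * Real.exp (ε * lg N m) := by ring


alias WW_exp := WW_exp_pr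
alias ps_sum := ps_sum_pr
alias ps_one := ps_one_pr
alias ps_asymp := ps_asymp_pr
alias am_abs := am_abs_pr

end Pool.Agent.LVA
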