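import Pool.Agent.Lib_helper92.LVA.Defs
import Pool.Agent.Lib_helper92.ASA.All
import Pool.Agent.Lib_helper92.LVAF.BA
import Pool.Agent.Lib_helper92.LVAF.BB
import Pool.Agent.Lib_helper92.LVAF.LA
import Pool.Agent.Lib_helper92.LVAF.KC

/-! Project LVK, part A, block BE: the mollified coefficients are small in mean. -/

namespace Pool.Agent.LVA

open Complex MeasureTheory Filter Topology Set Pool.Agent.AS

variable {P : Type} {N : P → ℕ}

theorem be_one_le (hN : Good N) (g : P →₀ ℕ) : (1 : ℝ) ≤ nm N g := by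
  exact_mod_cast nm_pos hN.two_le g

theorem be_lg_le (hN : Good N) (g : P →₀ ℕ) : lg N g.support ≤ Real.log (nm N g) := by
  unfold lg nm Finsupp.prod
  have hne : ∀ p ∈ g.support, ((N p : ℝ) ^ g p) ≠ 0 := by
    intro p _
    have : (0 : ℝ) < N p := by exact_mod_cast (lt_of_lt_of_le two_pos (hN.two_le p))
    positivity
  push_cast
  rw [Real.log_prod hne]
  refine Finset.sum_le_sum fun p hp => ?_
  rw [Real.log_pow]
  have h1 : (1 : ℝ) ≤ g p := by
    have : g p ≠ 0 := Finsupp.mem_support_iff.1 hp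
    exact_mod_cast Nat.one_le_iff_ne_zero.2 this
  have h2 : 0 ≤ Real.log (N p) := Real.log_natCast_nonneg _
  exact le_mul_of_one_le_left h2 h1

theorem be_abs (hN : Good N) : ∃ K : ℝ, 1 ≤ K ∧
    ∀ (b θ R L : ℝ) (Q : Finset P) (g : P →₀ ℕ), |b| ≤ 1 / 2 → 0 < θ → 0 ≤ R → 0 < L →
      ∑ m ∈ g.support.powerset, |am N b θ R L Q m| ≤
        K * Real.exp (Real.log (nm N g) / 4) ^ 2 := by
  obtain ⟨C1, h11, h1⟩ := am_abs hN (ε := 1 / 4) (by norm_num)
  obtain ⟨C2, h21, h2⟩ := two_pow hN (ε := 1 / 4) (by norm_num)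
  refine ⟨C2 * C1, by nlinarith, fun b θ R L Q g hb hθ hR hL => ?_⟩
  have hl := be_lg_le hN g
  have hE : Real.exp (1 / 4 * lg N g.support) ≤ Real.exp (Real.log (nm N g) / 4) := by
    apply Real.exp_le_exp.2
    linarith
  calc ∑ m ∈ g.support.powerset, |am N b θ R L Q m|
      ≤ ∑ m ∈ g.support.powerset, C1 * Real.exp (1 / 4 * lg N g.support) := by
        refine Finset.sum_le_sum fun m hm => (h1 b θ R L Q m hb hθ hR hL).trans ?_
        have := lg_mono hN (Finset.mem_powerset.1 hm)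
        apply mul_le_mul_of_nonneg_left _ (by linarith)
        apply Real.exp_le_exp.2
        linarith
    _ = 2 ^ g.support.card * (C1 * Real.exp (1 / 4 * lg N g.support)) := by
        rw [Finset.sum_const, Finset.card_powerset, nsmul_eq_mul]
        push_cast
        rfl
    _ ≤ (C2 * Real.exp (Real.log (nm N g) / 4)) *
          (C1 * Real.exp (Real.log (nm N g) / 4)) := by
        have h3 := h2 g.support
        have h4 : (2 : ℝ) ^ g.support.card ≤ C2 * Real.exp (Real.log (nm N g) / 4) :=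
          h3.trans (mul_le_mul_of_nonneg_left hE (by linarith))
        have h5 : C1 * Real.exp (1 / 4 * lg N g.support) ≤
            C1 * Real.exp (Real.log (nm N g) / 4) := mul_le_mul_of_nonneg_left hE (by linarith)
        exact mul_le_mul h4 h5 (by positivity) (by positivity)
    _ = C2 * C1 * Real.exp (Real.log (nm N g) / 4) ^ 2 := by ring

/-- the term -/
noncomputable def beT (N : P → ℕ) (b θ R L : ℝ) (Q : Finset P) (g : P →₀ ℕ) : ℝ :=
  ((nm N g : ℝ)⁻¹) ^ 2 * (|∑ m ∈ g.support.powerset, am N b θ R L Q m| +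
          (1 + Real.log (nm N g)) / L * ∑ m ∈ g.support.powerset, |am N b θ R L Q m|)

theorem beT_nonneg (hN : Good N) {b θ R L : ℝ} (hL : 0 < L) (Q : Finset P) (g : P →₀ ℕ) :
    0 ≤ beT N b θ R L Q g := by
  have h1 := Real.log_nonneg (be_one_le hN g)
  unfold beT
  have h2 : 0 ≤ ∑ m ∈ g.support.powerset, |am N b θ R L Q m| :=
    Finset.sum_nonneg fun _ _ => abs_nonneg _
  positivity

theorem beT_bound (hN : Good N) : ∃ K : ℝ, 1 ≤ K ∧
    ∀ (b θ R L : ℝ) (Q : Finset P) (g : P →₀ ℕ), |b| ≤ 1 / 2 → 0 < θ → 0 ≤ R → 1 ≤ L →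
      beT N b θ R L Q g ≤ K * (nm N g : ℝ) ^ (-(1 + (1 / 4 : ℝ))) := by
  obtain ⟨K, hK1, hK⟩ := be_abs hN
  refine ⟨5 * K, by linarith, fun b θ R L Q g hb hθ hR hL => ?_⟩
  have hn := be_one_le hN g
  have hn0 : (0 : ℝ) < nm N g := by linarith
  have hl := Real.log_nonneg hn
  have hB := hK b θ R L Q g hb hθ hR (by linarith)
  set x : ℝ := Real.exp (Real.log (nm N g) / 4) with hx
  have hx1 : 1 ≤ x := Real.one_le_exp (by linarith)
  have hx0 : 0 < x := by linarith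
  have hnx : (nm N g : ℝ) = x ^ 4 := by
    rw [hx, ← Real.exp_nat_mul]
    have : ((4 : ℕ) : ℝ) * (Real.log (nm N g) / 4) = Real.log (nm N g) := by push_cast; ring
    rw [this, Real.exp_log hn0]
  have hlx : 1 + Real.log (nm N g) ≤ 4 * x := by
    have h1 := Real.add_one_le_exp (Real.log (nm N g) / 4)
    rw [← hx] at h1
    linarith
  have hpow : (nm N g : ℝ) ^ (-(1 + (1 / 4 : ℝ))) = (x ^ 5)⁻¹ := by
    rw [Real.rpow_def_of_pos hn0, hx, ← Real.exp_nat_mul, ← Real.exp_neg]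
    congr 1
    push_cast
    ring
  have hA : |∑ m ∈ g.support.powerset, am N b θ R L Q m| ≤
      ∑ m ∈ g.support.powerset, |am N b θ R L Q m| := Finset.abs_sum_le_sum_abs _ _
  set B : ℝ := ∑ m ∈ g.support.powerset, |am N b θ R L Q m| with hBd
  have hB0 : 0 ≤ B := Finset.sum_nonneg fun _ _ => abs_nonneg _
  have hdiv : (1 + Real.log (nm N g)) / L ≤ 4 * x :=
    (div_le_self (by linarith) hL).trans hlx
  have h3 : |∑ m ∈ g.support.powerset, am N b θ R L Q m| + (1 + Real.log (nm N g)) / L * B ≤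
      (K * x ^ 2) * (5 * x) := by
    have h4 : (1 + Real.log (nm N g)) / L * B ≤ 4 * x * B :=
      mul_le_mul_of_nonneg_right hdiv hB0
    have h5 : B ≤ x * B := le_mul_of_one_le_left hB0 hx1
    have h6 : 5 * x * B ≤ 5 * x * (K * x ^ 2) := mul_le_mul_of_nonneg_left hB (by positivity)
    linarith
  unfold beT
  rw [hpow]
  calc _ ≤ ((nm N g : ℝ)⁻¹) ^ 2 * ((K * x ^ 2) * (5 * x)) :=
        mul_le_mul_of_nonneg_left h3 (by positivity)
    _ = 5 * K * (x ^ 5)⁻¹ := by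
        rw [hnx]
        field_simp

theorem be_am (hN : Good N) {ρ : ℝ} (hC : Cnt N ρ) {b θ R δ : ℝ} (hb : |b| ≤ 1 / 2)
    (hθ : 0 < θ) (hθ1 : θ ≤ 1) (hR : 0 ≤ R) (hδ : 0 < δ) (m : Finset P) :
    ∃ L₀ : ℝ, 1 ≤ L₀ ∧ ∀ L, L₀ ≤ L → ∀ Q : Finset P, lg N Q ≤ L → Disjoint m Q →
      |am N b θ R L Q m - (-1) ^ m.card| ≤ δ := by
  obtain ⟨L₁, hL₁, h1⟩ := lam_lim hN hC hb hθ hθ1 (half_pos hδ) m
  have hlg := lg_nonneg hN m
  refine ⟨max L₁ (2 * R * lg N m / δ), le_max_of_le_left hL₁, fun L hL Q hQ hd => ?_⟩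
  have hL1 := (le_max_left _ _).trans hL
  have hL2 := (le_max_right _ _).trans hL
  have hL0 : 0 < L := by linarith
  have h2 := h1 L hL1 Q hQ hd
  set y : ℝ := R / L * lg N m with hy
  have hy0 : 0 ≤ y := by positivity
  have hy1 : y ≤ δ / 2 := by
    rw [div_le_iff₀ hδ] at hL2
    rw [hy, div_mul_eq_mul_div, div_le_iff₀ hL0]
    linarith
  have he1 : Real.exp (-y) ≤ 1 := Real.exp_le_one_iff.2 (by linarith)
  have he2 : 1 - y ≤ Real.exp (-y) := by
    have := Real.add_one_le_exp (-y)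
    linarith
  have e : am N b θ R L Q m - (-1) ^ m.card =
      (lam N b (θ * L) Q m - (-1) ^ m.card) * Real.exp (-y) +
        (-1) ^ m.card * (Real.exp (-y) - 1) := by
    unfold am
    rw [hy, neg_mul]
    ring
  rw [e]
  refine (abs_add_le _ _).trans ?_
  rw [abs_mul, abs_mul, abs_of_pos (Real.exp_pos _), abs_pow, abs_neg, abs_one, one_pow, one_mul]
  have h3 : |lam N b (θ * L) Q m - (-1) ^ m.card| * Real.exp (-y) ≤ δ / 2 :=
    (mul_le_of_le_one_right (abs_nonneg _) he1).trans h2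
  have h4 : |Real.exp (-y) - 1| ≤ δ / 2 := by
    rw [abs_of_nonpos (by linarith)]
    linarith
  linarith

theorem be_term (hN : Good N) {ρ : ℝ} (hC : Cnt N ρ) {b θ R ε : ℝ} (hb : |b| ≤ 1 / 2)
    (hθ : 0 < θ) (hθ1 : θ ≤ 1) (hR : 0 ≤ R) (hε : 0 < ε) (g : P →₀ ℕ) (hg : g ≠ 0) :
    ∃ L₀ : ℝ, 1 ≤ L₀ ∧ ∀ L, L₀ ≤ L → ∀ Q : Finset P, lg N Q ≤ L → Cop Q g →
      beT N b θ R L Q g ≤ ε := by
  classical
  obtain ⟨K, hK1, hK⟩ := be_abs hN
  set S := g.support.powerset with hS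
  have hcard : (0 : ℝ) < S.card := by
    have : 0 < S.card := Finset.card_pos.2 ⟨∅, Finset.empty_mem_powerset _⟩
    exact_mod_cast this
  set δ : ℝ := ε / (2 * S.card) with hδd
  have hδ : 0 < δ := by positivity
  choose L₁ hL₁ h1 using fun m : Finset P => be_am hN hC hb hθ hθ1 hR hδ m
  have hn := be_one_le hN g
  have hl := Real.log_nonneg hn
  set M : ℝ := (1 + Real.log (nm N g)) * (K * Real.exp (Real.log (nm N g) / 4) ^ 2) with hM
  have hM0 : 0 ≤ M := by positivity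
  refine ⟨max (∑ m ∈ S, L₁ m) (max 1 (2 * M / ε)),
    le_max_of_le_right (le_max_left _ _), fun L hL Q hQ hcop => ?_⟩
  have hLa := (le_max_left _ _).trans hL
  have hLb := (le_max_left _ _).trans ((le_max_right _ _).trans hL)
  have hLc := (le_max_right _ _).trans ((le_max_right _ _).trans hL)
  have hL0 : 0 < L := by linarith
  have hdis : ∀ m ∈ S, Disjoint m Q := by
    intro m hm
    rw [Finset.disjoint_left]
    intro p hp hpQ
    have h2 := Finset.mem_powerset.1 hm hp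
    exact Finsupp.mem_support_iff.1 h2 (hcop p hpQ)
  have hterm : ∀ m ∈ S, |am N b θ R L Q m - (-1) ^ m.card| ≤ δ := by
    intro m hm
    apply h1 m L _ Q hQ (hdis m hm)
    refine le_trans ?_ hLa
    exact Finset.single_le_sum (f := L₁) (fun i _ => by linarith [hL₁ i]) hm
  have hzero : ∑ m ∈ S, (-1 : ℝ) ^ m.card = 0 := by
    have h2 := Finset.sum_powerset_neg_one_pow_card_of_nonempty
      (x := g.support) (Finsupp.support_nonempty_iff.2 hg)
    have h3 : ((∑ m ∈ g.support.powerset, (-1 : ℤ) ^ m.card : ℤ) : ℝ) = 0 := by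
      rw [h2]; simp
    push_cast at h3
    exact h3
  have hA : |∑ m ∈ S, am N b θ R L Q m| ≤ ε / 2 := by
    have h2 : ∑ m ∈ S, am N b θ R L Q m = ∑ m ∈ S, (am N b θ R L Q m - (-1) ^ m.card) := by
      rw [Finset.sum_sub_distrib, hzero, sub_zero]
    rw [h2]
    refine (Finset.abs_sum_le_sum_abs _ _).trans ((Finset.sum_le_sum hterm).trans ?_)
    rw [Finset.sum_const, nsmul_eq_mul, hδd]
    apply le_of_eq
    field_simp
  have hB : (1 + Real.log (nm N g)) / L * ∑ m ∈ S, |am N b θ R L Q m| ≤ ε / 2 := by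
    have h2 := hK b θ R L Q g hb hθ hR hL0
    calc (1 + Real.log (nm N g)) / L * ∑ m ∈ S, |am N b θ R L Q m| ≤
        (1 + Real.log (nm N g)) / L * (K * Real.exp (Real.log (nm N g) / 4) ^ 2) :=
          mul_le_mul_of_nonneg_left h2 (by positivity)
      _ = M / L := by rw [hM]; ring
      _ ≤ ε / 2 := by
          rw [div_le_iff₀ hε] at hLc
          rw [div_le_iff₀ hL0]
          linarith
  unfold beT
  have h5 : ((nm N g : ℝ)⁻¹) ^ 2 ≤ 1 := by
    apply pow_le_one₀ (by positivity)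
    exact inv_le_one_of_one_le₀ hn
  have h6 : 0 ≤ |∑ m ∈ S, am N b θ R L Q m| +
      (1 + Real.log (nm N g)) / L * ∑ m ∈ S, |am N b θ R L Q m| := by
    have : 0 ≤ ∑ m ∈ S, |am N b θ R L Q m| := Finset.sum_nonneg fun _ _ => abs_nonneg _
    positivity
  calc _ ≤ 1 * (|∑ m ∈ S, am N b θ R L Q m| +
      (1 + Real.log (nm N g)) / L * ∑ m ∈ S, |am N b θ R L Q m|) :=
        mul_le_mul_of_nonneg_right h5 h6
    _ ≤ ε := by linarith

open scoped Classical in
theorem beta_small_pr (hN : Good N) {ρ : ℝ} (hC : Cnt N ρ) {b θ R ε : ℝ} (hb : |b| ≤ 1 / 2)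
    (hθ : 0 < θ) (hθ1 : θ ≤ 1) (hR : 0 ≤ R) (hε : 0 < ε) :
    ∃ L₀ : ℝ, 1 ≤ L₀ ∧ ∀ L, L₀ ≤ L → ∀ Q : Finset P, lg N Q ≤ L →
      Summable (fun g : P →₀ ℕ => if g ≠ 0 ∧ Cop Q g then
        ((nm N g : ℝ)⁻¹) ^ 2 * (|∑ m ∈ g.support.powerset, am N b θ R L Q m| +
          (1 + Real.log (nm N g)) / L * ∑ m ∈ g.support.powerset, |am N b θ R L Q m|) else 0) ∧
      ∑' g : P →₀ ℕ, (if g ≠ 0 ∧ Cop Q g then
        ((nm N g : ℝ)⁻¹) ^ 2 * (|∑ m ∈ g.support.powerset, am N b θ R L Q m| +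
          (1 + Real.log (nm N g)) / L * ∑ m ∈ g.support.powerset, |am N b θ R L Q m|) else 0) ≤
        ε := by
  obtain ⟨K, hK1, hK⟩ := beT_bound hN
  have hs := (hN.summable (1 / 4) (by norm_num)).mul_left K
  set f : (P →₀ ℕ) → ℝ := fun g => K * (nm N g : ℝ) ^ (-(1 + (1 / 4 : ℝ))) with hf
  have hf0 : ∀ g, 0 ≤ f g := fun g => by rw [hf]; positivity
  -- the finite set
  obtain ⟨S, hS⟩ : ∃ S : Finset (P →₀ ℕ), ∑' g, f g - ε / 2 < ∑ g ∈ S, f g := by
    have h1 := hs.hasSum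
    have h2 := h1.eventually (lt_mem_nhds (show ∑' g, f g - ε / 2 < ∑' g, f g by linarith))
    exact h2.exists
  set ε' : ℝ := ε / (2 * (S.card + 1)) with hε'd
  have hε' : 0 < ε' := by positivity
  have hex : ∀ g : P →₀ ℕ, ∃ L₀ : ℝ, 1 ≤ L₀ ∧ (g ≠ 0 → ∀ L, L₀ ≤ L → ∀ Q : Finset P,
      lg N Q ≤ L → Cop Q g → beT N b θ R L Q g ≤ ε') := by
    intro g
    by_cases hg : g = 0
    · exact ⟨1, le_rfl, fun h => absurd hg h⟩
    · obtain ⟨L₀, h1, h2⟩ := be_term hN hC hb hθ hθ1 hR hε' g hg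
      exact ⟨L₀, h1, fun _ => h2⟩
  choose L₁ hL₁ h1 using hex
  refine ⟨max 1 (∑ g ∈ S, L₁ g), le_max_left _ _, fun L hL Q hQ => ?_⟩
  have hLa := (le_max_left _ _).trans hL
  have hLb := (le_max_right _ _).trans hL
  have hL0 : 0 < L := by linarith
  set T : (P →₀ ℕ) → ℝ := fun g => if g ≠ 0 ∧ Cop Q g then beT N b θ R L Q g else 0 with hT
  have hT0 : ∀ g, 0 ≤ T g := by
    intro g
    rw [hT]
    simp only
    split_ifs
    · exact beT_nonneg hN hL0 Q g
    · exact le_rfl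
  have hTf : ∀ g, T g ≤ f g := by
    intro g
    rw [hT]
    simp only
    split_ifs
    · exact hK b θ R L Q g hb hθ hR hLa
    · exact hf0 g
  have hTs : Summable T := Summable.of_nonneg_of_le hT0 hTf hs
  have hTS : ∀ g ∈ S, T g ≤ ε' := by
    intro g hg
    rw [hT]
    simp only
    split_ifs with hc
    · apply h1 g hc.1 L _ Q hQ hc.2
      exact (Finset.single_le_sum (f := L₁) (fun i _ => by linarith [hL₁ i]) hg).trans hLb
    · exact hε'.le
  have hmain : ∑' g, T g ≤ ε := by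
    have h2 : ∑ g ∈ S, (f g - T g) ≤ ∑' g, (f g - T g) :=
      (hs.sub hTs).sum_le_tsum S (fun g _ => sub_nonneg.2 (hTf g))
    rw [hs.tsum_sub hTs, Finset.sum_sub_distrib] at h2
    have h3 : ∑ g ∈ S, T g ≤ ε / 2 := by
      refine (Finset.sum_le_sum hTS).trans ?_
      rw [Finset.sum_const, nsmul_eq_mul, hε'd, mul_div_assoc', div_le_div_iff₀ (by positivity)
        (by norm_num)]
      nlinarith [hε]
    linarith
  exact ⟨hTs, hmain⟩


alias beta_small := beta_small_pr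

end Pool.Agent.LVA
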