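import Pool.Agent.Lib_helper92.LVA.Defs
import Pool.Agent.Lib_helper92.ASA.All

/-! Project LVK, part A, block KA: kernels. -/

namespace Pool.Agent.LVA

open Complex MeasureTheory Filter Topology Set Pool.Agent.AS

variable {P : Type} {N : P → ℕ}

theorem ka_nm_pos (hN : Good N) (g : P →₀ ℕ) : (0 : ℝ) < nm N g := by
  exact_mod_cast nm_pos hN.two_le g

theorem ka_term (hN : Good N) (A v : ℝ) (g : P →₀ ℕ) :
    Real.exp (-(A * (v + Real.log (nm N g)))) =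
      Real.exp (-(A * v)) * (nm N g : ℝ) ^ (-(1 + (A - 1))) := by
  rw [Real.rpow_def_of_pos (ka_nm_pos hN g), ← Real.exp_add]
  congr 1
  ring

theorem ka_sum (hN : Good N) {k : ℝ → ℝ} {ρ₂ : ℝ} (hk : Kern N k ρ₂) (w : ℝ) :
    Summable (fun g : P →₀ ℕ => k (w + Real.log (nm N g))) := gsum_summable hN hk w

theorem W1_cont_pr (hN : Good N) {k : ℝ → ℝ} {ρ₂ : ℝ} (hk : Kern N k ρ₂) : Continuous (W1 N k) := by
  obtain ⟨C, hC⟩ := hk.decay 2 two_pos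
  have hC0 : 0 ≤ C := by
    have := (hk.nonneg 0).trans (hC 0)
    simpa using this
  rw [continuous_iff_continuousAt]
  intro v₀
  have hs := (hN.summable (2 - 1) (by norm_num)).mul_left (C * Real.exp (-(2 * (v₀ - 1))))
  have hco : ContinuousOn (fun v : ℝ => ∑' g : P →₀ ℕ, k (v + Real.log (nm N g)))
      (Ioi (v₀ - 1)) := by
    refine continuousOn_tsum (fun g => ?_) hs ?_
    · exact (hk.cont.comp (by fun_prop)).continuousOn
    · intro g v hv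
      have hv' : v₀ - 1 < v := hv
      rw [Real.norm_eq_abs, abs_of_nonneg (hk.nonneg _)]
      refine (hC _).trans ?_
      rw [ka_term hN 2 v g, ← mul_assoc]
      apply mul_le_mul_of_nonneg_right _ (by positivity)
      apply mul_le_mul_of_nonneg_left _ hC0
      apply Real.exp_le_exp.2
      linarith
  exact hco.continuousAt (Ioi_mem_nhds (by linarith))

theorem EE_neg_pr (hN : Good N) {k : ℝ → ℝ} {ρ₂ : ℝ} (hk : Kern N k ρ₂) :
    ∃ C : ℝ, 0 ≤ C ∧ ∀ v, v ≤ 0 → |EE N k ρ₂ v| ≤ C := by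
  obtain ⟨C, hC⟩ := hk.poisson
  refine ⟨C, (abs_nonneg _).trans (hC 0), fun v hv => ?_⟩
  unfold EE W1
  rw [if_pos hv]
  exact hC v

theorem EE_pos_pr (hN : Good N) {k : ℝ → ℝ} {ρ₂ : ℝ} (hk : Kern N k ρ₂) {A : ℝ} (hA : 1 < A) :
    ∃ C : ℝ, 0 ≤ C ∧ ∀ v, 0 < v → |EE N k ρ₂ v| ≤ C * Real.exp (-(A * v)) := by
  obtain ⟨C, hC⟩ := hk.decay A (by linarith)
  have hC0 : 0 ≤ C := by
    have := (hk.nonneg 0).trans (hC 0)
    simpa using this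
  have hs := hN.summable (A - 1) (by linarith)
  have hZ : 0 ≤ ∑' g : P →₀ ℕ, (nm N g : ℝ) ^ (-(1 + (A - 1))) :=
    tsum_nonneg fun g => by positivity
  refine ⟨C * ∑' g : P →₀ ℕ, (nm N g : ℝ) ^ (-(1 + (A - 1))), mul_nonneg hC0 hZ, fun v hv => ?_⟩
  unfold EE W1
  rw [if_neg (not_le.2 hv), sub_zero, abs_of_nonneg (tsum_nonneg fun g => hk.nonneg _)]
  have h1 : ∑' g : P →₀ ℕ, k (v + Real.log (nm N g)) ≤
      ∑' g : P →₀ ℕ, C * Real.exp (-(A * v)) * (nm N g : ℝ) ^ (-(1 + (A - 1))) := by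
    refine (ka_sum hN hk v).tsum_le_tsum (fun g => ?_) (hs.mul_left _)
    refine (hC _).trans (le_of_eq ?_)
    rw [ka_term hN A v g]
    ring
  rw [tsum_mul_left] at h1
  refine h1.trans (le_of_eq ?_)
  ring

theorem ka_meas (hN : Good N) {k : ℝ → ℝ} {ρ₂ : ℝ} (hk : Kern N k ρ₂) :
    Measurable (EE N k ρ₂) := by
  classical
  have h1 : Measurable fun v : ℝ => if v ≤ 0 then ρ₂ * Real.exp (-v) else 0 :=
    Measurable.ite measurableSet_Iic (by fun_prop) measurable_const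
  have h2 : EE N k ρ₂ = fun v => W1 N k v - if v ≤ 0 then ρ₂ * Real.exp (-v) else 0 := by
    funext v
    unfold EE
    congr
  rw [h2]
  exact (W1_cont_pr hN hk).measurable.sub h1

theorem ka_norm (k : ℝ → ℝ) (ρ₂ : ℝ) (κ : ℂ) (v : ℝ) :
    ‖Complex.exp (κ * v) * (EE N k ρ₂ v : ℝ)‖ = Real.exp (κ.re * v) * |EE N k ρ₂ v| := by
  rw [norm_mul, Complex.norm_exp, Complex.norm_real, Real.norm_eq_abs]
  congr 2
  simp

theorem ka_aesm (hN : Good N) {k : ℝ → ℝ} {ρ₂ : ℝ} (hk : Kern N k ρ₂) (κ : ℂ) :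
    Measurable (fun v : ℝ => Complex.exp (κ * v) * (EE N k ρ₂ v : ℝ)) := by
  have h1 := ka_meas hN hk
  have h2 : Measurable fun v : ℝ => Complex.exp (κ * v) := by fun_prop
  exact h2.mul (Complex.measurable_ofReal.comp h1)

theorem ka_Iic (hN : Good N) {k : ℝ → ℝ} {ρ₂ : ℝ} (hk : Kern N k ρ₂) {C : ℝ} (hC0 : 0 ≤ C)
    (hC : ∀ v, v ≤ 0 → |EE N k ρ₂ v| ≤ C) {κ : ℂ} (hκ : 0 < κ.re) {c : ℝ} (hc : c ≤ 0) :
    IntegrableOn (fun v : ℝ => Complex.exp (κ * v) * (EE N k ρ₂ v : ℝ)) (Iic c) ∧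
    ∫ v in Iic c, ‖Complex.exp (κ * v) * (EE N k ρ₂ v : ℝ)‖ ≤
      C * (Real.exp (κ.re * c) / κ.re) := by
  have hi : IntegrableOn (fun v : ℝ => C * Real.exp (κ.re * v)) (Iic c) :=
    (integrableOn_exp_mul_Iic hκ c).const_mul C
  have hb : ∀ v ∈ Iic c, ‖Complex.exp (κ * v) * (EE N k ρ₂ v : ℝ)‖ ≤
      C * Real.exp (κ.re * v) := by
    intro v hv
    have hv' : v ≤ c := hv
    rw [ka_norm, mul_comm C]
    exact mul_le_mul_of_nonneg_left (hC v (hv'.trans hc)) (Real.exp_pos _).le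
  have hI : IntegrableOn (fun v : ℝ => Complex.exp (κ * v) * (EE N k ρ₂ v : ℝ)) (Iic c) :=
    Integrable.mono' hi (ka_aesm hN hk κ).aestronglyMeasurable
      ((ae_restrict_iff' measurableSet_Iic).2 (Eventually.of_forall hb))
  refine ⟨hI, ?_⟩
  calc _ ≤ ∫ v in Iic c, C * Real.exp (κ.re * v) :=
        setIntegral_mono_on hI.norm hi measurableSet_Iic hb
    _ = C * (Real.exp (κ.re * c) / κ.re) := by
        rw [integral_const_mul, integral_exp_mul_Iic hκ]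

theorem ka_Ioi (hN : Good N) {k : ℝ → ℝ} {ρ₂ : ℝ} (hk : Kern N k ρ₂) {C A : ℝ} (hC0 : 0 ≤ C)
    (hC : ∀ v, 0 < v → |EE N k ρ₂ v| ≤ C * Real.exp (-(A * v))) {κ : ℂ} (hκ : κ.re < A) :
    IntegrableOn (fun v : ℝ => Complex.exp (κ * v) * (EE N k ρ₂ v : ℝ)) (Ioi 0) ∧
    ∫ v in Ioi (0 : ℝ), ‖Complex.exp (κ * v) * (EE N k ρ₂ v : ℝ)‖ ≤ C / (A - κ.re) := by
  have hneg : κ.re - A < 0 := by linarith
  have hi : IntegrableOn (fun v : ℝ => C * Real.exp ((κ.re - A) * v)) (Ioi 0) :=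
    (integrableOn_exp_mul_Ioi hneg 0).const_mul C
  have hb : ∀ v ∈ Ioi (0 : ℝ), ‖Complex.exp (κ * v) * (EE N k ρ₂ v : ℝ)‖ ≤
      C * Real.exp ((κ.re - A) * v) := by
    intro v hv
    have hv' : 0 < v := hv
    rw [ka_norm]
    refine (mul_le_mul_of_nonneg_left (hC v hv') (Real.exp_pos _).le).trans (le_of_eq ?_)
    have : (κ.re - A) * v = κ.re * v + -(A * v) := by ring
    rw [this, Real.exp_add]
    ring
  have hI : IntegrableOn (fun v : ℝ => Complex.exp (κ * v) * (EE N k ρ₂ v : ℝ)) (Ioi 0) :=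
    Integrable.mono' hi (ka_aesm hN hk κ).aestronglyMeasurable
      ((ae_restrict_iff' measurableSet_Ioi).2 (Eventually.of_forall hb))
  refine ⟨hI, ?_⟩
  calc _ ≤ ∫ v in Ioi (0 : ℝ), C * Real.exp ((κ.re - A) * v) :=
        setIntegral_mono_on hI.norm hi measurableSet_Ioi hb
    _ = C / (A - κ.re) := by
        rw [integral_const_mul, integral_exp_mul_Ioi hneg, mul_zero, Real.exp_zero]
        have h1 : κ.re - A ≠ 0 := hneg.ne
        have h2 : A - κ.re ≠ 0 := by linarith [hneg] |> fun (h : (0:ℝ) < A - κ.re) => h.ne'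
        field_simp
        ring

theorem EE_int_pr (hN : Good N) {k : ℝ → ℝ} {ρ₂ : ℝ} (hk : Kern N k ρ₂) {κ : ℂ} (hκ : 0 < κ.re) :
    Integrable (fun v : ℝ => Complex.exp (κ * v) * (EE N k ρ₂ v : ℝ)) := by
  obtain ⟨C1, h10, h1⟩ := EE_neg_pr hN hk
  obtain ⟨C2, h20, h2⟩ := EE_pos_pr hN hk (A := κ.re + 2) (by linarith)
  have e1 := (ka_Iic hN hk h10 h1 hκ le_rfl).1
  have e2 := (ka_Ioi hN hk h20 h2 (κ := κ) (by linarith)).1
  rw [← integrableOn_univ, ← Iic_union_Ioi (a := (0 : ℝ))]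
  exact e1.union e2

theorem EE_tot_pr (hN : Good N) {k : ℝ → ℝ} {ρ₂ : ℝ} (hk : Kern N k ρ₂) :
    ∃ C : ℝ, 0 ≤ C ∧ ∀ κ : ℂ, 1 / 2 ≤ κ.re → κ.re ≤ 3 / 2 →
      ∫ v : ℝ, ‖Complex.exp (κ * v) * (EE N k ρ₂ v : ℝ)‖ ≤ C := by
  obtain ⟨C1, h10, h1⟩ := EE_neg_pr hN hk
  obtain ⟨C2, h20, h2⟩ := EE_pos_pr hN hk (A := 3) (by norm_num)
  refine ⟨2 * C1 + C2, by positivity, fun κ hκ1 hκ2 => ?_⟩
  have hκ : 0 < κ.re := by linarith
  obtain ⟨e1, f1⟩ := ka_Iic hN hk h10 h1 hκ le_rfl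
  obtain ⟨e2, f2⟩ := ka_Ioi hN hk h20 h2 (κ := κ) (by linarith)
  have h3 : ∫ v : ℝ, ‖Complex.exp (κ * v) * (EE N k ρ₂ v : ℝ)‖ =
      (∫ v in Iic (0 : ℝ), ‖Complex.exp (κ * v) * (EE N k ρ₂ v : ℝ)‖) +
      ∫ v in Ioi (0 : ℝ), ‖Complex.exp (κ * v) * (EE N k ρ₂ v : ℝ)‖ := by
    rw [← setIntegral_union (Iic_disjoint_Ioi le_rfl) measurableSet_Ioi e1.norm e2.norm,
      Iic_union_Ioi, setIntegral_univ]
  rw [h3]
  have g1 : C1 * (Real.exp (κ.re * 0) / κ.re) ≤ 2 * C1 := by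
    rw [mul_zero, Real.exp_zero, mul_comm 2]
    apply mul_le_mul_of_nonneg_left _ h10
    rw [div_le_iff₀ hκ]
    linarith
  have g2 : C2 / (3 - κ.re) ≤ C2 := div_le_self h20 (by linarith)
  linarith

theorem EE_low_pr (hN : Good N) {k : ℝ → ℝ} {ρ₂ : ℝ} (hk : Kern N k ρ₂) :
    ∃ C : ℝ, 0 ≤ C ∧ ∀ (κ : ℂ) (c : ℝ), 1 / 2 ≤ κ.re → κ.re ≤ 3 / 2 → c ≤ 0 →
      ∫ v in Iic c, ‖Complex.exp (κ * v) * (EE N k ρ₂ v : ℝ)‖ ≤ C * Real.exp (κ.re * c) := by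
  obtain ⟨C1, h10, h1⟩ := EE_neg_pr hN hk
  refine ⟨2 * C1, by positivity, fun κ c hκ1 hκ2 hc => ?_⟩
  have hκ : 0 < κ.re := by linarith
  refine (ka_Iic hN hk h10 h1 hκ hc).2.trans ?_
  have g1 : C1 * (Real.exp (κ.re * c) / κ.re) ≤ C1 * (2 * Real.exp (κ.re * c)) := by
    apply mul_le_mul_of_nonneg_left _ h10
    rw [div_le_iff₀ hκ]
    nlinarith [Real.exp_pos (κ.re * c)]
  refine g1.trans (le_of_eq ?_)
  ring


alias W1_cont := W1_cont_pr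
alias EE_neg := EE_neg_pr
alias EE_pos := EE_pos_pr
alias EE_int := EE_int_pr
alias EE_tot := EE_tot_pr
alias EE_low := EE_low_pr

end Pool.Agent.LVA
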