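import Pool.Agent.Lib_helper92.LVA.Defs
import Pool.Agent.Lib_helper92.ASA.All
import Pool.Agent.Lib_helper92.LVAF.BA
import Pool.Agent.Lib_helper92.LVAF.KA
import Pool.Agent.Lib_helper92.LVAF.KC

/-!
# Project LVK, part A, block CI: Cauchy's estimate in two variables, integrability
-/

namespace Pool.Agent.LVA

open Complex MeasureTheory Filter Topology Set Pool.Agent.AS

variable {P : Type} {N : P → ℕ}

theorem cauchy_two_pr (F : ℂ → ℂ → ℂ) (F₁ : ℂ → ℂ) (g : ℂ) (lm ε : ℝ) (hε : 0 ≤ ε)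
    (h1 : ∀ β : ℂ, ‖β‖ ≤ 1 / 2 → Differentiable ℂ (fun α => F α β))
    (h2 : ∀ β : ℂ, ‖β‖ ≤ 1 / 2 → HasDerivAt (fun α => F α β) (F₁ β) 0)
    (h3 : Differentiable ℂ (fun β => F 0 β + lm * F₁ β))
    (h4 : HasDerivAt (fun β => F 0 β + lm * F₁ β) g 0)
    (hb : ∀ α β : ℂ, ‖α‖ ≤ 1 / 2 → ‖β‖ ≤ 1 / 2 → ‖F α β‖ ≤ ε) :
    ‖F 0 0 + lm * F₁ 0 + lm * g‖ ≤ (1 + 2 * |lm|) ^ 2 * ε := by
  have k1 : ∀ β : ℂ, ‖β‖ ≤ 1 / 2 → ‖F₁ β‖ ≤ 2 * ε := by
    intro β hβ
    have := Complex.norm_deriv_le_of_forall_mem_sphere_norm_le (c := 0) (R := 1 / 2)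
      (C := ε) (f := fun α => F α β) (by norm_num) (h1 β hβ).diffContOnCl (fun α hα => by
        rw [mem_sphere_zero_iff_norm] at hα
        exact hb α β hα.le hβ)
    rw [(h2 β hβ).deriv] at this
    linarith
  have k2 : ∀ β : ℂ, ‖β‖ ≤ 1 / 2 → ‖F 0 β + lm * F₁ β‖ ≤ (1 + 2 * |lm|) * ε := by
    intro β hβ
    have e1 := hb 0 β (by norm_num) hβ
    have e2 := k1 β hβ
    calc ‖F 0 β + lm * F₁ β‖ ≤ ‖F 0 β‖ + ‖(lm : ℂ) * F₁ β‖ := norm_add_le _ _
      _ = ‖F 0 β‖ + |lm| * ‖F₁ β‖ := by rw [norm_mul, Complex.norm_real, Real.norm_eq_abs]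
      _ ≤ ε + |lm| * (2 * ε) := add_le_add e1 (mul_le_mul_of_nonneg_left e2 (abs_nonneg _))
      _ = _ := by ring
  have k3 : ‖g‖ ≤ 2 * ((1 + 2 * |lm|) * ε) := by
    have := Complex.norm_deriv_le_of_forall_mem_sphere_norm_le (c := 0) (R := 1 / 2)
      (C := (1 + 2 * |lm|) * ε) (f := fun β => F 0 β + lm * F₁ β) (by norm_num)
      h3.diffContOnCl (fun β hβ => by
        rw [mem_sphere_zero_iff_norm] at hβ
        exact k2 β hβ.le)
    rw [h4.deriv] at this
    linarith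
  have k4 := k2 0 (by norm_num)
  calc ‖F 0 0 + lm * F₁ 0 + lm * g‖ ≤ ‖F 0 0 + lm * F₁ 0‖ + ‖(lm : ℂ) * g‖ := norm_add_le _ _
    _ = ‖F 0 0 + lm * F₁ 0‖ + |lm| * ‖g‖ := by rw [norm_mul, Complex.norm_real, Real.norm_eq_abs]
    _ ≤ (1 + 2 * |lm|) * ε + |lm| * (2 * ((1 + 2 * |lm|) * ε)) :=
        add_le_add k4 (mul_le_mul_of_nonneg_left k3 (abs_nonneg _))
    _ = _ := by ring

theorem ci_W1 (hN : Good N) {k : ℝ → ℝ} {ρ₂ : ℝ} (hk : Kern N k ρ₂) {A : ℝ} (hA : 1 < A)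
    (c : ℝ) : ∃ C : ℝ, 0 ≤ C ∧ ∀ v, c ≤ v → |W1 N k v| ≤ C * Real.exp (-(A * v)) := by
  obtain ⟨C1, hC1, h1⟩ := EE_pos hN hk hA
  have hc : Continuous (fun v => |W1 N k v| * Real.exp (A * v)) :=
    (W1_cont hN hk).abs.mul (by fun_prop)
  obtain ⟨C2, hC2⟩ := (isCompact_Icc (a := c) (b := 0)).exists_bound_of_continuousOn hc.continuousOn
  refine ⟨max C1 C2, hC1.trans (le_max_left _ _), fun v hv => ?_⟩
  rcases lt_or_ge 0 v with h | h
  · have h2 := h1 v h
    have h3 : EE N k ρ₂ v = W1 N k v := by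
      unfold EE
      rw [if_neg (not_le.2 h), sub_zero]
    rw [h3] at h2
    exact h2.trans (mul_le_mul_of_nonneg_right (le_max_left _ _) (Real.exp_pos _).le)
  · have h2 := hC2 v ⟨hv, h⟩
    rw [Real.norm_eq_abs, abs_mul, abs_abs, Real.abs_exp] at h2
    have h3 : |W1 N k v| = |W1 N k v| * Real.exp (A * v) * Real.exp (-(A * v)) := by
      rw [mul_assoc, ← Real.exp_add, add_neg_cancel, Real.exp_zero, mul_one]
    rw [h3]
    exact mul_le_mul_of_nonneg_right (h2.trans (le_max_right _ _)) (Real.exp_pos _).le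

theorem ci_WW_cont (hN : Good N) {k : ℝ → ℝ} {ρ₂ : ℝ} (hk : Kern N k ρ₂) (Q : Finset P) :
    Continuous (WW N k Q) := by
  have h : WW N k Q = fun v => ∑ d ∈ Q.powerset, (-1) ^ d.card * W1 N k (v + lg N d) := by
    funext v
    exact WW_exp hN hk Q v
  rw [h]
  refine continuous_finsetSum _ fun d _ => continuous_const.mul ?_
  exact (W1_cont hN hk).comp (continuous_id.add continuous_const)

theorem ci_WW (hN : Good N) {k : ℝ → ℝ} {ρ₂ : ℝ} (hk : Kern N k ρ₂) {A : ℝ} (hA : 1 < A)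
    (Q : Finset P) (c : ℝ) :
    ∃ C : ℝ, 0 ≤ C ∧ ∀ v, c ≤ v → |WW N k Q v| ≤ C * Real.exp (-(A * v)) := by
  obtain ⟨C, hC, h⟩ := ci_W1 hN hk hA c
  refine ⟨(Q.powerset.card : ℝ) * C, by positivity, fun v hv => ?_⟩
  rw [WW_exp hN hk Q v]
  calc |∑ d ∈ Q.powerset, (-1) ^ d.card * W1 N k (v + lg N d)|
      ≤ ∑ d ∈ Q.powerset, |(-1) ^ d.card * W1 N k (v + lg N d)| := Finset.abs_sum_le_sum_abs _ _
    _ ≤ ∑ d ∈ Q.powerset, C * Real.exp (-(A * v)) := by
        refine Finset.sum_le_sum fun d _ => ?_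
        have h0 := lg_nonneg hN d
        rw [abs_mul, abs_pow, abs_neg, abs_one, one_pow, one_mul]
        refine (h (v + lg N d) (by linarith)).trans (mul_le_mul_of_nonneg_left ?_ hC)
        apply Real.exp_le_exp.2
        nlinarith
    _ = _ := by rw [Finset.sum_const, nsmul_eq_mul]; ring

/-- integrability of one term -/
theorem ci_term (hN : Good N) {k : ℝ → ℝ} {ρ₂ : ℝ} (hk : Kern N k ρ₂) (κ L : ℝ) (hL : 1 ≤ L)
    (Q : Finset P) (F G : ℝ → ℂ) (hF : Continuous F) (hG : Continuous G) (B : ℝ)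
    (hFB : ∀ x, ‖F x‖ ≤ B * Real.exp |x|) (hGB : ∀ x, ‖G x‖ ≤ B * Real.exp |x|) (U p q r : ℝ) :
    IntegrableOn (fun u : ℝ => Complex.exp ((κ * u : ℝ)) * (F ((u + p) / L) * G ((u + q) / L) *
      (WW N k Q (u + r) : ℝ))) (Ioi (-U)) := by
  have hB : 0 ≤ B := by
    have h1 := hFB 0
    rw [abs_zero, Real.exp_zero, mul_one] at h1
    exact (norm_nonneg _).trans h1
  have hA : 1 < |κ| + 3 := by
    have := abs_nonneg κ
    linarith
  obtain ⟨C, hC, hW⟩ := ci_WW hN hk hA Q (-U + r)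
  have hdiv : ∀ x : ℝ, |x / L| ≤ |x| := by
    intro x
    rw [abs_div, abs_of_pos (zero_lt_one.trans_le hL)]
    exact div_le_self (abs_nonneg _) hL
  set K : ℝ := B * B * C * Real.exp (|p| + |q| - (|κ| + 3) * r + (|κ| + 2) * (2 * |U|)) with hK
  have hint : IntegrableOn (fun u : ℝ => K * Real.exp (-1 * u)) (Ioi (-U)) :=
    (exp_neg_integrableOn_Ioi (-U) zero_lt_one).const_mul K
  refine Integrable.mono' hint ?_ ?_
  · refine Continuous.aestronglyMeasurable ?_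
    refine Continuous.mul (by fun_prop) ((Continuous.mul ?_ ?_).mul ?_)
    · exact hF.comp (by fun_prop)
    · exact hG.comp (by fun_prop)
    · exact Complex.continuous_ofReal.comp ((ci_WW_cont hN hk Q).comp (by fun_prop))
  · rw [ae_restrict_iff' measurableSet_Ioi]
    refine Eventually.of_forall fun u hu => ?_
    have hu' : -U < u := hu
    have e1 : ‖Complex.exp ((κ * u : ℝ))‖ ≤ Real.exp (|κ| * |u|) := by
      rw [Complex.norm_exp, Complex.ofReal_re]
      apply Real.exp_le_exp.2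
      rw [← abs_mul]
      exact le_abs_self _
    have e2 : ‖F ((u + p) / L)‖ ≤ B * Real.exp (|u| + |p|) :=
      (hFB _).trans (mul_le_mul_of_nonneg_left
        (Real.exp_le_exp.2 ((hdiv _).trans (abs_add_le _ _))) hB)
    have e3 : ‖G ((u + q) / L)‖ ≤ B * Real.exp (|u| + |q|) :=
      (hGB _).trans (mul_le_mul_of_nonneg_left
        (Real.exp_le_exp.2 ((hdiv _).trans (abs_add_le _ _))) hB)
    have e4 : ‖((WW N k Q (u + r) : ℝ) : ℂ)‖ ≤ C * Real.exp (-((|κ| + 3) * (u + r))) := by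
      rw [Complex.norm_real, Real.norm_eq_abs]
      exact hW _ (by linarith)
    have e5 : |u| ≤ u + 2 * |U| := by
      have h1 := le_abs_self U
      have h2 := abs_nonneg U
      rcases le_total 0 u with h | h
      · rw [abs_of_nonneg h]
        linarith
      · rw [abs_of_nonpos h]
        linarith
    rw [norm_mul, norm_mul, norm_mul]
    calc ‖Complex.exp ((κ * u : ℝ))‖ * (‖F ((u + p) / L)‖ * ‖G ((u + q) / L)‖ *
          ‖((WW N k Q (u + r) : ℝ) : ℂ)‖)
        ≤ Real.exp (|κ| * |u|) * ((B * Real.exp (|u| + |p|)) * (B * Real.exp (|u| + |q|)) *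
          (C * Real.exp (-((|κ| + 3) * (u + r))))) := by
          gcongr
      _ = B * B * C * Real.exp (|κ| * |u| + ((|u| + |p|) + (|u| + |q|) +
            -((|κ| + 3) * (u + r)))) := by
          rw [Real.exp_add (|κ| * |u|), Real.exp_add ((|u| + |p|) + (|u| + |q|)),
            Real.exp_add (|u| + |p|)]
          ring
      _ ≤ B * B * C * Real.exp ((|p| + |q| - (|κ| + 3) * r + (|κ| + 2) * (2 * |U|)) + -1 * u) := by
          refine mul_le_mul_of_nonneg_left (Real.exp_le_exp.2 ?_) (by positivity)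
          have h1 := mul_le_mul_of_nonneg_left e5 (show (0 : ℝ) ≤ |κ| + 2 by
            have := abs_nonneg κ
            linarith)
          nlinarith
      _ = K * Real.exp (-1 * u) := by
          rw [hK, Real.exp_add]
          ring

theorem dirF_int_pr [DecidableEq P] (hN : Good N) {k : ℝ → ℝ} {ρ₂ : ℝ} (hk : Kern N k ρ₂)
    (b θ R L : ℝ) (hL : 1 ≤ L) (Q : Finset P) (F G : ℝ → ℂ) (hF : Continuous F)
    (hG : Continuous G) (B : ℝ) (hFB : ∀ x, ‖F x‖ ≤ B * Real.exp |x|)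
    (hGB : ∀ x, ‖G x‖ ≤ B * Real.exp |x|) (U : ℝ) :
    IntegrableOn (dirF N k b θ R L Q F G) (Ioi (-U)) := by
  have h : dirF N k b θ R L Q F G = fun u : ℝ => ∑ m ∈ SF N Q (θ * L), ∑ n ∈ SF N Q (θ * L),
      ((am N b θ R L Q m : ℂ) * (am N b θ R L Q n : ℂ)) *
        (Complex.exp (((1 - 2 * R / L) * u : ℝ)) * (F ((u + lg N m) / L) * G ((u + lg N n) / L) *
          (WW N k Q (u + lg N (m ∪ n)) : ℝ))) := by
    funext u
    unfold dirF
    rw [Finset.mul_sum]
    refine Finset.sum_congr rfl fun m _ => ?_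
    rw [Finset.mul_sum]
    refine Finset.sum_congr rfl fun n _ => ?_
    ring
  rw [h]
  refine integrable_finsetSum _ fun m _ => integrable_finsetSum _ fun n _ => ?_
  exact (ci_term hN hk (1 - 2 * R / L) L hL Q F G hF hG B hFB hGB U _ _ _).const_mul _

theorem dualF_int_pr [DecidableEq P] (hN : Good N) {k : ℝ → ℝ} {ρ₂ : ℝ} (hk : Kern N k ρ₂)
    (b θ R L ℓ : ℝ) (hL : 1 ≤ L) (Q : Finset P) (F G : ℝ → ℂ) (hF : Continuous F)
    (hG : Continuous G) (B : ℝ) (hFB : ∀ x, ‖F x‖ ≤ B * Real.exp |x|)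
    (hGB : ∀ x, ‖G x‖ ≤ B * Real.exp |x|) (U : ℝ) :
    IntegrableOn (dualF N k b θ R L ℓ Q F G) (Iio (-U)) := by
  have key : ∀ m n : Finset P, IntegrableOn (fun v : ℝ =>
      ((am N b θ R L Q m : ℂ) * (am N b θ R L Q n : ℂ) *
        Complex.exp (-(lg N m + lg N n : ℝ)) * Complex.exp ((-ℓ : ℝ))) *
        (Complex.exp (((1 + 2 * R / L) * v : ℝ)) * ((fun x => F (-x)) ((v + -lg N m) / L) *
          (fun x => G (-x)) ((v + -lg N n) / L) *
            (WW N k Q (v + (-ℓ - lg N (m ∩ n))) : ℝ)))) (Ioi (- -U)) := by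
    intro m n
    exact (ci_term hN hk (1 + 2 * R / L) L hL Q (fun x => F (-x)) (fun x => G (-x))
      (hF.comp continuous_neg) (hG.comp continuous_neg) B
      (fun x => by
        have := hFB (-x)
        rwa [abs_neg] at this)
      (fun x => by
        have := hGB (-x)
        rwa [abs_neg] at this) (-U) _ _ _).const_mul _
  have h : dualF N k b θ R L ℓ Q F G = (fun v : ℝ => ∑ m ∈ SF N Q (θ * L), ∑ n ∈ SF N Q (θ * L),
      ((am N b θ R L Q m : ℂ) * (am N b θ R L Q n : ℂ) *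
        Complex.exp (-(lg N m + lg N n : ℝ)) * Complex.exp ((-ℓ : ℝ))) *
        (Complex.exp (((1 + 2 * R / L) * v : ℝ)) * ((fun x => F (-x)) ((v + -lg N m) / L) *
          (fun x => G (-x)) ((v + -lg N n) / L) *
            (WW N k Q (v + (-ℓ - lg N (m ∩ n))) : ℝ)))) ∘ Neg.neg := by
    funext u
    unfold dualF
    rw [Function.comp_apply, Finset.mul_sum]
    refine Finset.sum_congr rfl fun m _ => ?_
    rw [Finset.mul_sum]
    refine Finset.sum_congr rfl fun n _ => ?_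
    have e1 : Complex.exp ((-ℓ + (-1 - 2 * R / L) * u : ℝ)) =
        Complex.exp ((-ℓ : ℝ)) * Complex.exp (((1 + 2 * R / L) * -u : ℝ)) := by
      rw [← Complex.exp_add, ← Complex.ofReal_add]
      congr 2
      ring
    have e2 : -((-u + -lg N m) / L) = (u + lg N m) / L := by ring
    have e3 : -((-u + -lg N n) / L) = (u + lg N n) / L := by ring
    have e4 : -u + (-ℓ - lg N (m ∩ n)) = -u - ℓ - lg N (m ∩ n) := by ring
    rw [e1]
    simp only [e2, e3, e4]
    ring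
  rw [h]
  have hpre : (Iio (-U) : Set ℝ) = Neg.neg ⁻¹' (Ioi (- -U)) := by
    ext x
    simp only [mem_Iio, mem_preimage, mem_Ioi]
    constructor <;> intro hx <;> linarith
  rw [hpre, (Measure.measurePreserving_neg (volume : Measure ℝ)).integrableOn_comp_preimage
    (Homeomorph.neg ℝ).measurableEmbedding]
  exact integrable_finsetSum _ fun m _ => integrable_finsetSum _ fun n _ => key m n


alias cauchy_two := cauchy_two_pr
alias dirF_int := dirF_int_pr
alias dualF_int := dualF_int_pr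

end Pool.Agent.LVA
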