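import Pool.Agent.Lib_helper92.LVA.Defs
import Pool.Agent.Lib_helper92.ASA.All
import Pool.Agent.Lib_helper92.LVAF.BA
import Pool.Agent.Lib_helper92.LVAF.MP

/-!
# Block DA1: the sums `D`: value, derivative, crude bound
-/

namespace Pool.Agent.LVA

open Complex MeasureTheory Filter Topology Set Pool.Agent.AS

variable {P : Type} {N : P → ℕ}

theorem DS_zero_pr (hN : Good N) (R : Finset P) {t : ℝ} (ht : 0 ≤ t) : DS N R t 0 = 1 := by
  classical
  unfold DS
  rw [Finset.sum_eq_single_of_mem ∅ (empty_mem hN R ht)]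
  · simp [vf, ps]
  · intro k _ hk
    obtain ⟨p, hp⟩ := Finset.nonempty_iff_ne_empty.mpr hk
    have : ps N k 0 = 0 := by
      unfold ps
      apply Finset.prod_eq_zero hp
      simp
    rw [this, mul_zero]

theorem da1_log_nonneg (hN : Good N) (p : P) : 0 ≤ Real.log (N p) := by
  apply Real.log_nonneg
  have := hN.two_le p
  exact_mod_cast (by omega : 1 ≤ N p)

theorem da1_sub_pos (hN : Good N) (p : P) : 0 < (N p : ℝ) - 1 := by
  have := hN.two_le p
  have h : (2:ℝ) ≤ N p := by exact_mod_cast this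
  linarith

theorem da1_lg_insert [DecidableEq P] {p : P} {k : Finset P} (h : p ∉ k) :
    lg N (insert p k) = Real.log (N p) + lg N k := by
  unfold lg
  rw [Finset.sum_insert h]

/-- the derivative of `ps` -/
theorem da1_ps_deriv [DecidableEq P] (k : Finset P) (s : ℂ) :
    HasDerivAt (fun s => ps N k s) (∑ p ∈ k, (Real.log (N p) : ℂ) *
      Complex.exp (-(s * Real.log (N p))) * ps N (k.erase p) s) s := by
  have h1 : ∀ p ∈ k, HasDerivAt (fun s : ℂ => 1 - Complex.exp (-(s * Real.log (N p))))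
      ((Real.log (N p) : ℂ) * Complex.exp (-(s * Real.log (N p)))) s := by
    intro p _
    have h2 : HasDerivAt (fun s : ℂ => -(s * Real.log (N p))) (-(1 * Real.log (N p))) s :=
      ((hasDerivAt_id s).mul_const _).neg
    have h3 := (h2.cexp).const_sub 1
    refine h3.congr_deriv ?_
    ring
  have h4 := HasDerivAt.fun_finsetProd (u := k) h1
  unfold ps
  refine h4.congr_deriv ?_
  apply Finset.sum_congr rfl
  intro p _
  rw [smul_eq_mul]
  ring

theorem DS_deriv_pr [DecidableEq P] (hN : Good N) (R : Finset P) (t : ℝ) (s : ℂ) :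
    HasDerivAt (fun s => DS N R t s) (∑ p ∈ PB N t \ R,
      ((Real.log (N p) / ((N p : ℝ) - 1) : ℝ) : ℂ) * Complex.exp (-(s * Real.log (N p))) *
        DS N (insert p R) (t - Real.log (N p)) s) s := by
  have h1 : HasDerivAt (fun s => DS N R t s) (∑ k ∈ SF N R t, ((vf N k : ℝ) : ℂ)⁻¹ *
      ∑ p ∈ k, (Real.log (N p) : ℂ) * Complex.exp (-(s * Real.log (N p))) *
        ps N (k.erase p) s) s := by
    unfold DS
    exact HasDerivAt.fun_sum (fun k _ => (da1_ps_deriv k s).const_mul _)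
  refine h1.congr_deriv ?_
  unfold DS
  simp_rw [Finset.mul_sum]
  rw [Finset.sum_sigma', Finset.sum_sigma']
  refine Finset.sum_bij' (fun x _ => ⟨x.2, x.1.erase x.2⟩) (fun x _ => ⟨insert x.1 x.2, x.1⟩)
    ?_ ?_ ?_ ?_ ?_
  · rintro ⟨k, p⟩ hx
    simp only [Finset.mem_sigma, mem_SF hN, Finset.mem_sdiff, mem_PB hN] at hx ⊢
    obtain ⟨⟨hd, hl⟩, hp⟩ := hx
    have hins : lg N k = Real.log (N p) + lg N (k.erase p) := by
      rw [← da1_lg_insert (Finset.notMem_erase p k), Finset.insert_erase hp]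
    have hnn := lg_nonneg hN (k.erase p)
    refine ⟨⟨by linarith, fun hR => (Finset.disjoint_left.mp hd) hp hR⟩, ?_, by linarith⟩
    rw [Finset.disjoint_insert_right]
    exact ⟨Finset.notMem_erase p k, hd.mono_left (Finset.erase_subset _ _)⟩
  · rintro ⟨p, k⟩ hx
    simp only [Finset.mem_sigma, mem_SF hN, Finset.mem_sdiff, mem_PB hN] at hx ⊢
    obtain ⟨⟨hpt, hpR⟩, hd, hl⟩ := hx
    rw [Finset.disjoint_insert_right] at hd
    refine ⟨⟨?_, ?_⟩, Finset.mem_insert_self _ _⟩
    · rw [Finset.disjoint_insert_left]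
      exact ⟨hpR, hd.2⟩
    · rw [da1_lg_insert hd.1]
      linarith
  · rintro ⟨k, p⟩ hx
    simp only [Finset.mem_sigma] at hx
    simp only [Finset.insert_erase hx.2]
  · rintro ⟨p, k⟩ hx
    simp only [Finset.mem_sigma, mem_SF hN, Finset.mem_sdiff, mem_PB hN] at hx
    obtain ⟨⟨hpt, hpR⟩, hd, hl⟩ := hx
    rw [Finset.disjoint_insert_right] at hd
    simp only [Finset.erase_insert hd.1]
  · rintro ⟨k, p⟩ hx
    simp only [Finset.mem_sigma] at hx
    have hvf : vf N k = ((N p : ℝ) - 1) * vf N (k.erase p) := by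
      unfold vf
      rw [← Finset.mul_prod_erase k _ hx.2]
    simp only
    rw [hvf]
    push_cast
    have h0 := (da1_sub_pos hN p).ne'
    have h2 : ((N p : ℂ) - 1) ≠ 0 := by exact_mod_cast h0
    have h3 : ((vf N (k.erase p) : ℝ) : ℂ) ≠ 0 := by
      have := one_le_vf hN (k.erase p)
      exact_mod_cast (by linarith : vf N (k.erase p) ≠ 0)
    field_simp

/-- elementary bound for the exponential -/
theorem da1_exp_bound (z : ℂ) : ‖1 - Complex.exp z‖ ≤ ‖z‖ * Real.exp ‖z‖ := by
  have h := Complex.norm_exp_sub_sum_le_norm_mul_exp z 1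
  rw [norm_sub_rev]
  simpa using h

theorem da1_SF_sub [DecidableEq P] (hN : Good N) (R : Finset P) (t : ℝ) :
    SF N R t ⊆ (PB N t).powerset := by
  intro k hk
  rw [mem_SF hN] at hk
  rw [Finset.mem_powerset]
  intro p hp
  rw [mem_PB hN]
  have h1 := lg_mono hN (Finset.singleton_subset_iff.mpr hp)
  have h2 : lg N {p} = Real.log (N p) := by simp [lg]
  linarith [hk.2]

theorem da1_prod_exp (s : Finset P) (x : P → ℝ) (hx : ∀ p, 0 ≤ x p) :
    ∏ p ∈ s, (1 + x p) ≤ Real.exp (∑ p ∈ s, x p) := by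
  rw [Real.exp_sum]
  apply Finset.prod_le_prod
  · intro p _
    linarith [hx p]
  · intro p _
    linarith [Real.add_one_le_exp (x p)]

theorem DS_crude_pr (hN : Good N) {ρ : ℝ} (hC : Cnt N ρ) {A C : ℝ} (hA : 0 < A) (hC0 : 0 < C) :
    ∃ B : ℝ, 0 ≤ B ∧ ∀ L, 1 ≤ L → ∀ (R : Finset P) (t : ℝ) (s : ℂ), t ≤ A * L → ‖s‖ ≤ C / L →
      ‖DS N R t s‖ ≤ B := by
  classical
  obtain ⟨C1, hC1, hm⟩ := mert_p hN hC (ε := 1) one_pos
  refine ⟨Real.exp (C * Real.exp (A * C) * (2 * A + C1)), by positivity,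
    fun L hL R t s ht hs => ?_⟩
  have hL0 : 0 < L := by linarith
  rcases lt_or_ge t 0 with h0 | h0
  · unfold DS
    rw [SF_neg hN R h0]
    simp only [Finset.sum_empty, norm_zero]
    positivity
  · set x : P → ℝ := fun p => ‖1 - Complex.exp (-(s * Real.log (N p)))‖ / ((N p : ℝ) - 1) with hx
    have hx0 : ∀ p, 0 ≤ x p := fun p => div_nonneg (norm_nonneg _) (da1_sub_pos hN p).le
    have hterm : ∀ k : Finset P, ‖((vf N k : ℝ) : ℂ)⁻¹ * ps N k s‖ = ∏ p ∈ k, x p := by
      intro k
      rw [norm_mul, norm_inv, Complex.norm_real, Real.norm_eq_abs,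
        abs_of_nonneg (by linarith [one_le_vf hN k])]
      unfold ps vf
      rw [norm_prod, hx]
      simp only
      rw [Finset.prod_div_distrib, div_eq_inv_mul]
    have hb : ∀ p ∈ PB N t, x p ≤ C / L * Real.exp (A * C) *
        (Real.log (N p) / ((N p : ℝ) - 1)) := by
      intro p hp
      rw [mem_PB hN] at hp
      have hl0 := da1_log_nonneg hN p
      have h1 := da1_exp_bound (-(s * Real.log (N p)))
      have h2 : ‖-(s * (Real.log (N p) : ℂ))‖ = ‖s‖ * Real.log (N p) := by
        rw [norm_neg, norm_mul, Complex.norm_real, Real.norm_eq_abs, abs_of_nonneg hl0]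
      rw [h2] at h1
      have h3 : ‖s‖ * Real.log (N p) ≤ A * C := by
        calc ‖s‖ * Real.log (N p) ≤ (C / L) * (A * L) := by
              apply mul_le_mul hs (hp.trans ht) hl0 (by positivity)
          _ = A * C := by field_simp
      have h4 : ‖1 - Complex.exp (-(s * Real.log (N p)))‖ ≤
          C / L * Real.exp (A * C) * Real.log (N p) := by
        refine h1.trans ?_
        calc ‖s‖ * Real.log (N p) * Real.exp (‖s‖ * Real.log (N p)) ≤
              (C / L) * Real.log (N p) * Real.exp (A * C) := by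
              gcongr
          _ = C / L * Real.exp (A * C) * Real.log (N p) := by ring
      rw [hx]
      simp only
      rw [← mul_div_assoc]
      gcongr
      exact (da1_sub_pos hN p).le
    have hsum : ∑ p ∈ PB N t, x p ≤ C * Real.exp (A * C) * (2 * A + C1) := by
      have h1 : ∑ p ∈ PB N t, x p ≤ ∑ p ∈ PB N t, C / L * Real.exp (A * C) *
          (Real.log (N p) / ((N p : ℝ) - 1)) := Finset.sum_le_sum hb
      rw [← Finset.mul_sum] at h1
      have h2 := hm t h0
      rw [abs_le] at h2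
      have h3 : ∑ p ∈ PB N t, Real.log (N p) / ((N p : ℝ) - 1) ≤ (2 * A + C1) * L := by
        have h4 : C1 ≤ C1 * L := le_mul_of_one_le_right hC1 hL
        nlinarith [h2.2]
      refine h1.trans ?_
      calc C / L * Real.exp (A * C) * ∑ p ∈ PB N t, Real.log (N p) / ((N p : ℝ) - 1) ≤
            C / L * Real.exp (A * C) * ((2 * A + C1) * L) := by gcongr
        _ = C * Real.exp (A * C) * (2 * A + C1) := by field_simp
    unfold DS
    calc ‖∑ k ∈ SF N R t, ((vf N k : ℝ) : ℂ)⁻¹ * ps N k s‖ ≤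
          ∑ k ∈ SF N R t, ‖((vf N k : ℝ) : ℂ)⁻¹ * ps N k s‖ := norm_sum_le _ _
      _ = ∑ k ∈ SF N R t, ∏ p ∈ k, x p := Finset.sum_congr rfl (fun k _ => hterm k)
      _ ≤ ∑ k ∈ (PB N t).powerset, ∏ p ∈ k, x p := by
          apply Finset.sum_le_sum_of_subset_of_nonneg (da1_SF_sub hN R t)
          intro k _ _
          exact Finset.prod_nonneg (fun p _ => hx0 p)
      _ = ∏ p ∈ PB N t, (1 + x p) := (Finset.prod_one_add _).symm
      _ ≤ Real.exp (∑ p ∈ PB N t, x p) := da1_prod_exp _ _ hx0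
      _ ≤ Real.exp (C * Real.exp (A * C) * (2 * A + C1)) := Real.exp_le_exp.mpr hsum


alias DS_zero := DS_zero_pr
alias DS_deriv := DS_deriv_pr
alias DS_crude := DS_crude_pr

end Pool.Agent.LVA
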