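import Pool.Agent.Lib_helper92.LVA.Defs
import Pool.Agent.Lib_helper92.ASA.All
import Pool.Agent.Lib_helper92.LVAF.BA
import Pool.Agent.Lib_helper92.LVAF.MP
import Pool.Agent.Lib_helper92.LVAF.AB

/-!
# Block DA2: the model satisfies the same equation
-/

namespace Pool.Agent.LVA

open Complex MeasureTheory Filter Topology Set Pool.Agent.AS

variable {P : Type} {N : P → ℕ}

/-- the test function and its derivative -/
theorem da2_deriv (s : ℂ) (t v : ℝ) :
    HasDerivAt (fun v : ℝ => Complex.exp (-(s * v)) * (1 + s * (t - v : ℝ)))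
      (-(s * Complex.exp (-(s * v)) * (2 + s * (t - v : ℝ)))) v := by
  have h1 : HasDerivAt (fun v : ℝ => (v : ℂ)) 1 v := Complex.ofRealCLM.hasDerivAt
  have h2 : HasDerivAt (fun v : ℝ => -(s * (v : ℂ))) (-(s * 1)) v := (h1.const_mul s).neg
  have h3 : HasDerivAt (fun v : ℝ => Complex.exp (-(s * (v : ℂ))))
      (Complex.exp (-(s * (v : ℂ))) * (-(s * 1))) v := h2.cexp
  have h4 : HasDerivAt (fun v : ℝ => 1 + s * ((t : ℂ) - (v : ℂ))) (s * (0 - 1)) v := by
    have h5 : HasDerivAt (fun v : ℝ => (t : ℂ) - (v : ℂ)) (0 - 1) v :=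
      (hasDerivAt_const v (t : ℂ)).sub h1
    exact (h5.const_mul s).const_add 1
  have h6 := h3.mul h4
  have e1 : (fun v : ℝ => Complex.exp (-(s * v)) * (1 + s * (t - v : ℝ))) =
      (fun v : ℝ => Complex.exp (-(s * (v : ℂ)))) * (fun v : ℝ => 1 + s * ((t : ℂ) - (v : ℂ))) := by
    funext v
    simp only [Pi.mul_apply]
    push_cast
    ring
  rw [e1]
  refine h6.congr_deriv ?_
  push_cast
  ring

theorem da2_prim (s : ℂ) (t v : ℝ) :
    HasDerivAt (fun v : ℝ => (v : ℂ) * (Complex.exp (-(s * v)) * (1 + s * (t - v : ℝ))) +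
        ((t - v : ℝ) : ℂ) * Complex.exp (-(s * v)))
      (-(s * Complex.exp (-(s * v)) * (2 + s * (t - v : ℝ))) * v) v := by
  have h1 : HasDerivAt (fun v : ℝ => (v : ℂ)) 1 v := Complex.ofRealCLM.hasDerivAt
  have h2 := h1.mul (da2_deriv s t v)
  have h3 : HasDerivAt (fun v : ℝ => -(s * (v : ℂ))) (-(s * 1)) v := (h1.const_mul s).neg
  have h4 : HasDerivAt (fun v : ℝ => Complex.exp (-(s * (v : ℂ))))
      (Complex.exp (-(s * (v : ℂ))) * (-(s * 1))) v := h3.cexp
  have h5 : HasDerivAt (fun v : ℝ => ((t - v : ℝ) : ℂ)) (-1) v := by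
    have h6 : HasDerivAt (fun v : ℝ => (t : ℂ) - (v : ℂ)) (0 - 1) v :=
      (hasDerivAt_const v (t : ℂ)).sub h1
    have e2 : (fun v : ℝ => ((t - v : ℝ) : ℂ)) = (fun v : ℝ => (t : ℂ) - (v : ℂ)) := by
      funext v; push_cast; ring
    rw [e2]
    exact h6.congr_deriv (by ring)
  have h7 := h2.add (h5.mul h4)
  refine h7.congr_deriv ?_
  push_cast
  ring

theorem da2_int (s : ℂ) (t : ℝ) :
    Complex.exp (-(s * t)) * (1 + s * (t - t : ℝ)) * t -
      ∫ v in (0 : ℝ)..t, -(s * Complex.exp (-(s * v)) * (2 + s * (t - v : ℝ))) * v = t := by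
  have h1 := intervalIntegral.integral_eq_sub_of_hasDerivAt
    (f := fun v : ℝ => (v : ℂ) * (Complex.exp (-(s * v)) * (1 + s * (t - v : ℝ))) +
        ((t - v : ℝ) : ℂ) * Complex.exp (-(s * v)))
    (f' := fun v : ℝ => -(s * Complex.exp (-(s * v)) * (2 + s * (t - v : ℝ))) * v)
    (a := 0) (b := t) (fun v _ => da2_prim s t v)
    (Continuous.intervalIntegrable (by fun_prop) _ _)
  rw [h1]
  simp
  ring

theorem DS_star_pr [DecidableEq P] (hN : Good N) {ρ : ℝ} (hC : Cnt N ρ) {A C ε : ℝ} (hA : 0 < A)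
    (hC0 : 0 < C) (hε : 0 < ε) :
    ∃ L₀ : ℝ, 1 ≤ L₀ ∧ ∀ L, L₀ ≤ L → ∀ (R : Finset P) (t : ℝ) (s : ℂ), lg N R ≤ A * L → 0 ≤ t →
      t ≤ A * L → ‖s‖ ≤ C / L →
        ‖∑ p ∈ PB N t \ R,
          ((Real.log (N p) / ((N p : ℝ) - 1) : ℝ) : ℂ) * Complex.exp (-(s * Real.log (N p))) *
            (1 + s * (t - Real.log (N p) : ℝ)) - t‖ ≤ ε * L := by
  set K : ℝ := Real.exp (A * C) * (1 + A * C * (2 + A * C)) with hK
  have hK0 : 0 < K := by positivity
  obtain ⟨L₀, hL₀, hm⟩ := mert_R hN hC hA (ε := ε / K) (by positivity)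
  refine ⟨L₀, hL₀, fun L hL R t s hR ht htA hs => ?_⟩
  have hLpos : 0 < L := by linarith
  have hsn := norm_nonneg s
  have hst : ‖s‖ * t ≤ A * C := by
    calc ‖s‖ * t ≤ (C / L) * (A * L) := by gcongr
      _ = A * C := by field_simp
  have hexp : ∀ v ∈ Icc (0:ℝ) t, ‖Complex.exp (-(s * v))‖ ≤ Real.exp (A * C) := by
    intro v hv
    rw [Complex.norm_exp]
    apply Real.exp_le_exp.mpr
    have h1 : (-(s * (v : ℂ))).re ≤ ‖-(s * (v : ℂ))‖ := Complex.re_le_norm _
    have h2 : ‖-(s * (v : ℂ))‖ = ‖s‖ * v := by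
      rw [norm_neg, norm_mul, Complex.norm_real, Real.norm_eq_abs, abs_of_nonneg hv.1]
    have h3 : ‖s‖ * v ≤ ‖s‖ * t := by gcongr; exact hv.2
    linarith
  have hfilter : ∀ v, v ≤ t → (PB N t \ R).filter (fun p => Real.log (N p) ≤ v) = PB N v \ R := by
    intro v hv
    ext p
    simp only [Finset.mem_filter, Finset.mem_sdiff, mem_PB hN]
    constructor
    · rintro ⟨⟨_, h2⟩, h3⟩
      exact ⟨h3, h2⟩
    · rintro ⟨h1, h2⟩
      exact ⟨⟨h1.trans hv, h2⟩, h1⟩
  have key := abel_sum (PB N t \ R) (fun p => ((Real.log (N p) / ((N p : ℝ) - 1) : ℝ) : ℂ))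
    (fun p => Real.log (N p)) t (ε / K * L) K ht (by
      intro p hp
      rw [Finset.mem_sdiff, mem_PB hN] at hp
      refine ⟨?_, hp.1⟩
      apply Real.log_nonneg
      have := hN.two_le p
      exact_mod_cast (by omega : 1 ≤ N p)) (fun v => (v : ℂ)) (by fun_prop) (by positivity) (by
      intro v hv
      have h1 := hm L hL R hR v hv.1 (hv.2.trans htA)
      have h2 : (∑ p ∈ (PB N t \ R).filter (fun p => Real.log (N p) ≤ v),
          ((Real.log (N p) / ((N p : ℝ) - 1) : ℝ) : ℂ)) - (v : ℂ) =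
          ((∑ p ∈ PB N v \ R, Real.log (N p) / ((N p : ℝ) - 1) - v : ℝ) : ℂ) := by
        have h3 := hfilter v hv.2
        have h4 : (∑ p ∈ (PB N t \ R).filter (fun p => Real.log (N p) ≤ v),
          ((Real.log (N p) / ((N p : ℝ) - 1) : ℝ) : ℂ)) = ∑ p ∈ PB N v \ R,
          ((Real.log (N p) / ((N p : ℝ) - 1) : ℝ) : ℂ) := by rw [h3]
        rw [h4]
        push_cast
        rfl
      calc _ = ‖((∑ p ∈ PB N v \ R, Real.log (N p) / ((N p : ℝ) - 1) - v : ℝ) : ℂ)‖ := by
            rw [← h2]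
        _ ≤ ε / K * L := by
            rw [Complex.norm_real, Real.norm_eq_abs]
            exact h1)
    (fun v : ℝ => Complex.exp (-(s * v)) * (1 + s * (t - v : ℝ)))
    (fun v : ℝ => -(s * Complex.exp (-(s * v)) * (2 + s * (t - v : ℝ))))
    (fun v _ => da2_deriv s t v) (by fun_prop) (by
      have h1 : ‖Complex.exp (-(s * t)) * (1 + s * ((t - t : ℝ) : ℂ))‖ ≤ Real.exp (A * C) := by
        rw [sub_self, Complex.ofReal_zero, mul_zero, add_zero, mul_one]
        exact hexp t ⟨ht, le_refl _⟩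
      have h2 : ∫ v in (0:ℝ)..t, ‖-(s * Complex.exp (-(s * v)) * (2 + s * ((t - v : ℝ) : ℂ)))‖ ≤
          Real.exp (A * C) * (A * C * (2 + A * C)) := by
        have h3 : ∀ v ∈ Icc (0:ℝ) t,
            ‖-(s * Complex.exp (-(s * v)) * (2 + s * ((t - v : ℝ) : ℂ)))‖ ≤
              ‖s‖ * Real.exp (A * C) * (2 + A * C) := by
          intro v hv
          rw [norm_neg, norm_mul, norm_mul]
          have h4 : ‖(2 : ℂ) + s * ((t - v : ℝ) : ℂ)‖ ≤ 2 + A * C := by
            refine (norm_add_le _ _).trans ?_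
            rw [norm_mul, Complex.norm_real, Real.norm_eq_abs, abs_of_nonneg (by linarith [hv.2])]
            have h5 : ‖s‖ * (t - v) ≤ ‖s‖ * t := by
              gcongr
              linarith [hv.1]
            have h6 : ‖(2:ℂ)‖ = 2 := by simp
            linarith
          gcongr
          exact hexp v hv
        have h7 : ∫ v in (0:ℝ)..t, ‖-(s * Complex.exp (-(s * v)) * (2 + s * ((t - v : ℝ) : ℂ)))‖ ≤
            ∫ v in (0:ℝ)..t, ‖s‖ * Real.exp (A * C) * (2 + A * C) := by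
          apply intervalIntegral.integral_mono_on ht
          · exact Continuous.intervalIntegrable (by fun_prop) _ _
          · exact intervalIntegrable_const
          · exact h3
        refine h7.trans ?_
        rw [intervalIntegral.integral_const, smul_eq_mul, sub_zero]
        calc t * (‖s‖ * Real.exp (A * C) * (2 + A * C)) =
              (‖s‖ * t) * (Real.exp (A * C) * (2 + A * C)) := by ring
          _ ≤ (A * C) * (Real.exp (A * C) * (2 + A * C)) := by gcongr
          _ = Real.exp (A * C) * (A * C * (2 + A * C)) := by ring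
      calc _ ≤ Real.exp (A * C) + Real.exp (A * C) * (A * C * (2 + A * C)) := add_le_add h1 h2
        _ = K := by rw [hK]; ring)
  rw [da2_int] at key
  calc _ ≤ ε / K * L * K := by
        refine le_trans (le_of_eq ?_) key
        congr 2
        apply Finset.sum_congr rfl
        intro p _
        ring
    _ = ε * L := by field_simp


alias DS_star := DS_star_pr

end Pool.Agent.LVA
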