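import Pool.Agent.Lib_helper92.LVA.Defs
import Pool.Agent.Lib_helper92.ASA.All
import Pool.Agent.Lib_helper92.LVAF.BA
import Pool.Agent.Lib_helper92.LVAF.MP
import Pool.Agent.Lib_helper92.LVAF.DA1
import Pool.Agent.Lib_helper92.LVAF.DA2

/-!
# Project LVK, part A, block DA3: the asymptotics of the sums D
-/

namespace Pool.Agent.LVA

open Complex MeasureTheory Filter Topology Set Pool.Agent.AS

variable {P : Type} {N : P → ℕ}

theorem DS_asymp_pr (hN : Good N) {ρ : ℝ} (hC : Cnt N ρ) {A C ε : ℝ} (hA : 0 < A) (hC0 : 0 < C)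
    (hε : 0 < ε) :
    ∃ L₀ : ℝ, 1 ≤ L₀ ∧ ∀ L, L₀ ≤ L → ∀ (R : Finset P) (t : ℝ) (s : ℂ), 0 ≤ t →
      t + lg N R ≤ A * L → ‖s‖ ≤ C / L → ‖DS N R t s - (1 + s * t)‖ ≤ ε := by
  classical
  obtain ⟨C1, hC1⟩ : ∃ C1 : ℝ, C1 = (A + 1) * Real.exp (A * C) := ⟨_, rfl⟩
  have hC1p : 0 < C1 := by rw [hC1]; positivity
  obtain ⟨η, hη⟩ : ∃ η : ℝ, η = ε * C1 * Real.exp (-(C1 * C)) := ⟨_, rfl⟩
  have hηp : 0 < η := by rw [hη]; positivity
  obtain ⟨L1, hL1, h1⟩ := mert_R hN hC (A := A) (ε := 1) hA one_pos
  obtain ⟨L2, hL2, h2⟩ := DS_star hN hC (A := A) (C := C) (ε := η) hA hC0 hηp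
  obtain ⟨B, hB, h3⟩ := DS_crude hN hC (A := A) (C := C) hA hC0
  refine ⟨max L1 L2, le_max_of_le_left hL1, fun L hL => ?_⟩
  have hLL1 : L1 ≤ L := (le_max_left _ _).trans hL
  have hLL2 : L2 ≤ L := (le_max_right _ _).trans hL
  have hL1' : 1 ≤ L := hL1.trans hLL1
  have hLp : 0 < L := by linarith
  have hACL : A * L * (C / L) = A * C := by field_simp
  have key : ∀ k : ℕ, ∀ (R : Finset P) (t : ℝ) (s : ℂ), 0 ≤ t → t + lg N R ≤ A * L →
      ‖s‖ ≤ C / L →
      ‖DS N R t s - (1 + s * t)‖ ≤ (B + 1 + A * C) * ((C1 * L * ‖s‖) ^ k / k.factorial) +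
        η / C1 * (Real.exp (C1 * L * ‖s‖) - 1) := by
    intro k
    induction k with
    | zero =>
      intro R t s ht htR hs
      have htA : t ≤ A * L := by
        have := lg_nonneg hN R
        linarith
      have h4 : ‖DS N R t s‖ ≤ B := h3 L hL1' R t s htA hs
      have h5 : ‖(1 : ℂ) + s * t‖ ≤ 1 + A * C := by
        refine (norm_add_le _ _).trans ?_
        rw [norm_one, norm_mul, Complex.norm_real, Real.norm_eq_abs, abs_of_nonneg ht]
        have : ‖s‖ * t ≤ C / L * (A * L) :=
          mul_le_mul hs htA ht (by positivity)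
        have h6 : C / L * (A * L) = A * C := by rw [mul_comm, hACL]
        linarith
      have h6 : 0 ≤ η / C1 * (Real.exp (C1 * L * ‖s‖) - 1) := by
        refine mul_nonneg (by positivity) ?_
        have : 1 ≤ Real.exp (C1 * L * ‖s‖) := Real.one_le_exp (by positivity)
        linarith
      refine (norm_sub_le _ _).trans ?_
      simp only [pow_zero, Nat.factorial_zero, Nat.cast_one, div_one, mul_one]
      linarith
    | succ k ih =>
      intro R t s ht htR hs
      have htA : t ≤ A * L := by
        have := lg_nonneg hN R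
        linarith
      have hRA : lg N R ≤ A * L := by linarith
      -- the derivative
      have hder : ∀ z : ℂ, HasDerivAt (fun z => DS N R t z - (1 + z * t))
          ((∑ p ∈ PB N t \ R,
            ((Real.log (N p) / ((N p : ℝ) - 1) : ℝ) : ℂ) *
              Complex.exp (-(z * Real.log (N p))) *
              DS N (insert p R) (t - Real.log (N p)) z) - t) z := by
        intro z
        have h4 := DS_deriv hN R t z
        have h5 : HasDerivAt (fun z : ℂ => 1 + z * (t : ℂ)) (t : ℂ) z := by
          have := ((hasDerivAt_id z).mul_const (t : ℂ)).const_add 1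
          simpa using this
        exact h4.sub h5
      have hbd : ∀ z : ℂ, ‖z‖ ≤ C / L →
          ‖(∑ p ∈ PB N t \ R,
            ((Real.log (N p) / ((N p : ℝ) - 1) : ℝ) : ℂ) *
              Complex.exp (-(z * Real.log (N p))) *
              DS N (insert p R) (t - Real.log (N p)) z) - t‖ ≤
            C1 * L * ((B + 1 + A * C) * ((C1 * L * ‖z‖) ^ k / k.factorial) +
              η / C1 * (Real.exp (C1 * L * ‖z‖) - 1)) + η * L := by
        intro z hz
        have hsplit : (∑ p ∈ PB N t \ R,
            ((Real.log (N p) / ((N p : ℝ) - 1) : ℝ) : ℂ) *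
              Complex.exp (-(z * Real.log (N p))) *
              DS N (insert p R) (t - Real.log (N p)) z) - t =
            (∑ p ∈ PB N t \ R,
            ((Real.log (N p) / ((N p : ℝ) - 1) : ℝ) : ℂ) *
              Complex.exp (-(z * Real.log (N p))) *
              (DS N (insert p R) (t - Real.log (N p)) z -
                (1 + z * ((t - Real.log (N p) : ℝ) : ℂ)))) +
            ((∑ p ∈ PB N t \ R,
            ((Real.log (N p) / ((N p : ℝ) - 1) : ℝ) : ℂ) *
              Complex.exp (-(z * Real.log (N p))) *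
              (1 + z * ((t - Real.log (N p) : ℝ) : ℂ))) - t) := by
          rw [add_sub_assoc', ← Finset.sum_add_distrib]
          congr 1
          refine Finset.sum_congr rfl fun p _ => ?_
          ring
        rw [hsplit]
        refine (norm_add_le _ _).trans ?_
        refine add_le_add ?_ (h2 L hLL2 R t z hRA ht htA hz)
        set bk : ℝ := (B + 1 + A * C) * ((C1 * L * ‖z‖) ^ k / k.factorial) +
              η / C1 * (Real.exp (C1 * L * ‖z‖) - 1) with hbk
        have hbk0 : 0 ≤ bk := by
          have h4 : 1 ≤ Real.exp (C1 * L * ‖z‖) := Real.one_le_exp (by positivity)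
          have h5 : 0 ≤ η / C1 * (Real.exp (C1 * L * ‖z‖) - 1) :=
            mul_nonneg (by positivity) (by linarith)
          have h6 : 0 ≤ (B + 1 + A * C) * ((C1 * L * ‖z‖) ^ k / k.factorial) := by positivity
          linarith
        have hterm : ∀ p ∈ PB N t \ R,
            ‖((Real.log (N p) / ((N p : ℝ) - 1) : ℝ) : ℂ) *
              Complex.exp (-(z * Real.log (N p))) *
              (DS N (insert p R) (t - Real.log (N p)) z -
                (1 + z * ((t - Real.log (N p) : ℝ) : ℂ)))‖ ≤
              Real.log (N p) / ((N p : ℝ) - 1) * (Real.exp (A * C) * bk) := by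
          intro p hp
          rw [Finset.mem_sdiff, mem_PB hN] at hp
          have hNp : (2 : ℝ) ≤ N p := by exact_mod_cast hN.two_le p
          have hlog : 0 ≤ Real.log (N p) := Real.log_nonneg (by linarith)
          have ha : 0 ≤ Real.log (N p) / ((N p : ℝ) - 1) :=
            div_nonneg hlog (by linarith)
          have h4 : ‖Complex.exp (-(z * Real.log (N p)))‖ ≤ Real.exp (A * C) := by
            rw [Complex.norm_exp]
            refine Real.exp_le_exp.mpr ?_
            refine (Complex.re_le_norm _).trans ?_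
            rw [norm_neg, norm_mul, Complex.norm_real, Real.norm_eq_abs, abs_of_nonneg hlog]
            have h5 : ‖z‖ * Real.log (N p) ≤ C / L * (A * L) :=
              mul_le_mul hz (hp.1.trans htA) hlog (by positivity)
            have h6 : C / L * (A * L) = A * C := by rw [mul_comm, hACL]
            linarith
          have h5 : ‖DS N (insert p R) (t - Real.log (N p)) z -
                (1 + z * ((t - Real.log (N p) : ℝ) : ℂ))‖ ≤ bk := by
            refine ih (insert p R) (t - Real.log (N p)) z (by linarith [hp.1]) ?_ hz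
            have h6 : lg N (insert p R) = Real.log (N p) + lg N R := by
              unfold lg
              rw [Finset.sum_insert hp.2]
            rw [h6]
            linarith
          rw [norm_mul, norm_mul, Complex.norm_real, Real.norm_eq_abs, abs_of_nonneg ha, mul_assoc]
          refine mul_le_mul_of_nonneg_left ?_ ha
          exact mul_le_mul h4 h5 (norm_nonneg _) (Real.exp_pos _).le
        refine (norm_sum_le _ _).trans ((Finset.sum_le_sum hterm).trans ?_)
        rw [← Finset.sum_mul]
        have h7 : ∑ p ∈ PB N t \ R, Real.log (N p) / ((N p : ℝ) - 1) ≤ (A + 1) * L := by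
          have h8 := (abs_le.mp (h1 L hLL1 R hRA t ht htA)).2
          linarith
        calc (∑ p ∈ PB N t \ R, Real.log (N p) / ((N p : ℝ) - 1)) * (Real.exp (A * C) * bk)
            ≤ (A + 1) * L * (Real.exp (A * C) * bk) :=
              mul_le_mul_of_nonneg_right h7 (mul_nonneg (Real.exp_pos _).le hbk0)
          _ = C1 * L * bk := by rw [hC1]; ring
      -- integrate along the segment
      have hf : ∀ x : ℝ, HasDerivAt (fun x : ℝ => DS N R t ((x : ℂ) * s) -
          (1 + ((x : ℂ) * s) * t))
          (s * ((∑ p ∈ PB N t \ R,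
            ((Real.log (N p) / ((N p : ℝ) - 1) : ℝ) : ℂ) *
              Complex.exp (-(((x : ℂ) * s) * Real.log (N p))) *
              DS N (insert p R) (t - Real.log (N p)) ((x : ℂ) * s)) - t)) x := by
        intro x
        have h4 : HasDerivAt (fun x : ℝ => (x : ℂ) * s) s x := by
          have := (Complex.ofRealCLM.hasDerivAt (x := x)).mul_const s
          simpa using this
        have h5 := HasDerivAt.scomp x (hder ((x : ℂ) * s)) h4
        exact h5
      have hBd : ∀ x : ℝ, HasDerivAt (fun x : ℝ =>
          (B + 1 + A * C) * ((C1 * L * ‖s‖ * x) ^ (k + 1) / (k + 1).factorial) +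
            η / C1 * (Real.exp (C1 * L * ‖s‖ * x) - 1))
          (‖s‖ * (C1 * L * ((B + 1 + A * C) * ((C1 * L * ‖s‖ * x) ^ k / k.factorial) +
              η / C1 * (Real.exp (C1 * L * ‖s‖ * x) - 1)) + η * L)) x := by
        intro x
        have h4 : HasDerivAt (fun x : ℝ => C1 * L * ‖s‖ * x) (C1 * L * ‖s‖) x := by
          simpa using (hasDerivAt_id x).const_mul (C1 * L * ‖s‖)
        have h5 := ((h4.pow (k + 1)).div_const ((k + 1).factorial : ℝ)).const_mul (B + 1 + A * C)
        have h6 := ((h4.exp).sub_const 1).const_mul (η / C1)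
        refine (h5.add h6).congr_deriv ?_
        have h7 : ((k + 1).factorial : ℝ) = (k + 1 : ℝ) * k.factorial := by
          rw [Nat.factorial_succ]; push_cast; ring
        rw [h7]
        have h8 : ((k.factorial : ℕ) : ℝ) ≠ 0 := by exact_mod_cast k.factorial_ne_zero
        have h9 : (k + 1 : ℝ) ≠ 0 := by positivity
        push_cast
        field_simp
        ring_nf
      have h0 : ‖DS N R t (((0 : ℝ) : ℂ) * s) - (1 + (((0 : ℝ) : ℂ) * s) * t)‖ ≤
          (B + 1 + A * C) * ((C1 * L * ‖s‖ * 0) ^ (k + 1) / (k + 1).factorial) +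
            η / C1 * (Real.exp (C1 * L * ‖s‖ * 0) - 1) := by
        rw [Complex.ofReal_zero, zero_mul, zero_mul, DS_zero hN R ht]
        simp
      have hfin := image_norm_le_of_norm_deriv_right_le_deriv_boundary
        (a := (0 : ℝ)) (b := 1)
        (fun x _ => (hf x).continuousAt.continuousWithinAt)
        (fun x _ => (hf x).hasDerivWithinAt) h0 hBd (fun x hx => ?_)
        (right_mem_Icc.mpr zero_le_one)
      · simpa using hfin
      · rw [norm_mul]
        refine mul_le_mul_of_nonneg_left ?_ (norm_nonneg _)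
        have hxn : ‖(x : ℂ) * s‖ = ‖s‖ * x := by
          rw [norm_mul, Complex.norm_real, Real.norm_eq_abs, abs_of_nonneg hx.1, mul_comm]
        have h4 := hbd ((x : ℂ) * s) (by
          rw [hxn]
          refine le_trans ?_ hs
          exact mul_le_of_le_one_right (norm_nonneg _) hx.2.le)
        rw [hxn, ← mul_assoc (C1 * L)] at h4
        exact h4
  intro R t s ht htR hs
  -- the limit
  have hlim : Tendsto (fun k : ℕ => (B + 1 + A * C) * ((C1 * L * ‖s‖) ^ k / k.factorial) +
        η / C1 * (Real.exp (C1 * L * ‖s‖) - 1)) atTop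
        (𝓝 ((B + 1 + A * C) * 0 + η / C1 * (Real.exp (C1 * L * ‖s‖) - 1))) :=
    ((FloorSemiring.tendsto_pow_div_factorial_atTop _).const_mul _).add_const _
  have h4 := ge_of_tendsto' hlim (fun k => key k R t s ht htR hs)
  refine h4.trans ?_
  rw [mul_zero, zero_add]
  have h5 : C1 * L * ‖s‖ ≤ C1 * C := by
    calc C1 * L * ‖s‖ ≤ C1 * L * (C / L) := mul_le_mul_of_nonneg_left hs (by positivity)
      _ = C1 * C := by field_simp
  have h6 : Real.exp (C1 * L * ‖s‖) - 1 ≤ Real.exp (C1 * C) := by
    have := Real.exp_le_exp.mpr h5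
    linarith
  calc η / C1 * (Real.exp (C1 * L * ‖s‖) - 1) ≤ η / C1 * Real.exp (C1 * C) :=
        mul_le_mul_of_nonneg_left h6 (by positivity)
    _ = ε := by
        rw [hη, Real.exp_neg]
        have := (Real.exp_pos (C1 * C)).ne'
        field_simp


alias DS_asymp := DS_asymp_pr

end Pool.Agent.LVA
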