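import Pool.Agent.Lib_helper92.LVA.Defs
import Pool.Agent.Lib_helper92.ASA.All
import Pool.Agent.Lib_helper92.LVAF.BA
import Pool.Agent.Lib_helper92.LVAF.AB
import Pool.Agent.Lib_helper92.LVAF.DA3

/-!
# Block DB: the weighted sums `D_e(s)`
-/

namespace Pool.Agent.LVA

open Complex MeasureTheory Filter Topology Set Pool.Agent.AS

variable {P : Type} {N : P → ℕ}

/-- The integral of the main term. -/
theorem db_int (c s : ℂ) (t : ℝ) :
    ∫ v in (0 : ℝ)..t, c * (1 + s * v) = c * (t + s * (t : ℂ) ^ 2 / 2) := by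
  have h : ∀ v ∈ uIcc 0 t, HasDerivAt (fun v : ℝ => c * ((v : ℂ) + s * (v : ℂ) ^ 2 / 2))
      (c * (1 + s * v)) v := by
    intro v _
    have h1 : HasDerivAt (fun v : ℝ => (v : ℂ)) 1 v := Complex.ofRealCLM.hasDerivAt
    have h2 := ((h1.add (((h1.pow 2).const_mul s).div_const 2)).const_mul c)
    refine h2.congr_deriv ?_
    push_cast
    ring
  rw [intervalIntegral.integral_eq_sub_of_hasDerivAt h
    ((by fun_prop : Continuous fun v : ℝ => c * (1 + s * (v : ℂ))).intervalIntegrable _ _)]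
  simp

theorem DW_asymp_pr [DecidableEq P] (hN : Good N) {ρ : ℝ} (hC : Cnt N ρ) {b θ C ε : ℝ}
    (hb : |b| ≤ 1 / 2) (hθ : 0 < θ) (hθ1 : θ ≤ 1) (hC0 : 0 < C) (hε : 0 < ε) :
    ∃ L₀ : ℝ, 1 ≤ L₀ ∧ ∀ L, L₀ ≤ L → ∀ Q : Finset P, lg N Q ≤ L → ∀ e ∈ SF N Q (θ * L),
      ∀ s : ℂ, ‖s‖ ≤ C / L →
        ‖DW N b (θ * L) Q e s - ((wt b (1 - lg N e / (θ * L)) : ℝ) +
          s * (θ * L : ℝ) * (Pt b (1 - lg N e / (θ * L)) : ℝ))‖ ≤ ε := by
  obtain ⟨L₀, hL₀, hD⟩ := DS_asymp hN hC (A := 2) (C := C) (ε := ε / (5 / 2)) two_pos hC0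
    (by positivity)
  refine ⟨L₀, hL₀, fun L hL Q hQ e he s hs => ?_⟩
  have hL1 : 0 < L := by linarith
  set T : ℝ := θ * L with hTdef
  have hT : 0 < T := mul_pos hθ hL1
  have hTL : T ≤ L := by rw [hTdef]; nlinarith
  obtain ⟨hdis, hlge⟩ := (mem_SF hN).mp he
  have hlg0 : 0 ≤ lg N e := lg_nonneg hN e
  set t₀ : ℝ := T - lg N e with ht₀
  have ht0 : 0 ≤ t₀ := by rw [ht₀]; linarith
  have ht0T : t₀ ≤ T := by rw [ht₀]; linarith
  have hlgu : lg N (Q ∪ e) = lg N Q + lg N e := lg_union hdis.symm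
  obtain ⟨hb1, hb2⟩ := abs_le.mp hb
  have habel := abel_sum (SF N (Q ∪ e) t₀) (fun k => ((vf N k : ℝ) : ℂ)⁻¹ * ps N k s)
    (fun k => lg N k) t₀ (ε / (5 / 2)) (5 / 2) ht0
    (fun k hk => ⟨lg_nonneg hN k, ((mem_SF hN).mp hk).2⟩) (fun v => 1 + s * (v : ℂ))
    (by fun_prop) (by positivity)
    (by
      intro t ht
      have h := hD L hL (Q ∪ e) t s ht.1 (by rw [hlgu]; have := ht.2; linarith) hs
      unfold DS at h
      convert h using 3
      refine Finset.sum_congr ?_ (fun _ _ => rfl)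
      ext k
      rw [Finset.mem_filter, mem_SF hN, mem_SF hN]
      constructor
      · exact fun h => ⟨h.1.1, h.2⟩
      · exact fun h => ⟨⟨h.1, h.2.trans ht.2⟩, h.2⟩)
    (fun v => ((wt b (1 - (lg N e + v) / T) : ℝ) : ℂ)) (fun _ => ((2 * b / T : ℝ) : ℂ))
    (by
      intro v _
      have h1 : HasDerivAt (fun v : ℝ => wt b (1 - (lg N e + v) / T)) (2 * b / T) v := by
        unfold wt
        have h2 : HasDerivAt (fun v : ℝ => (lg N e + v) / T) (1 / T) v :=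
          ((hasDerivAt_id v).const_add _).div_const T
        have h3 := ((((h2.const_sub 1).const_mul 2).const_sub 1).const_mul b).const_add 1
        refine h3.congr_deriv ?_
        ring
      exact h1.ofReal_comp)
    continuousOn_const
    (by
      have h1 : (lg N e + t₀) / T = 1 := by
        rw [ht₀]; field_simp; ring
      have h2 : ‖((wt b (1 - (lg N e + t₀) / T) : ℝ) : ℂ)‖ ≤ 3 / 2 := by
        rw [h1, Complex.norm_real, Real.norm_eq_abs]
        unfold wt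
        rw [abs_le]
        constructor <;> nlinarith
      have h3 : ∫ _ in (0 : ℝ)..t₀, ‖((2 * b / T : ℝ) : ℂ)‖ ≤ 1 := by
        rw [intervalIntegral.integral_const, Complex.norm_real, Real.norm_eq_abs, abs_div, abs_mul,
          abs_of_pos hT, smul_eq_mul, abs_two, sub_zero]
        rw [← mul_div_assoc, div_le_one hT]
        nlinarith [abs_nonneg b, mul_le_mul hb ht0T ht0 (by norm_num : (0 : ℝ) ≤ 1 / 2)]
      linarith)
  have hsum : DW N b T Q e s = ∑ k ∈ SF N (Q ∪ e) t₀, (((vf N k : ℝ) : ℂ)⁻¹ * ps N k s) *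
      ((wt b (1 - (lg N e + lg N k) / T) : ℝ) : ℂ) := rfl
  have hmain : ((wt b (1 - (lg N e + t₀) / T) : ℝ) : ℂ) * (1 + s * (t₀ : ℂ)) -
      ∫ v in (0 : ℝ)..t₀, ((2 * b / T : ℝ) : ℂ) * (1 + s * (v : ℂ)) =
      ((wt b (1 - lg N e / T) : ℝ) + s * (T : ℝ) * (Pt b (1 - lg N e / T) : ℝ)) := by
    rw [db_int]
    have hTc : (T : ℂ) ≠ 0 := by exact_mod_cast hT.ne'
    unfold wt Pt
    rw [ht₀]
    push_cast
    field_simp
    ring
  rw [hsum, ← hmain]
  calc _ ≤ ε / (5 / 2) * (5 / 2) := habel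
    _ = ε := by ring

alias DW_asymp := DW_asymp_pr

end Pool.Agent.LVA
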