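import Pool.Agent.Lib_helper92.LVA.Defs
import Pool.Agent.Lib_helper92.ASA.All
import Pool.Agent.Lib_helper92.LVAF.KA

/-!
# LVK part A, block KB1: the direct truncated integrals
-/

namespace Pool.Agent.LVA

open Complex MeasureTheory Filter Topology Set Pool.Agent.AS

variable {P : Type} {N : P → ℕ}

/-- the main part -/
private theorem kb1_main (x : ℂ) (ρ₂ U δ : ℝ) (hx : x ≠ 0) :
    IntegrableOn (fun u : ℝ => Complex.exp ((1 - x) * u) *
      ((open scoped Classical in if u + δ ≤ 0 then ρ₂ * Real.exp (-(u + δ)) else 0 : ℝ) : ℂ))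
      (Ioi (-U)) ∧
    (δ ≤ U → (∫ u in Ioi (-U), Complex.exp ((1 - x) * u) *
      ((open scoped Classical in if u + δ ≤ 0 then ρ₂ * Real.exp (-(u + δ)) else 0 : ℝ) : ℂ)) =
      ρ₂ * Complex.exp (-δ) * (Complex.exp (x * U) - Complex.exp (x * δ)) / x) ∧
    (U < δ → (∫ u in Ioi (-U), Complex.exp ((1 - x) * u) *
      ((open scoped Classical in if u + δ ≤ 0 then ρ₂ * Real.exp (-(u + δ)) else 0 : ℝ) : ℂ)) =
      0) := by
  classical
  have h1 : (fun u : ℝ => Complex.exp ((1 - x) * u) *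
      ((if u + δ ≤ 0 then ρ₂ * Real.exp (-(u + δ)) else 0 : ℝ) : ℂ)) =
      Set.indicator (Iic (-δ)) (fun u : ℝ => ρ₂ * Complex.exp (-δ) * Complex.exp (-x * u)) := by
    funext u
    by_cases h : u + δ ≤ 0
    · rw [if_pos h, Set.indicator_of_mem (show u ∈ Iic (-δ) by simpa using by linarith)]
      push_cast
      rw [show -x * (u : ℂ) = (1 - x) * u + -u by ring, Complex.exp_add,
        show -((u : ℂ) + δ) = -u + -δ by ring, Complex.exp_add]
      ring
    · rw [if_neg h, Set.indicator_of_notMem (show u ∉ Iic (-δ) by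
        simp only [mem_Iic, not_le]
        linarith)]
      simp
  have hcont : Continuous (fun u : ℝ => (ρ₂ : ℂ) * Complex.exp (-δ) * Complex.exp (-x * u)) := by
    fun_prop
  have hset : Ioi (-U) ∩ Iic (-δ) = Ioc (-U) (-δ) := Ioi_inter_Iic
  have hdec : ∀ u : ℝ, Complex.exp ((1 - x) * u) *
      ((open scoped Classical in if u + δ ≤ 0 then ρ₂ * Real.exp (-(u + δ)) else 0 : ℝ) : ℂ) =
      Set.indicator (Iic (-δ)) (fun u : ℝ => ρ₂ * Complex.exp (-δ) * Complex.exp (-x * u)) u := by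
    intro u
    rw [← congrFun h1 u]
  have hfun := funext hdec
  rw [hfun]
  refine ⟨?_, ?_, ?_⟩
  · unfold IntegrableOn
    rw [integrable_indicator_iff measurableSet_Iic]
    unfold IntegrableOn
    rw [Measure.restrict_restrict measurableSet_Iic, inter_comm, hset]
    exact (hcont.integrableOn_Icc).mono_set Ioc_subset_Icc_self
  · intro hδU
    rw [setIntegral_indicator measurableSet_Iic, hset,
      ← intervalIntegral.integral_of_le (by linarith), intervalIntegral.integral_const_mul,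
      integral_exp_mul_complex (neg_ne_zero.2 hx)]
    push_cast
    rw [show -x * -(δ : ℂ) = x * δ by ring, show -x * -(U : ℂ) = x * U by ring]
    field_simp
    ring
  · intro hδU
    rw [setIntegral_indicator measurableSet_Iic, hset, Ioc_eq_empty (by linarith)]
    simp

theorem dir_int_pr (hN : Good N) {k : ℝ → ℝ} {ρ₂ : ℝ} (hk : Kern N k ρ₂) {C₀ : ℝ} (hC₀ : 1 ≤ C₀) :
    ∃ C L₀ : ℝ, 0 ≤ C ∧ 1 ≤ L₀ ∧ ∀ L, L₀ ≤ L → ∀ (x : ℂ) (U δ : ℝ), 1 / L ≤ ‖x‖ → ‖x‖ ≤ C₀ / L →
      0 ≤ U → U ≤ L → 0 ≤ δ → δ ≤ 4 * L →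
      IntegrableOn (fun u : ℝ => Complex.exp ((1 - x) * u) * (W1 N k (u + δ) : ℝ)) (Ioi (-U)) ∧
      ‖(∫ u in Ioi (-U), Complex.exp ((1 - x) * u) * (W1 N k (u + δ) : ℝ)) -
        ρ₂ * Complex.exp (-δ) * (Complex.exp (x * U) - Complex.exp (x * δ)) / x -
        Complex.exp (-((1 - x) * δ)) * Jk N k ρ₂ (1 - x)‖ ≤ C * L * Real.exp (-U) := by
  obtain ⟨C1, hC1, hlow⟩ := EE_low hN hk
  obtain ⟨C2, hC2, htot⟩ := EE_tot hN hk
  have hρ := hk.rho
  refine ⟨C1 * Real.exp C₀ + C2 * Real.exp (4 * C₀) + 2 * ρ₂ * Real.exp (4 * C₀), 2 * C₀,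
    by positivity, by linarith, ?_⟩
  intro L hL x U δ hx1 hx2 hU0 hU hδ0 hδ
  have hL1 : 1 ≤ L := by linarith
  have hL0 : 0 < L := by linarith
  have hx0' : 0 < ‖x‖ := lt_of_lt_of_le (by positivity) hx1
  have hx0 : x ≠ 0 := norm_pos_iff.1 hx0'
  have hxL : ‖x‖ * L ≤ C₀ := (le_div_iff₀ hL0).1 hx2
  have hxh : ‖x‖ ≤ 1 / 2 := by
    refine hx2.trans ?_
    rw [div_le_div_iff₀ hL0 (by norm_num)]
    linarith
  have hre := abs_re_le_norm x
  have hre1 := le_abs_self x.re
  have hre2 := neg_abs_le x.re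
  have hκ : (1 - x).re = 1 - x.re := by simp
  have hκ1 : 1 / 2 ≤ (1 - x).re := by rw [hκ]; linarith
  have hκ2 : (1 - x).re ≤ 3 / 2 := by rw [hκ]; linarith
  obtain ⟨hM1, hM2, hM3⟩ := kb1_main x ρ₂ U δ hx0
  set fM : ℝ → ℂ := fun u : ℝ => Complex.exp ((1 - x) * u) *
      ((open scoped Classical in if u + δ ≤ 0 then ρ₂ * Real.exp (-(u + δ)) else 0 : ℝ) : ℂ)
    with hfM
  set h : ℝ → ℂ := fun v : ℝ => Complex.exp ((1 - x) * v) * (EE N k ρ₂ v : ℝ) with hh
  have hint : Integrable h := EE_int hN hk (by linarith)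
  have hint' : Integrable (fun u : ℝ => h (u + δ)) := hint.comp_add_right δ
  have hE : Integrable (fun u : ℝ => Complex.exp (-((1 - x) * δ)) * h (u + δ)) :=
    hint'.const_mul _
  -- the decomposition
  have hdec : (fun u : ℝ => Complex.exp ((1 - x) * u) * ((W1 N k (u + δ) : ℝ) : ℂ)) =
      fun u : ℝ => fM u + Complex.exp (-((1 - x) * δ)) * h (u + δ) := by
    funext u
    have h1 : W1 N k (u + δ) = (open scoped Classical in
        if u + δ ≤ 0 then ρ₂ * Real.exp (-(u + δ)) else 0) + EE N k ρ₂ (u + δ) := by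
      unfold EE
      ring
    rw [h1, hfM, hh]
    simp only
    have h2 : Complex.exp (-((1 - x) * δ)) * Complex.exp ((1 - x) * ((u + δ : ℝ) : ℂ)) =
        Complex.exp ((1 - x) * u) := by
      rw [← Complex.exp_add]
      congr 1
      push_cast
      ring
    rw [← mul_assoc, h2]
    push_cast
    ring
  have hEon : IntegrableOn (fun u : ℝ => Complex.exp (-((1 - x) * δ)) * h (u + δ)) (Ioi (-U)) :=
    hE.integrableOn
  rw [hdec]
  refine ⟨hM1.add hEon, ?_⟩
  have hsum : (∫ u in Ioi (-U), (fM u + Complex.exp (-((1 - x) * δ)) * h (u + δ))) =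
      (∫ u in Ioi (-U), fM u) +
        ∫ u in Ioi (-U), Complex.exp (-((1 - x) * δ)) * h (u + δ) :=
    integral_add hM1 hEon
  -- the error part
  have hshift : (∫ u in Ioi (-U), h (u + δ)) = ∫ v in Ioi (δ - U), h v := by
    have h1 : (∫ u in Ioi (-U), h (u + δ)) = ∫ u, (Ioi (δ - U)).indicator h (u + δ) := by
      rw [← integral_indicator measurableSet_Ioi]
      congr 1
      funext u
      by_cases hu : u ∈ Ioi (-U)
      · rw [Set.indicator_of_mem hu, Set.indicator_of_mem]
        simp only [mem_Ioi] at hu ⊢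
        linarith
      · rw [Set.indicator_of_notMem hu, Set.indicator_of_notMem]
        simp only [mem_Ioi, not_lt] at hu ⊢
        linarith
    rw [h1, integral_add_right_eq_self (fun u => (Ioi (δ - U)).indicator h u) δ,
      integral_indicator measurableSet_Ioi]
  have hsplit : (∫ v in Ioi (δ - U), h v) = Jk N k ρ₂ (1 - x) - ∫ v in Iic (δ - U), h v := by
    have h1 : (∫ v in Iic (δ - U), h v) + (∫ v in Ioi (δ - U), h v) = ∫ v, h v := by
      have := integral_add_compl (s := Iic (δ - U)) measurableSet_Iic hint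
      rwa [compl_Iic] at this
    have h2 : Jk N k ρ₂ (1 - x) = ∫ v, h v := rfl
    rw [h2, ← h1]
    ring
  have hEint : (∫ u in Ioi (-U), Complex.exp (-((1 - x) * δ)) * h (u + δ)) -
      Complex.exp (-((1 - x) * δ)) * Jk N k ρ₂ (1 - x) =
      -(Complex.exp (-((1 - x) * δ)) * ∫ v in Iic (δ - U), h v) := by
    rw [integral_const_mul, hshift, hsplit]
    ring
  have hnexp : ‖Complex.exp (-((1 - x) * δ))‖ = Real.exp (-((1 - x).re * δ)) := by
    rw [Complex.norm_exp]
    congr 1
    simp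
  have hxU : x.re * U ≤ C₀ := by
    have h1 : x.re * U ≤ ‖x‖ * U := mul_le_mul_of_nonneg_right (by linarith) hU0
    have h2 : ‖x‖ * U ≤ ‖x‖ * L := mul_le_mul_of_nonneg_left hU (norm_nonneg _)
    linarith
  have hxδ : ‖x‖ * δ ≤ 4 * C₀ := by
    have h2 : ‖x‖ * δ ≤ ‖x‖ * (4 * L) := mul_le_mul_of_nonneg_left hδ (norm_nonneg _)
    linarith
  have hxδ' : x.re * δ ≤ 4 * C₀ := by
    have h1 : x.re * δ ≤ ‖x‖ * δ := mul_le_mul_of_nonneg_right (by linarith) hδ0
    linarith
  have hEb : ‖Complex.exp (-((1 - x) * δ)) * ∫ v in Iic (δ - U), h v‖ ≤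
      (C1 * Real.exp C₀ + C2 * Real.exp (4 * C₀)) * Real.exp (-U) := by
    rw [norm_mul, hnexp]
    rcases le_or_gt δ U with hδU | hδU
    · have h1 : ‖∫ v in Iic (δ - U), h v‖ ≤ C1 * Real.exp ((1 - x).re * (δ - U)) :=
        (norm_integral_le_integral_norm _).trans
          (hlow (1 - x) (δ - U) hκ1 hκ2 (by linarith))
      calc Real.exp (-((1 - x).re * δ)) * ‖∫ v in Iic (δ - U), h v‖
          ≤ Real.exp (-((1 - x).re * δ)) * (C1 * Real.exp ((1 - x).re * (δ - U))) :=
            mul_le_mul_of_nonneg_left h1 (Real.exp_pos _).le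
        _ = C1 * Real.exp (x.re * U) * Real.exp (-U) := by
            rw [mul_comm, mul_assoc, mul_assoc, ← Real.exp_add, ← Real.exp_add]
            congr 2
            rw [hκ]
            ring
        _ ≤ C1 * Real.exp C₀ * Real.exp (-U) := by
            gcongr
        _ ≤ _ := by
            have : 0 ≤ C2 * Real.exp (4 * C₀) * Real.exp (-U) := by positivity
            linarith
    · have h1 : ‖∫ v in Iic (δ - U), h v‖ ≤ C2 := by
        refine (norm_integral_le_integral_norm _).trans ?_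
        refine (setIntegral_le_integral hint.norm ?_).trans (htot (1 - x) hκ1 hκ2)
        exact Eventually.of_forall fun v => norm_nonneg _
      calc Real.exp (-((1 - x).re * δ)) * ‖∫ v in Iic (δ - U), h v‖
          ≤ Real.exp (-((1 - x).re * δ)) * C2 :=
            mul_le_mul_of_nonneg_left h1 (Real.exp_pos _).le
        _ = C2 * Real.exp (x.re * δ) * Real.exp (-δ) := by
            rw [mul_comm, mul_assoc, ← Real.exp_add]
            congr 2
            rw [hκ]
            ring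
        _ ≤ C2 * Real.exp (4 * C₀) * Real.exp (-U) := by
            gcongr
        _ ≤ _ := by
            have : 0 ≤ C1 * Real.exp C₀ * Real.exp (-U) := by positivity
            linarith
  -- the main part
  have hMb : ‖(∫ u in Ioi (-U), fM u) -
      ρ₂ * Complex.exp (-δ) * (Complex.exp (x * U) - Complex.exp (x * δ)) / x‖ ≤
      2 * ρ₂ * Real.exp (4 * C₀) * L * Real.exp (-U) := by
    rcases le_or_gt δ U with hδU | hδU
    · rw [hM2 hδU, sub_self, norm_zero]
      positivity
    · rw [hM3 hδU, zero_sub, norm_neg, norm_div, norm_mul, norm_mul]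
      have n1 : ‖(ρ₂ : ℂ)‖ = ρ₂ := by
        rw [Complex.norm_real, Real.norm_of_nonneg hρ]
      have n2 : ‖Complex.exp (-(δ : ℂ))‖ ≤ Real.exp (-U) := by
        rw [Complex.norm_exp]
        apply Real.exp_le_exp.2
        simp
        linarith
      have n3 : ‖Complex.exp (x * U)‖ ≤ Real.exp (4 * C₀) := by
        rw [Complex.norm_exp]
        apply Real.exp_le_exp.2
        have : (x * (U : ℂ)).re = x.re * U := by simp
        rw [this]
        linarith
      have n4 : ‖Complex.exp (x * δ)‖ ≤ Real.exp (4 * C₀) := by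
        rw [Complex.norm_exp]
        apply Real.exp_le_exp.2
        have : (x * (δ : ℂ)).re = x.re * δ := by simp
        rw [this]
        linarith
      have n5 : ‖Complex.exp (x * U) - Complex.exp (x * δ)‖ ≤ 2 * Real.exp (4 * C₀) := by
        refine (norm_sub_le _ _).trans ?_
        linarith
      have n6 : 1 / ‖x‖ ≤ L := by
        rw [div_le_iff₀ hx0', mul_comm]
        rwa [div_le_iff₀ hL0] at hx1
      rw [n1, div_eq_mul_one_div]
      calc ρ₂ * ‖Complex.exp (-(δ : ℂ))‖ * ‖Complex.exp (x * U) - Complex.exp (x * δ)‖ *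
            (1 / ‖x‖) ≤ ρ₂ * Real.exp (-U) * (2 * Real.exp (4 * C₀)) * L := by
            gcongr
        _ = 2 * ρ₂ * Real.exp (4 * C₀) * L * Real.exp (-U) := by ring
  rw [hsum]
  have hfin : (∫ u in Ioi (-U), fM u) +
        (∫ u in Ioi (-U), Complex.exp (-((1 - x) * δ)) * h (u + δ)) -
      ρ₂ * Complex.exp (-δ) * (Complex.exp (x * U) - Complex.exp (x * δ)) / x -
      Complex.exp (-((1 - x) * δ)) * Jk N k ρ₂ (1 - x) =
      ((∫ u in Ioi (-U), fM u) -
        ρ₂ * Complex.exp (-δ) * (Complex.exp (x * U) - Complex.exp (x * δ)) / x) +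
      ((∫ u in Ioi (-U), Complex.exp (-((1 - x) * δ)) * h (u + δ)) -
        Complex.exp (-((1 - x) * δ)) * Jk N k ρ₂ (1 - x)) := by ring
  rw [hfin, hEint]
  refine (norm_add_le _ _).trans ?_
  rw [norm_neg]
  have h9 : (C1 * Real.exp C₀ + C2 * Real.exp (4 * C₀)) * Real.exp (-U) ≤
      (C1 * Real.exp C₀ + C2 * Real.exp (4 * C₀)) * L * Real.exp (-U) := by
    have h10 : 0 ≤ (C1 * Real.exp C₀ + C2 * Real.exp (4 * C₀)) := by positivity
    have h11 : (C1 * Real.exp C₀ + C2 * Real.exp (4 * C₀)) ≤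
        (C1 * Real.exp C₀ + C2 * Real.exp (4 * C₀)) * L := le_mul_of_one_le_right h10 hL1
    exact mul_le_mul_of_nonneg_right h11 (Real.exp_pos _).le
  calc _ ≤ 2 * ρ₂ * Real.exp (4 * C₀) * L * Real.exp (-U) +
        (C1 * Real.exp C₀ + C2 * Real.exp (4 * C₀)) * L * Real.exp (-U) := by linarith
    _ = _ := by ring


alias dir_int := dir_int_pr

end Pool.Agent.LVA
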