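import Pool.Agent.Lib_helper92.LVA.Defs
import Pool.Agent.Lib_helper92.ASA.All
import Pool.Agent.Lib_helper92.LVAF.KA

/-!
# Project LVK, part A, block KB2: the truncated dual integral of `W1`
-/

namespace Pool.Agent.LVA

open Complex MeasureTheory Filter Topology Set Pool.Agent.AS

variable {P : Type} {N : P → ℕ}

/-- the substitution `v = -u - δ` -/
theorem kb2_sub {F : ℝ → ℂ} {U δ : ℝ} (hF : IntegrableOn F (Ioi (U - δ))) :
    IntegrableOn (fun u : ℝ => F (-u - δ)) (Iio (-U)) ∧
      ∫ u in Iio (-U), F (-u - δ) = ∫ v in Ioi (U - δ), F v := by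
  have key : (Iio (-U)).indicator (fun u : ℝ => F (-u - δ)) =
      fun u : ℝ => (Ioi (U - δ)).indicator F (-δ - u) := by
    funext u
    have e : -u - δ = -δ - u := by ring
    by_cases h : u < -U
    · rw [indicator_of_mem (show u ∈ Iio (-U) from h),
        indicator_of_mem (show -δ - u ∈ Ioi (U - δ) from by
          rw [mem_Ioi]; linarith), e]
    · rw [indicator_of_notMem (show u ∉ Iio (-U) from h),
        indicator_of_notMem (show -δ - u ∉ Ioi (U - δ) from by
          rw [mem_Ioi]; intro h'; apply h; linarith)]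
  have hI : Integrable ((Ioi (U - δ)).indicator F) :=
    (integrable_indicator_iff measurableSet_Ioi).mpr hF
  constructor
  · rw [← integrable_indicator_iff measurableSet_Iio, key]
    exact hI.comp_sub_left (-δ)
  · rw [← integral_indicator measurableSet_Iio, key,
      integral_sub_left_eq_self ((Ioi (U - δ)).indicator F) volume (-δ),
      integral_indicator measurableSet_Ioi]

/-- the main part of the integral -/
theorem kb2_main {x : ℂ} (hx : x ≠ 0) (ρ₂ c : ℝ) :
    IntegrableOn (fun v : ℝ => if v ≤ 0 then (ρ₂ : ℂ) * Complex.exp (x * v) else 0) (Ioi c) ∧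
      ∫ v in Ioi c, (if v ≤ 0 then (ρ₂ : ℂ) * Complex.exp (x * v) else 0) =
        if c ≤ 0 then (ρ₂ : ℂ) * ((1 - Complex.exp (x * c)) / x) else 0 := by
  have hcont : Continuous (fun v : ℝ => (ρ₂ : ℂ) * Complex.exp (x * v)) := by fun_prop
  have key : (fun v : ℝ => if v ≤ 0 then (ρ₂ : ℂ) * Complex.exp (x * v) else 0) =
      (Iic (0 : ℝ)).indicator (fun v : ℝ => (ρ₂ : ℂ) * Complex.exp (x * v)) := by
    funext v
    simp only [indicator, mem_Iic]
  have hset : Ioi c ∩ Iic 0 = Ioc c (0 : ℝ) := by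
    ext v
    simp
  have hint : IntegrableOn (fun v : ℝ => (ρ₂ : ℂ) * Complex.exp (x * v)) (Ioc c 0) :=
    (hcont.integrableOn_Icc (a := c) (b := 0)).mono_set Ioc_subset_Icc_self
  constructor
  · rw [key]
    rw [IntegrableOn, integrable_indicator_iff measurableSet_Iic, IntegrableOn,
      Measure.restrict_restrict measurableSet_Iic, inter_comm, hset]
    exact hint
  · rw [key, setIntegral_indicator measurableSet_Iic, hset]
    by_cases hc : c ≤ 0
    · rw [if_pos hc, ← intervalIntegral.integral_of_le hc,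
        intervalIntegral.integral_const_mul, integral_exp_mul_complex hx]
      simp
    · rw [if_neg hc, Ioc_eq_empty (by linarith), setIntegral_empty]

/-- the decomposition of `e^{κ v} W1(v)` -/
theorem kb2_dec (k : ℝ → ℝ) (ρ₂ : ℝ) (x : ℂ) (v : ℝ) :
    Complex.exp ((1 + x) * v) * (W1 N k v : ℝ) =
      (if v ≤ 0 then (ρ₂ : ℂ) * Complex.exp (x * v) else 0) +
        Complex.exp ((1 + x) * v) * (EE N k ρ₂ v : ℝ) := by
  unfold EE
  by_cases h : v ≤ 0
  · simp only [h, if_true]
    push_cast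
    have e : Complex.exp ((1 + x) * v) * Complex.exp (-v) = Complex.exp (x * v) := by
      rw [← Complex.exp_add]
      congr 1
      ring
    linear_combination (ρ₂ : ℂ) * e
  · simp only [h, if_false, sub_zero, zero_add]

theorem dual_int_pr (hN : Good N) {k : ℝ → ℝ} {ρ₂ : ℝ} (hk : Kern N k ρ₂) {C₀ : ℝ}
    (hC₀ : 1 ≤ C₀) :
    ∃ C L₀ : ℝ, 0 ≤ C ∧ 1 ≤ L₀ ∧ ∀ L, L₀ ≤ L → ∀ (x : ℂ) (U δ : ℝ), 1 / L ≤ ‖x‖ → ‖x‖ ≤ C₀ / L →
      0 ≤ U → U ≤ L → |δ| ≤ 4 * L →
      IntegrableOn (fun u : ℝ => Complex.exp ((-1 - x) * u) * (W1 N k (-u - δ) : ℝ))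
        (Iio (-U)) ∧
      ‖(∫ u in Iio (-U), Complex.exp ((-1 - x) * u) * (W1 N k (-u - δ) : ℝ)) -
        ρ₂ * Complex.exp δ * (Complex.exp (x * δ) - Complex.exp (x * U)) / x -
        Complex.exp ((1 + x) * δ) * Jk N k ρ₂ (1 + x)‖ ≤ C * L * Real.exp U := by
  obtain ⟨C1, hC1, htot⟩ := EE_tot hN hk
  obtain ⟨C2, hC2, hlow⟩ := EE_low hN hk
  have hρ : 0 ≤ ρ₂ := hk.rho
  have hE0 : 0 < Real.exp (4 * C₀) := Real.exp_pos _
  refine ⟨(C1 + C2 + 2 * ρ₂) * Real.exp (4 * C₀), 2 * C₀, by positivity, by linarith, ?_⟩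
  intro L hL x U δ hx1 hx2 hU0 hUL hδ
  have hLpos : 0 < L := by linarith
  have hL1 : 1 ≤ L := by linarith
  have hxn : 0 < ‖x‖ := lt_of_lt_of_le (by positivity) hx1
  have hx0 : x ≠ 0 := norm_pos_iff.mp hxn
  have hre : |x.re| ≤ C₀ / L := le_trans (Complex.abs_re_le_norm x) hx2
  have hCL : C₀ / L ≤ 1 / 2 := by
    rw [div_le_iff₀ hLpos]
    linarith
  have hκ1 : 1 / 2 ≤ (1 + x).re := by
    rw [Complex.add_re, Complex.one_re]
    linarith [(abs_le.mp hre).1]
  have hκ2 : (1 + x).re ≤ 3 / 2 := by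
    rw [Complex.add_re, Complex.one_re]
    linarith [(abs_le.mp hre).2]
  -- the bound of `e^{± Re x w}`
  have hbd : ∀ w : ℝ, |w| ≤ 4 * L → Real.exp (x.re * w) ≤ Real.exp (4 * C₀) := by
    intro w hw
    apply Real.exp_le_exp.mpr
    calc x.re * w ≤ |x.re * w| := le_abs_self _
      _ = |x.re| * |w| := abs_mul _ _
      _ ≤ C₀ / L * (4 * L) := mul_le_mul hre hw (abs_nonneg _) (by positivity)
      _ = 4 * C₀ := by field_simp
  have hUabs : |U| ≤ 4 * L := by
    rw [abs_of_nonneg hU0]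
    linarith
  -- the two parts
  obtain ⟨hmi, hmv⟩ := kb2_main hx0 ρ₂ (U - δ)
  have hei : Integrable (fun v : ℝ => Complex.exp ((1 + x) * v) * (EE N k ρ₂ v : ℝ)) :=
    EE_int hN hk (by linarith)
  have hF : IntegrableOn (fun v : ℝ => Complex.exp ((1 + x) * v) * (W1 N k v : ℝ))
      (Ioi (U - δ)) := by
    have h1 : (fun v : ℝ => Complex.exp ((1 + x) * v) * (W1 N k v : ℝ)) =
        fun v : ℝ => (if v ≤ 0 then (ρ₂ : ℂ) * Complex.exp (x * v) else 0) +
          Complex.exp ((1 + x) * v) * (EE N k ρ₂ v : ℝ) := funext (kb2_dec k ρ₂ x)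
    rw [h1]
    exact hmi.add hei.integrableOn
  have hFv : ∫ v in Ioi (U - δ), Complex.exp ((1 + x) * v) * (W1 N k v : ℝ) =
      (if U - δ ≤ 0 then (ρ₂ : ℂ) * ((1 - Complex.exp (x * (U - δ : ℝ))) / x) else 0) +
        (Jk N k ρ₂ (1 + x) -
          ∫ v in Iic (U - δ), Complex.exp ((1 + x) * v) * (EE N k ρ₂ v : ℝ)) := by
    have h1 : (fun v : ℝ => Complex.exp ((1 + x) * v) * (W1 N k v : ℝ)) =
        fun v : ℝ => (if v ≤ 0 then (ρ₂ : ℂ) * Complex.exp (x * v) else 0) +
          Complex.exp ((1 + x) * v) * (EE N k ρ₂ v : ℝ) := funext (kb2_dec k ρ₂ x)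
    have h2 := integral_add_compl (measurableSet_Iic (a := U - δ)) hei
    rw [compl_Iic] at h2
    rw [h1, integral_add hmi hei.integrableOn, hmv, Jk, ← h2]
    ring
  have hg : (fun u : ℝ => Complex.exp ((-1 - x) * u) * (W1 N k (-u - δ) : ℝ)) =
      fun u : ℝ => Complex.exp ((1 + x) * δ) *
        (fun v : ℝ => Complex.exp ((1 + x) * v) * (W1 N k v : ℝ)) (-u - δ) := by
    funext u
    simp only
    rw [← mul_assoc, ← Complex.exp_add]
    congr 2
    push_cast
    ring
  obtain ⟨hs1, hs2⟩ := kb2_sub hF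
  constructor
  · rw [hg]
    exact hs1.const_mul _
  rw [hg, integral_const_mul, hs2, hFv]
  -- the tail of `E`
  have htail : ‖Complex.exp ((1 + x) * δ) *
      ∫ v in Iic (U - δ), Complex.exp ((1 + x) * v) * (EE N k ρ₂ v : ℝ)‖ ≤
      (C1 + C2) * Real.exp (4 * C₀) * Real.exp U := by
    have hne : ‖Complex.exp ((1 + x) * δ)‖ = Real.exp δ * Real.exp (x.re * δ) := by
      rw [Complex.norm_exp, ← Real.exp_add]
      congr 1
      simp
      ring
    rw [norm_mul, hne]
    by_cases hc : U - δ ≤ 0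
    · have h1 := hlow (1 + x) (U - δ) hκ1 hκ2 hc
      have h2 := (norm_integral_le_integral_norm (μ := volume.restrict (Iic (U - δ)))
        (fun v : ℝ => Complex.exp ((1 + x) * v) * (EE N k ρ₂ v : ℝ))).trans h1
      calc Real.exp δ * Real.exp (x.re * δ) *
          ‖∫ v in Iic (U - δ), Complex.exp ((1 + x) * v) * (EE N k ρ₂ v : ℝ)‖
          ≤ Real.exp δ * Real.exp (x.re * δ) * (C2 * Real.exp ((1 + x).re * (U - δ))) :=
            mul_le_mul_of_nonneg_left h2 (by positivity)
        _ = C2 * Real.exp (x.re * U) * Real.exp U := by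
            rw [Complex.add_re, Complex.one_re]
            have : Real.exp δ * Real.exp (x.re * δ) * Real.exp ((1 + x.re) * (U - δ)) =
                Real.exp (x.re * U) * Real.exp U := by
              rw [← Real.exp_add, ← Real.exp_add, ← Real.exp_add]
              congr 1
              ring
            linear_combination C2 * this
        _ ≤ C2 * Real.exp (4 * C₀) * Real.exp U := by
            apply mul_le_mul_of_nonneg_right _ (Real.exp_pos _).le
            exact mul_le_mul_of_nonneg_left (hbd U hUabs) hC2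
        _ ≤ (C1 + C2) * Real.exp (4 * C₀) * Real.exp U := by
            have : 0 ≤ C1 * Real.exp (4 * C₀) * Real.exp U := by positivity
            linarith
    · rw [not_le] at hc
      have h1 := htot (1 + x) hκ1 hκ2
      have h2 : ‖∫ v in Iic (U - δ), Complex.exp ((1 + x) * v) * (EE N k ρ₂ v : ℝ)‖ ≤ C1 := by
        refine (norm_integral_le_integral_norm _).trans (le_trans ?_ h1)
        exact setIntegral_le_integral hei.norm (Filter.Eventually.of_forall
          (fun v => norm_nonneg _))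
      calc Real.exp δ * Real.exp (x.re * δ) *
          ‖∫ v in Iic (U - δ), Complex.exp ((1 + x) * v) * (EE N k ρ₂ v : ℝ)‖
          ≤ Real.exp U * Real.exp (4 * C₀) * C1 := by
            apply mul_le_mul _ h2 (norm_nonneg _) (by positivity)
            exact mul_le_mul (Real.exp_le_exp.mpr (by linarith)) (hbd δ hδ)
              (Real.exp_pos _).le (Real.exp_pos _).le
        _ ≤ (C1 + C2) * Real.exp (4 * C₀) * Real.exp U := by
            have : 0 ≤ C2 * Real.exp (4 * C₀) * Real.exp U := by positivity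
            nlinarith
  -- the main part
  have hmain : ‖Complex.exp ((1 + x) * δ) *
      (if U - δ ≤ 0 then (ρ₂ : ℂ) * ((1 - Complex.exp (x * (U - δ : ℝ))) / x) else 0) -
        ρ₂ * Complex.exp δ * (Complex.exp (x * δ) - Complex.exp (x * U)) / x‖ ≤
      2 * ρ₂ * Real.exp (4 * C₀) * L * Real.exp U := by
    by_cases hc : U - δ ≤ 0
    · rw [if_pos hc]
      have e1 : Complex.exp ((1 + x) * δ) = Complex.exp δ * Complex.exp (x * δ) := by
        rw [← Complex.exp_add]
        congr 1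
        ring
      have e2 : Complex.exp (x * δ) * Complex.exp (x * (U - δ : ℝ)) = Complex.exp (x * U) := by
        rw [← Complex.exp_add]
        congr 1
        push_cast
        ring
      have e3 : Complex.exp ((1 + x) * δ) *
          ((ρ₂ : ℂ) * ((1 - Complex.exp (x * (U - δ : ℝ))) / x)) -
          ρ₂ * Complex.exp δ * (Complex.exp (x * δ) - Complex.exp (x * U)) / x = 0 := by
        rw [e1, ← e2]
        field_simp
        ring
      rw [e3, norm_zero]
      positivity
    · rw [if_neg hc, mul_zero, zero_sub, norm_neg]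
      rw [not_le] at hc
      rw [norm_div, norm_mul, norm_mul]
      have h1 : ‖Complex.exp (x * δ) - Complex.exp (x * U)‖ ≤ 2 * Real.exp (4 * C₀) := by
        refine (norm_sub_le _ _).trans ?_
        have h2 : ∀ w : ℝ, |w| ≤ 4 * L → ‖Complex.exp (x * w)‖ ≤ Real.exp (4 * C₀) := by
          intro w hw
          rw [Complex.norm_exp]
          have : (x * (w : ℂ)).re = x.re * w := by simp
          rw [this]
          exact hbd w hw
        linarith [h2 δ hδ, h2 U hUabs]
      have h3 : ‖Complex.exp (δ : ℂ)‖ ≤ Real.exp U := by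
        rw [Complex.norm_exp, Complex.ofReal_re]
        exact Real.exp_le_exp.mpr (by linarith)
      have h4 : ‖(ρ₂ : ℂ)‖ = ρ₂ := by
        rw [Complex.norm_real, Real.norm_of_nonneg hρ]
      rw [h4, div_le_iff₀ hxn]
      have h5 : 1 ≤ L * ‖x‖ := by
        rw [div_le_iff₀ hLpos] at hx1
        linarith
      calc ρ₂ * ‖Complex.exp (δ : ℂ)‖ * ‖Complex.exp (x * δ) - Complex.exp (x * U)‖
          ≤ ρ₂ * Real.exp U * (2 * Real.exp (4 * C₀)) :=
            mul_le_mul (mul_le_mul_of_nonneg_left h3 hρ) h1 (norm_nonneg _) (by positivity)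
        _ = (2 * ρ₂ * Real.exp (4 * C₀) * Real.exp U) * 1 := by ring
        _ ≤ (2 * ρ₂ * Real.exp (4 * C₀) * Real.exp U) * (L * ‖x‖) :=
            mul_le_mul_of_nonneg_left h5 (by positivity)
        _ = 2 * ρ₂ * Real.exp (4 * C₀) * L * Real.exp U * ‖x‖ := by ring
  have hsplit : Complex.exp ((1 + x) * δ) *
      ((if U - δ ≤ 0 then (ρ₂ : ℂ) * ((1 - Complex.exp (x * (U - δ : ℝ))) / x) else 0) +
        (Jk N k ρ₂ (1 + x) -
          ∫ v in Iic (U - δ), Complex.exp ((1 + x) * v) * (EE N k ρ₂ v : ℝ))) -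
        ρ₂ * Complex.exp δ * (Complex.exp (x * δ) - Complex.exp (x * U)) / x -
        Complex.exp ((1 + x) * δ) * Jk N k ρ₂ (1 + x) =
      (Complex.exp ((1 + x) * δ) *
      (if U - δ ≤ 0 then (ρ₂ : ℂ) * ((1 - Complex.exp (x * (U - δ : ℝ))) / x) else 0) -
        ρ₂ * Complex.exp δ * (Complex.exp (x * δ) - Complex.exp (x * U)) / x) -
      Complex.exp ((1 + x) * δ) *
      ∫ v in Iic (U - δ), Complex.exp ((1 + x) * v) * (EE N k ρ₂ v : ℝ) := by
    ring
  rw [hsplit]
  refine (norm_sub_le _ _).trans ((add_le_add hmain htail).trans ?_)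
  have h6 : (C1 + C2) * Real.exp (4 * C₀) * Real.exp U ≤
      (C1 + C2) * Real.exp (4 * C₀) * Real.exp U * L :=
    le_mul_of_one_le_right (by positivity) hL1
  linarith


alias dual_int := dual_int_pr

end Pool.Agent.LVA
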