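import Pool.Agent.Lib_helper92.LVA.Defs
import Pool.Agent.Lib_helper92.ASA.All
import Pool.Agent.Lib_helper92.LVAF.BA
import Pool.Agent.Lib_helper92.LVAF.BB
import Pool.Agent.Lib_helper92.LVAF.CN
import Pool.Agent.Lib_helper92.LVAF.KB1
import Pool.Agent.Lib_helper92.LVAF.KC

/-!
# Project LVK, part A, block KD: the direct diagonal
-/

namespace Pool.Agent.LVA

open Complex MeasureTheory Filter Topology Set Pool.Agent.AS

variable {P : Type} {N : P → ℕ}

/-- The coefficient of the pair `(m, n)`. -/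
noncomputable def kd_c (N : P → ℕ) (b θ R L : ℝ) (Q : Finset P) (α β : ℂ) (m n : Finset P) : ℂ :=
  (am N b θ R L Q m : ℂ) * (am N b θ R L Q n : ℂ) *
    Complex.exp ((α * lg N m + β * lg N n) / L)

theorem kd_dirF [DecidableEq P] (hN : Good N) {k : ℝ → ℝ} {ρ₂ : ℝ} (hk : Kern N k ρ₂)
    (b θ R L : ℝ) (hL : 0 < L) (Q : Finset P) (α β x : ℂ) (hx : x = (2 * R - α - β) / L) (u : ℝ) :
    dirF N k b θ R L Q (fun y => Complex.exp (α * y)) (fun y => Complex.exp (β * y)) u =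
      ∑ m ∈ SF N Q (θ * L), ∑ n ∈ SF N Q (θ * L), ∑ d ∈ Q.powerset,
        (kd_c N b θ R L Q α β m n * (-1) ^ d.card) *
          (Complex.exp ((1 - x) * u) * (W1 N k (u + (lg N (m ∪ n) + lg N d)) : ℝ)) := by
  unfold dirF
  have hL' : (L : ℂ) ≠ 0 := by exact_mod_cast hL.ne'
  rw [Finset.mul_sum]
  refine Finset.sum_congr rfl fun m _ => ?_
  rw [Finset.mul_sum]
  refine Finset.sum_congr rfl fun n _ => ?_
  rw [WW_exp hN hk Q]
  push_cast
  rw [Finset.mul_sum, Finset.mul_sum]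
  refine Finset.sum_congr rfl fun d _ => ?_
  unfold kd_c
  have h1 : Complex.exp ((1 - 2 * R / L) * u) * (Complex.exp (α * ((u + lg N m) / L)) *
      Complex.exp (β * ((u + lg N n) / L))) =
      Complex.exp ((α * lg N m + β * lg N n) / L) * Complex.exp ((1 - x) * u) := by
    rw [← Complex.exp_add, ← Complex.exp_add, ← Complex.exp_add, hx]
    congr 1
    field_simp
    ring
  rw [← add_assoc]
  linear_combination ((am N b θ R L Q m : ℂ) * (am N b θ R L Q n : ℂ) * ((-1) ^ d.card *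
    (W1 N k (u + lg N (m ∪ n) + lg N d) : ℂ))) * h1

/-- The two main sums. -/
theorem kd_Ms1 [DecidableEq P] (b θ R L : ℝ) (hL : 0 < L) (Q : Finset P) (α β : ℂ) :
    ∑ m ∈ SF N Q (θ * L), ∑ n ∈ SF N Q (θ * L),
      kd_c N b θ R L Q α β m n * Complex.exp (-(lg N (m ∪ n) : ℂ)) =
      Ms N b θ L Q (R - α) (R - β) 0 := by
  unfold Ms
  have hL' : (L : ℂ) ≠ 0 := by exact_mod_cast hL.ne'
  refine Finset.sum_congr rfl fun m _ => Finset.sum_congr rfl fun n _ => ?_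
  unfold kd_c am
  push_cast
  have hu : (lg N (m ∪ n) : ℂ) = lg N m + lg N n - lg N (m ∩ n) := by
    have := lg_inter_union (N := N) m n
    have h2 : lg N (m ∪ n) = lg N m + lg N n - lg N (m ∩ n) := by linarith
    rw [h2]; push_cast; ring
  rw [hu]
  have h1 : Complex.exp (-(R / L) * lg N m) * Complex.exp (-(R / L) * lg N n) *
      Complex.exp ((α * lg N m + β * lg N n) / L) *
      Complex.exp (-((lg N m : ℂ) + lg N n - lg N (m ∩ n))) =
      Complex.exp (-((1 + (R - α) / L) * lg N m)) * Complex.exp (-((1 + (R - β) / L) * lg N n)) *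
      Complex.exp ((1 + 0 / L) * lg N (m ∩ n)) := by
    rw [← Complex.exp_add, ← Complex.exp_add, ← Complex.exp_add, ← Complex.exp_add,
      ← Complex.exp_add]
    congr 1
    field_simp
    ring
  linear_combination ((lam N b (θ * L) Q m : ℂ) * (lam N b (θ * L) Q n : ℂ)) * h1

theorem kd_Ms2 [DecidableEq P] (b θ R L : ℝ) (hL : 0 < L) (Q : Finset P) (α β X x : ℂ)
    (hX : X = 2 * R - α - β) (hx : x = X / L) :
    ∑ m ∈ SF N Q (θ * L), ∑ n ∈ SF N Q (θ * L),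
      kd_c N b θ R L Q α β m n * Complex.exp (-((1 - x) * lg N (m ∪ n))) =
      Ms N b θ L Q (β - R) (α - R) (-X) := by
  unfold Ms
  have hL' : (L : ℂ) ≠ 0 := by exact_mod_cast hL.ne'
  refine Finset.sum_congr rfl fun m _ => Finset.sum_congr rfl fun n _ => ?_
  unfold kd_c am
  push_cast
  have hu : (lg N (m ∪ n) : ℂ) = lg N m + lg N n - lg N (m ∩ n) := by
    have := lg_inter_union (N := N) m n
    have h2 : lg N (m ∪ n) = lg N m + lg N n - lg N (m ∩ n) := by linarith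
    rw [h2]; push_cast; ring
  rw [hu]
  have h1 : Complex.exp (-(R / L) * lg N m) * Complex.exp (-(R / L) * lg N n) *
      Complex.exp ((α * lg N m + β * lg N n) / L) *
      Complex.exp (-((1 - x) * ((lg N m : ℂ) + lg N n - lg N (m ∩ n)))) =
      Complex.exp (-((1 + (β - R) / L) * lg N m)) * Complex.exp (-((1 + (α - R) / L) * lg N n)) *
      Complex.exp ((1 + -X / L) * lg N (m ∩ n)) := by
    rw [← Complex.exp_add, ← Complex.exp_add, ← Complex.exp_add, ← Complex.exp_add,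
      ← Complex.exp_add]
    congr 1
    rw [hx, hX]
    field_simp
    ring
  linear_combination ((lam N b (θ * L) Q m : ℂ) * (lam N b (θ * L) Q n : ℂ)) * h1

/-- The main term of one integral, summed over `d`. -/
theorem kd_main_d (hN : Good N) (Q : Finset P) (v : ℝ) (ρ₂ x J E : ℂ) :
    ∑ d ∈ Q.powerset, (-1) ^ d.card *
      (ρ₂ * Complex.exp (-((v + lg N d : ℝ) : ℂ)) *
        (E - Complex.exp (x * ((v + lg N d : ℝ) : ℂ))) / x +
        Complex.exp (-((1 - x) * ((v + lg N d : ℝ) : ℂ))) * J) =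
      ρ₂ / x * ((ph N Q : ℝ) * E * Complex.exp (-(v : ℂ)) -
        ps N Q (1 - x) * Complex.exp (-((1 - x) * v))) +
      J * ps N Q (1 - x) * Complex.exp (-((1 - x) * v)) := by
  have h1 : ∀ d : Finset P, (-1 : ℂ) ^ d.card *
      (ρ₂ * Complex.exp (-((v + lg N d : ℝ) : ℂ)) *
        (E - Complex.exp (x * ((v + lg N d : ℝ) : ℂ))) / x +
        Complex.exp (-((1 - x) * ((v + lg N d : ℝ) : ℂ))) * J) =
      (ρ₂ / x * E * Complex.exp (-(v : ℂ))) * ((-1) ^ d.card * Complex.exp (-(1 * lg N d))) +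
      ((J - ρ₂ / x) * Complex.exp (-((1 - x) * v))) *
        ((-1) ^ d.card * Complex.exp (-((1 - x) * lg N d))) := by
    intro d
    have e1 : Complex.exp (-((v + lg N d : ℝ) : ℂ)) =
        Complex.exp (-(v : ℂ)) * Complex.exp (-(1 * (lg N d : ℂ))) := by
      rw [← Complex.exp_add]; congr 1; push_cast; ring
    have e2 : Complex.exp (-((v + lg N d : ℝ) : ℂ)) * Complex.exp (x * ((v + lg N d : ℝ) : ℂ)) =
        Complex.exp (-((1 - x) * v)) * Complex.exp (-((1 - x) * lg N d)) := by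
      rw [← Complex.exp_add, ← Complex.exp_add]; congr 1; push_cast; ring
    have e3 : Complex.exp (-((1 - x) * ((v + lg N d : ℝ) : ℂ))) =
        Complex.exp (-((1 - x) * v)) * Complex.exp (-((1 - x) * lg N d)) := by
      rw [← Complex.exp_add]; congr 1; push_cast; ring
    have e4 : ρ₂ * Complex.exp (-((v + lg N d : ℝ) : ℂ)) *
        (E - Complex.exp (x * ((v + lg N d : ℝ) : ℂ))) / x =
        ρ₂ / x * (E * Complex.exp (-((v + lg N d : ℝ) : ℂ)) -
          Complex.exp (-((v + lg N d : ℝ) : ℂ)) * Complex.exp (x * ((v + lg N d : ℝ) : ℂ))) := by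
      ring
    rw [e4, e2, e3, e1]
    ring
  rw [Finset.sum_congr rfl fun d _ => h1 d, Finset.sum_add_distrib, ← Finset.mul_sum,
    ← Finset.mul_sum, ps_sum, ps_sum, ps_one hN]
  ring

/-- `K L e^{-3 ε₀ L} ≤ ε` eventually. -/
theorem kd_small (K : ℝ) {c ε : ℝ} (hc : 0 < c) (hε : 0 < ε) :
    ∃ L₀ : ℝ, 1 ≤ L₀ ∧ ∀ L, L₀ ≤ L → K * (L * Real.exp (-(c * L))) ≤ ε := by
  have h1 : Tendsto (fun L : ℝ => L * Real.exp (-(c * L))) atTop (𝓝 0) := by
    have h := (Real.tendsto_pow_mul_exp_neg_atTop_nhds_zero 1).comp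
      (tendsto_id.const_mul_atTop hc)
    have h2 := h.const_mul c⁻¹
    rw [mul_zero] at h2
    refine h2.congr fun L => ?_
    simp only [Function.comp, id, pow_one]
    field_simp
  have h2 := h1.const_mul K
  rw [mul_zero] at h2
  obtain ⟨L₀, hL₀⟩ := (h2.eventually (ge_mem_nhds hε)).exists_forall_of_atTop
  exact ⟨max L₀ 1, le_max_right _ _, fun L hL => hL₀ L ((le_max_left _ _).trans hL)⟩

theorem kd_c_norm (hN : Good N) {b θ R L ε₁ C : ℝ} {Q m n : Finset P}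
    (hL : 0 < L) (hθ1 : θ ≤ 1) (hε₁ : 0 < ε₁) (hC : 1 ≤ C)
    (h : ∀ m : Finset P, |am N b θ R L Q m| ≤ C * Real.exp (ε₁ * lg N m))
    (hm : m ∈ SF N Q (θ * L)) (hn : n ∈ SF N Q (θ * L)) {α β : ℂ} (hα : ‖α‖ ≤ 1 / 2)
    (hβ : ‖β‖ ≤ 1 / 2) :
    ‖kd_c N b θ R L Q α β m n‖ ≤ C ^ 2 * Real.exp 1 * Real.exp (2 * ε₁ * L) := by
  have hm' := ((mem_SF hN).1 hm).2
  have hn' := ((mem_SF hN).1 hn).2
  have hm0 := lg_nonneg hN m
  have hn0 := lg_nonneg hN n
  have hθL : θ * L ≤ L := by nlinarith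
  unfold kd_c
  rw [norm_mul, norm_mul, Complex.norm_real, Complex.norm_real, Real.norm_eq_abs,
    Real.norm_eq_abs, Complex.norm_exp]
  have h1 : ((α * lg N m + β * lg N n) / L).re ≤ 1 := by
    calc ((α * lg N m + β * lg N n) / L).re ≤ ‖(α * lg N m + β * lg N n) / L‖ :=
          Complex.re_le_norm _
      _ = ‖α * lg N m + β * lg N n‖ / L := by
          rw [norm_div, Complex.norm_real, Real.norm_eq_abs, abs_of_pos hL]
      _ ≤ (‖α‖ * lg N m + ‖β‖ * lg N n) / L := by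
          refine div_le_div_of_nonneg_right ((norm_add_le _ _).trans ?_) hL.le
          rw [norm_mul, norm_mul, Complex.norm_real, Complex.norm_real, Real.norm_eq_abs,
            Real.norm_eq_abs, abs_of_nonneg hm0, abs_of_nonneg hn0]
      _ ≤ (1 / 2 * L + 1 / 2 * L) / L := by
          refine div_le_div_of_nonneg_right ?_ hL.le
          have := mul_le_mul hα (hm'.trans hθL) hm0 (by norm_num)
          have := mul_le_mul hβ (hn'.trans hθL) hn0 (by norm_num)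
          linarith
      _ = 1 := by field_simp; norm_num
  have h2 : ∀ m' : Finset P, m' ∈ SF N Q (θ * L) → |am N b θ R L Q m'| ≤
      C * Real.exp (ε₁ * L) := by
    intro m' hm'
    refine (h m').trans (mul_le_mul_of_nonneg_left (Real.exp_le_exp.2 ?_) (by linarith))
    exact mul_le_mul_of_nonneg_left (((mem_SF hN).1 hm').2.trans hθL) hε₁.le
  calc |am N b θ R L Q m| * |am N b θ R L Q n| * Real.exp ((α * lg N m + β * lg N n) / L).re
      ≤ (C * Real.exp (ε₁ * L)) * (C * Real.exp (ε₁ * L)) * Real.exp 1 := by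
        refine mul_le_mul (mul_le_mul (h2 m hm) (h2 n hn) (abs_nonneg _) (by positivity))
          (Real.exp_le_exp.2 h1) (Real.exp_nonneg _) (by positivity)
    _ = C ^ 2 * Real.exp 1 * (Real.exp (ε₁ * L) * Real.exp (ε₁ * L)) := by ring
    _ = C ^ 2 * Real.exp 1 * Real.exp (2 * ε₁ * L) := by
        rw [← Real.exp_add]; ring_nf

/-- Bounds for `x`. -/
theorem kd_x {R L : ℝ} (hR : 1 ≤ R) (hL : 0 < L) {α β : ℂ} (hα : ‖α‖ ≤ 1 / 2)
    (hβ : ‖β‖ ≤ 1 / 2) :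
    1 / L ≤ ‖(2 * R - α - β) / (L : ℂ)‖ ∧ ‖(2 * R - α - β) / (L : ℂ)‖ ≤ (2 * R + 1) / L := by
  have hn : ‖(2 * R - α - β) / (L : ℂ)‖ = ‖2 * (R : ℂ) - α - β‖ / L := by
    rw [norm_div, Complex.norm_real, Real.norm_eq_abs, abs_of_pos hL]
  have h2R : ‖2 * (R : ℂ)‖ = 2 * R := by
    rw [norm_mul, Complex.norm_real, Real.norm_eq_abs, abs_of_pos (by linarith)]
    norm_num
  rw [hn]
  constructor
  · refine div_le_div_of_nonneg_right ?_ hL.le
    have h1 := norm_sub_norm_le (2 * (R : ℂ)) (α + β)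
    have h2 := norm_add_le α β
    rw [sub_sub]
    linarith
  · refine div_le_div_of_nonneg_right ?_ hL.le
    have h1 := norm_sub_le (2 * (R : ℂ)) (α + β)
    have h2 := norm_add_le α β
    rw [sub_sub]
    linarith

/-- The error of a triple sum. -/
theorem kd_err {ι : Type} (S : Finset ι) (D : Finset (Finset P)) (c : ι → ι → ℂ)
    (A B : ι → ι → Finset P → ℂ) (K E : ℝ) (hK : 0 ≤ K)
    (hc : ∀ m ∈ S, ∀ n ∈ S, ‖c m n‖ ≤ K)
    (hAB : ∀ m ∈ S, ∀ n ∈ S, ∀ d ∈ D, ‖A m n d - B m n d‖ ≤ E) :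
    ‖∑ m ∈ S, ∑ n ∈ S, ∑ d ∈ D, (c m n * (-1) ^ d.card) * A m n d -
      ∑ m ∈ S, ∑ n ∈ S, c m n * ∑ d ∈ D, (-1) ^ d.card * B m n d‖ ≤
      (S.card : ℝ) ^ 2 * D.card * (K * E) := by
  have h1 : ∑ m ∈ S, ∑ n ∈ S, ∑ d ∈ D, (c m n * (-1) ^ d.card) * A m n d -
      ∑ m ∈ S, ∑ n ∈ S, c m n * ∑ d ∈ D, (-1) ^ d.card * B m n d =
      ∑ m ∈ S, ∑ n ∈ S, ∑ d ∈ D, (c m n * (-1) ^ d.card) * (A m n d - B m n d) := by
    rw [← Finset.sum_sub_distrib]
    refine Finset.sum_congr rfl fun m _ => ?_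
    rw [← Finset.sum_sub_distrib]
    refine Finset.sum_congr rfl fun n _ => ?_
    rw [Finset.mul_sum, ← Finset.sum_sub_distrib]
    refine Finset.sum_congr rfl fun d _ => ?_
    ring
  rw [h1]
  calc ‖∑ m ∈ S, ∑ n ∈ S, ∑ d ∈ D, (c m n * (-1) ^ d.card) * (A m n d - B m n d)‖
      ≤ ∑ m ∈ S, ∑ n ∈ S, ∑ d ∈ D, K * E := by
        refine (norm_sum_le _ _).trans (Finset.sum_le_sum fun m hm => ?_)
        refine (norm_sum_le _ _).trans (Finset.sum_le_sum fun n hn => ?_)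
        refine (norm_sum_le _ _).trans (Finset.sum_le_sum fun d hd => ?_)
        rw [norm_mul, norm_mul, norm_pow, norm_neg, norm_one, one_pow, mul_one]
        exact mul_le_mul (hc m hm n hn) (hAB m hm n hn d hd) (norm_nonneg _) hK
    _ = (S.card : ℝ) ^ 2 * D.card * (K * E) := by
        simp only [Finset.sum_const, nsmul_eq_mul]
        ring

theorem dir_asymp_pr [DecidableEq P] (hN : Good N) {ρ : ℝ} (hC : Cnt N ρ) {k : ℝ → ℝ} {ρ₂ : ℝ}
    (hk : Kern N k ρ₂) {b θ R ε₀ ε : ℝ} (hb : |b| ≤ 1 / 2) (hθ : 0 < θ) (hθ1 : θ ≤ 1)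
    (hR : 1 ≤ R) (hε₀ : 0 < ε₀) (hε : 0 < ε) :
    ∃ L₀ : ℝ, 1 ≤ L₀ ∧ ∀ L, L₀ ≤ L → ∀ Q : Finset P, lg N Q ≤ L → ∀ U : ℝ,
      (2 * θ + 6 * ε₀) * L ≤ U → U ≤ L → ∀ α β : ℂ, ‖α‖ ≤ 1 / 2 → ‖β‖ ≤ 1 / 2 →
      ∀ X x : ℂ, X = 2 * R - α - β → x = X / L →
      ‖(∫ u in Ioi (-U), dirF N k b θ R L Q (fun y => Complex.exp (α * y))
          (fun y => Complex.exp (β * y)) u) -
        (ρ₂ / x * ((ph N Q : ℝ) * Complex.exp (x * U) * Ms N b θ L Q (R - α) (R - β) 0 -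
          ps N Q (1 - x) * Ms N b θ L Q (β - R) (α - R) (-X)) +
          Jk N k ρ₂ (1 - x) * ps N Q (1 - x) * Ms N b θ L Q (β - R) (α - R) (-X))‖ ≤ ε := by
  obtain ⟨C, L₁, hC0, hL₁, hint⟩ := dir_int hN hk (C₀ := 2 * R + 1) (by linarith)
  obtain ⟨C₁, hC₁, hSF⟩ := card_SF hN hC
  obtain ⟨C₂, hC₂, ham⟩ := am_abs hN hε₀
  obtain ⟨C₃, hC₃, h2p⟩ := two_pow hN hε₀
  obtain ⟨L₂, hL₂, hsm⟩ := kd_small (C₁ ^ 2 * C₃ * (C₂ ^ 2 * Real.exp 1) * C)
    (c := 3 * ε₀) (by linarith) hε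
  refine ⟨max L₁ L₂, le_max_of_le_left hL₁, ?_⟩
  intro L hL Q hQ U hU hUL α β hα hβ X x hX hx
  have hLL₁ : L₁ ≤ L := (le_max_left _ _).trans hL
  have hLL₂ : L₂ ≤ L := (le_max_right _ _).trans hL
  have hL1 : 1 ≤ L := hL₁.trans hLL₁
  have hL0 : 0 < L := by linarith
  have hU0 : 0 ≤ U := le_trans (by positivity) hU
  have hθL : θ * L ≤ L := by nlinarith
  have hx' : x = (2 * R - α - β) / L := by rw [hx, hX]
  obtain ⟨hx1, hx2⟩ := kd_x hR hL0 hα hβ
  rw [← hx'] at hx1 hx2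
  have hδ : ∀ m ∈ SF N Q (θ * L), ∀ n ∈ SF N Q (θ * L), ∀ d ∈ Q.powerset,
      0 ≤ lg N (m ∪ n) + lg N d ∧ lg N (m ∪ n) + lg N d ≤ 4 * L := by
    intro m hm n hn d hd
    have hm' := ((mem_SF hN).1 hm).2
    have hn' := ((mem_SF hN).1 hn).2
    have hd' := lg_mono hN (Finset.mem_powerset.1 hd)
    have h1 := lg_inter_union (N := N) m n
    have h2 := lg_nonneg hN (m ∩ n)
    exact ⟨add_nonneg (lg_nonneg hN _) (lg_nonneg hN _), by linarith⟩
  have hI : ∀ m ∈ SF N Q (θ * L), ∀ n ∈ SF N Q (θ * L), ∀ d ∈ Q.powerset, _ :=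
    fun m hm n hn d hd => hint L hLL₁ x U (lg N (m ∪ n) + lg N d) hx1 hx2 hU0 hUL
      (hδ m hm n hn d hd).1 (hδ m hm n hn d hd).2
  have e1 : (∫ u in Ioi (-U), dirF N k b θ R L Q (fun y => Complex.exp (α * y))
      (fun y => Complex.exp (β * y)) u) =
      ∑ m ∈ SF N Q (θ * L), ∑ n ∈ SF N Q (θ * L), ∑ d ∈ Q.powerset,
        (kd_c N b θ R L Q α β m n * (-1) ^ d.card) *
          ∫ u in Ioi (-U), (Complex.exp ((1 - x) * u) *
            (W1 N k (u + (lg N (m ∪ n) + lg N d)) : ℝ)) := by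
    rw [setIntegral_congr_fun measurableSet_Ioi
      (fun u _ => kd_dirF hN hk b θ R L hL0 Q α β x hx' u)]
    rw [integral_finsetSum _ fun m hm => integrable_finsetSum _ fun n hn =>
      integrable_finsetSum _ fun d hd => (hI m hm n hn d hd).1.const_mul _]
    refine Finset.sum_congr rfl fun m hm => ?_
    rw [integral_finsetSum _ fun n hn =>
      integrable_finsetSum _ fun d hd => (hI m hm n hn d hd).1.const_mul _]
    refine Finset.sum_congr rfl fun n hn => ?_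
    rw [integral_finsetSum _ fun d hd => (hI m hm n hn d hd).1.const_mul _]
    refine Finset.sum_congr rfl fun d hd => ?_
    rw [integral_const_mul]
  have e2 : (ρ₂ / x * ((ph N Q : ℝ) * Complex.exp (x * U) * Ms N b θ L Q (R - α) (R - β) 0 -
          ps N Q (1 - x) * Ms N b θ L Q (β - R) (α - R) (-X)) +
          Jk N k ρ₂ (1 - x) * ps N Q (1 - x) * Ms N b θ L Q (β - R) (α - R) (-X)) =
      ∑ m ∈ SF N Q (θ * L), ∑ n ∈ SF N Q (θ * L), kd_c N b θ R L Q α β m n *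
        ∑ d ∈ Q.powerset, (-1) ^ d.card *
        (ρ₂ * Complex.exp (-((lg N (m ∪ n) + lg N d : ℝ) : ℂ)) *
        (Complex.exp (x * U) - Complex.exp (x * ((lg N (m ∪ n) + lg N d : ℝ) : ℂ))) / x +
        Complex.exp (-((1 - x) * ((lg N (m ∪ n) + lg N d : ℝ) : ℂ))) * Jk N k ρ₂ (1 - x)) := by
    rw [← kd_Ms1 b θ R L hL0 Q α β, ← kd_Ms2 b θ R L hL0 Q α β X x hX hx]
    have h1 : ∀ m n : Finset P, kd_c N b θ R L Q α β m n *
        ∑ d ∈ Q.powerset, (-1) ^ d.card *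
        (ρ₂ * Complex.exp (-((lg N (m ∪ n) + lg N d : ℝ) : ℂ)) *
        (Complex.exp (x * U) - Complex.exp (x * ((lg N (m ∪ n) + lg N d : ℝ) : ℂ))) / x +
        Complex.exp (-((1 - x) * ((lg N (m ∪ n) + lg N d : ℝ) : ℂ))) * Jk N k ρ₂ (1 - x)) =
        (ρ₂ / x * (ph N Q : ℝ) * Complex.exp (x * U)) *
          (kd_c N b θ R L Q α β m n * Complex.exp (-(lg N (m ∪ n) : ℂ))) +
        ((Jk N k ρ₂ (1 - x) - ρ₂ / x) * ps N Q (1 - x)) *
          (kd_c N b θ R L Q α β m n * Complex.exp (-((1 - x) * lg N (m ∪ n)))) := by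
      intro m n
      rw [kd_main_d hN]
      ring
    rw [Finset.sum_congr rfl fun m _ => Finset.sum_congr rfl fun n _ => h1 m n]
    simp only [Finset.sum_add_distrib, ← Finset.mul_sum]
    ring
  rw [e1, e2]
  have hkey := kd_err (SF N Q (θ * L)) Q.powerset (kd_c N b θ R L Q α β)
    (fun m n d => ∫ u in Ioi (-U), (Complex.exp ((1 - x) * u) *
            (W1 N k (u + (lg N (m ∪ n) + lg N d)) : ℝ)))
    (fun m n d => ρ₂ * Complex.exp (-((lg N (m ∪ n) + lg N d : ℝ) : ℂ)) *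
        (Complex.exp (x * U) - Complex.exp (x * ((lg N (m ∪ n) + lg N d : ℝ) : ℂ))) / x +
        Complex.exp (-((1 - x) * ((lg N (m ∪ n) + lg N d : ℝ) : ℂ))) * Jk N k ρ₂ (1 - x))
    (C₂ ^ 2 * Real.exp 1 * Real.exp (2 * ε₀ * L)) (C * L * Real.exp (-U)) (by positivity)
    (fun m hm n hn => kd_c_norm hN hL0 hθ1 hε₀ hC₂
      (fun m => ham b θ R L Q m hb hθ (by linarith) hL0) hm hn hα hβ)
    (fun m hm n hn d hd => by
      have h := (hI m hm n hn d hd).2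
      rw [sub_sub] at h
      exact h)
  refine hkey.trans (le_trans ?_ (hsm L hLL₂))
  rw [Finset.card_powerset]
  push_cast
  have hθL0 : 0 ≤ θ * L := by positivity
  have hc1 : ((SF N Q (θ * L)).card : ℝ) ^ 2 ≤ (C₁ * Real.exp (θ * L)) ^ 2 :=
    pow_le_pow_left₀ (Nat.cast_nonneg _) (hSF Q (θ * L) hθL0) 2
  have hc2 : (2 : ℝ) ^ Q.card ≤ C₃ * Real.exp (ε₀ * L) :=
    (h2p Q).trans (mul_le_mul_of_nonneg_left (Real.exp_le_exp.2
      (mul_le_mul_of_nonneg_left hQ hε₀.le)) (by linarith))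
  have hc3 : Real.exp (-U) ≤ Real.exp (-((2 * θ + 6 * ε₀) * L)) :=
    Real.exp_le_exp.2 (by linarith)
  calc ((SF N Q (θ * L)).card : ℝ) ^ 2 * (2 : ℝ) ^ Q.card *
      (C₂ ^ 2 * Real.exp 1 * Real.exp (2 * ε₀ * L) * (C * L * Real.exp (-U)))
      ≤ (C₁ * Real.exp (θ * L)) ^ 2 * (C₃ * Real.exp (ε₀ * L)) *
      (C₂ ^ 2 * Real.exp 1 * Real.exp (2 * ε₀ * L) *
        (C * L * Real.exp (-((2 * θ + 6 * ε₀) * L)))) := by
        gcongr
    _ = C₁ ^ 2 * C₃ * (C₂ ^ 2 * Real.exp 1) * C * (L * (Real.exp (θ * L) * Real.exp (θ * L) *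
        Real.exp (ε₀ * L) * Real.exp (2 * ε₀ * L) *
        Real.exp (-((2 * θ + 6 * ε₀) * L)))) := by ring
    _ = C₁ ^ 2 * C₃ * (C₂ ^ 2 * Real.exp 1) * C * (L * Real.exp (-(3 * ε₀ * L))) := by
        rw [← Real.exp_add, ← Real.exp_add, ← Real.exp_add, ← Real.exp_add]
        congr 3
        ring

alias dir_asymp := dir_asymp_pr

end Pool.Agent.LVA
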