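import Pool.Agent.Lib_helper92.LVA.Defs
import Pool.Agent.Lib_helper92.ASA.All
import Pool.Agent.Lib_helper92.LVAF.BA
import Pool.Agent.Lib_helper92.LVAF.BB
import Pool.Agent.Lib_helper92.LVAF.GU
import Pool.Agent.Lib_helper92.LVAF.KB2
import Pool.Agent.Lib_helper92.LVAF.KC

/-!
# Project LVK, part A, block KE: the dual diagonal
-/

namespace Pool.Agent.LVA

open Complex MeasureTheory Filter Topology Set Pool.Agent.AS

variable {P : Type} {N : P → ℕ}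

/-- The coefficient of the pair `(m, n)`. -/
noncomputable def ke_c (N : P → ℕ) (b θ R L ℓ : ℝ) (Q : Finset P) (α β : ℂ) (m n : Finset P) : ℂ :=
  (am N b θ R L Q m : ℂ) * (am N b θ R L Q n : ℂ) *
    Complex.exp (-(ℓ + lg N m + lg N n) + (α * lg N m + β * lg N n) / L)

theorem ke_dualF [DecidableEq P] (hN : Good N) {k : ℝ → ℝ} {ρ₂ : ℝ} (hk : Kern N k ρ₂)
    (b θ R L ℓ : ℝ) (hL : 0 < L) (Q : Finset P) (α β x : ℂ) (hx : x = (2 * R - α - β) / L)
    (u : ℝ) :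
    dualF N k b θ R L ℓ Q (fun y => Complex.exp (α * y)) (fun y => Complex.exp (β * y)) u =
      ∑ m ∈ SF N Q (θ * L), ∑ n ∈ SF N Q (θ * L), ∑ d ∈ Q.powerset,
        (ke_c N b θ R L ℓ Q α β m n * (-1) ^ d.card) *
          (Complex.exp ((-1 - x) * u) * (W1 N k (-u - (ℓ + lg N (m ∩ n) - lg N d)) : ℝ)) := by
  unfold dualF
  have hL' : (L : ℂ) ≠ 0 := by exact_mod_cast hL.ne'
  rw [Finset.mul_sum]
  refine Finset.sum_congr rfl fun m _ => ?_
  rw [Finset.mul_sum]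
  refine Finset.sum_congr rfl fun n _ => ?_
  rw [WW_exp hN hk Q]
  push_cast
  rw [Finset.mul_sum, Finset.mul_sum]
  refine Finset.sum_congr rfl fun d _ => ?_
  unfold ke_c
  have h1 : Complex.exp (-ℓ + (-1 - 2 * R / L) * u) * (Complex.exp (-((lg N m : ℂ) + lg N n)) *
      (Complex.exp (α * ((u + lg N m) / L)) *
      Complex.exp (β * ((u + lg N n) / L)))) =
      Complex.exp (-(ℓ + lg N m + lg N n) + (α * lg N m + β * lg N n) / L) *
        Complex.exp ((-1 - x) * u) := by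
    rw [← Complex.exp_add, ← Complex.exp_add, ← Complex.exp_add, ← Complex.exp_add, hx]
    congr 1
    field_simp
    ring
  have h2 : -u - (ℓ + lg N (m ∩ n) - lg N d) = -u - ℓ - lg N (m ∩ n) + lg N d := by ring
  rw [h2]
  linear_combination ((am N b θ R L Q m : ℂ) * (am N b θ R L Q n : ℂ) * ((-1) ^ d.card *
    (W1 N k (-u - ℓ - lg N (m ∩ n) + lg N d) : ℂ))) * h1

/-- The two main sums. -/
theorem ke_Ms1 [DecidableEq P] (b θ R L ℓ : ℝ) (hL : 0 < L) (Q : Finset P) (α β : ℂ) :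
    ∑ m ∈ SF N Q (θ * L), ∑ n ∈ SF N Q (θ * L),
      ke_c N b θ R L ℓ Q α β m n * Complex.exp ((ℓ + lg N (m ∩ n) : ℝ) : ℂ) =
      Ms N b θ L Q (R - α) (R - β) 0 := by
  unfold Ms
  have hL' : (L : ℂ) ≠ 0 := by exact_mod_cast hL.ne'
  refine Finset.sum_congr rfl fun m _ => Finset.sum_congr rfl fun n _ => ?_
  unfold ke_c am
  push_cast
  have h1 : Complex.exp (-(R / L) * lg N m) * Complex.exp (-(R / L) * lg N n) *
      Complex.exp (-(ℓ + lg N m + lg N n) + (α * lg N m + β * lg N n) / L) *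
      Complex.exp ((ℓ : ℂ) + lg N (m ∩ n)) =
      Complex.exp (-((1 + (R - α) / L) * lg N m)) * Complex.exp (-((1 + (R - β) / L) * lg N n)) *
      Complex.exp ((1 + 0 / L) * lg N (m ∩ n)) := by
    rw [← Complex.exp_add, ← Complex.exp_add, ← Complex.exp_add, ← Complex.exp_add,
      ← Complex.exp_add]
    congr 1
    field_simp
    ring
  linear_combination ((lam N b (θ * L) Q m : ℂ) * (lam N b (θ * L) Q n : ℂ)) * h1

theorem ke_Ms2 [DecidableEq P] (b θ R L ℓ : ℝ) (hL : 0 < L) (Q : Finset P) (α β X x : ℂ)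
    (hx : x = X / L) :
    ∑ m ∈ SF N Q (θ * L), ∑ n ∈ SF N Q (θ * L),
      ke_c N b θ R L ℓ Q α β m n * Complex.exp ((1 + x) * ((ℓ + lg N (m ∩ n) : ℝ) : ℂ)) =
      Complex.exp (x * ℓ) * Ms N b θ L Q (R - α) (R - β) X := by
  unfold Ms
  have hL' : (L : ℂ) ≠ 0 := by exact_mod_cast hL.ne'
  rw [Finset.mul_sum]
  refine Finset.sum_congr rfl fun m _ => ?_
  rw [Finset.mul_sum]
  refine Finset.sum_congr rfl fun n _ => ?_
  unfold ke_c am
  push_cast
  have h1 : Complex.exp (-(R / L) * lg N m) * Complex.exp (-(R / L) * lg N n) *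
      Complex.exp (-(ℓ + lg N m + lg N n) + (α * lg N m + β * lg N n) / L) *
      Complex.exp ((1 + x) * ((ℓ : ℂ) + lg N (m ∩ n))) =
      Complex.exp (x * ℓ) * (Complex.exp (-((1 + (R - α) / L) * lg N m)) *
        Complex.exp (-((1 + (R - β) / L) * lg N n)) *
      Complex.exp ((1 + X / L) * lg N (m ∩ n))) := by
    rw [← Complex.exp_add, ← Complex.exp_add, ← Complex.exp_add, ← Complex.exp_add,
      ← Complex.exp_add, ← Complex.exp_add]
    congr 1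
    rw [hx]
    field_simp
    ring
  linear_combination ((lam N b (θ * L) Q m : ℂ) * (lam N b (θ * L) Q n : ℂ)) * h1

/-- The main term of one integral, summed over `d`. -/
theorem ke_main_d (hN : Good N) (Q : Finset P) (v : ℝ) (ρ₂ x J E : ℂ) :
    ∑ d ∈ Q.powerset, (-1) ^ d.card *
      (ρ₂ * Complex.exp ((v - lg N d : ℝ) : ℂ) *
        (Complex.exp (x * ((v - lg N d : ℝ) : ℂ)) - E) / x +
        Complex.exp ((1 + x) * ((v - lg N d : ℝ) : ℂ)) * J) =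
      (ρ₂ / x + J) * ps N Q (1 + x) * Complex.exp ((1 + x) * v) -
        ρ₂ / x * (ph N Q : ℝ) * E * Complex.exp (v : ℂ) := by
  have h1 : ∀ d : Finset P, (-1 : ℂ) ^ d.card *
      (ρ₂ * Complex.exp ((v - lg N d : ℝ) : ℂ) *
        (Complex.exp (x * ((v - lg N d : ℝ) : ℂ)) - E) / x +
        Complex.exp ((1 + x) * ((v - lg N d : ℝ) : ℂ)) * J) =
      ((J + ρ₂ / x) * Complex.exp ((1 + x) * v)) *
        ((-1) ^ d.card * Complex.exp (-((1 + x) * lg N d))) -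
      (ρ₂ / x * E * Complex.exp (v : ℂ)) * ((-1) ^ d.card * Complex.exp (-(1 * lg N d))) := by
    intro d
    have e1 : Complex.exp ((v - lg N d : ℝ) : ℂ) =
        Complex.exp (v : ℂ) * Complex.exp (-(1 * (lg N d : ℂ))) := by
      rw [← Complex.exp_add]; congr 1; push_cast; ring
    have e2 : Complex.exp ((v - lg N d : ℝ) : ℂ) * Complex.exp (x * ((v - lg N d : ℝ) : ℂ)) =
        Complex.exp ((1 + x) * v) * Complex.exp (-((1 + x) * lg N d)) := by
      rw [← Complex.exp_add, ← Complex.exp_add]; congr 1; push_cast; ring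
    have e3 : Complex.exp ((1 + x) * ((v - lg N d : ℝ) : ℂ)) =
        Complex.exp ((1 + x) * v) * Complex.exp (-((1 + x) * lg N d)) := by
      rw [← Complex.exp_add]; congr 1; push_cast; ring
    have e4 : ρ₂ * Complex.exp ((v - lg N d : ℝ) : ℂ) *
        (Complex.exp (x * ((v - lg N d : ℝ) : ℂ)) - E) / x =
        ρ₂ / x * (Complex.exp ((v - lg N d : ℝ) : ℂ) * Complex.exp (x * ((v - lg N d : ℝ) : ℂ)) -
          E * Complex.exp ((v - lg N d : ℝ) : ℂ)) := by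
      ring
    rw [e4, e2, e3, e1]
    ring
  rw [Finset.sum_congr rfl fun d _ => h1 d, Finset.sum_sub_distrib, ← Finset.mul_sum,
    ← Finset.mul_sum, ps_sum, ps_sum, ps_one hN]
  ring

/-- `K L³ e^{-c L} ≤ ε` eventually. -/
theorem ke_small (K : ℝ) {c ε : ℝ} (hc : 0 < c) (hε : 0 < ε) :
    ∃ L₀ : ℝ, 1 ≤ L₀ ∧ ∀ L, L₀ ≤ L → K * (L ^ 3 * Real.exp (-(c * L))) ≤ ε := by
  have h1 : Tendsto (fun L : ℝ => L ^ 3 * Real.exp (-(c * L))) atTop (𝓝 0) := by
    have h := (Real.tendsto_pow_mul_exp_neg_atTop_nhds_zero 3).comp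
      (tendsto_id.const_mul_atTop hc)
    have h2 := h.const_mul (c ^ 3)⁻¹
    rw [mul_zero] at h2
    refine h2.congr fun L => ?_
    simp only [Function.comp, id]
    field_simp
  have h2 := h1.const_mul K
  rw [mul_zero] at h2
  obtain ⟨L₀, hL₀⟩ := (h2.eventually (ge_mem_nhds hε)).exists_forall_of_atTop
  exact ⟨max L₀ 1, le_max_right _ _, fun L hL => hL₀ L ((le_max_left _ _).trans hL)⟩

/-- The mean of `e^{-lg m}`. -/
theorem ke_mean (hN : Good N) {ρ : ℝ} (hC : Cnt N ρ) : ∃ C : ℝ, 1 ≤ C ∧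
    ∀ (Q : Finset P) (θ L : ℝ), 0 < θ → θ ≤ 1 → 1 ≤ L →
      ∑ m ∈ SF N Q (θ * L), Real.exp (-lg N m) ≤ C * L := by
  obtain ⟨C, hC0, h⟩ := GG_zero hN hC (ε := 1) one_pos
  have hρ := hC.1
  refine ⟨ρ + 1 + C + 1, by linarith, ?_⟩
  intro Q θ L hθ hθ1 hL
  have hθL0 : 0 ≤ θ * L := by positivity
  have hθL : θ * L ≤ L := by nlinarith
  have h1 := h (θ * L) hθL0
  have h2 : GG N ∅ (θ * L) ≤ ρ * (θ * L) + (1 * (θ * L) + C) := by
    have := (abs_le.1 h1).2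
    linarith
  have h3 : ∑ m ∈ SF N Q (θ * L), Real.exp (-lg N m) ≤ GG N ∅ (θ * L) := by
    unfold GG
    calc ∑ m ∈ SF N Q (θ * L), Real.exp (-lg N m)
        ≤ ∑ m ∈ SF N Q (θ * L), (vf N m)⁻¹ := by
          refine Finset.sum_le_sum fun m _ => ?_
          rw [Real.exp_neg]
          have hv := one_le_vf hN m
          refine inv_anti₀ (by linarith) ?_
          rw [vf_eq hN m]
          have := ph_le_one hN m
          exact mul_le_of_le_one_right (Real.exp_nonneg _) this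
      _ ≤ ∑ m ∈ SF N ∅ (θ * L), (vf N m)⁻¹ := by
          refine Finset.sum_le_sum_of_subset_of_nonneg ?_ ?_
          · intro m hm
            rw [mem_SF hN] at hm ⊢
            exact ⟨Finset.disjoint_empty_right _, hm.2⟩
          · intro m _ _
            have hv := one_le_vf hN m
            exact inv_nonneg.2 (by linarith)
  nlinarith

/-- The norm of the coefficient. -/
theorem ke_c_norm (hN : Good N) {b θ R L ℓ ε₁ C : ℝ} {Q m n : Finset P}
    (hL : 0 < L) (hθ1 : θ ≤ 1) (hε₁ : 0 < ε₁) (hC : 1 ≤ C)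
    (h : ∀ m : Finset P, |am N b θ R L Q m| ≤ C * Real.exp (ε₁ * lg N m))
    (hm : m ∈ SF N Q (θ * L)) (hn : n ∈ SF N Q (θ * L)) {α β : ℂ} (hα : ‖α‖ ≤ 1 / 2)
    (hβ : ‖β‖ ≤ 1 / 2) :
    ‖ke_c N b θ R L ℓ Q α β m n‖ ≤ (C ^ 2 * Real.exp 1 * Real.exp (2 * ε₁ * L) * Real.exp (-ℓ)) *
      (Real.exp (-lg N m) * Real.exp (-lg N n)) := by
  have hm' := ((mem_SF hN).1 hm).2
  have hn' := ((mem_SF hN).1 hn).2
  have hm0 := lg_nonneg hN m
  have hn0 := lg_nonneg hN n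
  have hθL : θ * L ≤ L := by nlinarith
  unfold ke_c
  rw [norm_mul, norm_mul, Complex.norm_real, Complex.norm_real, Real.norm_eq_abs,
    Real.norm_eq_abs, Complex.norm_exp]
  have h1 : ((α * lg N m + β * lg N n) / L).re ≤ 1 := by
    calc ((α * lg N m + β * lg N n) / L).re ≤ ‖(α * lg N m + β * lg N n) / L‖ :=
          Complex.re_le_norm _
      _ = ‖α * lg N m + β * lg N n‖ / L := by
          rw [norm_div, Complex.norm_real, Real.norm_eq_abs, abs_of_pos hL]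
      _ ≤ (‖α‖ * lg N m + ‖β‖ * lg N n) / L := by
          refine div_le_div_of_nonneg_right ((norm_add_le _ _).trans ?_) hL.le
          rw [norm_mul, norm_mul, Complex.norm_real, Complex.norm_real, Real.norm_eq_abs,
            Real.norm_eq_abs, abs_of_nonneg hm0, abs_of_nonneg hn0]
      _ ≤ (1 / 2 * L + 1 / 2 * L) / L := by
          refine div_le_div_of_nonneg_right ?_ hL.le
          have := mul_le_mul hα (hm'.trans hθL) hm0 (by norm_num)
          have := mul_le_mul hβ (hn'.trans hθL) hn0 (by norm_num)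
          linarith
      _ = 1 := by field_simp; norm_num
  have h3 : (-((ℓ : ℂ) + lg N m + lg N n) + (α * lg N m + β * lg N n) / L).re ≤
      1 - ℓ - lg N m - lg N n := by
    rw [Complex.add_re, Complex.neg_re, Complex.add_re, Complex.add_re, Complex.ofReal_re,
      Complex.ofReal_re, Complex.ofReal_re]
    linarith
  have h2 : ∀ m' : Finset P, m' ∈ SF N Q (θ * L) → |am N b θ R L Q m'| ≤
      C * Real.exp (ε₁ * L) := by
    intro m' hm'
    refine (h m').trans (mul_le_mul_of_nonneg_left (Real.exp_le_exp.2 ?_) (by linarith))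
    exact mul_le_mul_of_nonneg_left (((mem_SF hN).1 hm').2.trans hθL) hε₁.le
  calc |am N b θ R L Q m| * |am N b θ R L Q n| *
        Real.exp (-((ℓ : ℂ) + lg N m + lg N n) + (α * lg N m + β * lg N n) / L).re
      ≤ (C * Real.exp (ε₁ * L)) * (C * Real.exp (ε₁ * L)) *
        Real.exp (1 - ℓ - lg N m - lg N n) := by
        refine mul_le_mul (mul_le_mul (h2 m hm) (h2 n hn) (abs_nonneg _) (by positivity))
          (Real.exp_le_exp.2 h3) (Real.exp_nonneg _) (by positivity)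
    _ = (C ^ 2 * Real.exp 1 * Real.exp (2 * ε₁ * L) * Real.exp (-ℓ)) *
      (Real.exp (-lg N m) * Real.exp (-lg N n)) := by
        have e1 : Real.exp (2 * ε₁ * L) = Real.exp (ε₁ * L) * Real.exp (ε₁ * L) := by
          rw [← Real.exp_add]; ring_nf
        have e2 : Real.exp (1 - ℓ - lg N m - lg N n) = Real.exp 1 * Real.exp (-ℓ) *
            (Real.exp (-lg N m) * Real.exp (-lg N n)) := by
          rw [← Real.exp_add, ← Real.exp_add, ← Real.exp_add]; ring_nf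
        rw [e1, e2]
        ring

/-- Bounds for `x`. -/
theorem ke_x {R L : ℝ} (hR : 1 ≤ R) (hL : 0 < L) {α β : ℂ} (hα : ‖α‖ ≤ 1 / 2)
    (hβ : ‖β‖ ≤ 1 / 2) :
    1 / L ≤ ‖(2 * R - α - β) / (L : ℂ)‖ ∧ ‖(2 * R - α - β) / (L : ℂ)‖ ≤ (2 * R + 1) / L := by
  have hn : ‖(2 * R - α - β) / (L : ℂ)‖ = ‖2 * (R : ℂ) - α - β‖ / L := by
    rw [norm_div, Complex.norm_real, Real.norm_eq_abs, abs_of_pos hL]
  have h2R : ‖2 * (R : ℂ)‖ = 2 * R := by
    rw [norm_mul, Complex.norm_real, Real.norm_eq_abs, abs_of_pos (by linarith)]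
    norm_num
  rw [hn]
  constructor
  · refine div_le_div_of_nonneg_right ?_ hL.le
    have h1 := norm_sub_norm_le (2 * (R : ℂ)) (α + β)
    have h2 := norm_add_le α β
    rw [sub_sub]
    linarith
  · refine div_le_div_of_nonneg_right ?_ hL.le
    have h1 := norm_sub_le (2 * (R : ℂ)) (α + β)
    have h2 := norm_add_le α β
    rw [sub_sub]
    linarith

/-- The error of a triple sum. -/
theorem ke_err {ι : Type} (S : Finset ι) (D : Finset (Finset P)) (c : ι → ι → ℂ)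
    (A B : ι → ι → Finset P → ℂ) (w : ι → ℝ) (K E M : ℝ) (hK : 0 ≤ K) (hw : ∀ i ∈ S, 0 ≤ w i)
    (hE : 0 ≤ E) (hM : ∑ i ∈ S, w i ≤ M)
    (hc : ∀ m ∈ S, ∀ n ∈ S, ‖c m n‖ ≤ K * (w m * w n))
    (hAB : ∀ m ∈ S, ∀ n ∈ S, ∀ d ∈ D, ‖A m n d - B m n d‖ ≤ E) :
    ‖∑ m ∈ S, ∑ n ∈ S, ∑ d ∈ D, (c m n * (-1) ^ d.card) * A m n d -
      ∑ m ∈ S, ∑ n ∈ S, c m n * ∑ d ∈ D, (-1) ^ d.card * B m n d‖ ≤
      M ^ 2 * D.card * (K * E) := by
  have h1 : ∑ m ∈ S, ∑ n ∈ S, ∑ d ∈ D, (c m n * (-1) ^ d.card) * A m n d -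
      ∑ m ∈ S, ∑ n ∈ S, c m n * ∑ d ∈ D, (-1) ^ d.card * B m n d =
      ∑ m ∈ S, ∑ n ∈ S, ∑ d ∈ D, (c m n * (-1) ^ d.card) * (A m n d - B m n d) := by
    rw [← Finset.sum_sub_distrib]
    refine Finset.sum_congr rfl fun m _ => ?_
    rw [← Finset.sum_sub_distrib]
    refine Finset.sum_congr rfl fun n _ => ?_
    rw [Finset.mul_sum, ← Finset.sum_sub_distrib]
    refine Finset.sum_congr rfl fun d _ => ?_
    ring
  rw [h1]
  have hS0 : 0 ≤ ∑ i ∈ S, w i := Finset.sum_nonneg hw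
  calc ‖∑ m ∈ S, ∑ n ∈ S, ∑ d ∈ D, (c m n * (-1) ^ d.card) * (A m n d - B m n d)‖
      ≤ ∑ m ∈ S, ∑ n ∈ S, ∑ d ∈ D, K * (w m * w n) * E := by
        refine (norm_sum_le _ _).trans (Finset.sum_le_sum fun m hm => ?_)
        refine (norm_sum_le _ _).trans (Finset.sum_le_sum fun n hn => ?_)
        refine (norm_sum_le _ _).trans (Finset.sum_le_sum fun d hd => ?_)
        rw [norm_mul, norm_mul, norm_pow, norm_neg, norm_one, one_pow, mul_one]
        exact mul_le_mul (hc m hm n hn) (hAB m hm n hn d hd) (norm_nonneg _)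
          (mul_nonneg hK (mul_nonneg (hw m hm) (hw n hn)))
    _ = (∑ i ∈ S, w i) ^ 2 * D.card * (K * E) := by
        rw [sq, Finset.sum_mul_sum, Finset.sum_mul, Finset.sum_mul]
        refine Finset.sum_congr rfl fun m _ => ?_
        rw [Finset.sum_mul, Finset.sum_mul]
        refine Finset.sum_congr rfl fun n _ => ?_
        rw [Finset.sum_const, nsmul_eq_mul]
        ring
    _ ≤ M ^ 2 * D.card * (K * E) := by gcongr

theorem dual_asymp_pr [DecidableEq P] (hN : Good N) {ρ : ℝ} (hC : Cnt N ρ) {k : ℝ → ℝ} {ρ₂ : ℝ}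
    (hk : Kern N k ρ₂) {b θ R ε₀ δ₀ ε : ℝ} (hb : |b| ≤ 1 / 2) (hθ : 0 < θ) (hθ1 : θ ≤ 1)
    (hR : 1 ≤ R) (hε₀ : 0 < ε₀) (hδ₀ : 0 ≤ δ₀) (hε : 0 < ε) :
    ∃ L₀ : ℝ, 1 ≤ L₀ ∧ ∀ L, L₀ ≤ L → ∀ Q : Finset P, lg N Q ≤ L → ∀ ℓ : ℝ, |ℓ - L| ≤ δ₀ →
      ∀ U : ℝ, 0 ≤ U → U ≤ (1 - 6 * ε₀) * L → ∀ α β : ℂ, ‖α‖ ≤ 1 / 2 → ‖β‖ ≤ 1 / 2 →
      ∀ X x : ℂ, X = 2 * R - α - β → x = X / L →
      ‖(∫ u in Iio (-U), dualF N k b θ R L ℓ Q (fun y => Complex.exp (α * y))
          (fun y => Complex.exp (β * y)) u) -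
        (ρ₂ / x * (Complex.exp (x * ℓ) * ps N Q (1 + x) * Ms N b θ L Q (R - α) (R - β) X -
          (ph N Q : ℝ) * Complex.exp (x * U) * Ms N b θ L Q (R - α) (R - β) 0) +
          Jk N k ρ₂ (1 + x) * Complex.exp (x * ℓ) * ps N Q (1 + x) *
            Ms N b θ L Q (R - α) (R - β) X)‖ ≤ ε := by
  obtain ⟨C, L₁, hC0, hL₁, hint⟩ := dual_int hN hk (C₀ := 2 * R + 1) (by linarith)
  obtain ⟨C₁, hC₁, hSF⟩ := ke_mean hN hC
  obtain ⟨C₂, hC₂, ham⟩ := am_abs hN hε₀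
  obtain ⟨C₃, hC₃, h2p⟩ := two_pow hN hε₀
  obtain ⟨L₂, hL₂, hsm⟩ := ke_small (C₁ ^ 2 * C₃ * (C₂ ^ 2 * Real.exp 1) * C * Real.exp δ₀)
    (c := 3 * ε₀) (by linarith) hε
  refine ⟨max (max L₁ L₂) δ₀, le_max_of_le_left (le_max_of_le_left hL₁), ?_⟩
  intro L hL Q hQ ℓ hℓ U hU0 hU α β hα hβ X x hX hx
  have hLL₁ : L₁ ≤ L := ((le_max_left _ _).trans (le_max_left _ _)).trans hL
  have hLL₂ : L₂ ≤ L := ((le_max_right _ _).trans (le_max_left _ _)).trans hL
  have hLδ : δ₀ ≤ L := (le_max_right _ _).trans hL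
  have hL1 : 1 ≤ L := hL₁.trans hLL₁
  have hL0 : 0 < L := by linarith
  have hUL : U ≤ L := hU.trans (by nlinarith)
  have hθL : θ * L ≤ L := by nlinarith
  have hℓ' := abs_le.1 hℓ
  have hx' : x = (2 * R - α - β) / L := by rw [hx, hX]
  obtain ⟨hx1, hx2⟩ := ke_x hR hL0 hα hβ
  rw [← hx'] at hx1 hx2
  have hδ : ∀ m ∈ SF N Q (θ * L), ∀ n ∈ SF N Q (θ * L), ∀ d ∈ Q.powerset,
      |ℓ + lg N (m ∩ n) - lg N d| ≤ 4 * L := by
    intro m hm n hn d hd
    have hm' := ((mem_SF hN).1 hm).2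
    have hd' := lg_mono hN (Finset.mem_powerset.1 hd)
    have h1 := lg_mono hN (Finset.inter_subset_left (s₁ := m) (s₂ := n))
    have h2 := lg_nonneg hN (m ∩ n)
    have h3 := lg_nonneg hN d
    rw [abs_le]
    constructor <;> linarith [hℓ'.1, hℓ'.2]
  have hI : ∀ m ∈ SF N Q (θ * L), ∀ n ∈ SF N Q (θ * L), ∀ d ∈ Q.powerset, _ :=
    fun m hm n hn d hd => hint L hLL₁ x U (ℓ + lg N (m ∩ n) - lg N d) hx1 hx2 hU0 hUL
      (hδ m hm n hn d hd)
  have e1 : (∫ u in Iio (-U), dualF N k b θ R L ℓ Q (fun y => Complex.exp (α * y))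
      (fun y => Complex.exp (β * y)) u) =
      ∑ m ∈ SF N Q (θ * L), ∑ n ∈ SF N Q (θ * L), ∑ d ∈ Q.powerset,
        (ke_c N b θ R L ℓ Q α β m n * (-1) ^ d.card) *
          ∫ u in Iio (-U), (Complex.exp ((-1 - x) * u) *
            (W1 N k (-u - (ℓ + lg N (m ∩ n) - lg N d)) : ℝ)) := by
    rw [setIntegral_congr_fun measurableSet_Iio
      (fun u _ => ke_dualF hN hk b θ R L ℓ hL0 Q α β x hx' u)]
    rw [integral_finsetSum _ fun m hm => integrable_finsetSum _ fun n hn =>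
      integrable_finsetSum _ fun d hd => (hI m hm n hn d hd).1.const_mul _]
    refine Finset.sum_congr rfl fun m hm => ?_
    rw [integral_finsetSum _ fun n hn =>
      integrable_finsetSum _ fun d hd => (hI m hm n hn d hd).1.const_mul _]
    refine Finset.sum_congr rfl fun n hn => ?_
    rw [integral_finsetSum _ fun d hd => (hI m hm n hn d hd).1.const_mul _]
    refine Finset.sum_congr rfl fun d hd => ?_
    rw [integral_const_mul]
  have e2 : (ρ₂ / x * (Complex.exp (x * ℓ) * ps N Q (1 + x) * Ms N b θ L Q (R - α) (R - β) X -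
          (ph N Q : ℝ) * Complex.exp (x * U) * Ms N b θ L Q (R - α) (R - β) 0) +
          Jk N k ρ₂ (1 + x) * Complex.exp (x * ℓ) * ps N Q (1 + x) *
            Ms N b θ L Q (R - α) (R - β) X) =
      ∑ m ∈ SF N Q (θ * L), ∑ n ∈ SF N Q (θ * L), ke_c N b θ R L ℓ Q α β m n *
        ∑ d ∈ Q.powerset, (-1) ^ d.card *
        (ρ₂ * Complex.exp ((ℓ + lg N (m ∩ n) - lg N d : ℝ) : ℂ) *
        (Complex.exp (x * ((ℓ + lg N (m ∩ n) - lg N d : ℝ) : ℂ)) - Complex.exp (x * U)) / x +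
        Complex.exp ((1 + x) * ((ℓ + lg N (m ∩ n) - lg N d : ℝ) : ℂ)) * Jk N k ρ₂ (1 + x)) := by
    have h1 : ∀ m n : Finset P, ke_c N b θ R L ℓ Q α β m n *
        ∑ d ∈ Q.powerset, (-1) ^ d.card *
        (ρ₂ * Complex.exp ((ℓ + lg N (m ∩ n) - lg N d : ℝ) : ℂ) *
        (Complex.exp (x * ((ℓ + lg N (m ∩ n) - lg N d : ℝ) : ℂ)) - Complex.exp (x * U)) / x +
        Complex.exp ((1 + x) * ((ℓ + lg N (m ∩ n) - lg N d : ℝ) : ℂ)) * Jk N k ρ₂ (1 + x)) =
        ((ρ₂ / x + Jk N k ρ₂ (1 + x)) * ps N Q (1 + x)) *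
          (ke_c N b θ R L ℓ Q α β m n *
            Complex.exp ((1 + x) * ((ℓ + lg N (m ∩ n) : ℝ) : ℂ))) -
        (ρ₂ / x * (ph N Q : ℝ) * Complex.exp (x * U)) *
          (ke_c N b θ R L ℓ Q α β m n * Complex.exp ((ℓ + lg N (m ∩ n) : ℝ) : ℂ)) := by
      intro m n
      rw [ke_main_d hN]
      ring
    rw [Finset.sum_congr rfl fun m _ => Finset.sum_congr rfl fun n _ => h1 m n]
    simp only [Finset.sum_sub_distrib, ← Finset.mul_sum]
    rw [ke_Ms1 b θ R L ℓ hL0 Q α β, ke_Ms2 b θ R L ℓ hL0 Q α β X x hx]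
    ring
  rw [e1, e2]
  have hkey := ke_err (SF N Q (θ * L)) Q.powerset (ke_c N b θ R L ℓ Q α β)
    (fun m n d => ∫ u in Iio (-U), (Complex.exp ((-1 - x) * u) *
            (W1 N k (-u - (ℓ + lg N (m ∩ n) - lg N d)) : ℝ)))
    (fun m n d => ρ₂ * Complex.exp ((ℓ + lg N (m ∩ n) - lg N d : ℝ) : ℂ) *
        (Complex.exp (x * ((ℓ + lg N (m ∩ n) - lg N d : ℝ) : ℂ)) - Complex.exp (x * U)) / x +
        Complex.exp ((1 + x) * ((ℓ + lg N (m ∩ n) - lg N d : ℝ) : ℂ)) * Jk N k ρ₂ (1 + x))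
    (fun m => Real.exp (-lg N m))
    (C₂ ^ 2 * Real.exp 1 * Real.exp (2 * ε₀ * L) * Real.exp (-ℓ)) (C * L * Real.exp U) (C₁ * L)
    (by positivity) (fun _ _ => Real.exp_nonneg _) (by positivity) (hSF Q θ L hθ hθ1 hL1)
    (fun m hm n hn => ke_c_norm hN hL0 hθ1 hε₀ hC₂
      (fun m => ham b θ R L Q m hb hθ (by linarith) hL0) hm hn hα hβ)
    (fun m hm n hn d hd => by
      have h := (hI m hm n hn d hd).2
      rw [sub_sub] at h
      exact h)
  refine hkey.trans (le_trans ?_ (hsm L hLL₂))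
  rw [Finset.card_powerset]
  push_cast
  have hc2 : (2 : ℝ) ^ Q.card ≤ C₃ * Real.exp (ε₀ * L) :=
    (h2p Q).trans (mul_le_mul_of_nonneg_left (Real.exp_le_exp.2
      (mul_le_mul_of_nonneg_left hQ hε₀.le)) (by linarith))
  have hc3 : Real.exp U ≤ Real.exp ((1 - 6 * ε₀) * L) := Real.exp_le_exp.2 hU
  have hc4 : Real.exp (-ℓ) ≤ Real.exp (δ₀ - L) := Real.exp_le_exp.2 (by linarith [hℓ'.1])
  calc (C₁ * L) ^ 2 * (2 : ℝ) ^ Q.card *
      (C₂ ^ 2 * Real.exp 1 * Real.exp (2 * ε₀ * L) * Real.exp (-ℓ) * (C * L * Real.exp U))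
      ≤ (C₁ * L) ^ 2 * (C₃ * Real.exp (ε₀ * L)) *
      (C₂ ^ 2 * Real.exp 1 * Real.exp (2 * ε₀ * L) * Real.exp (δ₀ - L) *
        (C * L * Real.exp ((1 - 6 * ε₀) * L))) := by
        gcongr
    _ = C₁ ^ 2 * C₃ * (C₂ ^ 2 * Real.exp 1) * C * (L ^ 3 *
        (Real.exp (ε₀ * L) * Real.exp (2 * ε₀ * L) * Real.exp (δ₀ - L) *
        Real.exp ((1 - 6 * ε₀) * L))) := by ring
    _ = C₁ ^ 2 * C₃ * (C₂ ^ 2 * Real.exp 1) * C * (L ^ 3 *
        (Real.exp δ₀ * Real.exp (-(3 * ε₀ * L)))) := by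
        rw [← Real.exp_add, ← Real.exp_add, ← Real.exp_add, ← Real.exp_add]
        congr 3
        ring
    _ = C₁ ^ 2 * C₃ * (C₂ ^ 2 * Real.exp 1) * C * Real.exp δ₀ *
        (L ^ 3 * Real.exp (-(3 * ε₀ * L))) := by ring

alias dual_asymp := dual_asymp_pr

end Pool.Agent.LVA
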