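import Pool.Agent.Lib_helper92.LVA.Defs
import Pool.Agent.Lib_helper92.ASA.All

/-!
# LVA, block KF1: the closed form of the limit (helper89)
-/

namespace Pool.Agent.LVA

open Complex MeasureTheory Filter Topology Pool.Agent.AS

theorem KF1_poly (a₀ a₁ a₂ a₃ a₄ : ℝ) :
    ∫ u in (0 : ℝ)..1, (a₀ + a₁ * u + a₂ * u ^ 2 + a₃ * u ^ 3 + a₄ * u ^ 4) =
      a₀ + a₁ / 2 + a₂ / 3 + a₃ / 4 + a₄ / 5 := by
  have h : ∀ u ∈ Set.uIcc (0 : ℝ) 1, HasDerivAt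
      (fun u : ℝ => a₀ * u + a₁ * (u ^ 2 / 2) + a₂ * (u ^ 3 / 3) + a₃ * (u ^ 4 / 4) +
        a₄ * (u ^ 5 / 5)) (a₀ + a₁ * u + a₂ * u ^ 2 + a₃ * u ^ 3 + a₄ * u ^ 4) u := by
    intro u _
    have h2 := (((((hasDerivAt_id u).const_mul a₀).add
      (((hasDerivAt_pow 2 u).div_const 2).const_mul a₁)).add
      (((hasDerivAt_pow 3 u).div_const 3).const_mul a₂)).add
      (((hasDerivAt_pow 4 u).div_const 4).const_mul a₃)).add
      (((hasDerivAt_pow 5 u).div_const 5).const_mul a₄)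
    refine h2.congr_deriv ?_
    norm_num
  rw [intervalIntegral.integral_eq_sub_of_hasDerivAt h
    (Continuous.intervalIntegrable (by fun_prop) _ _)]
  norm_num
  ring

theorem KF1_w2 (b : ℝ) : ∫ u in (0 : ℝ)..1, wt b (1 - u) * wt b (1 - u) = 1 + b ^ 2 / 3 := by
  have h : ∀ u : ℝ, wt b (1 - u) * wt b (1 - u) =
      (1 - b) ^ 2 + (4 * b * (1 - b)) * u + (4 * b ^ 2) * u ^ 2 + 0 * u ^ 3 + 0 * u ^ 4 := by
    intro u
    unfold wt
    ring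
  simp_rw [h]
  rw [KF1_poly]
  ring

theorem KF1_wP (b : ℝ) : ∫ u in (0 : ℝ)..1, wt b (1 - u) * Pt b (1 - u) = 1 / 2 := by
  have h : ∀ u : ℝ, wt b (1 - u) * Pt b (1 - u) =
      (1 - b) + (-(1 - b) + b * (1 - b) + 2 * b) * u +
        (-b * (1 - b) - 2 * b + 2 * b ^ 2) * u ^ 2 + (-2 * b ^ 2) * u ^ 3 + 0 * u ^ 4 := by
    intro u
    unfold wt Pt
    ring
  simp_rw [h]
  rw [KF1_poly]
  ring

theorem KF1_P2 (b : ℝ) : ∫ u in (0 : ℝ)..1, Pt b (1 - u) * Pt b (1 - u) =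
    1 / 3 + b / 6 + b ^ 2 / 30 := by
  have h : ∀ u : ℝ, Pt b (1 - u) * Pt b (1 - u) =
      1 + (-2 + 2 * b) * u + (1 - 4 * b + b ^ 2) * u ^ 2 + (2 * b - 2 * b ^ 2) * u ^ 3 +
        b ^ 2 * u ^ 4 := by
    intro u
    unfold Pt
    ring
  simp_rw [h]
  rw [KF1_poly]
  ring

theorem KF1_II (b θ : ℝ) (c₁ c₂ c₃ : ℂ) (h : c₃ = c₁ + c₂) :
    II b θ c₁ c₂ c₃ = (1 + b ^ 2 / 3 : ℝ) + θ * (c₁ + c₂) * (1 / 2 : ℝ) +
      θ ^ 2 * c₁ * c₂ * (1 / 3 + b / 6 + b ^ 2 / 30 : ℝ) := by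
  unfold II
  have e : ∀ u : ℝ, Complex.exp (θ * (c₃ - c₁ - c₂) * u) *
      ((wt b (1 - u) : ℝ) + θ * c₁ * (Pt b (1 - u) : ℝ)) *
      ((wt b (1 - u) : ℝ) + θ * c₂ * (Pt b (1 - u) : ℝ)) =
      ((wt b (1 - u) * wt b (1 - u) : ℝ) : ℂ) +
        θ * (c₁ + c₂) * ((wt b (1 - u) * Pt b (1 - u) : ℝ) : ℂ) +
        θ ^ 2 * c₁ * c₂ * ((Pt b (1 - u) * Pt b (1 - u) : ℝ) : ℂ) := by
    intro u
    rw [h]
    have : (θ : ℂ) * (c₁ + c₂ - c₁ - c₂) * u = 0 := by ring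
    rw [this, Complex.exp_zero]
    push_cast
    ring
  simp_rw [e]
  have i1 : IntervalIntegrable (fun u : ℝ => ((wt b (1 - u) * wt b (1 - u) : ℝ) : ℂ)) volume 0 1 := by
    apply Continuous.intervalIntegrable
    unfold wt
    fun_prop
  have i2 : IntervalIntegrable (fun u : ℝ => θ * (c₁ + c₂) * ((wt b (1 - u) * Pt b (1 - u) : ℝ) : ℂ))
      volume 0 1 := by
    apply Continuous.intervalIntegrable
    unfold wt Pt
    fun_prop
  have i3 : IntervalIntegrable (fun u : ℝ => θ ^ 2 * c₁ * c₂ *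
      ((Pt b (1 - u) * Pt b (1 - u) : ℝ) : ℂ)) volume 0 1 := by
    apply Continuous.intervalIntegrable
    unfold Pt
    fun_prop
  rw [intervalIntegral.integral_add (i1.add i2) i3, intervalIntegral.integral_add i1 i2,
    intervalIntegral.integral_const_mul, intervalIntegral.integral_const_mul,
    intervalIntegral.integral_ofReal, intervalIntegral.integral_ofReal,
    intervalIntegral.integral_ofReal, KF1_w2, KF1_wP, KF1_P2]

theorem II_TT_pr {b θ R : ℝ} (hθ : 0 < θ) (α β X : ℂ) (hX : X = 2 * R - α - β) (hX0 : X ≠ 0) :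
    (Complex.exp X * II b θ (R - α) (R - β) X - II b θ (β - R) (α - R) (-X)) / (θ * X) =
      TT b θ R α β := by
  have hθ' : (θ : ℂ) ≠ 0 := by exact_mod_cast hθ.ne'
  rw [KF1_II b θ (R - α) (R - β) X (by rw [hX]; ring),
    KF1_II b θ (β - R) (α - R) (-X) (by rw [hX]; ring)]
  unfold TT
  rw [← hX, intervalIntegral.integral_mul_const]
  have h1 : ∫ t in (0 : ℝ)..1, Complex.exp (X * t) = (Complex.exp X - 1) / X := by
    rw [integral_exp_mul_complex hX0]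
    simp
  rw [h1]
  have e1 : (R : ℂ) - α + (R - β) = X := by rw [hX]; ring
  have e2 : (β : ℂ) - R + (α - R) = -X := by rw [hX]; ring
  rw [e1, e2]
  push_cast
  field_simp
  ring


alias II_TT := II_TT_pr

end Pool.Agent.LVA
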