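import Pool.Agent.Lib_helper92.LVA.Defs
import Pool.Agent.Lib_helper92.ASA.All
import Pool.Agent.Lib_helper92.LVAF.BA

/-!
# LVA, block ZE: the sums over multiples of `e`
-/

namespace Pool.Agent.LVA

open Complex MeasureTheory Filter Topology Set Pool.Agent.AS

variable {P : Type} {N : P → ℕ}

/-- the sum over the sets between `e` and `e'` -/
theorem ze_between [DecidableEq P] {e e' : Finset P} (he : e ⊆ e') (g : P → ℂ) :
    ∑ m ∈ e'.powerset.filter (fun m => e ⊆ m), ∏ p ∈ m, g p =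
      (∏ p ∈ e, g p) * ∏ p ∈ e' \ e, (1 + g p) := by
  rw [Finset.prod_one_add, Finset.mul_sum]
  refine Finset.sum_nbij' (fun m => m \ e) (fun j => e ∪ j) ?_ ?_ ?_ ?_ ?_
  · intro m hm
    rw [Finset.mem_filter, Finset.mem_powerset] at hm
    rw [Finset.mem_powerset]
    exact Finset.sdiff_subset_sdiff hm.1 (Finset.Subset.refl e)
  · intro j hj
    rw [Finset.mem_powerset] at hj
    rw [Finset.mem_filter, Finset.mem_powerset]
    exact ⟨Finset.union_subset he (hj.trans Finset.sdiff_subset), Finset.subset_union_left⟩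
  · intro m hm
    rw [Finset.mem_filter] at hm
    exact Finset.union_sdiff_of_subset hm.2
  · intro j hj
    rw [Finset.mem_powerset] at hj
    show (e ∪ j) \ e = j
    rw [Finset.union_sdiff_left, Finset.sdiff_eq_self_iff_disjoint]
    exact Finset.disjoint_of_subset_left hj Finset.sdiff_disjoint
  · intro m hm
    rw [Finset.mem_filter] at hm
    rw [mul_comm, Finset.prod_sdiff hm.2]

/-- `(-1)^|m| N m^{-s}` as a product -/
theorem ze_prod (m : Finset P) (s : ℂ) :
    (-1 : ℂ) ^ m.card * Complex.exp (-(s * lg N m)) =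
      ∏ p ∈ m, -Complex.exp (-(s * Real.log (N p))) := by
  rw [Finset.prod_neg, ← Complex.exp_sum]
  congr 2
  unfold lg
  rw [Complex.ofReal_sum, Finset.mul_sum, Finset.sum_neg_distrib]

theorem ze_lg_union [DecidableEq P] {e k : Finset P} (h : Disjoint e k) :
    lg N (e ∪ k) = lg N e + lg N k := lg_union h

/-- the bijection `k ↦ e ∪ k` -/
theorem ze_bij [DecidableEq P] (hN : Good N) {T : ℝ} {Q e : Finset P} (he : e ∈ SF N Q T)
    (f : Finset P → ℂ) :
    ∑ e' ∈ (SF N Q T).filter (fun e' => e ⊆ e'), f e' =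
      ∑ k ∈ SF N (Q ∪ e) (T - lg N e), f (e ∪ k) := by
  have heQ := ((mem_SF hN).1 he).1
  symm
  refine Finset.sum_nbij' (fun k => e ∪ k) (fun e' => e' \ e) ?_ ?_ ?_ ?_ ?_
  · intro k hk
    rw [mem_SF hN, Finset.disjoint_union_right] at hk
    rw [Finset.mem_filter, mem_SF hN, Finset.disjoint_union_left, lg_union hk.1.2.symm]
    exact ⟨⟨⟨heQ, hk.1.1⟩, by linarith [hk.2]⟩, Finset.subset_union_left⟩
  · intro e' he'
    rw [Finset.mem_filter, mem_SF hN] at he'
    have h1 : lg N (e ∪ (e' \ e)) = lg N e + lg N (e' \ e) := lg_union Finset.disjoint_sdiff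
    rw [Finset.union_sdiff_of_subset he'.2] at h1
    rw [mem_SF hN, Finset.disjoint_union_right]
    exact ⟨⟨Finset.disjoint_of_subset_left Finset.sdiff_subset he'.1.1, Finset.sdiff_disjoint⟩,
      by linarith [he'.1.2]⟩
  · intro k hk
    rw [mem_SF hN, Finset.disjoint_union_right] at hk
    show (e ∪ k) \ e = k
    rw [Finset.union_sdiff_left, Finset.sdiff_eq_self_iff_disjoint]
    exact hk.1.2
  · intro e' he'
    rw [Finset.mem_filter] at he'
    exact Finset.union_sdiff_of_subset he'.2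
  · intro k _
    rfl

theorem ze_lam [DecidableEq P] (b T : ℝ) (Q m : Finset P) :
    lam N b T Q m = (-1) ^ m.card * Real.exp (lg N m) / Gw N b T Q *
      ∑ e ∈ (SF N Q T).filter (fun e => m ⊆ e), wt b (1 - lg N e / T) / vf N e := by
  unfold lam
  congr!

theorem Z_eq_pr [DecidableEq P] (hN : Good N) {b T : ℝ} {Q e : Finset P} (he : e ∈ SF N Q T)
    (s : ℂ) :
    ∑ m ∈ (SF N Q T).filter (fun m => e ⊆ m),
      (lam N b T Q m : ℂ) * Complex.exp (-((1 + s) * lg N m)) =
      Complex.exp (-(s * lg N e)) * (-1) ^ e.card / ((vf N e : ℝ) * (Gw N b T Q : ℝ)) *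
        DW N b T Q e s := by
  have h1 : ∀ m ∈ (SF N Q T).filter (fun m => e ⊆ m),
      (lam N b T Q m : ℂ) * Complex.exp (-((1 + s) * lg N m)) =
      ∑ e' ∈ (SF N Q T).filter (fun e' => m ⊆ e'),
        ((Gw N b T Q : ℝ) : ℂ)⁻¹ * ((wt b (1 - lg N e' / T) / vf N e' : ℝ) : ℂ) *
          ∏ p ∈ m, -Complex.exp (-(s * Real.log (N p))) := by
    intro m _
    have h2 : Complex.exp (-((1 + s) * lg N m)) =
        Complex.exp (-(lg N m : ℂ)) * Complex.exp (-(s * lg N m)) := by
      rw [← Complex.exp_add]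
      congr 1
      ring
    have h3 : Complex.exp (lg N m : ℂ) * Complex.exp (-(lg N m : ℂ)) = 1 := by
      rw [← Complex.exp_add, add_neg_cancel, Complex.exp_zero]
    rw [← Finset.sum_mul, ← Finset.mul_sum, ← ze_prod, h2]
    rw [ze_lam]
    push_cast
    calc _ = (Complex.exp (lg N m : ℂ) * Complex.exp (-(lg N m : ℂ))) *
          (((Gw N b T Q : ℝ) : ℂ)⁻¹ * (∑ e' ∈ (SF N Q T).filter (fun e' => m ⊆ e'),
        ((wt b (1 - lg N e' / T) : ℝ) : ℂ) / ((vf N e' : ℝ) : ℂ)) *
          ((-1) ^ m.card * Complex.exp (-(s * lg N m)))) := by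
          ring
      _ = _ := by
          rw [h3, one_mul]
  rw [Finset.sum_congr rfl h1]
  rw [Finset.sum_comm' (t' := (SF N Q T).filter (fun e' => e ⊆ e'))
    (s' := fun e' => e'.powerset.filter (fun m => e ⊆ m))]
  · simp_rw [← Finset.mul_sum]
    rw [Finset.sum_congr rfl (fun e' he' => by
      rw [ze_between (Finset.mem_filter.1 he').2])]
    rw [ze_bij hN he]
    unfold DW
    rw [Finset.mul_sum]
    refine Finset.sum_congr rfl fun k hk => ?_
    rw [mem_SF hN, Finset.disjoint_union_right] at hk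
    have h5 : (e ∪ k) \ e = k := by
      rw [Finset.union_sdiff_left, Finset.sdiff_eq_self_iff_disjoint]
      exact hk.1.2
    have h6 : ps N k s = ∏ p ∈ k, (1 + -Complex.exp (-(s * Real.log (N p)))) := by
      unfold ps
      simp_rw [← sub_eq_add_neg]
    rw [h5, ← h6, ← ze_prod, lg_union hk.1.2.symm, vf_union hk.1.2.symm]
    push_cast
    field_simp
  · intro m e'
    rw [Finset.mem_filter, Finset.mem_filter, Finset.mem_filter, Finset.mem_filter,
      Finset.mem_powerset]
    constructor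
    · rintro ⟨⟨_, h3⟩, h4, h5⟩
      exact ⟨⟨h5, h3⟩, h4, h3.trans h5⟩
    · rintro ⟨⟨h3, h4⟩, h5, _⟩
      exact ⟨⟨SF_sub hN h5 h3, h4⟩, h5, h3⟩

alias Z_eq := Z_eq_pr

end Pool.Agent.LVA

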