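import Pool.Agent.Lib_helper92.LVA.Defs
import Pool.Agent.Lib_helper92.ASA.All
import Pool.Agent.Lib_helper92.LVAF.BA
import Pool.Agent.Lib_helper92.LVAF.BB
import Pool.Agent.Lib_helper92.LVAF.ZE

/-!
# LVA, block MA1: diagonalisation of `M`
-/

namespace Pool.Agent.LVA

open Complex MeasureTheory Filter Topology Set Pool.Agent.AS

variable {P : Type} {N : P → ℕ}

/-- the power of the gcd as a sum over common divisors -/
theorem ma1_gcd (m : Finset P) (c : ℂ) :
    Complex.exp (c * lg N m) =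
      ∑ e ∈ m.powerset, ∏ p ∈ e, (Complex.exp (c * Real.log (N p)) - 1) := by
  rw [← Finset.prod_one_add]
  have h : ∀ p ∈ m, 1 + (Complex.exp (c * Real.log (N p)) - 1) =
      Complex.exp (c * Real.log (N p)) := fun p _ => by ring
  rw [Finset.prod_congr rfl h, ← Complex.exp_sum]
  congr 1
  unfold lg
  rw [Complex.ofReal_sum, Finset.mul_sum]

theorem Ms_eq_pr [DecidableEq P] (hN : Good N) {b θ L : ℝ} (hL : 0 < L) (Q : Finset P)
    (c₁ c₂ c₃ : ℂ) :
    Ms N b θ L Q c₁ c₂ c₃ = ∑ e ∈ SF N Q (θ * L),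
      (∏ p ∈ e, (Complex.exp ((1 + c₃ / L) * Real.log (N p)) - 1)) *
      Complex.exp (-((c₁ + c₂) / L * lg N e)) / ((vf N e : ℝ) * (Gw N b (θ * L) Q : ℝ)) ^ 2 *
      DW N b (θ * L) Q e (c₁ / L) * DW N b (θ * L) Q e (c₂ / L) := by
  set S := SF N Q (θ * L) with hS
  set a : Finset P → ℂ := fun m => (lam N b (θ * L) Q m : ℂ) *
    Complex.exp (-((1 + c₁ / L) * lg N m)) with ha
  set a' : Finset P → ℂ := fun m => (lam N b (θ * L) Q m : ℂ) *
    Complex.exp (-((1 + c₂ / L) * lg N m)) with ha'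
  set h : Finset P → ℂ := fun e =>
    ∏ p ∈ e, (Complex.exp ((1 + c₃ / L) * Real.log (N p)) - 1) with hh
  have h1 : Ms N b θ L Q c₁ c₂ c₃ =
      ∑ m ∈ S, ∑ n ∈ S, ∑ e ∈ S.filter (fun e => e ⊆ m ∧ e ⊆ n), a m * a' n * h e := by
    unfold Ms
    refine Finset.sum_congr rfl fun m hm => Finset.sum_congr rfl fun n hn => ?_
    rw [ma1_gcd, ← Finset.mul_sum]
    have h2 : (m ∩ n).powerset = S.filter (fun e => e ⊆ m ∧ e ⊆ n) := by
      ext e
      rw [Finset.mem_powerset, Finset.mem_filter, Finset.subset_inter_iff]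
      exact ⟨fun h3 => ⟨SF_sub hN hm h3.1, h3⟩, fun h3 => h3.2⟩
    rw [h2, ha, ha']
    ring
  have h2 : ∀ m ∈ S, ∑ n ∈ S, ∑ e ∈ S.filter (fun e => e ⊆ m ∧ e ⊆ n), a m * a' n * h e =
      ∑ e ∈ S.filter (fun e => e ⊆ m), ∑ n ∈ S.filter (fun n => e ⊆ n), a m * a' n * h e := by
    intro m _
    apply Finset.sum_comm'
    intro n e
    simp only [Finset.mem_filter]
    tauto
  have h3 : ∑ m ∈ S, ∑ e ∈ S.filter (fun e => e ⊆ m), ∑ n ∈ S.filter (fun n => e ⊆ n),
      a m * a' n * h e = ∑ e ∈ S, ∑ m ∈ S.filter (fun m => e ⊆ m),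
        ∑ n ∈ S.filter (fun n => e ⊆ n), a m * a' n * h e := by
    apply Finset.sum_comm'
    intro m e
    simp only [Finset.mem_filter]
    tauto
  rw [h1, Finset.sum_congr rfl h2, h3]
  refine Finset.sum_congr rfl fun e he => ?_
  have h4 : ∑ m ∈ S.filter (fun m => e ⊆ m), ∑ n ∈ S.filter (fun n => e ⊆ n),
      a m * a' n * h e = h e * ((∑ m ∈ S.filter (fun m => e ⊆ m), a m) *
        ∑ n ∈ S.filter (fun n => e ⊆ n), a' n) := by
    rw [Finset.sum_mul_sum, Finset.mul_sum]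
    refine Finset.sum_congr rfl fun m _ => ?_
    rw [Finset.mul_sum]
    refine Finset.sum_congr rfl fun n _ => ?_
    ring
  have h5 := Z_eq hN he (b := b) (c₁ / L)
  have h6 := Z_eq hN he (b := b) (c₂ / L)
  rw [h4, ha, ha', h5, h6, hh]
  have h7 : Complex.exp (-((c₁ + c₂) / L * lg N e)) =
      Complex.exp (-(c₁ / L * lg N e)) * Complex.exp (-(c₂ / L * lg N e)) := by
    rw [← Complex.exp_add]
    congr 1
    ring
  have h8 : ((-1 : ℂ) ^ e.card) * (-1) ^ e.card = 1 := by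
    rw [← mul_pow]
    simp
  rw [h7]
  set D₁ := DW N b (θ * L) Q e (c₁ / L)
  set D₂ := DW N b (θ * L) Q e (c₂ / L)
  set E₁ := Complex.exp (-(c₁ / L * lg N e))
  set E₂ := Complex.exp (-(c₂ / L * lg N e))
  set V := ((vf N e : ℝ) : ℂ) * ((Gw N b (θ * L) Q : ℝ) : ℂ)
  set X := ∏ p ∈ e, (Complex.exp ((1 + c₃ / L) * Real.log (N p)) - 1)
  calc X * (E₁ * (-1) ^ e.card / V * D₁ * (E₂ * (-1) ^ e.card / V * D₂))
      = ((-1 : ℂ) ^ e.card * (-1) ^ e.card) * (X * (E₁ * E₂) / V ^ 2 * D₁ * D₂) := by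
        ring
    _ = _ := by rw [h8, one_mul]

/-- the local factor -/
theorem ma1_local (hN : Good N) (p : P) (c : ℂ) :
    (Complex.exp ((1 + c) * Real.log (N p)) - 1) / ((N p : ℝ) - 1 : ℝ) =
      Complex.exp (c * Real.log (N p)) *
        (1 + (1 - Complex.exp (-(c * Real.log (N p)))) / ((N p : ℝ) - 1 : ℝ)) := by
  have h2 : (2 : ℝ) ≤ N p := by exact_mod_cast hN.two_le p
  have h0 : (0 : ℝ) < N p := by linarith
  have h1 : (((N p : ℝ) - 1 : ℝ) : ℂ) ≠ 0 := by
    rw [Complex.ofReal_ne_zero]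
    linarith
  have h3 : Complex.exp ((1 + c) * Real.log (N p)) = (N p : ℂ) * Complex.exp (c * Real.log (N p)) := by
    rw [one_add_mul, Complex.exp_add, ← Complex.ofReal_exp, Real.exp_log h0]
    simp
  have h4 : Complex.exp (c * Real.log (N p)) * Complex.exp (-(c * Real.log (N p))) = 1 := by
    rw [← Complex.exp_add, add_neg_cancel, Complex.exp_zero]
  rw [h3, div_eq_iff h1, mul_assoc, add_mul, div_mul_cancel₀ _ h1, one_mul]
  rw [Complex.ofReal_sub, Complex.ofReal_natCast, Complex.ofReal_one]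
  linear_combination h4

theorem ma1_z (hN : Good N) {C L : ℝ} (hL : 1 ≤ L) (hC : 0 < C) {c : ℂ} (hc : ‖c‖ ≤ C) {p : P}
    (hp : Real.log (N p) ≤ L) :
    ‖(1 - Complex.exp (-(c / L * Real.log (N p)))) / ((N p : ℝ) - 1 : ℝ)‖ ≤
      C * Real.exp C / L * (Real.log (N p) / ((N p : ℝ) - 1)) := by
  have h2 : (2 : ℝ) ≤ N p := by exact_mod_cast hN.two_le p
  have hL0 : 0 < L := by linarith
  have hl : 0 ≤ Real.log (N p) := Real.log_nonneg (by linarith)
  have h3 : ‖1 - Complex.exp (-(c / L * Real.log (N p)))‖ ≤ C / L * Real.log (N p) * Real.exp C := by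
    have h4 : ‖-(c / L * Real.log (N p))‖ ≤ C / L * Real.log (N p) := by
      rw [norm_neg, norm_mul, norm_div, Complex.norm_real, Complex.norm_real,
        Real.norm_of_nonneg hL0.le, Real.norm_of_nonneg hl]
      gcongr
    have h5 : C / L * Real.log (N p) ≤ C := by
      rw [div_mul_eq_mul_div, div_le_iff₀ hL0]
      gcongr
    have h6 := Complex.norm_exp_sub_sum_le_norm_mul_exp (-(c / L * Real.log (N p))) 1
    simp only [Finset.range_one, Finset.sum_singleton, pow_zero, Nat.factorial_zero,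
      Nat.cast_one, div_one, pow_one] at h6
    rw [norm_sub_rev]
    refine h6.trans ?_
    exact mul_le_mul h4 (Real.exp_le_exp.2 (h4.trans h5)) (Real.exp_pos _).le (by positivity)
  rw [norm_div, Complex.norm_real, Real.norm_of_nonneg (by linarith)]
  calc ‖1 - Complex.exp (-(c / L * Real.log (N p)))‖ / ((N p : ℝ) - 1)
      ≤ (C / L * Real.log (N p) * Real.exp C) / ((N p : ℝ) - 1) :=
        div_le_div_of_nonneg_right h3 (by linarith)
    _ = _ := by ring

theorem jordan_pr (hN : Good N) {C ε : ℝ} (hC0 : 0 < C) (hε : 0 < ε) :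
    ∃ L₀ : ℝ, 1 ≤ L₀ ∧ ∀ L, L₀ ≤ L → ∀ e : Finset P, lg N e ≤ L → ∀ c : ℂ, ‖c‖ ≤ C →
      ‖(∏ p ∈ e, (Complex.exp ((1 + c / L) * Real.log (N p)) - 1)) / (vf N e : ℝ) -
        Complex.exp (c / L * lg N e)‖ ≤ ε := by
  classical
  -- the threshold
  obtain ⟨η, hη0, hη1, hηε⟩ : ∃ η : ℝ, 0 < η ∧ η ≤ 1 ∧ Real.exp C * (2 * η) ≤ ε := by
    have h1 : 0 < Real.exp C := Real.exp_pos _
    refine ⟨min 1 (ε / (2 * Real.exp C)), by positivity, min_le_left _ _, ?_⟩
    calc Real.exp C * (2 * min 1 (ε / (2 * Real.exp C))) ≤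
          Real.exp C * (2 * (ε / (2 * Real.exp C))) := by
          gcongr
          exact min_le_right _ _
      _ = ε := by field_simp
  set κ : ℝ := C * Real.exp C with hκ
  have hκ0 : 0 < κ := by positivity
  obtain ⟨B, hB0, hB⟩ := small_sum hN (ε := η / (2 * κ)) (by positivity)
  refine ⟨max 1 (2 * κ * B / η), le_max_left _ _, fun L hL e he c hc => ?_⟩
  have hL1 : 1 ≤ L := (le_max_left _ _).trans hL
  have hL2 : 2 * κ * B / η ≤ L := (le_max_right _ _).trans hL
  have hL0 : 0 < L := by linarith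
  set z : P → ℂ := fun p => (1 - Complex.exp (-(c / L * Real.log (N p)))) / ((N p : ℝ) - 1 : ℝ)
    with hz
  -- the quotient
  have h1 : (∏ p ∈ e, (Complex.exp ((1 + c / L) * Real.log (N p)) - 1)) / (vf N e : ℝ) =
      Complex.exp (c / L * lg N e) * ∏ p ∈ e, (1 + z p) := by
    unfold vf
    rw [Complex.ofReal_prod, ← Finset.prod_div_distrib]
    have h2 : Complex.exp (c / L * lg N e) = ∏ p ∈ e, Complex.exp (c / L * Real.log (N p)) := by
      rw [← Complex.exp_sum]
      congr 1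
      unfold lg
      rw [Complex.ofReal_sum, Finset.mul_sum]
    rw [h2, ← Finset.prod_mul_distrib]
    exact Finset.prod_congr rfl fun p _ => ma1_local hN p _
  have h3 : ∀ p ∈ e, Real.log (N p) ≤ L := by
    intro p hp
    have h4 : lg N {p} ≤ lg N e := lg_mono hN (Finset.singleton_subset_iff.2 hp)
    unfold lg at h4
    rw [Finset.sum_singleton] at h4
    exact h4.trans he
  have h4 : ∑ p ∈ e, ‖z p‖ ≤ η := by
    calc ∑ p ∈ e, ‖z p‖ ≤ ∑ p ∈ e, κ / L * (Real.log (N p) / ((N p : ℝ) - 1)) :=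
          Finset.sum_le_sum fun p hp => ma1_z hN hL1 hC0 hc (h3 p hp)
      _ = κ / L * ∑ p ∈ e, Real.log (N p) / ((N p : ℝ) - 1) := by rw [Finset.mul_sum]
      _ ≤ κ / L * (η / (2 * κ) * L + B) := by
          apply mul_le_mul_of_nonneg_left _ (by positivity)
          refine (hB e).trans ?_
          gcongr
      _ = η / 2 + κ * B / L := by
          field_simp
      _ ≤ η / 2 + η / 2 := by
          have h5 : κ * B / L ≤ η / 2 := by
            rw [div_le_iff₀ hL0]
            rw [div_le_iff₀ hη0] at hL2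
            linarith
          linarith
      _ = η := by ring
  have h5 : ‖∏ p ∈ e, (1 + z p) - 1‖ ≤ 2 * η := by
    refine (Finset.norm_prod_one_add_sub_one_le e z).trans ?_
    have h6 : Real.exp (∑ p ∈ e, ‖z p‖) ≤ Real.exp η := Real.exp_le_exp.2 h4
    have h7 := Real.abs_exp_sub_one_le (x := η) (by rw [abs_of_pos hη0]; exact hη1)
    rw [abs_of_pos hη0] at h7
    have h8 := le_abs_self (Real.exp η - 1)
    linarith
  have h6 : ‖Complex.exp (c / L * lg N e)‖ ≤ Real.exp C := by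
    refine (Complex.norm_exp_le_exp_norm _).trans (Real.exp_le_exp.2 ?_)
    rw [norm_mul, norm_div, Complex.norm_real, Complex.norm_real, Real.norm_of_nonneg hL0.le,
      Real.norm_of_nonneg (lg_nonneg hN e), div_mul_eq_mul_div, div_le_iff₀ hL0]
    exact mul_le_mul hc he (lg_nonneg hN e) hC0.le
  rw [h1, show Complex.exp (c / L * lg N e) * ∏ p ∈ e, (1 + z p) - Complex.exp (c / L * lg N e) =
    Complex.exp (c / L * lg N e) * (∏ p ∈ e, (1 + z p) - 1) by ring, norm_mul]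
  exact (mul_le_mul h6 h5 (norm_nonneg _) (Real.exp_pos _).le).trans hηε

alias Ms_eq := Ms_eq_pr
alias jordan := jordan_pr

end Pool.Agent.LVA

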