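import Pool.Agent.Lib_helper92.LVA.Defs
import Pool.Agent.Lib_helper92.ASA.All
import Pool.Agent.Lib_helper92.LVAF.BA
import Pool.Agent.Lib_helper92.LVAF.GW
import Pool.Agent.Lib_helper92.LVAF.DB
import Pool.Agent.Lib_helper92.LVAF.MA1

namespace Pool.Agent.LVA

open Complex MeasureTheory Filter Topology Set Pool.Agent.AS

variable {P : Type} {N : P → ℕ}

theorem ma2_four {a A E D1 D2 W1 W2 : ℂ} {δ B KE KA : ℝ} (h1 : ‖a - A‖ ≤ δ) (h2 : ‖D1 - W1‖ ≤ δ)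
    (h3 : ‖D2 - W2‖ ≤ δ) (h4 : ‖W1‖ ≤ B) (h5 : ‖W2‖ ≤ B) (h6 : ‖E‖ ≤ KE) (h7 : ‖A‖ ≤ KA)
    (hδ : δ ≤ 1) :
    ‖a * E * D1 * D2 - A * E * W1 * W2‖ ≤
      δ * (KE * ((B + 1) ^ 2 + KA * (B + 1) + KA * B)) := by
  have hδ0 : 0 ≤ δ := (norm_nonneg _).trans h1
  have hB : 0 ≤ B := (norm_nonneg _).trans h4
  have hKE : 0 ≤ KE := (norm_nonneg _).trans h6
  have hKA : 0 ≤ KA := (norm_nonneg _).trans h7
  have hD1 : ‖D1‖ ≤ B + 1 := by
    have : ‖D1‖ ≤ ‖D1 - W1‖ + ‖W1‖ := by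
      have := norm_add_le (D1 - W1) W1
      simpa using this
    linarith
  have hD2 : ‖D2‖ ≤ B + 1 := by
    have : ‖D2‖ ≤ ‖D2 - W2‖ + ‖W2‖ := by
      have := norm_add_le (D2 - W2) W2
      simpa using this
    linarith
  have e : a * E * D1 * D2 - A * E * W1 * W2 =
      E * ((a - A) * D1 * D2 + A * (D1 - W1) * D2 + A * W1 * (D2 - W2)) := by ring
  rw [e, norm_mul]
  have k1 : ‖(a - A) * D1 * D2‖ ≤ δ * (B + 1) * (B + 1) := by
    rw [norm_mul, norm_mul]; gcongr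
  have k2 : ‖A * (D1 - W1) * D2‖ ≤ KA * δ * (B + 1) := by
    rw [norm_mul, norm_mul]; gcongr
  have k3 : ‖A * W1 * (D2 - W2)‖ ≤ KA * B * δ := by
    rw [norm_mul, norm_mul]; gcongr
  have k4 : ‖(a - A) * D1 * D2 + A * (D1 - W1) * D2 + A * W1 * (D2 - W2)‖ ≤
      δ * ((B + 1) ^ 2 + KA * (B + 1) + KA * B) := by
    refine (norm_add₃_le).trans ?_
    calc _ ≤ δ * (B + 1) * (B + 1) + KA * δ * (B + 1) + KA * B * δ := add_le_add_three k1 k2 k3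
      _ = _ := by ring
  calc _ ≤ KE * (δ * ((B + 1) ^ 2 + KA * (B + 1) + KA * B)) := by gcongr
    _ = _ := by ring

/-- the factors `wt + θ c Pt` -/
noncomputable def ma2U (b θ : ℝ) (c : ℂ) (x : ℝ) : ℂ :=
  (wt b (1 - x) : ℝ) + θ * c * (Pt b (1 - x) : ℝ)

theorem ma2_U_bound {b θ C : ℝ} (hb : |b| ≤ 1 / 2) (hθ : 0 < θ) (hθ1 : θ ≤ 1) {c : ℂ}
    (hc : ‖c‖ ≤ C) {x : ℝ} (h0 : 0 ≤ x) (h1 : x ≤ 1) : ‖ma2U b θ c x‖ ≤ 3 / 2 * (1 + C) := by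
  have w1 := wt_bounds hb (x := 1 - x) (by linarith) (by linarith)
  have w2 := Pt_bounds hb (x := 1 - x) (by linarith) (by linarith)
  have hC : 0 ≤ C := (norm_nonneg _).trans hc
  unfold ma2U
  refine (norm_add_le _ _).trans ?_
  rw [norm_mul, norm_mul, Complex.norm_real, Complex.norm_real, Complex.norm_real,
    Real.norm_of_nonneg (by linarith), Real.norm_of_nonneg w2.1, Real.norm_of_nonneg hθ.le]
  have : θ * ‖c‖ * Pt b (1 - x) ≤ 1 * C * (3 / 2) := by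
    apply mul_le_mul (mul_le_mul hθ1 hc (norm_nonneg _) (by norm_num)) w2.2 w2.1 (by positivity)
  linarith

theorem ma2_U_deriv (b θ : ℝ) (c : ℂ) (x : ℝ) :
    HasDerivAt (ma2U b θ c) ((2 * b : ℝ) - θ * c * (wt b (1 - x) : ℝ)) x := by
  have h1 : HasDerivAt (fun x : ℝ => wt b (1 - x)) (2 * b) x := by
    have h : HasDerivAt (fun x : ℝ => 1 + b * (1 - 2 * (1 - x))) (b * (-(2 * (-1)))) x := by
      have h0 : HasDerivAt (fun x : ℝ => 1 - x) (-1) x := by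
        simpa using (hasDerivAt_id x).const_sub 1
      exact (((h0.const_mul 2).const_sub 1).const_mul b).const_add 1
    refine h.congr_deriv ?_
    ring
  have h2 : HasDerivAt (fun x : ℝ => Pt b (1 - x)) (-(wt b (1 - x))) x := by
    have h0 : HasDerivAt (fun x : ℝ => 1 - x) (-1) x := by
      simpa using (hasDerivAt_id x).const_sub 1
    have := (Pt_deriv b (1 - x)).comp x h0
    refine this.congr_deriv ?_
    ring
  have h3 := h1.ofReal_comp.add (h2.ofReal_comp.const_mul ((θ : ℂ) * c))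
  refine h3.congr_deriv ?_
  push_cast
  ring

theorem ma2_U'_bound {b θ C : ℝ} (hb : |b| ≤ 1 / 2) (hθ : 0 < θ) (hθ1 : θ ≤ 1) {c : ℂ}
    (hc : ‖c‖ ≤ C) {x : ℝ} (h0 : 0 ≤ x) (h1 : x ≤ 1) :
    ‖((2 * b : ℝ) : ℂ) - θ * c * (wt b (1 - x) : ℝ)‖ ≤ 3 / 2 * (1 + C) := by
  have w1 := wt_bounds hb (x := 1 - x) (by linarith) (by linarith)
  have hC : 0 ≤ C := (norm_nonneg _).trans hc
  refine (norm_sub_le _ _).trans ?_
  rw [norm_mul, norm_mul, Complex.norm_real, Complex.norm_real, Complex.norm_real,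
    Real.norm_of_nonneg (by linarith : 0 ≤ wt b (1 - x)), Real.norm_of_nonneg hθ.le,
    Real.norm_eq_abs, abs_mul, abs_two]
  have : θ * ‖c‖ * wt b (1 - x) ≤ 1 * C * (3 / 2) := by
    apply mul_le_mul (mul_le_mul hθ1 hc (norm_nonneg _) (by norm_num)) w1.2 (by linarith)
      (by positivity)
  linarith

/-- the integrand of `II` -/
noncomputable def ma2F (b θ : ℝ) (c₁ c₂ c₃ : ℂ) (u : ℝ) : ℂ :=
  Complex.exp (θ * (c₃ - c₁ - c₂) * u) * ma2U b θ c₁ u * ma2U b θ c₂ u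

noncomputable def ma2F' (b θ : ℝ) (c₁ c₂ c₃ : ℂ) (u : ℝ) : ℂ :=
  (Complex.exp (θ * (c₃ - c₁ - c₂) * u) * (θ * (c₃ - c₁ - c₂)) * ma2U b θ c₁ u +
    Complex.exp (θ * (c₃ - c₁ - c₂) * u) * ((2 * b : ℝ) - θ * c₁ * (wt b (1 - u) : ℝ))) *
    ma2U b θ c₂ u +
  Complex.exp (θ * (c₃ - c₁ - c₂) * u) * ma2U b θ c₁ u *
    ((2 * b : ℝ) - θ * c₂ * (wt b (1 - u) : ℝ))

theorem ma2_F_deriv (b θ : ℝ) (c₁ c₂ c₃ : ℂ) (x : ℝ) :
    HasDerivAt (ma2F b θ c₁ c₂ c₃) (ma2F' b θ c₁ c₂ c₃ x) x := by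
  have h1 : HasDerivAt (fun u : ℝ => Complex.exp (θ * (c₃ - c₁ - c₂) * u))
      (Complex.exp (θ * (c₃ - c₁ - c₂) * x) * (θ * (c₃ - c₁ - c₂))) x := by
    have h : HasDerivAt (fun u : ℝ => (θ : ℂ) * (c₃ - c₁ - c₂) * u) (θ * (c₃ - c₁ - c₂)) x := by
      simpa using (Complex.ofRealCLM.hasDerivAt (x := x)).const_mul ((θ : ℂ) * (c₃ - c₁ - c₂))
    exact h.cexp
  exact (h1.mul (ma2_U_deriv b θ c₁ x)).mul (ma2_U_deriv b θ c₂ x)

theorem ma2_wt_cont (b : ℝ) : Continuous (fun u : ℝ => wt b (1 - u)) := by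
  unfold wt; fun_prop

theorem ma2_Pt_cont (b : ℝ) : Continuous (fun u : ℝ => Pt b (1 - u)) := by
  unfold Pt; fun_prop

theorem ma2_F'_cont (b θ : ℝ) (c₁ c₂ c₃ : ℂ) : Continuous (ma2F' b θ c₁ c₂ c₃) := by
  have h1 := Complex.continuous_ofReal.comp (ma2_wt_cont b)
  have h2 := Complex.continuous_ofReal.comp (ma2_Pt_cont b)
  simp only [Function.comp_def] at h1 h2
  unfold ma2F' ma2U
  fun_prop

theorem ma2_exp {θ C : ℝ} (hθ : 0 < θ) (hθ1 : θ ≤ 1) {c₁ c₂ c₃ : ℂ} (h1 : ‖c₁‖ ≤ C)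
    (h2 : ‖c₂‖ ≤ C) (h3 : ‖c₃‖ ≤ C) {x : ℝ} (hx0 : 0 ≤ x) (hx1 : x ≤ 1) :
    ‖(θ : ℂ) * (c₃ - c₁ - c₂)‖ ≤ 3 * C ∧
    ‖Complex.exp (θ * (c₃ - c₁ - c₂) * x)‖ ≤ Real.exp (3 * C) := by
  have hC : 0 ≤ C := (norm_nonneg _).trans h1
  have k1 : ‖c₃ - c₁ - c₂‖ ≤ 3 * C := by
    have := norm_sub_le (c₃ - c₁) c₂
    have := norm_sub_le c₃ c₁
    linarith
  have k2 : ‖(θ : ℂ) * (c₃ - c₁ - c₂)‖ ≤ 3 * C := by
    rw [norm_mul, Complex.norm_real, Real.norm_of_nonneg hθ.le]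
    calc θ * ‖c₃ - c₁ - c₂‖ ≤ 1 * (3 * C) := mul_le_mul hθ1 k1 (norm_nonneg _) (by norm_num)
      _ = _ := one_mul _
  refine ⟨k2, ?_⟩
  rw [Complex.norm_exp]
  apply Real.exp_le_exp.mpr
  refine (Complex.re_le_norm _).trans ?_
  rw [norm_mul, Complex.norm_real, Real.norm_of_nonneg hx0]
  calc _ ≤ 3 * C * 1 := mul_le_mul k2 hx1 hx0 (by positivity)
    _ = _ := mul_one _

theorem ma2_F_bound {b θ C : ℝ} (hb : |b| ≤ 1 / 2) (hθ : 0 < θ) (hθ1 : θ ≤ 1) {c₁ c₂ c₃ : ℂ}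
    (h1 : ‖c₁‖ ≤ C) (h2 : ‖c₂‖ ≤ C) (h3 : ‖c₃‖ ≤ C) {x : ℝ} (hx0 : 0 ≤ x) (hx1 : x ≤ 1) :
    ‖ma2F b θ c₁ c₂ c₃ x‖ ≤ Real.exp (3 * C) * (3 / 2 * (1 + C)) ^ 2 * (3 * C + 3) ∧
    ‖ma2F' b θ c₁ c₂ c₃ x‖ ≤ Real.exp (3 * C) * (3 / 2 * (1 + C)) ^ 2 * (3 * C + 3) := by
  have hC : 0 ≤ C := (norm_nonneg _).trans h1
  obtain ⟨k1, k2⟩ := ma2_exp hθ hθ1 h1 h2 h3 hx0 hx1
  have u1 := ma2_U_bound hb hθ hθ1 h1 hx0 hx1
  have u2 := ma2_U_bound hb hθ hθ1 h2 hx0 hx1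
  have v1 := ma2_U'_bound hb hθ hθ1 h1 hx0 hx1
  have v2 := ma2_U'_bound hb hθ hθ1 h2 hx0 hx1
  set B : ℝ := 3 / 2 * (1 + C) with hB
  set X : ℝ := Real.exp (3 * C) with hX
  have hB0 : 0 ≤ B := by positivity
  have hX0 : 0 ≤ X := (Real.exp_pos _).le
  constructor
  · unfold ma2F
    rw [norm_mul, norm_mul]
    calc _ ≤ X * B * B := by gcongr
      _ ≤ X * B ^ 2 * (3 * C + 3) := by
        have : X * B * B = X * B ^ 2 * 1 := by ring
        rw [this]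
        apply mul_le_mul_of_nonneg_left _ (by positivity)
        linarith
  · unfold ma2F'
    refine (norm_add_le _ _).trans ?_
    rw [norm_mul, norm_mul (Complex.exp _ * _)]
    have w1 : ‖Complex.exp (θ * (c₃ - c₁ - c₂) * x) * (θ * (c₃ - c₁ - c₂)) * ma2U b θ c₁ x +
        Complex.exp (θ * (c₃ - c₁ - c₂) * x) * ((2 * b : ℝ) - θ * c₁ * (wt b (1 - x) : ℝ))‖ ≤
        X * (3 * C) * B + X * B := by
      refine (norm_add_le _ _).trans ?_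
      rw [norm_mul, norm_mul, norm_mul (Complex.exp _)]
      gcongr
    have w2 : ‖Complex.exp (θ * (c₃ - c₁ - c₂) * x) * ma2U b θ c₁ x‖ ≤ X * B := by
      rw [norm_mul]; gcongr
    calc _ ≤ (X * (3 * C) * B + X * B) * B + X * B * B := by gcongr
      _ = X * B ^ 2 * (3 * C + 2) := by ring
      _ ≤ _ := by
        apply mul_le_mul_of_nonneg_left _ (by positivity)
        linarith

/-- the final estimate -/
theorem ma2_end {x G φL ρθ ε1 ε2 η K1 K2 ε : ℝ} {S Ic : ℂ} (hx : 0 < x) (hG : 0 < G)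
    (hρθ : 0 < ρθ) (hxe : x = ρθ * φL) (hφL : 0 < φL) (h1 : |G - x| ≤ η * x) (hη : η ≤ 1 / 2)
    (hS : ‖S - (x : ℂ) * Ic‖ ≤ 2 * ε1 * K1 * G + ε2 * φL) (hI : ‖Ic‖ ≤ K2) (h1' : 0 ≤ ε1)
    (hK1 : 0 ≤ K1) (h2' : 0 ≤ ε2)
    (he : 6 * η * K2 + 4 * ε1 * K1 + 4 * ε2 / ρθ ≤ ε) :
    ‖(x : ℂ) * (S / (G : ℂ) ^ 2) - Ic‖ ≤ ε := by
  have hη0 : 0 ≤ η := by
    have := (abs_nonneg _).trans h1
    exact nonneg_of_mul_nonneg_left this hx
  obtain ⟨g1, g2⟩ := abs_le.mp h1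
  have hGx : x / 2 ≤ G := by nlinarith
  have hxG : x / G ≤ 2 := by rw [div_le_iff₀ hG]; linarith
  have hxG0 : 0 < x / G := by positivity
  have hK2 : 0 ≤ K2 := (norm_nonneg _).trans hI
  have hd : |x / G - 1| ≤ 2 * η := by
    have e : x / G - 1 = (x - G) / G := by field_simp
    rw [e, abs_div, abs_of_pos hG, div_le_iff₀ hG, abs_sub_comm]
    calc |G - x| ≤ η * x := h1
      _ ≤ η * (2 * G) := by gcongr; linarith
      _ = _ := by ring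
  have hd2 : |(x / G) ^ 2 - 1| ≤ 6 * η := by
    have e : (x / G) ^ 2 - 1 = (x / G - 1) * (x / G + 1) := by ring
    rw [e, abs_mul]
    have : |x / G + 1| ≤ 3 := by
      rw [abs_of_pos (by linarith)]; linarith
    calc |x / G - 1| * |x / G + 1| ≤ 2 * η * 3 := mul_le_mul hd this (abs_nonneg _) (by positivity)
      _ = _ := by ring
  have hGc : (G : ℂ) ≠ 0 := by exact_mod_cast hG.ne'
  have e : (x : ℂ) * (S / (G : ℂ) ^ 2) - Ic =
      (((x / G) ^ 2 - 1 : ℝ) : ℂ) * Ic + ((x / G ^ 2 : ℝ) : ℂ) * (S - (x : ℂ) * Ic) := by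
    push_cast
    field_simp
    ring
  rw [e]
  refine (norm_add_le _ _).trans ?_
  rw [norm_mul, norm_mul, Complex.norm_real, Complex.norm_real, Real.norm_eq_abs, Real.norm_eq_abs,
    abs_of_pos (by positivity : 0 < x / G ^ 2)]
  have k1 : |(x / G) ^ 2 - 1| * ‖Ic‖ ≤ 6 * η * K2 :=
    mul_le_mul hd2 hI (norm_nonneg _) (by positivity)
  have k2 : x / G ^ 2 * ‖S - (x : ℂ) * Ic‖ ≤ 4 * ε1 * K1 + 4 * ε2 / ρθ := by
    calc _ ≤ x / G ^ 2 * (2 * ε1 * K1 * G + ε2 * φL) := by gcongr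
      _ = x / G * (2 * ε1 * K1) + (x / G) ^ 2 * (ε2 / ρθ) := by
        have : φL = x / ρθ := by rw [hxe]; field_simp
        rw [this]
        field_simp
      _ ≤ 2 * (2 * ε1 * K1) + 2 ^ 2 * (ε2 / ρθ) := by gcongr
      _ = _ := by ring
  linarith

theorem master_pr [DecidableEq P] (hN : Good N) {ρ : ℝ} (hC : Cnt N ρ) {b θ C ε : ℝ}
    (hb : |b| ≤ 1 / 2) (hθ : 0 < θ) (hθ1 : θ ≤ 1) (hC0 : 0 < C) (hε : 0 < ε) :
    ∃ L₀ : ℝ, 1 ≤ L₀ ∧ ∀ L, L₀ ≤ L → ∀ Q : Finset P, lg N Q ≤ L → ∀ c₁ c₂ c₃ : ℂ,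
      ‖c₁‖ ≤ C → ‖c₂‖ ≤ C → ‖c₃‖ ≤ C →
        ‖(ρ * ph N Q * (θ * L) : ℝ) * Ms N b θ L Q c₁ c₂ c₃ - II b θ c₁ c₂ c₃‖ ≤ ε := by
  have hρ : 0 < ρ := hC.1
  set B : ℝ := 3 / 2 * (1 + C) with hB
  set K1 : ℝ := Real.exp (2 * C) * ((B + 1) ^ 2 + Real.exp C * (B + 1) + Real.exp C * B) with hK1
  set K2 : ℝ := Real.exp (3 * C) * B ^ 2 * (3 * C + 3) with hK2
  have hB0 : 0 < B := by positivity
  have hK10 : 0 < K1 := by positivity
  have hK20 : 0 < K2 := by positivity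
  set ρθ : ℝ := ρ * θ with hρθ
  have hρθ0 : 0 < ρθ := by positivity
  -- choice of the small numbers
  set ε1 : ℝ := min 1 (ε / (12 * K1)) with hε1
  set ε2 : ℝ := ε * ρθ / 12 with hε2
  set η : ℝ := min (1 / 2) (ε / (18 * K2)) with hη
  have hε10 : 0 < ε1 := by positivity
  have hε20 : 0 < ε2 := by positivity
  have hη0 : 0 < η := by positivity
  obtain ⟨La, hLa, ja⟩ := jordan hN hC0 hε10
  obtain ⟨Lb, hLb, jb⟩ := DW_asymp hN hC hb hθ hθ1 hC0 hε10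
  obtain ⟨Lc, hLc, jc⟩ := GG_weight hN hC (A := 1) one_pos hK20 hε20
  obtain ⟨Ld, hLd, jd⟩ := Gw_asymp hN hC hb hθ hθ1 (ε := η * ρθ) (by positivity)
  refine ⟨max (max La Lb) (max Lc Ld), hLa.trans ((le_max_left _ _).trans (le_max_left _ _)), ?_⟩
  intro L hL Q hQ c₁ c₂ c₃ h1 h2 h3
  have hLa' : La ≤ L := ((le_max_left _ _).trans (le_max_left _ _)).trans hL
  have hLb' : Lb ≤ L := ((le_max_right _ _).trans (le_max_left _ _)).trans hL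
  have hLc' : Lc ≤ L := ((le_max_left _ _).trans (le_max_right _ _)).trans hL
  have hLd' : Ld ≤ L := ((le_max_right _ _).trans (le_max_right _ _)).trans hL
  have hL1 : 1 ≤ L := hLa.trans hLa'
  have hL0 : 0 < L := by linarith
  set T : ℝ := θ * L with hT
  have hT0 : 0 < T := by positivity
  have hTL : T ≤ L := by
    rw [hT]; nlinarith
  obtain ⟨hG0, hGG⟩ := Gw_pos hN hb hT0 Q
  set G : ℝ := Gw N b T Q with hG
  have hφ := ph_pos hN Q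
  have hLC : (L : ℂ) ≠ 0 := by exact_mod_cast hL0.ne'
  have hTC : (T : ℂ) ≠ 0 := by exact_mod_cast hT0.ne'
  have hθC : (θ : ℂ) ≠ 0 := by exact_mod_cast hθ.ne'
  -- the sum
  set S : ℂ := ∑ e ∈ SF N Q T,
      ((∏ p ∈ e, (Complex.exp ((1 + c₃ / L) * Real.log (N p)) - 1)) / (vf N e : ℝ)) *
      Complex.exp (-((c₁ + c₂) / L * lg N e)) *
      DW N b T Q e (c₁ / L) * DW N b T Q e (c₂ / L) * ((vf N e : ℝ) : ℂ)⁻¹ with hS
  have hMs : Ms N b θ L Q c₁ c₂ c₃ = S / (G : ℂ) ^ 2 := by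
    rw [Ms_eq hN hL0, hS, Finset.sum_div]
    refine Finset.sum_congr rfl fun e he => ?_
    have hv : ((vf N e : ℝ) : ℂ) ≠ 0 := by
      have := one_le_vf hN e
      exact_mod_cast (by linarith : (0:ℝ) < vf N e).ne'
    have hGc : (G : ℂ) ≠ 0 := by exact_mod_cast hG0.ne'
    rw [← hT, ← hG]
    field_simp
  -- the estimate of the sum
  have hterm : ∀ e ∈ SF N Q T,
      ‖((∏ p ∈ e, (Complex.exp ((1 + c₃ / L) * Real.log (N p)) - 1)) / (vf N e : ℝ)) *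
        Complex.exp (-((c₁ + c₂) / L * lg N e)) *
        DW N b T Q e (c₁ / L) * DW N b T Q e (c₂ / L) -
        ma2F b θ c₁ c₂ c₃ (lg N e / T)‖ ≤ ε1 * K1 := by
    intro e he
    have hl := (mem_SF hN).mp he
    have hl0 := lg_nonneg hN e
    have hx0 : 0 ≤ lg N e / T := by positivity
    have hx1 : lg N e / T ≤ 1 := by rw [div_le_one hT0]; exact hl.2
    have ha := ja L hLa' e (hl.2.trans hTL) c₃ h3
    have hs : ∀ c : ℂ, ‖c‖ ≤ C → ‖c / (L : ℂ)‖ ≤ C / L := by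
      intro c hc
      rw [norm_div, Complex.norm_real, Real.norm_of_nonneg hL0.le]
      gcongr
    have hW : ∀ c : ℂ, ((wt b (1 - lg N e / (θ * L)) : ℝ) : ℂ) +
        c / L * (θ * L : ℝ) * (Pt b (1 - lg N e / (θ * L)) : ℝ) = ma2U b θ c (lg N e / T) := by
      intro c
      unfold ma2U
      rw [← hT]
      push_cast
      rw [hT]
      push_cast
      field_simp
    have hd1 := jb L hLb' Q hQ e he (c₁ / L) (hs c₁ h1)
    have hd2 := jb L hLb' Q hQ e he (c₂ / L) (hs c₂ h2)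
    rw [hW] at hd1 hd2
    have hE : ‖Complex.exp (-((c₁ + c₂) / L * lg N e))‖ ≤ Real.exp (2 * C) := by
      rw [Complex.norm_exp]
      apply Real.exp_le_exp.mpr
      refine (Complex.re_le_norm _).trans ?_
      rw [norm_neg, norm_mul, norm_div, Complex.norm_real, Complex.norm_real,
        Real.norm_of_nonneg hL0.le, Real.norm_of_nonneg hl0, div_mul_eq_mul_div,
        div_le_iff₀ hL0]
      have : ‖c₁ + c₂‖ ≤ 2 * C := (norm_add_le _ _).trans (by linarith)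
      calc _ ≤ 2 * C * L := mul_le_mul this (hl.2.trans hTL) hl0 (by positivity)
        _ = _ := rfl
    have hA : ‖Complex.exp (c₃ / L * lg N e)‖ ≤ Real.exp C := by
      rw [Complex.norm_exp]
      apply Real.exp_le_exp.mpr
      refine (Complex.re_le_norm _).trans ?_
      rw [norm_mul, norm_div, Complex.norm_real, Complex.norm_real,
        Real.norm_of_nonneg hL0.le, Real.norm_of_nonneg hl0, div_mul_eq_mul_div,
        div_le_iff₀ hL0]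
      exact mul_le_mul h3 (hl.2.trans hTL) hl0 (by positivity)
    have hfour := ma2_four ha hd1 hd2 (ma2_U_bound hb hθ hθ1 h1 hx0 hx1)
      (ma2_U_bound hb hθ hθ1 h2 hx0 hx1) hE hA (min_le_left _ _)
    have hF : Complex.exp (c₃ / L * lg N e) * Complex.exp (-((c₁ + c₂) / L * lg N e)) *
        ma2U b θ c₁ (lg N e / T) * ma2U b θ c₂ (lg N e / T) =
        ma2F b θ c₁ c₂ c₃ (lg N e / T) := by
      unfold ma2F
      rw [← Complex.exp_add]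
      congr 3
      rw [hT]
      push_cast
      field_simp
      ring
    rw [hF] at hfour
    exact hfour
  have hsum : ‖S - ∑ e ∈ SF N Q T, ma2F b θ c₁ c₂ c₃ (lg N e / T) * ((vf N e : ℝ) : ℂ)⁻¹‖ ≤
      2 * ε1 * K1 * G := by
    rw [hS, ← Finset.sum_sub_distrib]
    refine (norm_sum_le _ _).trans ?_
    have : ∀ e ∈ SF N Q T,
        ‖((∏ p ∈ e, (Complex.exp ((1 + c₃ / L) * Real.log (N p)) - 1)) / (vf N e : ℝ)) *
        Complex.exp (-((c₁ + c₂) / L * lg N e)) *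
        DW N b T Q e (c₁ / L) * DW N b T Q e (c₂ / L) * ((vf N e : ℝ) : ℂ)⁻¹ -
        ma2F b θ c₁ c₂ c₃ (lg N e / T) * ((vf N e : ℝ) : ℂ)⁻¹‖ ≤ ε1 * K1 * (vf N e)⁻¹ := by
      intro e he
      have hv : 0 < vf N e := by linarith [one_le_vf hN e]
      rw [← sub_mul, norm_mul, norm_inv, Complex.norm_real, Real.norm_of_nonneg hv.le]
      exact mul_le_mul_of_nonneg_right (hterm e he) (by positivity)
    refine (Finset.sum_le_sum this).trans ?_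
    rw [← Finset.mul_sum]
    have hgg : ∑ e ∈ SF N Q T, (vf N e)⁻¹ = GG N Q T := rfl
    rw [hgg]
    calc ε1 * K1 * GG N Q T ≤ ε1 * K1 * (2 * G) := by gcongr
      _ = _ := by ring
  have hw := jc L hLc' Q (by linarith) T hT0 (by linarith) (ma2F b θ c₁ c₂ c₃)
    (ma2F' b θ c₁ c₂ c₃) (fun x _ => ma2_F_deriv b θ c₁ c₂ c₃ x)
    (ma2_F'_cont b θ c₁ c₂ c₃).continuousOn
    (fun x hx => ma2_F_bound hb hθ hθ1 h1 h2 h3 hx.1 hx.2)
  have hII : II b θ c₁ c₂ c₃ = ∫ x in (0 : ℝ)..1, ma2F b θ c₁ c₂ c₃ x := rfl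
  rw [← hII] at hw
  have hIb : ‖II b θ c₁ c₂ c₃‖ ≤ K2 := by
    rw [hII]
    have := intervalIntegral.norm_integral_le_of_norm_le_const (a := (0:ℝ)) (b := 1) (C := K2)
      (f := ma2F b θ c₁ c₂ c₃) (fun x hx => by
        rw [Set.uIoc_of_le zero_le_one] at hx
        exact (ma2_F_bound hb hθ hθ1 h1 h2 h3 hx.1.le hx.2).1)
    simpa using this
  have hx0 : 0 < ρ * ph N Q * T := by positivity
  have hxe : ρ * ph N Q * T = ρθ * (ph N Q * L) := by rw [hT, hρθ]; ring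
  have hgw := jd L hLd' Q hQ
  rw [← hT, ← hG] at hgw
  have hgw' : |G - ρ * ph N Q * T| ≤ η * (ρ * ph N Q * T) := by
    refine hgw.trans (le_of_eq ?_)
    rw [hxe]; ring
  have hStot : ‖S - ((ρ * ph N Q * T : ℝ) : ℂ) * II b θ c₁ c₂ c₃‖ ≤
      2 * ε1 * K1 * G + ε2 * (ph N Q * L) := by
    have e : S - ((ρ * ph N Q * T : ℝ) : ℂ) * II b θ c₁ c₂ c₃ =
        (S - ∑ e ∈ SF N Q T, ma2F b θ c₁ c₂ c₃ (lg N e / T) * ((vf N e : ℝ) : ℂ)⁻¹) +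
        (∑ e ∈ SF N Q T, ma2F b θ c₁ c₂ c₃ (lg N e / T) * ((vf N e : ℝ) : ℂ)⁻¹ -
          ((ρ * ph N Q * T : ℝ) : ℂ) * II b θ c₁ c₂ c₃) := by ring
    rw [e]
    refine (norm_add_le _ _).trans (add_le_add hsum (hw.trans (le_of_eq ?_)))
    ring
  rw [hMs]
  refine ma2_end hx0 hG0 hρθ0 hxe (by positivity) hgw' (min_le_left _ _) hStot hIb hε10.le
    hK10.le hε20.le ?_
  have t1 : 6 * η * K2 ≤ ε / 3 := by
    have : η ≤ ε / (18 * K2) := min_le_right _ _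
    calc 6 * η * K2 ≤ 6 * (ε / (18 * K2)) * K2 := by gcongr
      _ = ε / 3 := by field_simp; norm_num
  have t2 : 4 * ε1 * K1 ≤ ε / 3 := by
    have : ε1 ≤ ε / (12 * K1) := min_le_right _ _
    calc 4 * ε1 * K1 ≤ 4 * (ε / (12 * K1)) * K1 := by gcongr
      _ = ε / 3 := by field_simp; norm_num
  have t3 : 4 * ε2 / ρθ = ε / 3 := by
    rw [hε2]; field_simp; norm_num
  linarith


alias master := master_pr

end Pool.Agent.LVA
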