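import Pool.Agent.Lib_helper92.LVA.Defs
import Pool.Agent.Lib_helper92.ASA.All
import Pool.Agent.Lib_helper92.LVAF.BA
import Pool.Agent.Lib_helper92.LVAF.MA2
import Pool.Agent.Lib_helper92.LVAF.KA
import Pool.Agent.Lib_helper92.LVAF.KC
import Pool.Agent.Lib_helper92.LVAF.KD
import Pool.Agent.Lib_helper92.LVAF.KE
import Pool.Agent.Lib_helper92.LVAF.KF1

/-!
# LVA, block KF2: the sum of the two diagonals
-/

namespace Pool.Agent.LVA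

open Complex MeasureTheory Filter Topology Set Pool.Agent.AS

variable {P : Type} {N : P → ℕ}

theorem kf2_prod (ex E p m I2 : ℂ) (c B e : ℝ) (he : 0 ≤ e) (he1 : e ≤ 1) (hB : 0 ≤ B)
    (hc : ‖E‖ ≤ c) (hex : ‖ex - E‖ ≤ e * c) (hp : ‖p - 1‖ ≤ e) (hm : ‖m - I2‖ ≤ e)
    (hI : ‖I2‖ ≤ B) :
    ‖ex * p * m - E * I2‖ ≤ e * (4 * c * (B + 1)) ∧ ‖ex * p * m‖ ≤ 4 * c * (B + 1) := by
  have hc0 : 0 ≤ c := (norm_nonneg _).trans hc
  have hec : e * c ≤ c := by nlinarith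
  have h1 : ‖ex‖ ≤ 2 * c := by
    have : ex = (ex - E) + E := by ring
    rw [this]
    refine (norm_add_le _ _).trans ?_
    linarith
  have h2 : ‖p‖ ≤ 2 := by
    have : p = (p - 1) + 1 := by ring
    rw [this]
    refine (norm_add_le _ _).trans ?_
    rw [norm_one]
    linarith
  have h3 : ‖m‖ ≤ B + 1 := by
    have : m = (m - I2) + I2 := by ring
    rw [this]
    refine (norm_add_le _ _).trans ?_
    linarith
  constructor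
  · have h4 : ex * p * m - E * I2 = (ex - E) * p * m + E * (p - 1) * m + E * (m - I2) := by ring
    rw [h4]
    have h5 : ‖(ex - E) * p * m‖ ≤ (e * c) * 2 * (B + 1) := by
      rw [norm_mul, norm_mul]
      gcongr
    have h6 : ‖E * (p - 1) * m‖ ≤ c * e * (B + 1) := by
      rw [norm_mul, norm_mul]
      gcongr
    have h7 : ‖E * (m - I2)‖ ≤ c * e := by
      rw [norm_mul]
      gcongr
    refine (norm_add₃_le).trans ?_
    have h8 : 0 ≤ c * e * B := by positivity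
    nlinarith
  · calc ‖ex * p * m‖ = ‖ex‖ * ‖p‖ * ‖m‖ := by rw [norm_mul, norm_mul]
      _ ≤ (2 * c) * 2 * (B + 1) := by gcongr
      _ = 4 * c * (B + 1) := by ring

theorem kf2_II {b θ C : ℝ} (hb : |b| ≤ 1 / 2) (hθ : 0 < θ) (hθ1 : θ ≤ 1)
    (c₁ c₂ c₃ : ℂ) (h1 : ‖c₁‖ ≤ C) (h2 : ‖c₂‖ ≤ C) (h : c₃ - c₁ - c₂ = 0) :
    ‖II b θ c₁ c₂ c₃‖ ≤ (3 / 2 * (1 + C)) ^ 2 := by
  have hC0 : 0 ≤ C := (norm_nonneg _).trans h1
  have key : ∀ (c : ℂ) (u : ℝ), ‖c‖ ≤ C → 0 ≤ u → u ≤ 1 →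
      ‖((wt b (1 - u) : ℝ) : ℂ) + θ * c * (Pt b (1 - u) : ℝ)‖ ≤ 3 / 2 * (1 + C) := by
    intro c u hc h0 h1
    obtain ⟨a1, a2⟩ := wt_bounds hb (x := 1 - u) (by linarith) (by linarith)
    obtain ⟨a3, a4⟩ := Pt_bounds hb (x := 1 - u) (by linarith) (by linarith)
    refine (norm_add_le _ _).trans ?_
    rw [norm_mul, norm_mul, Complex.norm_real, Complex.norm_real, Complex.norm_real,
      Real.norm_of_nonneg (by linarith), Real.norm_of_nonneg hθ.le, Real.norm_of_nonneg a3]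
    have : θ * ‖c‖ * Pt b (1 - u) ≤ 1 * C * (3 / 2) := by gcongr
    linarith
  unfold II
  have h3 := intervalIntegral.norm_integral_le_of_norm_le_const
    (a := (0 : ℝ)) (b := 1) (C := (3 / 2 * (1 + C)) ^ 2)
    (f := fun u : ℝ => Complex.exp (θ * (c₃ - c₁ - c₂) * u) *
      ((wt b (1 - u) : ℝ) + θ * c₁ * (Pt b (1 - u) : ℝ)) *
      ((wt b (1 - u) : ℝ) + θ * c₂ * (Pt b (1 - u) : ℝ))) ?_
  · simpa using h3
  · intro u hu
    rw [uIoc_of_le zero_le_one] at hu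
    rw [h, mul_zero, zero_mul, Complex.exp_zero, one_mul, norm_mul, pow_two]
    have h4 := key c₁ u h1 hu.1.le hu.2
    have h5 := key c₂ u h2 hu.1.le hu.2
    gcongr

theorem kf2_alg {ρ₂ θ ρ φ L : ℝ} (hρ : 0 < ρ) (hθ : 0 < θ) (hφ : 0 < φ) (hL : 0 < L)
    (X x M1 M2 M3 p1 p2 J1 J2 ex y : ℂ) (hX : X ≠ 0) (hx : x = X / L) :
    (ρ₂ / x * ((φ : ℂ) * y * M1 - p1 * M2) + J1 * p1 * M2) +
      (ρ₂ / x * (ex * p2 * M3 - (φ : ℂ) * y * M1) + J2 * ex * p2 * M3) =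
    ((ρ₂ / (ρ * θ) : ℝ) : ℂ) / X * (ex * (p2 / φ) * ((ρ * φ * (θ * L) : ℝ) * M3) -
      1 * (p1 / φ) * ((ρ * φ * (θ * L) : ℝ) * M2)) +
    ((1 / (ρ * θ * L) : ℝ) : ℂ) * (J1 * (1 * (p1 / φ) * ((ρ * φ * (θ * L) : ℝ) * M2)) +
      J2 * (ex * (p2 / φ) * ((ρ * φ * (θ * L) : ℝ) * M3))) := by
  have h1 : (ρ : ℂ) ≠ 0 := by exact_mod_cast hρ.ne'
  have h2 : (θ : ℂ) ≠ 0 := by exact_mod_cast hθ.ne'
  have h3 : (φ : ℂ) ≠ 0 := by exact_mod_cast hφ.ne'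
  have h4 : (L : ℂ) ≠ 0 := by exact_mod_cast hL.ne'
  rw [hx]
  push_cast
  field_simp
  ring

theorem kf2_jk {k : ℝ → ℝ} {ρ₂ C : ℝ}
    (h : ∀ κ : ℂ, 1 / 2 ≤ κ.re → κ.re ≤ 3 / 2 →
      ∫ v : ℝ, ‖Complex.exp (κ * v) * (EE N k ρ₂ v : ℝ)‖ ≤ C) (z : ℂ) (hz : ‖z‖ ≤ 1 / 2) :
    ‖Jk N k ρ₂ (1 + z)‖ ≤ C := by
  have h1 := abs_le.1 ((Complex.abs_re_le_norm z).trans hz)
  refine (norm_integral_le_integral_norm _).trans (h (1 + z) ?_ ?_)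
  · rw [Complex.add_re, Complex.one_re]
    linarith
  · rw [Complex.add_re, Complex.one_re]
    linarith

theorem kf2_ps {φ e : ℝ} (hφ : 0 < φ) {p : ℂ} (h : ‖p - (φ : ℝ)‖ ≤ e * φ) :
    ‖p / (φ : ℂ) - 1‖ ≤ e := by
  have h3 : (φ : ℂ) ≠ 0 := by exact_mod_cast hφ.ne'
  have h4 : p / (φ : ℂ) - 1 = (p - (φ : ℝ)) / (φ : ℂ) := by
    field_simp
  rw [h4, norm_div, Complex.norm_real, Real.norm_of_nonneg hφ.le, div_le_iff₀ hφ]
  exact h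

theorem kf2_exp {X x : ℂ} {L ℓ δ₀ C e : ℝ} (hL : 0 < L) (hX : ‖X‖ ≤ C) (hx : x = X / L)
    (hℓ : |ℓ - L| ≤ δ₀) (h1 : C * δ₀ ≤ L) (h2 : 2 * (C * δ₀) ≤ e * L) :
    ‖Complex.exp (x * ℓ) - Complex.exp X‖ ≤ e * Real.exp C ∧ ‖Complex.exp X‖ ≤ Real.exp C := by
  have hC : 0 ≤ C := (norm_nonneg _).trans hX
  have h4 : (L : ℂ) ≠ 0 := by exact_mod_cast hL.ne'
  have h5 : ‖Complex.exp X‖ ≤ Real.exp C := by
    rw [Complex.norm_exp]
    exact Real.exp_le_exp.2 ((Complex.re_le_norm X).trans hX)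
  refine ⟨?_, h5⟩
  set d : ℂ := X / L * ((ℓ - L : ℝ) : ℂ) with hd
  have h6 : x * ℓ = X + d := by
    rw [hd, hx]
    push_cast
    field_simp
    ring
  have h7 : ‖d‖ ≤ C * δ₀ / L := by
    rw [hd, norm_mul, norm_div, Complex.norm_real, Complex.norm_real, Real.norm_of_nonneg hL.le,
      Real.norm_eq_abs]
    calc ‖X‖ / L * |ℓ - L| ≤ C / L * δ₀ := by gcongr
      _ = C * δ₀ / L := by ring
  have h8 : C * δ₀ / L ≤ 1 := by
    rw [div_le_one hL]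
    exact h1
  have h9 := Complex.norm_exp_sub_one_le (h7.trans h8)
  have h10 : 2 * (C * δ₀ / L) ≤ e := by
    rw [← mul_div_assoc, div_le_iff₀ hL]
    exact h2
  have h11 : Complex.exp (x * ℓ) - Complex.exp X = Complex.exp X * (Complex.exp d - 1) := by
    rw [h6, Complex.exp_add]
    ring
  rw [h11, norm_mul, mul_comm e]
  have h12 : ‖Complex.exp d - 1‖ ≤ e := by linarith
  gcongr

theorem sum_asymp_pr [DecidableEq P] (hN : Good N) {ρ : ℝ} (hC : Cnt N ρ) {k₁ k₂ : ℝ → ℝ} {ρ₂ : ℝ}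
    (hk₁ : Kern N k₁ ρ₂) (hk₂ : Kern N k₂ ρ₂) {b θ R ε₀ δ₀ ε : ℝ} (hb : |b| ≤ 1 / 2)
    (hθ : 0 < θ) (hR : 1 ≤ R) (hε₀ : 0 < ε₀) (hδ₀ : 0 ≤ δ₀) (hε : 0 < ε) :
    ∃ L₀ : ℝ, 1 ≤ L₀ ∧ ∀ L, L₀ ≤ L → ∀ Q : Finset P, lg N Q ≤ L → ∀ ℓ : ℝ, |ℓ - L| ≤ δ₀ →
      ∀ U : ℝ, (2 * θ + 6 * ε₀) * L ≤ U → U ≤ (1 - 6 * ε₀) * L →
      ∀ α β : ℂ, ‖α‖ ≤ 1 / 2 → ‖β‖ ≤ 1 / 2 →
      ‖(∫ u in Ioi (-U), dirF N k₁ b θ R L Q (fun y => Complex.exp (α * y))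
          (fun y => Complex.exp (β * y)) u) +
        (∫ u in Iio (-U), dualF N k₂ b θ R L ℓ Q (fun y => Complex.exp (α * y))
          (fun y => Complex.exp (β * y)) u) - (ρ₂ / ρ : ℝ) * TT b θ R α β‖ ≤ ε := by
  by_cases hθ1 : θ ≤ 1
  swap
  · refine ⟨1, le_rfl, fun L hL Q hQ ℓ hℓ U h1 h2 => ?_⟩
    exfalso
    push Not at hθ1
    nlinarith
  have hρ : 0 < ρ := hC.1
  have hρ₂ : 0 ≤ ρ₂ := hk₁.rho
  set C : ℝ := 2 * R + 1 with hCdef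
  have hC0 : 0 < C := by linarith
  set B : ℝ := (3 / 2 * (1 + C)) ^ 2 with hB
  have hB0 : 0 ≤ B := by positivity
  set K : ℝ := 4 * Real.exp C * (B + 1) with hK
  have hexp1 : 1 ≤ Real.exp C := Real.one_le_exp hC0.le
  have hK0 : 0 < K := by positivity
  have hK1 : 4 * 1 * (B + 1) ≤ K := by
    rw [hK]
    gcongr
  set e : ℝ := min 1 (ε * (ρ * θ) / (16 * (ρ₂ + 1) * K)) with he
  have he0 : 0 < e := lt_min one_pos (by positivity)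
  have he1 : e ≤ 1 := min_le_left _ _
  have he2 : e ≤ ε * (ρ * θ) / (16 * (ρ₂ + 1) * K) := min_le_right _ _
  obtain ⟨L1, hL1, H1⟩ := dir_asymp hN hC hk₁ hb hθ hθ1 hR hε₀ (by positivity : 0 < ε / 8)
  obtain ⟨L2, hL2, H2⟩ := dual_asymp hN hC hk₂ hb hθ hθ1 hR hε₀ hδ₀ (by positivity : 0 < ε / 8)
  obtain ⟨L3, hL3, H3⟩ := master hN hC hb hθ hθ1 hC0 he0
  obtain ⟨L4, hL4, H4⟩ := ps_asymp hN hC0 he0
  obtain ⟨j1, hj1, G1⟩ := EE_tot hN hk₁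
  obtain ⟨j2, hj2, G2⟩ := EE_tot hN hk₂
  have t5 : 0 ≤ 2 * (C * δ₀) / e := by positivity
  have t6 : 0 ≤ C * δ₀ := by positivity
  have t7 : 0 ≤ 8 * (j1 + j2) * K / (ρ * θ * ε) := by positivity
  refine ⟨L1 + L2 + L3 + L4 + 2 * C + 2 * (C * δ₀) / e + C * δ₀ +
    8 * (j1 + j2) * K / (ρ * θ * ε), by linarith, ?_⟩
  intro L hL Q hQ ℓ hℓ U hU1 hU2 α β hα hβ
  have hL0 : 0 < L := by linarith
  set X : ℂ := 2 * R - α - β with hX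
  set x : ℂ := X / L with hx
  set φ : ℝ := ph N Q with hφ
  have hφ0 : 0 < φ := ph_pos hN Q
  have hR' : ‖(R : ℂ)‖ = R := by
    rw [Complex.norm_real, Real.norm_of_nonneg (by linarith)]
  have h2R : ‖(2 * R : ℂ)‖ = 2 * R := by
    rw [norm_mul, hR']
    norm_num
  have hXle : ‖X‖ ≤ C := by
    rw [hX]
    refine (norm_sub_le _ _).trans ?_
    have := norm_sub_le (2 * R : ℂ) α
    rw [h2R] at this
    linarith
  have hXge : 1 ≤ ‖X‖ := by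
    have h1 : ‖(2 * R : ℂ)‖ ≤ ‖X‖ + ‖α‖ + ‖β‖ := by
      have : (2 * R : ℂ) = X + α + β := by
        rw [hX]
        ring
      rw [this]
      exact norm_add₃_le
    rw [h2R] at h1
    linarith
  have hX0 : X ≠ 0 := by
    rw [← norm_ne_zero_iff]
    linarith
  have hRa : ‖(R : ℂ) - α‖ ≤ C := (norm_sub_le _ _).trans (by rw [hR']; linarith)
  have hRb : ‖(R : ℂ) - β‖ ≤ C := (norm_sub_le _ _).trans (by rw [hR']; linarith)
  have hRa' : ‖α - (R : ℂ)‖ ≤ C := by rwa [norm_sub_rev]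
  have hRb' : ‖β - (R : ℂ)‖ ≤ C := by rwa [norm_sub_rev]
  have hnX : ‖-X‖ ≤ C := by rwa [norm_neg]
  -- the two diagonals
  have D1 := H1 L (by linarith) Q hQ U hU1 (hU2.trans (by nlinarith)) α β hα hβ X x rfl rfl
  have hU0 : 0 ≤ U := le_trans (by positivity) hU1
  have D2 := H2 L (by linarith) Q hQ ℓ hℓ U hU0 hU2 α β hα hβ X x rfl rfl
  have m2 := H3 L (by linarith) Q hQ (β - R) (α - R) (-X) hRb' hRa' hnX
  have m3 := H3 L (by linarith) Q hQ (R - α) (R - β) X hRa hRb hXle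
  have p1 := H4 L (by linarith) Q hQ (-X) hnX
  have p2 := H4 L (by linarith) Q hQ X hXle
  have e1 : (1 : ℂ) + -X / L = 1 - x := by
    rw [hx]
    ring
  rw [e1] at p1
  rw [← hx] at p2
  have q1 := kf2_ps hφ0 p1
  have q2 := kf2_ps hφ0 p2
  have b2 := kf2_II hb hθ hθ1 (β - R) (α - R) (-X) hRb' hRa' (by rw [hX]; ring)
  have b3 := kf2_II hb hθ hθ1 (R - α) (R - β) X hRa hRb (by rw [hX]; ring)
  have hxn : ‖x‖ ≤ 1 / 2 := by
    rw [hx, norm_div, Complex.norm_real, Real.norm_of_nonneg hL0.le, div_le_iff₀ hL0]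
    linarith
  have g1 : ‖Jk N k₁ ρ₂ (1 - x)‖ ≤ j1 := by
    have := kf2_jk G1 (-x) (by rwa [norm_neg])
    rwa [← sub_eq_add_neg] at this
  have g2 : ‖Jk N k₂ ρ₂ (1 + x)‖ ≤ j2 := kf2_jk G2 x hxn
  obtain ⟨x1, x2⟩ := kf2_exp (x := x) hL0 hXle hx hℓ (by linarith) (by
    have h1 : 2 * (C * δ₀) / e ≤ L := by linarith
    rw [div_le_iff₀ he0] at h1
    linarith : 2 * (C * δ₀) ≤ e * L)
  obtain ⟨r3, s3⟩ := kf2_prod _ _ _ _ _ (Real.exp C) B e he0.le he1 hB0 x2 x1 q2 m3 b3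
  obtain ⟨r2, s2⟩ := kf2_prod 1 1 _ _ _ 1 B e he0.le he1 hB0 (by rw [norm_one])
    (by rw [sub_self, norm_zero]; linarith) q1 m2 b2
  have hTT := II_TT (b := b) hθ α β X rfl hX0
  -- the sum of the main terms
  have halg := kf2_alg (ρ₂ := ρ₂) hρ hθ hφ0 hL0 X x (Ms N b θ L Q (R - α) (R - β) 0)
    (Ms N b θ L Q (β - R) (α - R) (-X)) (Ms N b θ L Q (R - α) (R - β) X) (ps N Q (1 - x))
    (ps N Q (1 + x)) (Jk N k₁ ρ₂ (1 - x)) (Jk N k₂ ρ₂ (1 + x)) (Complex.exp (x * ℓ))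
    (Complex.exp (x * U)) hX0 hx
  set S1 := ∫ u in Ioi (-U), dirF N k₁ b θ R L Q (fun y => Complex.exp (α * y))
          (fun y => Complex.exp (β * y)) u with hS1
  set S2 := ∫ u in Iio (-U), dualF N k₂ b θ R L ℓ Q (fun y => Complex.exp (α * y))
          (fun y => Complex.exp (β * y)) u with hS2
  set M1 := Ms N b θ L Q (R - α) (R - β) 0
  set M2 := Ms N b θ L Q (β - R) (α - R) (-X)
  set M3 := Ms N b θ L Q (R - α) (R - β) X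
  set P1 := ps N Q (1 - x)
  set P2 := ps N Q (1 + x)
  set J1 := Jk N k₁ ρ₂ (1 - x)
  set J2 := Jk N k₂ ρ₂ (1 + x)
  set Z3 := Complex.exp (x * ℓ) * (P2 / φ) * ((ρ * φ * (θ * L) : ℝ) * M3) with hZ3
  set Z2 := 1 * (P1 / φ) * ((ρ * φ * (θ * L) : ℝ) * M2) with hZ2
  set I2 := II b θ (β - R) (α - R) (-X)
  set I3 := II b θ (R - α) (R - β) X
  have hθc : (θ : ℂ) ≠ 0 := by exact_mod_cast hθ.ne'
  have hρc : (ρ : ℂ) ≠ 0 := by exact_mod_cast hρ.ne'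
  have hT : ((ρ₂ / ρ : ℝ) : ℂ) * TT b θ R α β =
      ((ρ₂ / (ρ * θ) : ℝ) : ℂ) / X * (Complex.exp X * I3 - 1 * I2) := by
    rw [← hTT]
    push_cast
    field_simp
  have hfin : S1 + S2 - ((ρ₂ / ρ : ℝ) : ℂ) * TT b θ R α β =
      (S1 - (ρ₂ / x * ((φ : ℂ) * Complex.exp (x * U) * M1 - P1 * M2) + J1 * P1 * M2)) +
      (S2 - (ρ₂ / x * (Complex.exp (x * ℓ) * P2 * M3 - (φ : ℂ) * Complex.exp (x * U) * M1) +
        J2 * Complex.exp (x * ℓ) * P2 * M3)) +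
      (((ρ₂ / (ρ * θ) : ℝ) : ℂ) / X * ((Z3 - Complex.exp X * I3) - (Z2 - 1 * I2)) +
        ((1 / (ρ * θ * L) : ℝ) : ℂ) * (J1 * Z2 + J2 * Z3)) := by
    rw [hT]
    linear_combination halg
  rw [hfin]
  have hA : ‖((ρ₂ / (ρ * θ) : ℝ) : ℂ) / X * ((Z3 - Complex.exp X * I3) - (Z2 - 1 * I2))‖ ≤
      ε / 8 := by
    rw [norm_mul, norm_div, Complex.norm_real, Real.norm_of_nonneg (by positivity)]
    have h1 : ‖(Z3 - Complex.exp X * I3) - (Z2 - 1 * I2)‖ ≤ 2 * (e * K) := by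
      refine (norm_sub_le _ _).trans ?_
      have h2 : e * (4 * 1 * (B + 1)) ≤ e * K := mul_le_mul_of_nonneg_left hK1 he0.le
      have h3 := r3
      have h4 := r2
      rw [← hK] at h3
      linarith
    calc ρ₂ / (ρ * θ) / ‖X‖ * ‖(Z3 - Complex.exp X * I3) - (Z2 - 1 * I2)‖
        ≤ ρ₂ / (ρ * θ) / 1 * (2 * (e * K)) := by gcongr
      _ ≤ ρ₂ / (ρ * θ) / 1 * (2 * ((ε * (ρ * θ) / (16 * (ρ₂ + 1) * K)) * K)) := by gcongr
      _ = ρ₂ / (ρ₂ + 1) * (ε / 8) := by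
        field_simp
        ring
      _ ≤ 1 * (ε / 8) := by
        gcongr
        rw [div_le_one (by linarith)]
        linarith
      _ = ε / 8 := one_mul _
  have hBb : ‖((1 / (ρ * θ * L) : ℝ) : ℂ) * (J1 * Z2 + J2 * Z3)‖ ≤ ε / 8 := by
    rw [norm_mul, Complex.norm_real, Real.norm_of_nonneg (by positivity)]
    have h1 : ‖J1 * Z2 + J2 * Z3‖ ≤ (j1 + j2) * K := by
      refine (norm_add_le _ _).trans ?_
      rw [norm_mul J1 Z2, norm_mul J2 Z3, add_mul]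
      have h2 : ‖Z2‖ ≤ K := s2.trans hK1
      have h3 : ‖Z3‖ ≤ K := s3
      gcongr
    have h2 : 8 * (j1 + j2) * K / (ρ * θ * ε) ≤ L := by linarith
    rw [div_le_iff₀ (by positivity)] at h2
    calc 1 / (ρ * θ * L) * ‖J1 * Z2 + J2 * Z3‖ ≤ 1 / (ρ * θ * L) * ((j1 + j2) * K) := by gcongr
      _ ≤ ε / 8 := by
        rw [one_div, inv_mul_le_iff₀ (by positivity)]
        linarith
  refine (norm_add₃_le).trans ?_
  have hAB := norm_add_le (((ρ₂ / (ρ * θ) : ℝ) : ℂ) / X *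
    ((Z3 - Complex.exp X * I3) - (Z2 - 1 * I2)))
    (((1 / (ρ * θ * L) : ℝ) : ℂ) * (J1 * Z2 + J2 * Z3))
  linarith

alias sum_asymp := sum_asymp_pr

end Pool.Agent.LVA
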