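import Pool.Agent.Lib_helper92.LVA.Defs
import Pool.Agent.Lib_helper92.ASA.All
import Pool.Agent.Lib_helper92.LVAF.KA
import Pool.Agent.Lib_helper92.LVAF.KC
import Pool.Agent.Lib_helper92.LVAF.CI
import Pool.Agent.Lib_helper92.LVAF.KF2

/-!
# Block LP of part A of LVK: from exponentials to the weight `1 + lm y`
-/

namespace Pool.Agent.LVA

open Complex MeasureTheory Filter Topology Set Pool.Agent.AS

variable {P : Type} {N : P → ℕ}

/-! ### One-parameter integrals -/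

/-- `v` times every exponential is integrable. -/
def LP_Adm (μ : Measure ℝ) (v : ℝ → ℂ) : Prop :=
  AEStronglyMeasurable v μ ∧ ∀ c : ℝ, Integrable (fun u => Real.exp (c * |u|) * ‖v u‖) μ

theorem LP_Adm_mul {μ : Measure ℝ} {v g : ℝ → ℂ} (hv : LP_Adm μ v) (hg : Continuous g) {B c : ℝ}
    (hB : ∀ u, ‖g u‖ ≤ B * Real.exp (c * |u|)) : LP_Adm μ (fun u => v u * g u) := by
  refine ⟨hv.1.mul hg.aestronglyMeasurable, fun d => ?_⟩
  refine Integrable.mono' ((hv.2 (d + c)).const_mul B) ?_ ?_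
  · exact (Real.continuous_exp.comp (continuous_const.mul continuous_abs)).aestronglyMeasurable.mul
      (hv.1.mul hg.aestronglyMeasurable).norm
  · refine Filter.Eventually.of_forall fun u => ?_
    rw [norm_mul, Real.norm_eq_abs, Real.abs_exp, norm_norm, norm_mul]
    have h1 := hB u
    have h2 : Real.exp ((d + c) * |u|) = Real.exp (d * |u|) * Real.exp (c * |u|) := by
      rw [← Real.exp_add]; congr 1; ring
    rw [h2]
    have h3 : 0 ≤ Real.exp (d * |u|) * ‖v u‖ := by positivity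
    calc Real.exp (d * |u|) * (‖v u‖ * ‖g u‖) = (Real.exp (d * |u|) * ‖v u‖) * ‖g u‖ := by ring
      _ ≤ (Real.exp (d * |u|) * ‖v u‖) * (B * Real.exp (c * |u|)) :=
          mul_le_mul_of_nonneg_left h1 h3
      _ = _ := by ring

theorem LP_Adm_int {μ : Measure ℝ} {v : ℝ → ℂ} (hv : LP_Adm μ v) : Integrable v μ := by
  refine (hv.2 0).mono' hv.1 (Filter.Eventually.of_forall fun u => ?_)
  simp

theorem LP_lin_bound (s p : ℝ) : ∃ B : ℝ, ∀ u : ℝ, ‖((s * u + p : ℝ) : ℂ)‖ ≤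
    B * Real.exp (1 * |u|) := by
  refine ⟨|s| + |p|, fun u => ?_⟩
  rw [Complex.norm_real, Real.norm_eq_abs, one_mul]
  have h1 : |s * u + p| ≤ |s| * |u| + |p| := (abs_add_le _ _).trans (by rw [abs_mul])
  have h2 : |u| ≤ Real.exp |u| := by linarith [Real.add_one_le_exp |u|]
  have h3 : 1 ≤ Real.exp |u| := Real.one_le_exp (abs_nonneg u)
  nlinarith [abs_nonneg s, abs_nonneg p]

theorem LP_exp_bound (z : ℂ) (s p : ℝ) : ∃ B c : ℝ, ∀ u : ℝ,
    ‖Complex.exp (z * (s * u + p : ℝ))‖ ≤ B * Real.exp (c * |u|) := by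
  refine ⟨Real.exp (‖z‖ * |p|), ‖z‖ * |s|, fun u => ?_⟩
  rw [Complex.norm_exp, ← Real.exp_add]
  apply Real.exp_le_exp.mpr
  have h1 : (z * (s * u + p : ℝ)).re ≤ ‖z‖ * |s * u + p| := by
    refine (Complex.re_le_norm _).trans ?_
    rw [norm_mul, Complex.norm_real, Real.norm_eq_abs]
  have h2 : |s * u + p| ≤ |s| * |u| + |p| := (abs_add_le _ _).trans (by rw [abs_mul])
  nlinarith [norm_nonneg z]

theorem LP_lin_cont (s p : ℝ) : Continuous (fun u : ℝ => ((s * u + p : ℝ) : ℂ)) := by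
  fun_prop

theorem LP_exp_cont (z : ℂ) (s p : ℝ) :
    Continuous (fun u : ℝ => Complex.exp (z * (s * u + p : ℝ))) := by
  fun_prop

theorem LP_deriv {μ : Measure ℝ} {v : ℝ → ℂ} (hv : LP_Adm μ v) (s p : ℝ) (z₀ : ℂ) :
    HasDerivAt (fun z : ℂ => ∫ u, v u * Complex.exp (z * (s * u + p : ℝ)) ∂μ)
      (∫ u, v u * ((s * u + p : ℝ) : ℂ) * Complex.exp (z₀ * (s * u + p : ℝ)) ∂μ) z₀ := by
  have key := hasDerivAt_integral_of_dominated_loc_of_deriv_le (μ := μ) (𝕜 := ℂ)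
    (F := fun z u => v u * Complex.exp (z * (s * u + p : ℝ)))
    (F' := fun z u => v u * ((s * u + p : ℝ) : ℂ) * Complex.exp (z * (s * u + p : ℝ)))
    (x₀ := z₀) (s := Metric.ball z₀ 1)
    (bound := fun u => ((|s| + |p|) * Real.exp ((‖z₀‖ + 1) * |p|)) *
      (Real.exp ((1 + (‖z₀‖ + 1) * |s|) * |u|) * ‖v u‖))
    (Metric.ball_mem_nhds z₀ one_pos) ?_ ?_ ?_ ?_ ?_ ?_
  · exact key.2
  · exact Filter.Eventually.of_forall fun z =>
      hv.1.mul (LP_exp_cont z s p).aestronglyMeasurable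
  · obtain ⟨B, c, hB⟩ := LP_exp_bound z₀ s p
    exact LP_Adm_int (LP_Adm_mul hv (LP_exp_cont z₀ s p) hB)
  · exact (hv.1.mul (LP_lin_cont s p).aestronglyMeasurable).mul
      (LP_exp_cont z₀ s p).aestronglyMeasurable
  · refine Filter.Eventually.of_forall fun u z hz => ?_
    rw [norm_mul, norm_mul, Complex.norm_real, Real.norm_eq_abs, Complex.norm_exp]
    have hz1 : ‖z‖ ≤ ‖z₀‖ + 1 := by
      have : ‖z - z₀‖ < 1 := by simpa [dist_eq_norm] using hz
      have h2 : ‖z‖ ≤ ‖z - z₀‖ + ‖z₀‖ := by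
        have := norm_add_le (z - z₀) z₀
        rwa [sub_add_cancel] at this
      linarith
    have h1 : (z * (s * u + p : ℝ)).re ≤ (‖z₀‖ + 1) * |p| + ((‖z₀‖ + 1) * |s|) * |u| := by
      have h2 : (z * (s * u + p : ℝ)).re ≤ ‖z‖ * |s * u + p| := by
        refine (Complex.re_le_norm _).trans ?_
        rw [norm_mul, Complex.norm_real, Real.norm_eq_abs]
      have h3 : |s * u + p| ≤ |s| * |u| + |p| := (abs_add_le _ _).trans (by rw [abs_mul])
      have h4 : ‖z‖ * |s * u + p| ≤ (‖z₀‖ + 1) * (|s| * |u| + |p|) :=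
        mul_le_mul hz1 h3 (abs_nonneg _) (by positivity)
      linarith
    have h5 : Real.exp ((z * (s * u + p : ℝ)).re) ≤
        Real.exp ((‖z₀‖ + 1) * |p|) * Real.exp (((‖z₀‖ + 1) * |s|) * |u|) := by
      rw [← Real.exp_add]
      exact Real.exp_le_exp.mpr h1
    have h6 : |s * u + p| ≤ (|s| + |p|) * Real.exp (1 * |u|) := by
      have h1 : |s * u + p| ≤ |s| * |u| + |p| := (abs_add_le _ _).trans (by rw [abs_mul])
      have h2 : |u| ≤ Real.exp |u| := by linarith [Real.add_one_le_exp |u|]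
      have h3 : 1 ≤ Real.exp |u| := Real.one_le_exp (abs_nonneg u)
      rw [one_mul]
      nlinarith [abs_nonneg s, abs_nonneg p]
    have h7 : Real.exp ((1 + (‖z₀‖ + 1) * |s|) * |u|) =
        Real.exp (1 * |u|) * Real.exp (((‖z₀‖ + 1) * |s|) * |u|) := by
      rw [← Real.exp_add]; congr 1; ring
    rw [h7]
    calc ‖v u‖ * |s * u + p| * Real.exp ((z * (s * u + p : ℝ)).re)
        ≤ ‖v u‖ * ((|s| + |p|) * Real.exp (1 * |u|)) *
          (Real.exp ((‖z₀‖ + 1) * |p|) * Real.exp (((‖z₀‖ + 1) * |s|) * |u|)) := by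
          gcongr
      _ = _ := by ring
  · exact (hv.2 _).const_mul _
  · refine Filter.Eventually.of_forall fun u z _ => ?_
    have h1 : HasDerivAt (fun z : ℂ => z * (s * u + p : ℝ)) ((s * u + p : ℝ) : ℂ) z := by
      simpa using (hasDerivAt_id z).mul_const ((s * u + p : ℝ) : ℂ)
    have h2 := (h1.cexp).const_mul (v u)
    refine h2.congr_deriv ?_
    show v u * (Complex.exp (z * (s * u + p : ℝ)) * ((s * u + p : ℝ) : ℂ)) =
      v u * ((s * u + p : ℝ) : ℂ) * Complex.exp (z * (s * u + p : ℝ))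
    ring

theorem LP_int4 {μ : Measure ℝ} {f₁ f₂ f₃ f₄ : ℝ → ℂ} (h₁ : Integrable f₁ μ)
    (h₂ : Integrable f₂ μ) (h₃ : Integrable f₃ μ) (h₄ : Integrable f₄ μ) (c₁ c₂ c₃ c₄ : ℂ) :
    (∫ u, (c₁ * f₁ u + c₂ * f₂ u + c₃ * f₃ u + c₄ * f₄ u) ∂μ) =
      c₁ * (∫ u, f₁ u ∂μ) + c₂ * (∫ u, f₂ u ∂μ) + c₃ * (∫ u, f₃ u ∂μ) + c₄ * (∫ u, f₄ u ∂μ) := by
  have j1 : Integrable (fun u => c₁ * f₁ u) μ := h₁.const_mul _
  have j2 : Integrable (fun u => c₂ * f₂ u) μ := h₂.const_mul _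
  have j3 : Integrable (fun u => c₃ * f₃ u) μ := h₃.const_mul _
  have j4 : Integrable (fun u => c₄ * f₄ u) μ := h₄.const_mul _
  have j12 : Integrable (fun u => c₁ * f₁ u + c₂ * f₂ u) μ := j1.add j2
  have j123 : Integrable (fun u => c₁ * f₁ u + c₂ * f₂ u + c₃ * f₃ u) μ := j12.add j3
  rw [integral_add j123 j4, integral_add j12 j3, integral_add j1 j2]
  simp only [integral_const_mul]

/-! ### The class of functions with a value -/

/-- Everything which `cauchy_two` needs, with the resulting value `v`. -/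
def LP_Ent (lm : ℝ) (F : ℂ → ℂ → ℂ) (v : ℂ) : Prop :=
  ∃ (F₁ : ℂ → ℂ) (g : ℂ),
    (∀ β : ℂ, Differentiable ℂ (fun α => F α β)) ∧
    (∀ β : ℂ, HasDerivAt (fun α => F α β) (F₁ β) 0) ∧
    Differentiable ℂ (fun β => F 0 β + lm * F₁ β) ∧
    HasDerivAt (fun β => F 0 β + lm * F₁ β) g 0 ∧
    F 0 0 + lm * F₁ 0 + lm * g = v

theorem LP_Ent_le {lm : ℝ} {F : ℂ → ℂ → ℂ} {v : ℂ} (h : LP_Ent lm F v) {ε : ℝ} (hε : 0 ≤ ε)
    (hb : ∀ α β : ℂ, ‖α‖ ≤ 1 / 2 → ‖β‖ ≤ 1 / 2 → ‖F α β‖ ≤ ε) :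
    ‖v‖ ≤ (1 + 2 * |lm|) ^ 2 * ε := by
  obtain ⟨F₁, g, h1, h2, h3, h4, h5⟩ := h
  rw [← h5]
  exact cauchy_two F F₁ g lm ε hε (fun β _ => h1 β) (fun β _ => h2 β) h3 h4 hb

theorem LP_Ent_add {lm : ℝ} {F G : ℂ → ℂ → ℂ} {v w : ℂ} (hF : LP_Ent lm F v)
    (hG : LP_Ent lm G w) : LP_Ent lm (fun α β => F α β + G α β) (v + w) := by
  obtain ⟨F₁, g, h1, h2, h3, h4, h5⟩ := hF
  obtain ⟨G₁, g', k1, k2, k3, k4, k5⟩ := hG
  refine ⟨fun β => F₁ β + G₁ β, g + g', fun β => (h1 β).add (k1 β), fun β => (h2 β).add (k2 β),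
    ?_, ?_, ?_⟩
  · have : (fun β => F 0 β + G 0 β + lm * (F₁ β + G₁ β)) =
        fun β => (F 0 β + lm * F₁ β) + (G 0 β + lm * G₁ β) := by
      funext β; ring
    rw [this]
    exact h3.add k3
  · have : (fun β => F 0 β + G 0 β + lm * (F₁ β + G₁ β)) =
        fun β => (F 0 β + lm * F₁ β) + (G 0 β + lm * G₁ β) := by
      funext β; ring
    rw [this]
    exact h4.add k4
  · rw [← h5, ← k5]; ring

theorem LP_Ent_smul {lm : ℝ} {F : ℂ → ℂ → ℂ} {v : ℂ} (hF : LP_Ent lm F v) (c : ℂ) :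
    LP_Ent lm (fun α β => c * F α β) (c * v) := by
  obtain ⟨F₁, g, h1, h2, h3, h4, h5⟩ := hF
  refine ⟨fun β => c * F₁ β, c * g, fun β => (h1 β).const_mul c, fun β => (h2 β).const_mul c,
    ?_, ?_, ?_⟩
  · have : (fun β => c * F 0 β + lm * (c * F₁ β)) = fun β => c * (F 0 β + lm * F₁ β) := by
      funext β; ring
    rw [this]
    exact h3.const_mul c
  · have : (fun β => c * F 0 β + lm * (c * F₁ β)) = fun β => c * (F 0 β + lm * F₁ β) := by
      funext β; ring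
    rw [this]
    exact h4.const_mul c
  · rw [← h5]; ring

theorem LP_Ent_sum {ι : Type} {lm : ℝ} (S : Finset ι) {F : ι → ℂ → ℂ → ℂ} {v : ι → ℂ}
    (hF : ∀ i ∈ S, LP_Ent lm (F i) (v i)) :
    LP_Ent lm (fun α β => ∑ i ∈ S, F i α β) (∑ i ∈ S, v i) := by
  classical
  induction S using Finset.induction_on with
  | empty =>
    refine ⟨fun _ => 0, 0, fun β => by simp, fun β => ?_, ?_, ?_, ?_⟩
    · simpa using hasDerivAt_const (0 : ℂ) (0 : ℂ)
    · simp
    · simpa using hasDerivAt_const (0 : ℂ) (0 : ℂ)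
    · simp
  | insert a S ha ih =>
    simp only [Finset.sum_insert ha]
    exact LP_Ent_add (hF a (Finset.mem_insert_self a S))
      (ih fun i hi => hF i (Finset.mem_insert_of_mem hi))

theorem LP_Ent_const (lm : ℝ) (c : ℂ) : LP_Ent lm (fun _ _ => c) c := by
  refine ⟨fun _ => 0, 0, fun β => differentiable_const c, fun β => hasDerivAt_const _ _, ?_, ?_, ?_⟩
  · simp
  · simpa using hasDerivAt_const (0 : ℂ) c
  · simp

/-- The basic element. -/
theorem LP_Ent_basic {μ : Measure ℝ} {w : ℝ → ℂ} (hw : LP_Adm μ w) (lm s p q : ℝ)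
    (c₀ c₁ d₀ d₁ : ℂ) :
    LP_Ent lm (fun α β => (c₀ + c₁ * α) * (d₀ + d₁ * β) *
        ∫ u, w u * Complex.exp (α * (s * u + p : ℝ)) * Complex.exp (β * (s * u + q : ℝ)) ∂μ)
      (∫ u, w u * (c₀ + lm * (c₁ + c₀ * (s * u + p : ℝ))) *
        (d₀ + lm * (d₁ + d₀ * (s * u + q : ℝ))) ∂μ) := by
  have hE : ∀ (z : ℂ) (r : ℝ), LP_Adm μ (fun u => w u * Complex.exp (z * (s * u + r : ℝ))) := by
    intro z r
    obtain ⟨B, c, hB⟩ := LP_exp_bound z s r
    exact LP_Adm_mul hw (LP_exp_cont z s r) hB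
  have hlin : ∀ {v : ℝ → ℂ} (r : ℝ), LP_Adm μ v →
      LP_Adm μ (fun u => v u * ((s * u + r : ℝ) : ℂ)) := by
    intro v r hv
    obtain ⟨B, hB⟩ := LP_lin_bound s r
    exact LP_Adm_mul hv (LP_lin_cont s r) hB
  have hA : LP_Adm μ (fun u => w u * ((s * u + p : ℝ) : ℂ)) := hlin p hw
  -- the functions
  set K : ℂ → ℂ → ℂ := fun α β =>
    ∫ u, w u * Complex.exp (α * (s * u + p : ℝ)) * Complex.exp (β * (s * u + q : ℝ)) ∂μ with hK
  set K₁ : ℂ → ℂ := fun β =>
    ∫ u, w u * ((s * u + p : ℝ) : ℂ) * Complex.exp (β * (s * u + q : ℝ)) ∂μ with hK₁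
  have hKα : ∀ β α : ℂ, HasDerivAt (fun α => K α β)
      (∫ u, w u * Complex.exp (β * (s * u + q : ℝ)) * ((s * u + p : ℝ) : ℂ) *
        Complex.exp (α * (s * u + p : ℝ)) ∂μ) α := by
    intro β α
    have h := LP_deriv (hE β q) s p α
    have e : (fun z : ℂ => ∫ u, w u * Complex.exp (β * (s * u + q : ℝ)) *
        Complex.exp (z * (s * u + p : ℝ)) ∂μ) = fun α => K α β := by
      funext z
      simp only [hK]
      congr 1
      funext u
      ring
    rw [e] at h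
    exact h
  have hKα0 : ∀ β : ℂ, HasDerivAt (fun α => K α β) (K₁ β) 0 := by
    intro β
    have h := hKα β 0
    convert h using 1
    simp only [hK₁]
    congr 1
    funext u
    rw [zero_mul, Complex.exp_zero]
    ring
  have hK0 : ∀ β : ℂ, K 0 β = ∫ u, w u * Complex.exp (β * (s * u + q : ℝ)) ∂μ := by
    intro β
    simp only [hK]
    congr 1
    funext u
    rw [zero_mul, Complex.exp_zero, mul_one]
  have hK0β : ∀ β : ℂ, HasDerivAt (fun β => K 0 β)
      (∫ u, w u * ((s * u + q : ℝ) : ℂ) * Complex.exp (β * (s * u + q : ℝ)) ∂μ) β := by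
    intro β
    have h := LP_deriv hw s q β
    have e : (fun z : ℂ => ∫ u, w u * Complex.exp (z * (s * u + q : ℝ)) ∂μ) =
        fun β => K 0 β := by
      funext z
      rw [hK0]
    rw [e] at h
    exact h
  have hK1β : ∀ β : ℂ, HasDerivAt K₁
      (∫ u, w u * ((s * u + p : ℝ) : ℂ) * ((s * u + q : ℝ) : ℂ) *
        Complex.exp (β * (s * u + q : ℝ)) ∂μ) β := by
    intro β
    exact LP_deriv hA s q β
  set KB : ℂ := ∫ u, w u * ((s * u + q : ℝ) : ℂ) * Complex.exp (0 * (s * u + q : ℝ)) ∂μ with hKB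
  set KAB : ℂ := ∫ u, w u * ((s * u + p : ℝ) : ℂ) * ((s * u + q : ℝ) : ℂ) *
        Complex.exp (0 * (s * u + q : ℝ)) ∂μ with hKAB
  -- polynomial factors
  have hpα : ∀ α : ℂ, HasDerivAt (fun α : ℂ => c₀ + c₁ * α) c₁ α := by
    intro α
    have := ((hasDerivAt_id α).const_mul c₁).const_add c₀
    simpa using this
  have hpβ : ∀ β : ℂ, HasDerivAt (fun β : ℂ => d₀ + d₁ * β) d₁ β := by
    intro β
    have := ((hasDerivAt_id β).const_mul d₁).const_add d₀
    simpa using this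
  refine ⟨fun β => (d₀ + d₁ * β) * (c₁ * K 0 β + c₀ * K₁ β),
    d₁ * (c₀ * K 0 0 + lm * (c₁ * K 0 0 + c₀ * K₁ 0)) +
      d₀ * (c₀ * KB + lm * (c₁ * KB + c₀ * KAB)), ?_, ?_, ?_, ?_, ?_⟩
  · intro β α
    have h := ((hpα α).mul_const (d₀ + d₁ * β)).mul (hKα β α)
    exact h.differentiableAt
  · intro β
    have h := ((hpα 0).mul_const (d₀ + d₁ * β)).mul (hKα0 β)
    refine h.congr_deriv ?_
    ring
  · intro β
    have h1 := (((hpβ β).const_mul (c₀ + c₁ * 0)).mul (hK0β β)).differentiableAt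
    have h2 := (((hpβ β).mul (((hK0β β).const_mul c₁).add
      ((hK1β β).const_mul c₀))).const_mul (lm : ℂ)).differentiableAt
    exact h1.add h2
  · have h1 := ((hpβ 0).const_mul (c₀ + c₁ * 0)).mul (hK0β 0)
    have h2 := ((hpβ 0).mul (((hK0β 0).const_mul c₁).add
      ((hK1β 0).const_mul c₀))).const_mul (lm : ℂ)
    have h := h1.add h2
    rw [← hKB, ← hKAB] at h
    refine (h.congr_deriv ?_).congr_of_eventuallyEq (Filter.Eventually.of_forall fun β => ?_)
    · simp only [Pi.add_apply]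
      ring
    · simp only [Pi.add_apply, Pi.mul_apply]
      rfl
  · have e1 : K 0 0 = ∫ u, w u ∂μ := by
      rw [hK0]
      congr 1
      funext u
      rw [zero_mul, Complex.exp_zero, mul_one]
    have e2 : K₁ 0 = ∫ u, w u * ((s * u + p : ℝ) : ℂ) ∂μ := by
      simp only [hK₁]
      congr 1
      funext u
      rw [zero_mul, Complex.exp_zero, mul_one]
    have e3 : KB = ∫ u, w u * ((s * u + q : ℝ) : ℂ) ∂μ := by
      rw [hKB]
      congr 1
      funext u
      rw [zero_mul, Complex.exp_zero, mul_one]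
    have e4 : KAB = ∫ u, w u * ((s * u + p : ℝ) : ℂ) * ((s * u + q : ℝ) : ℂ) ∂μ := by
      rw [hKAB]
      congr 1
      funext u
      rw [zero_mul, Complex.exp_zero, mul_one]
    have i1 := LP_Adm_int hw
    have i2 := LP_Adm_int hA
    have i3 := LP_Adm_int (hlin q hw)
    have i4 := LP_Adm_int (hlin q hA)
    have hsplit : (∫ u, w u * (c₀ + lm * (c₁ + c₀ * (s * u + p : ℝ))) *
        (d₀ + lm * (d₁ + d₀ * (s * u + q : ℝ))) ∂μ) =
        (c₀ + lm * c₁) * (d₀ + lm * d₁) * (∫ u, w u ∂μ) +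
        (lm * c₀) * (d₀ + lm * d₁) * (∫ u, w u * ((s * u + p : ℝ) : ℂ) ∂μ) +
        (c₀ + lm * c₁) * (lm * d₀) * (∫ u, w u * ((s * u + q : ℝ) : ℂ) ∂μ) +
        (lm * c₀) * (lm * d₀) *
          (∫ u, w u * ((s * u + p : ℝ) : ℂ) * ((s * u + q : ℝ) : ℂ) ∂μ) := by
      have hadd : (∫ u, ((c₀ + lm * c₁) * (d₀ + lm * d₁) * w u +
          (lm * c₀) * (d₀ + lm * d₁) * (w u * ((s * u + p : ℝ) : ℂ)) +
          (c₀ + lm * c₁) * (lm * d₀) * (w u * ((s * u + q : ℝ) : ℂ)) +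
          (lm * c₀) * (lm * d₀) * (w u * ((s * u + p : ℝ) : ℂ) * ((s * u + q : ℝ) : ℂ))) ∂μ) =
          (c₀ + lm * c₁) * (d₀ + lm * d₁) * (∫ u, w u ∂μ) +
          (lm * c₀) * (d₀ + lm * d₁) * (∫ u, w u * ((s * u + p : ℝ) : ℂ) ∂μ) +
          (c₀ + lm * c₁) * (lm * d₀) * (∫ u, w u * ((s * u + q : ℝ) : ℂ) ∂μ) +
          (lm * c₀) * (lm * d₀) *
            (∫ u, w u * ((s * u + p : ℝ) : ℂ) * ((s * u + q : ℝ) : ℂ) ∂μ) := by
        exact LP_int4 i1 i2 i3 i4 _ _ _ _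
      rw [← hadd]
      congr 1
      funext u
      push_cast
      ring
    rw [hsplit]
    simp only [mul_zero, add_zero]
    change c₀ * d₀ * K 0 0 + _ + _ = _
    rw [e1, e2, e3, e4]
    ring

/-! ### Bounds for `WW` -/

theorem LP_WW_nonneg {k : ℝ → ℝ} {ρ₂ : ℝ} (hk : Kern N k ρ₂) (Q : Finset P) (v : ℝ) :
    0 ≤ WW N k Q v := by
  classical
  unfold WW
  refine tsum_nonneg fun g => ?_
  split_ifs
  · exact hk.nonneg _
  · exact le_rfl

theorem LP_WW_le (hN : Good N) {k : ℝ → ℝ} {ρ₂ : ℝ} (hk : Kern N k ρ₂) (Q : Finset P) {A : ℝ}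
    (hA : 1 < A) : ∃ C : ℝ, 0 ≤ C ∧ ∀ v, WW N k Q v ≤ C * Real.exp (-(A * v)) := by
  classical
  obtain ⟨C, hC⟩ := hk.decay A (by linarith)
  have hs := hN.summable (A - 1) (by linarith)
  have hZ0 : 0 ≤ ∑' g : P →₀ ℕ, (nm N g : ℝ) ^ (-(1 + (A - 1))) :=
    tsum_nonneg fun g => Real.rpow_nonneg (Nat.cast_nonneg _) _
  have hC0 : 0 ≤ C := by
    have h1 := (hk.nonneg 0).trans (hC 0)
    simpa using h1
  refine ⟨C * ∑' g : P →₀ ℕ, (nm N g : ℝ) ^ (-(1 + (A - 1))), mul_nonneg hC0 hZ0, fun v => ?_⟩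
  have hterm : ∀ g : P →₀ ℕ, (if Cop Q g then k (v + Real.log (nm N g)) else 0) ≤
      C * Real.exp (-(A * v)) * (nm N g : ℝ) ^ (-(1 + (A - 1))) := by
    intro g
    have hpos : (0 : ℝ) < nm N g := by exact_mod_cast nm_pos hN.two_le g
    have h2 : C * Real.exp (-(A * (v + Real.log (nm N g)))) =
        C * Real.exp (-(A * v)) * (nm N g : ℝ) ^ (-(1 + (A - 1))) := by
      rw [Real.rpow_def_of_pos hpos, mul_assoc, ← Real.exp_add]
      congr 2
      ring
    split_ifs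
    · rw [← h2]
      exact hC _
    · rw [← h2]
      positivity
  have hsum2 : Summable (fun g : P →₀ ℕ =>
      C * Real.exp (-(A * v)) * (nm N g : ℝ) ^ (-(1 + (A - 1)))) := hs.mul_left _
  have hsum1 : Summable (fun g : P →₀ ℕ => if Cop Q g then k (v + Real.log (nm N g)) else 0) := by
    refine Summable.of_nonneg_of_le (fun g => ?_) hterm hsum2
    split_ifs
    · exact hk.nonneg _
    · exact le_rfl
  unfold WW
  calc (∑' g : P →₀ ℕ, if Cop Q g then k (v + Real.log (nm N g)) else 0)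
      ≤ ∑' g : P →₀ ℕ, C * Real.exp (-(A * v)) * (nm N g : ℝ) ^ (-(1 + (A - 1))) :=
        Summable.tsum_le_tsum hterm hsum1 hsum2
    _ = _ := by rw [tsum_mul_left]; ring

theorem LP_WW_cont (hN : Good N) {k : ℝ → ℝ} {ρ₂ : ℝ} (hk : Kern N k ρ₂) (Q : Finset P) :
    Continuous (WW N k Q) := by
  have h : WW N k Q = fun v => ∑ d ∈ Q.powerset, (-1) ^ d.card * W1 N k (v + lg N d) := by
    funext v
    exact WW_exp hN hk Q v
  rw [h]
  refine continuous_finsetSum _ fun d _ => ?_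
  exact continuous_const.mul ((W1_cont hN hk).comp (continuous_id.add continuous_const))

/-- admissibility on a half line to the right -/
theorem LP_Adm_right (hN : Good N) {k : ℝ → ℝ} {ρ₂ : ℝ} (hk : Kern N k ρ₂) (Q : Finset P)
    (a D U : ℝ) (c : ℂ) : LP_Adm (volume.restrict (Ioi (-U)))
      (fun u => Complex.exp ((a * u : ℝ) : ℂ) * c * (WW N k Q (u + D) : ℝ)) := by
  have hcont : Continuous (fun u : ℝ =>
      Complex.exp ((a * u : ℝ) : ℂ) * c * (WW N k Q (u + D) : ℝ)) := by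
    have h1 := (LP_WW_cont hN hk Q).comp (continuous_id.add (continuous_const (y := D)))
    have h2 : Continuous (fun u : ℝ => ((WW N k Q (u + D) : ℝ) : ℂ)) :=
      Complex.continuous_ofReal.comp h1
    have h3 : Continuous (fun u : ℝ => Complex.exp ((a * u : ℝ) : ℂ) * c) := by fun_prop
    exact h3.mul h2
  refine ⟨hcont.aestronglyMeasurable, fun e => ?_⟩
  obtain ⟨C, hC0, hC⟩ := LP_WW_le hN hk Q (A := |e| + |a| + 2) (by linarith [abs_nonneg e, abs_nonneg a])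
  set A : ℝ := |e| + |a| + 2 with hA
  set M : ℝ := (|e| + |a| + A + 1) * |U| with hM
  have hint : Integrable (fun u : ℝ => ‖c‖ * C * Real.exp (M - A * D) * Real.exp (-1 * u))
      (volume.restrict (Ioi (-U))) := (exp_neg_integrableOn_Ioi (-U) one_pos).const_mul _
  refine hint.mono' ?_ ?_
  · exact (Real.continuous_exp.comp (continuous_const.mul
      continuous_abs)).aestronglyMeasurable.mul hcont.aestronglyMeasurable.norm
  · refine (ae_restrict_mem measurableSet_Ioi).mono fun u hu => ?_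
    have hu' : -U < u := hu
    rw [norm_mul, norm_norm, Real.norm_eq_abs, Real.abs_exp, norm_mul, norm_mul,
      Complex.norm_real, Real.norm_eq_abs, abs_of_nonneg (LP_WW_nonneg hk Q _), Complex.norm_exp,
      Complex.ofReal_re]
    have h1 : Real.exp (e * |u|) * (Real.exp (a * u) * ‖c‖ * WW N k Q (u + D)) ≤
        Real.exp (e * |u|) * (Real.exp (a * u) * ‖c‖ * (C * Real.exp (-(A * (u + D))))) := by
      gcongr
      exact hC _
    refine h1.trans ?_
    have h2 : Real.exp (e * |u|) * (Real.exp (a * u) * ‖c‖ * (C * Real.exp (-(A * (u + D))))) =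
        ‖c‖ * C * Real.exp (e * |u| + a * u - A * (u + D)) := by
      rw [show e * |u| + a * u - A * (u + D) = e * |u| + a * u + -(A * (u + D)) by ring,
        Real.exp_add, Real.exp_add]
      ring
    have h3 : ‖c‖ * C * Real.exp (M - A * D) * Real.exp (-1 * u) =
        ‖c‖ * C * Real.exp (M - A * D + -1 * u) := by
      rw [Real.exp_add]; ring
    rw [h2, h3]
    refine mul_le_mul_of_nonneg_left (Real.exp_le_exp.mpr ?_) (by positivity)
    have hA0 : 0 ≤ A := by rw [hA]; positivity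
    have hM0 : 0 ≤ M := by rw [hM]; positivity
    rcases le_or_gt 0 u with h0 | h0
    · rw [abs_of_nonneg h0]
      have h4 : e * u ≤ |e| * u := mul_le_mul_of_nonneg_right (le_abs_self e) h0
      have h5 : a * u ≤ |a| * u := mul_le_mul_of_nonneg_right (le_abs_self a) h0
      have h6 : A * u = |e| * u + |a| * u + 2 * u := by rw [hA]; ring
      nlinarith
    · rw [abs_of_neg h0]
      have hU : -u ≤ |U| := by
        have := le_abs_self U
        linarith
      have hu0 : 0 ≤ -u := by linarith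
      have h4 : e * -u ≤ |e| * -u := mul_le_mul_of_nonneg_right (le_abs_self e) hu0
      have h5 : a * u ≤ |a| * -u := by
        have := mul_le_mul_of_nonneg_right (neg_le_abs a) hu0
        linarith
      have h7 : (|e| + |a| + A + 1) * -u ≤ M := by
        rw [hM]
        exact mul_le_mul_of_nonneg_left hU (by positivity)
      nlinarith

/-- admissibility on a half line to the left -/
theorem LP_Adm_left (hN : Good N) {k : ℝ → ℝ} {ρ₂ : ℝ} (hk : Kern N k ρ₂) (Q : Finset P)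
    (a D U : ℝ) (c : ℂ) : LP_Adm (volume.restrict (Iio (-U)))
      (fun u => Complex.exp ((a * u : ℝ) : ℂ) * c * (WW N k Q (-u - D) : ℝ)) := by
  have hcont : Continuous (fun u : ℝ =>
      Complex.exp ((a * u : ℝ) : ℂ) * c * (WW N k Q (-u - D) : ℝ)) := by
    have h1 := (LP_WW_cont hN hk Q).comp (continuous_neg.sub (continuous_const (y := D)))
    have h2 : Continuous (fun u : ℝ => ((WW N k Q (-u - D) : ℝ) : ℂ)) :=
      Complex.continuous_ofReal.comp h1
    have h3 : Continuous (fun u : ℝ => Complex.exp ((a * u : ℝ) : ℂ) * c) := by fun_prop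
    exact h3.mul h2
  refine ⟨hcont.aestronglyMeasurable, fun e => ?_⟩
  obtain ⟨C, hC0, hC⟩ := LP_WW_le hN hk Q (A := |e| + |a| + 2) (by linarith [abs_nonneg e, abs_nonneg a])
  set A : ℝ := |e| + |a| + 2 with hA
  set M : ℝ := (|e| + |a| + A + 1) * |U| with hM
  have hint : Integrable (fun u : ℝ => ‖c‖ * C * Real.exp (M + A * D) * Real.exp u)
      (volume.restrict (Iio (-U))) :=
    ((integrableOn_exp_Iic (-U)).mono_set Iio_subset_Iic_self).const_mul _
  refine hint.mono' ?_ ?_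
  · exact (Real.continuous_exp.comp (continuous_const.mul
      continuous_abs)).aestronglyMeasurable.mul hcont.aestronglyMeasurable.norm
  · refine (ae_restrict_mem measurableSet_Iio).mono fun u hu => ?_
    have hu' : u < -U := hu
    rw [norm_mul, norm_norm, Real.norm_eq_abs, Real.abs_exp, norm_mul, norm_mul,
      Complex.norm_real, Real.norm_eq_abs, abs_of_nonneg (LP_WW_nonneg hk Q _), Complex.norm_exp,
      Complex.ofReal_re]
    have h1 : Real.exp (e * |u|) * (Real.exp (a * u) * ‖c‖ * WW N k Q (-u - D)) ≤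
        Real.exp (e * |u|) * (Real.exp (a * u) * ‖c‖ * (C * Real.exp (-(A * (-u - D))))) := by
      gcongr
      exact hC _
    refine h1.trans ?_
    have h2 : Real.exp (e * |u|) * (Real.exp (a * u) * ‖c‖ * (C * Real.exp (-(A * (-u - D))))) =
        ‖c‖ * C * Real.exp (e * |u| + a * u + A * (u + D)) := by
      rw [show e * |u| + a * u + A * (u + D) = e * |u| + a * u + -(A * (-u - D)) by ring,
        Real.exp_add, Real.exp_add]
      ring
    have h3 : ‖c‖ * C * Real.exp (M + A * D) * Real.exp u =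
        ‖c‖ * C * Real.exp (M + A * D + u) := by
      rw [Real.exp_add (M + A * D) u]; ring
    rw [h2, h3]
    refine mul_le_mul_of_nonneg_left (Real.exp_le_exp.mpr ?_) (by positivity)
    have hA0 : 0 ≤ A := by rw [hA]; positivity
    have hM0 : 0 ≤ M := by rw [hM]; positivity
    rcases le_or_gt u 0 with h0 | h0
    · rw [abs_of_nonpos h0]
      have hu0 : 0 ≤ -u := by linarith
      have h4 : e * -u ≤ |e| * -u := mul_le_mul_of_nonneg_right (le_abs_self e) hu0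
      have h5 : a * u ≤ |a| * -u := by
        have := mul_le_mul_of_nonneg_right (neg_le_abs a) hu0
        linarith
      have h6 : A * u = -(|e| * -u + |a| * -u + 2 * -u) := by rw [hA]; ring
      nlinarith
    · rw [abs_of_pos h0]
      have hU : u ≤ |U| := by
        have := neg_le_abs U
        linarith
      have h4 : e * u ≤ |e| * u := mul_le_mul_of_nonneg_right (le_abs_self e) h0.le
      have h5 : a * u ≤ |a| * u := mul_le_mul_of_nonneg_right (le_abs_self a) h0.le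
      have h7 : (|e| + |a| + A + 1) * u ≤ M := by
        rw [hM]
        exact mul_le_mul_of_nonneg_left hU (by positivity)
      nlinarith

/-! ### The diagonals belong to the class -/

theorem LP_Adm_basic_int {μ : Measure ℝ} {w : ℝ → ℂ} (hw : LP_Adm μ w) (s p q : ℝ) (α β : ℂ) :
    Integrable (fun u => w u * Complex.exp (α * (s * u + p : ℝ)) *
      Complex.exp (β * (s * u + q : ℝ))) μ := by
  obtain ⟨B, c, hB⟩ := LP_exp_bound α s p
  obtain ⟨B', c', hB'⟩ := LP_exp_bound β s q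
  exact LP_Adm_int (LP_Adm_mul (LP_Adm_mul hw (LP_exp_cont α s p) hB) (LP_exp_cont β s q) hB')

theorem LP_Adm_lin_int {μ : Measure ℝ} {w : ℝ → ℂ} (hw : LP_Adm μ w) (lm s p q : ℝ) :
    Integrable (fun u => w u * (1 + lm * (s * u + p : ℝ)) * (1 + lm * (s * u + q : ℝ))) μ := by
  obtain ⟨B, hB⟩ := LP_lin_bound (lm * s) (1 + lm * p)
  obtain ⟨B', hB'⟩ := LP_lin_bound (lm * s) (1 + lm * q)
  have h := LP_Adm_int (LP_Adm_mul (LP_Adm_mul hw (LP_lin_cont _ _) hB) (LP_lin_cont _ _) hB')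
  refine h.congr (Filter.Eventually.of_forall fun u => ?_)
  show w u * ((lm * s * u + (1 + lm * p) : ℝ) : ℂ) * ((lm * s * u + (1 + lm * q) : ℝ) : ℂ) = _
  push_cast
  ring

/-- Finite double sums of basic elements. -/
theorem LP_Ent_double {μ : Measure ℝ} (S : Finset (Finset P)) (w : Finset P → Finset P → ℝ → ℂ)
    (hw : ∀ m n, LP_Adm μ (w m n)) (lm s : ℝ) (p : Finset P → ℝ)
    (D : (ℝ → ℂ) → (ℝ → ℂ) → ℝ → ℂ)
    (hD : ∀ F G u, D F G u = ∑ m ∈ S, ∑ n ∈ S, w m n u * F (s * u + p m) * G (s * u + p n)) :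
    LP_Ent lm (fun α β => ∫ u, D (fun y => Complex.exp (α * y)) (fun y => Complex.exp (β * y)) u ∂μ)
      (∫ u, D (fun y => 1 + lm * y) (fun y => 1 + lm * y) u ∂μ) := by
  have h1 : LP_Ent lm (fun α β => ∑ m ∈ S, ∑ n ∈ S, ∫ u, w m n u *
      Complex.exp (α * (s * u + p m : ℝ)) * Complex.exp (β * (s * u + p n : ℝ)) ∂μ)
      (∑ m ∈ S, ∑ n ∈ S, ∫ u, w m n u * (1 + lm * (s * u + p m : ℝ)) *
        (1 + lm * (s * u + p n : ℝ)) ∂μ) := by
    refine LP_Ent_sum S fun m _ => LP_Ent_sum S fun n _ => ?_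
    have h := LP_Ent_basic (hw m n) lm s (p m) (p n) 1 0 1 0
    simpa only [zero_mul, add_zero, one_mul, zero_add] using h
  have e1 : (fun α β : ℂ => ∫ u, D (fun y => Complex.exp (α * y)) (fun y => Complex.exp (β * y)) u ∂μ)
      = fun α β => ∑ m ∈ S, ∑ n ∈ S, ∫ u, w m n u *
      Complex.exp (α * (s * u + p m : ℝ)) * Complex.exp (β * (s * u + p n : ℝ)) ∂μ := by
    funext α β
    simp only [hD]
    rw [integral_finsetSum _ fun m _ => integrable_finsetSum _ fun n _ =>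
      LP_Adm_basic_int (hw m n) s (p m) (p n) α β]
    refine Finset.sum_congr rfl fun m _ => ?_
    rw [integral_finsetSum _ fun n _ => LP_Adm_basic_int (hw m n) s (p m) (p n) α β]
  have e2 : (∫ u, D (fun y => 1 + lm * y) (fun y => 1 + lm * y) u ∂μ) =
      ∑ m ∈ S, ∑ n ∈ S, ∫ u, w m n u * (1 + lm * (s * u + p m : ℝ)) *
        (1 + lm * (s * u + p n : ℝ)) ∂μ := by
    simp only [hD]
    rw [integral_finsetSum _ fun m _ => integrable_finsetSum _ fun n _ =>
      LP_Adm_lin_int (hw m n) lm s (p m) (p n)]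
    refine Finset.sum_congr rfl fun m _ => ?_
    rw [integral_finsetSum _ fun n _ => LP_Adm_lin_int (hw m n) lm s (p m) (p n)]
  rw [e1, e2]
  exact h1

theorem LP_Int_double {μ : Measure ℝ} (S : Finset (Finset P)) (w : Finset P → Finset P → ℝ → ℂ)
    (hw : ∀ m n, LP_Adm μ (w m n)) (lm s : ℝ) (p : Finset P → ℝ)
    (D : (ℝ → ℂ) → (ℝ → ℂ) → ℝ → ℂ)
    (hD : ∀ F G u, D F G u = ∑ m ∈ S, ∑ n ∈ S, w m n u * F (s * u + p m) * G (s * u + p n)) :
    Integrable (fun u => D (fun y => 1 + lm * y) (fun y => 1 + lm * y) u) μ := by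
  simp only [hD]
  exact integrable_finsetSum _ fun m _ => integrable_finsetSum _ fun n _ =>
      LP_Adm_lin_int (hw m n) lm s (p m) (p n)

theorem LP_dir_eq [DecidableEq P] (k : ℝ → ℝ) (b θ R L : ℝ) (Q : Finset P) (F G : ℝ → ℂ) (u : ℝ) :
    dirF N k b θ R L Q F G u = ∑ m ∈ SF N Q (θ * L), ∑ n ∈ SF N Q (θ * L),
      (Complex.exp (((1 - 2 * R / L) * u : ℝ) : ℂ) *
        ((am N b θ R L Q m : ℂ) * (am N b θ R L Q n : ℂ)) * (WW N k Q (u + lg N (m ∪ n)) : ℝ)) *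
        F (1 / L * u + lg N m / L) * G (1 / L * u + lg N n / L) := by
  unfold dirF
  rw [Finset.mul_sum]
  refine Finset.sum_congr rfl fun m _ => ?_
  rw [Finset.mul_sum]
  refine Finset.sum_congr rfl fun n _ => ?_
  have h1 : (u + lg N m) / L = 1 / L * u + lg N m / L := by ring
  have h2 : (u + lg N n) / L = 1 / L * u + lg N n / L := by ring
  rw [h1, h2]
  ring

theorem LP_dual_eq [DecidableEq P] (k : ℝ → ℝ) (b θ R L ℓ : ℝ) (Q : Finset P) (F G : ℝ → ℂ)
    (u : ℝ) :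
    dualF N k b θ R L ℓ Q F G u = ∑ m ∈ SF N Q (θ * L), ∑ n ∈ SF N Q (θ * L),
      (Complex.exp (((-1 - 2 * R / L) * u : ℝ) : ℂ) *
        (Complex.exp ((-ℓ : ℝ) : ℂ) * ((am N b θ R L Q m : ℂ) * (am N b θ R L Q n : ℂ) *
          Complex.exp (-(lg N m + lg N n : ℝ)))) *
        (WW N k Q (-u - (ℓ + lg N (m ∩ n))) : ℝ)) *
        F (1 / L * u + lg N m / L) * G (1 / L * u + lg N n / L) := by
  unfold dualF
  rw [Finset.mul_sum]
  refine Finset.sum_congr rfl fun m _ => ?_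
  rw [Finset.mul_sum]
  refine Finset.sum_congr rfl fun n _ => ?_
  have h1 : (u + lg N m) / L = 1 / L * u + lg N m / L := by ring
  have h2 : (u + lg N n) / L = 1 / L * u + lg N n / L := by ring
  have h3 : -u - ℓ - lg N (m ∩ n) = -u - (ℓ + lg N (m ∩ n)) := by ring
  rw [h1, h2, h3]
  have h4 : Complex.exp ((-ℓ + (-1 - 2 * R / L) * u : ℝ) : ℂ) =
      Complex.exp ((-ℓ : ℝ) : ℂ) * Complex.exp (((-1 - 2 * R / L) * u : ℝ) : ℂ) := by
    rw [← Complex.exp_add]
    congr 1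
    push_cast
    ring
  rw [h4]
  ring

theorem LP_Ent_dir [DecidableEq P] (hN : Good N) {k : ℝ → ℝ} {ρ₂ : ℝ} (hk : Kern N k ρ₂)
    (b θ R L lm U : ℝ) (Q : Finset P) :
    LP_Ent lm (fun α β => ∫ u in Ioi (-U), dirF N k b θ R L Q (fun y => Complex.exp (α * y))
        (fun y => Complex.exp (β * y)) u)
      (∫ u in Ioi (-U), dirF N k b θ R L Q (fun y => 1 + lm * y) (fun y => 1 + lm * y) u) ∧
    IntegrableOn (dirF N k b θ R L Q (fun y => 1 + lm * y) (fun y => 1 + lm * y)) (Ioi (-U)) := by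
  have hw := fun m n : Finset P => LP_Adm_right hN hk Q (1 - 2 * R / L) (lg N (m ∪ n)) U
    ((am N b θ R L Q m : ℂ) * (am N b θ R L Q n : ℂ))
  exact ⟨LP_Ent_double (SF N Q (θ * L)) _ hw lm (1 / L) (fun m => lg N m / L)
    (fun F G u => dirF N k b θ R L Q F G u) (fun F G u => LP_dir_eq k b θ R L Q F G u),
    LP_Int_double (SF N Q (θ * L)) _ hw lm (1 / L) (fun m => lg N m / L)
    (fun F G u => dirF N k b θ R L Q F G u) (fun F G u => LP_dir_eq k b θ R L Q F G u)⟩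

theorem LP_Ent_dual [DecidableEq P] (hN : Good N) {k : ℝ → ℝ} {ρ₂ : ℝ} (hk : Kern N k ρ₂)
    (b θ R L ℓ lm U : ℝ) (Q : Finset P) :
    LP_Ent lm (fun α β => ∫ u in Iio (-U), dualF N k b θ R L ℓ Q (fun y => Complex.exp (α * y))
        (fun y => Complex.exp (β * y)) u)
      (∫ u in Iio (-U), dualF N k b θ R L ℓ Q (fun y => 1 + lm * y) (fun y => 1 + lm * y) u) ∧
    IntegrableOn (dualF N k b θ R L ℓ Q (fun y => 1 + lm * y) (fun y => 1 + lm * y))
      (Iio (-U)) := by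
  have hw := fun m n : Finset P => LP_Adm_left hN hk Q (-1 - 2 * R / L) (ℓ + lg N (m ∩ n)) U
    (Complex.exp ((-ℓ : ℝ) : ℂ) * ((am N b θ R L Q m : ℂ) * (am N b θ R L Q n : ℂ) *
          Complex.exp (-(lg N m + lg N n : ℝ))))
  exact ⟨LP_Ent_double (SF N Q (θ * L)) _ hw lm (1 / L) (fun m => lg N m / L)
    (fun F G u => dualF N k b θ R L ℓ Q F G u) (fun F G u => LP_dual_eq k b θ R L ℓ Q F G u),
    LP_Int_double (SF N Q (θ * L)) _ hw lm (1 / L) (fun m => lg N m / L)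
    (fun F G u => dualF N k b θ R L ℓ Q F G u) (fun F G u => LP_dual_eq k b θ R L ℓ Q F G u)⟩

/-! ### The limit belongs to the class -/

theorem LP_Adm_unit (R : ℝ) : LP_Adm (volume.restrict (Ioc (0 : ℝ) 1))
    (fun t => Complex.exp (2 * R * t)) := by
  have hcont : Continuous (fun t : ℝ => Complex.exp (2 * R * t)) := by fun_prop
  refine ⟨hcont.aestronglyMeasurable, fun c => ?_⟩
  have h2 : Continuous (fun u : ℝ => Real.exp (c * |u|) * ‖Complex.exp (2 * R * u)‖) :=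
    (Real.continuous_exp.comp (continuous_const.mul continuous_abs)).mul hcont.norm
  exact h2.integrableOn_Ioc

theorem LP_Ent_TT (b θ R lm : ℝ) : LP_Ent lm (fun α β => TT b θ R α β) ((cc b θ R lm : ℝ) : ℂ) := by
  have h1 := LP_Ent_const lm (1 / 2 : ℂ)
  -- the exponential
  have hd : LP_Adm (Measure.dirac (0 : ℝ)) (fun _ => Complex.exp (2 * R) / 2) := by
    refine ⟨aestronglyMeasurable_const, fun c => ?_⟩
    have : Continuous (fun u : ℝ => Real.exp (c * |u|) * ‖Complex.exp (2 * R) / 2‖) :=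
      (Real.continuous_exp.comp (continuous_const.mul continuous_abs)).mul continuous_const
    exact integrable_dirac (by simp)
  have h2 := LP_Ent_basic hd lm 0 (-1) (-1) 1 0 1 0
  have h3 := LP_Ent_smul (LP_Ent_basic (LP_Adm_unit R) lm (-1) 0 0 1 0 1 0)
    (((1 + b ^ 2 / 3) / θ : ℝ) : ℂ)
  have h4 := LP_Ent_smul (LP_Ent_basic (LP_Adm_unit R) lm (-1) 0 0 R (-1) R (-1))
    ((θ * (1 / 3 + b / 6 + b ^ 2 / 30) : ℝ) : ℂ)
  have h := LP_Ent_add (LP_Ent_add (LP_Ent_add h1 h2) h3) h4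
  obtain ⟨F₁, g, k1, k2, k3, k4, k5⟩ := h
  have hF : (fun α β : ℂ => TT b θ R α β) = fun α β : ℂ =>
      (1 / 2 + (1 + 0 * α) * (1 + 0 * β) * ∫ u, Complex.exp (2 * R) / 2 *
        Complex.exp (α * ((0 : ℝ) * u + (-1 : ℝ) : ℝ)) *
        Complex.exp (β * ((0 : ℝ) * u + (-1 : ℝ) : ℝ)) ∂(Measure.dirac (0 : ℝ))) +
      (((1 + b ^ 2 / 3) / θ : ℝ) : ℂ) * ((1 + 0 * α) * (1 + 0 * β) *
        ∫ u in Ioc (0 : ℝ) 1, Complex.exp (2 * R * u) *
        Complex.exp (α * ((-1 : ℝ) * u + (0 : ℝ) : ℝ)) *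
        Complex.exp (β * ((-1 : ℝ) * u + (0 : ℝ) : ℝ))) +
      ((θ * (1 / 3 + b / 6 + b ^ 2 / 30) : ℝ) : ℂ) * ((R + -1 * α) * (R + -1 * β) *
        ∫ u in Ioc (0 : ℝ) 1, Complex.exp (2 * R * u) *
        Complex.exp (α * ((-1 : ℝ) * u + (0 : ℝ) : ℝ)) *
        Complex.exp (β * ((-1 : ℝ) * u + (0 : ℝ) : ℝ))) := by
    funext α β
    have hI : (∫ u in Ioc (0 : ℝ) 1, Complex.exp (2 * R * u) *
        Complex.exp (α * ((-1 : ℝ) * u + (0 : ℝ) : ℝ)) *
        Complex.exp (β * ((-1 : ℝ) * u + (0 : ℝ) : ℝ))) =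
        ∫ t in (0 : ℝ)..1, Complex.exp ((2 * R - α - β) * t) := by
      rw [intervalIntegral.integral_of_le zero_le_one]
      congr 1
      funext t
      rw [← Complex.exp_add, ← Complex.exp_add]
      congr 1
      push_cast
      ring
    rw [hI, integral_dirac]
    unfold TT
    rw [intervalIntegral.integral_mul_const]
    have hE : Complex.exp (2 * R) / 2 * Complex.exp (α * ((0 : ℝ) * (0 : ℝ) + (-1 : ℝ) : ℝ)) *
        Complex.exp (β * ((0 : ℝ) * (0 : ℝ) + (-1 : ℝ) : ℝ)) =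
        Complex.exp (2 * R - α - β) / 2 := by
      have e1 : Complex.exp (2 * R - α - β) =
          Complex.exp (2 * R) * Complex.exp (-α) * Complex.exp (-β) := by
        rw [← Complex.exp_add, ← Complex.exp_add]
        congr 1
      rw [e1]
      push_cast
      rw [show α * (0 * 0 + -1) = -α by ring, show β * (0 * 0 + -1) = -β by ring]
      ring
    rw [hE]
    ring
  rw [hF]
  refine ⟨F₁, g, k1, k2, k3, k4, k5.trans ?_⟩
  -- the value
  rw [integral_dirac]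
  have j : ∀ c₀ c₁ : ℝ, (∫ u in Ioc (0 : ℝ) 1, Complex.exp (2 * R * u) *
      ((c₀ : ℂ) + lm * ((c₁ : ℂ) + c₀ * ((-1 : ℝ) * u + (0 : ℝ) : ℝ))) *
      ((c₀ : ℂ) + lm * ((c₁ : ℂ) + c₀ * ((-1 : ℝ) * u + (0 : ℝ) : ℝ)))) =
      ((∫ t in (0 : ℝ)..1, Real.exp (2 * R * t) * (c₀ * (1 - lm * t) + lm * c₁) ^ 2 : ℝ) : ℂ) := by
    intro c₀ c₁
    rw [← intervalIntegral.integral_ofReal, intervalIntegral.integral_of_le zero_le_one]
    congr 1
    funext t
    push_cast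
    ring_nf
  have j1 := j 1 0
  have j2 := j R (-1)
  push_cast at j1 j2 ⊢
  rw [j1, j2]
  have i1 : IntervalIntegrable (fun t => (1 + b ^ 2 / 3) / θ *
      (Real.exp (2 * R * t) * (1 * (1 - lm * t) + lm * 0) ^ 2)) volume 0 1 := by
    apply Continuous.intervalIntegrable
    fun_prop
  have i2 : IntervalIntegrable (fun t => θ * (1 / 3 + b / 6 + b ^ 2 / 30) *
      (Real.exp (2 * R * t) * (R * (1 - lm * t) + lm * -1) ^ 2)) volume 0 1 := by
    apply Continuous.intervalIntegrable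
    fun_prop
  have hcc : cc b θ R lm = (1 + Real.exp (2 * R) * (1 - lm) ^ 2) / 2 +
      ((1 + b ^ 2 / 3) / θ * (∫ t in (0 : ℝ)..1, Real.exp (2 * R * t) *
        (1 * (1 - lm * t) + lm * 0) ^ 2) +
      θ * (1 / 3 + b / 6 + b ^ 2 / 30) * (∫ t in (0 : ℝ)..1, Real.exp (2 * R * t) *
        (R * (1 - lm * t) + lm * -1) ^ 2)) := by
    unfold cc
    rw [← intervalIntegral.integral_const_mul, ← intervalIntegral.integral_const_mul,
      ← intervalIntegral.integral_add i1 i2]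
    congr 1
    apply intervalIntegral.integral_congr
    intro t _
    show _ = _
    ring
  rw [hcc]
  push_cast
  ring

theorem partA_pr [DecidableEq P] (hN : Good N) {ρ : ℝ} (hC : Cnt N ρ) {k₁ k₂ : ℝ → ℝ} {ρ₂ : ℝ}
    (hk₁ : Kern N k₁ ρ₂) (hk₂ : Kern N k₂ ρ₂) {b θ R lm ε₀ δ₀ ε : ℝ} (hb : |b| ≤ 1 / 2)
    (hθ : 0 < θ) (hR : 1 ≤ R) (hε₀ : 0 < ε₀) (hδ₀ : 0 ≤ δ₀) (hε : 0 < ε) :
    ∃ L₀ : ℝ, 1 ≤ L₀ ∧ ∀ L, L₀ ≤ L → ∀ Q : Finset P, lg N Q ≤ L → ∀ ℓ : ℝ, |ℓ - L| ≤ δ₀ →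
      ∀ U : ℝ, (2 * θ + 6 * ε₀) * L ≤ U → U ≤ (1 - 6 * ε₀) * L →
      IntegrableOn (dirF N k₁ b θ R L Q (fun y => 1 + lm * y) (fun y => 1 + lm * y)) (Ioi (-U)) ∧
      IntegrableOn (dualF N k₂ b θ R L ℓ Q (fun y => 1 + lm * y) (fun y => 1 + lm * y))
        (Iio (-U)) ∧
      ‖(∫ u in Ioi (-U), dirF N k₁ b θ R L Q (fun y => 1 + lm * y) (fun y => 1 + lm * y) u) +
        (∫ u in Iio (-U), dualF N k₂ b θ R L ℓ Q (fun y => 1 + lm * y) (fun y => 1 + lm * y) u) -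
        ((ρ₂ / ρ * cc b θ R lm : ℝ) : ℂ)‖ ≤ ε := by
  have hε' : 0 < ε / (1 + 2 * |lm|) ^ 2 := by positivity
  obtain ⟨L₀, hL₀, h⟩ := sum_asymp hN hC hk₁ hk₂ hb hθ hR hε₀ hδ₀ hε'
  refine ⟨L₀, hL₀, fun L hL Q hQ ℓ hℓ U hU1 hU2 => ?_⟩
  obtain ⟨e1, i1⟩ := LP_Ent_dir hN hk₁ b θ R L lm U Q
  obtain ⟨e2, i2⟩ := LP_Ent_dual hN hk₂ b θ R L ℓ lm U Q
  refine ⟨i1, i2, ?_⟩
  have e3 := LP_Ent_smul (LP_Ent_TT b θ R lm) (-((ρ₂ / ρ : ℝ) : ℂ))
  have e := LP_Ent_add (LP_Ent_add e1 e2) e3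
  have hb' : ∀ α β : ℂ, ‖α‖ ≤ 1 / 2 → ‖β‖ ≤ 1 / 2 →
      ‖(∫ u in Ioi (-U), dirF N k₁ b θ R L Q (fun y => Complex.exp (α * y))
          (fun y => Complex.exp (β * y)) u) +
        (∫ u in Iio (-U), dualF N k₂ b θ R L ℓ Q (fun y => Complex.exp (α * y))
          (fun y => Complex.exp (β * y)) u) + -((ρ₂ / ρ : ℝ) : ℂ) * TT b θ R α β‖ ≤
        ε / (1 + 2 * |lm|) ^ 2 := by
    intro α β hα hβ
    have := h L hL Q hQ ℓ hℓ U hU1 hU2 α β hα hβ
    convert this using 2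
    ring
  have hfin := LP_Ent_le e hε'.le hb'
  have h2 : (1 + 2 * |lm|) ^ 2 * (ε / (1 + 2 * |lm|) ^ 2) = ε := by
    field_simp
  rw [h2] at hfin
  convert hfin using 2
  push_cast
  ring


alias partA := partA_pr

end Pool.Agent.LVA
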