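import Pool.Agent.Lib_helper92.LVA.Defs
import Pool.Agent.Lib_helper92.ASA.All

/-!
# Project LVK, part A, block NU: the numbers
-/

namespace Pool.Agent.LVA

open Complex MeasureTheory Filter Topology Set Pool.Agent.AS

variable {P : Type} {N : P → ℕ}

theorem nu_prim (A B D : ℝ) :
    ∫ t in (0 : ℝ)..1, Real.exp (62 / 25 * t) *
      (62 / 25 * (A * t ^ 2 + B * t + D) + (2 * A * t + B)) =
      Real.exp (62 / 25) * (A + B + D) - D := by
  have h : ∀ t ∈ uIcc (0 : ℝ) 1, HasDerivAt
      (fun t : ℝ => Real.exp (62 / 25 * t) * (A * t ^ 2 + B * t + D))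
      (Real.exp (62 / 25 * t) *
        (62 / 25 * (A * t ^ 2 + B * t + D) + (2 * A * t + B))) t := by
    intro t _
    have h1 : HasDerivAt (fun t : ℝ => Real.exp (62 / 25 * t))
        (Real.exp (62 / 25 * t) * (62 / 25)) t := by
      have := ((hasDerivAt_id t).const_mul (62 / 25 : ℝ)).exp
      simpa using this
    have h2 : HasDerivAt (fun t : ℝ => A * t ^ 2 + B * t + D) (2 * A * t + B) t := by
      have h3 := (((hasDerivAt_pow 2 t).const_mul A).add ((hasDerivAt_id t).const_mul B)).add_const D
      refine h3.congr_deriv ?_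
      simp
      ring
    refine (h1.mul h2).congr_deriv ?_
    ring
  rw [intervalIntegral.integral_eq_sub_of_hasDerivAt h]
  · simp
  · refine Continuous.intervalIntegrable ?_ _ _
    fun_prop

theorem nu_cc : cc (-28 / 125) (4999 / 10000) (31 / 25) (26 / 25) =
    -7816870663592020297 / 5817390976562500000 +
      1086163736102733500469 / 3635869360351562500000 * Real.exp (62 / 25) := by
  have h1 := nu_prim (2800147358518758703 / 2837567138671875000) (-4455554493397602179 / 1759291625976562500) (10725566151873270297 / 5817390976562500000)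
  have h2 : ∫ t in (0 : ℝ)..1, Real.exp (2 * (31 / 25) * t) *
      ((1 + (-28 / 125 : ℝ) ^ 2 / 3) / (4999 / 10000) * (1 - 26 / 25 * t) ^ 2 +
        4999 / 10000 * (1 / 3 + (-28 / 125) / 6 + (-28 / 125) ^ 2 / 30) *
          (31 / 25 * (1 - 26 / 25 * t) - 26 / 25) ^ 2) =
      ∫ t in (0 : ℝ)..1, Real.exp (62 / 25 * t) *
      (62 / 25 * ((2800147358518758703 / 2837567138671875000) * t ^ 2 + (-4455554493397602179 / 1759291625976562500) * t + (10725566151873270297 / 5817390976562500000)) + (2 * (2800147358518758703 / 2837567138671875000) * t + (-4455554493397602179 / 1759291625976562500))) := by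
    refine intervalIntegral.integral_congr fun t _ => ?_
    show Real.exp (2 * (31 / 25) * t) * _ = Real.exp (62 / 25 * t) * _
    rw [show (2 * (31 / 25) * t : ℝ) = 62 / 25 * t by ring]
    congr 1
    ring
  unfold cc
  rw [h2, h1, show (2 * (31 / 25) : ℝ) = 62 / 25 by norm_num]
  ring

theorem nu_exp_hi : Real.exp (62 / 25) ≤ 11944 / 1000 := by
  have h1 : Real.exp (62 / 25) = Real.exp (31 / 50) ^ 4 := by
    rw [← Real.exp_nat_mul]
    norm_num
  have h2 : Real.exp (31 / 50) ≤ 1859 / 1000 := by
    have := Real.exp_bound' (x := 31 / 50) (by norm_num) (by norm_num) (n := 8) (by norm_num)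
    refine this.trans ?_
    norm_num [Finset.sum_range_succ, Nat.factorial]
  rw [h1]
  calc Real.exp (31 / 50) ^ 4 ≤ (1859 / 1000) ^ 4 :=
        pow_le_pow_left₀ (Real.exp_pos _).le h2 4
    _ ≤ 11944 / 1000 := by norm_num

theorem nu_exp_lo : 10 ≤ Real.exp (62 / 25) := by
  have := Real.sum_le_exp_of_nonneg (x := 62 / 25) (by norm_num) 7
  refine le_trans ?_ this
  norm_num [Finset.sum_range_succ, Nat.factorial]

theorem nu_log : Real.log (22245 / 10000) < 7998 / 10000 := by
  rw [Real.log_lt_iff_lt_exp (by norm_num)]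
  have := Real.sum_le_exp_of_nonneg (x := 7998 / 10000) (by norm_num) 9
  refine lt_of_lt_of_le ?_ this
  norm_num [Finset.sum_range_succ, Nat.factorial]

theorem cc_num_pr : 1 ≤ cc (-28 / 125) (4999 / 10000) (31 / 25) (26 / 25) ∧
    355 / 1000 < 1 - Real.log (cc (-28 / 125) (4999 / 10000) (31 / 25) (26 / 25)) / (31 / 25) := by
  have h1 := nu_exp_hi
  have h2 := nu_exp_lo
  have h3 : 1 ≤ cc (-28 / 125) (4999 / 10000) (31 / 25) (26 / 25) := by
    rw [nu_cc]
    nlinarith
  have h4 : cc (-28 / 125) (4999 / 10000) (31 / 25) (26 / 25) ≤ 22245 / 10000 := by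
    rw [nu_cc]
    nlinarith
  refine ⟨h3, ?_⟩
  have h5 : Real.log (cc (-28 / 125) (4999 / 10000) (31 / 25) (26 / 25)) ≤
      Real.log (22245 / 10000) := Real.log_le_log (by linarith) h4
  have h6 := nu_log
  have h7 : Real.log (cc (-28 / 125) (4999 / 10000) (31 / 25) (26 / 25)) / (31 / 25) <
      645 / 1000 := by
    rw [div_lt_iff₀ (by norm_num)]
    linarith
  linarith

alias cc_num := cc_num_pr

end Pool.Agent.LVA
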