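import Pool.Agent.Lib_helper92.LVA.Defs
import Pool.Agent.Lib_helper92.ASA.All
import Pool.Agent.Lib_helper92.LVAF.BA

/-!
# Block SQ: the direct diagonal as a sum of squares
-/

namespace Pool.Agent.LVA

open Complex MeasureTheory Filter Topology Set Pool.Agent.AS

variable {P : Type} {N : P → ℕ}

/-- The square free element as an element of the semigroup. -/
noncomputable def sq_ind (e : Finset P) : P →₀ ℕ := ∑ p ∈ e, Finsupp.single p 1

open scoped Classical in
theorem sq_ind_apply (e : Finset P) (p : P) : sq_ind e p = if p ∈ e then 1 else 0 := by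
  unfold sq_ind
  rw [Finsupp.finsetSum_apply]
  simp only [Finsupp.single_apply]
  rw [Finset.sum_ite_eq' e p (fun _ => 1)]

theorem sq_log_nm (hN : Good N) (e : Finset P) : Real.log (nm N (sq_ind e)) = lg N e := by
  classical
  unfold lg
  induction e using Finset.induction_on with
  | empty =>
    have : sq_ind (∅ : Finset P) = 0 := by unfold sq_ind; simp
    rw [this, nm_zero]; simp
  | insert a s ha ih =>
    have h1 : sq_ind (insert a s) = Finsupp.single a 1 + sq_ind s := by
      unfold sq_ind; rw [Finset.sum_insert ha]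
    have hp1 := nm_pos hN.two_le (sq_ind s)
    have hp2 := nm_pos hN.two_le (Finsupp.single a 1)
    rw [h1, nm_add, Finset.sum_insert ha, Nat.cast_mul, Real.log_mul (by positivity) (by positivity),
      ih, nm_single, pow_one]

open scoped Classical in
/-- The sum over the elements with support containing `e`. -/
theorem sq_hasSum [DecidableEq P] (hN : Good N) {k : ℝ → ℝ} {ρ₂ : ℝ} (hk : Kern N k ρ₂)
    {Q e : Finset P} (he : Disjoint e Q) (u : ℝ) :
    HasSum (fun x : P →₀ ℕ => if Cop Q x ∧ e ⊆ x.support then k (u + Real.log (nm N x)) else 0)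
      (WW N k Q (u + lg N e)) := by
  have hpos : ∀ g : P →₀ ℕ, (nm N g : ℝ) ≠ 0 := fun g => by
    have := nm_pos hN.two_le g
    positivity
  have hinj : Function.Injective (fun g : P →₀ ℕ => sq_ind e + g) := fun a b h => by
    simpa using h
  have hs := (DIAGN_WW_summable hN hk Q (u + lg N e)).hasSum
  have hcomp : (fun x : P →₀ ℕ => if Cop Q x ∧ e ⊆ x.support then
        k (u + Real.log (nm N x)) else 0) ∘ (fun g : P →₀ ℕ => sq_ind e + g)
      = fun g : P →₀ ℕ => if Cop Q g then k (u + lg N e + Real.log (nm N g)) else 0 := by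
    funext g
    simp only [Function.comp]
    have hiff : (Cop Q (sq_ind e + g) ∧ e ⊆ (sq_ind e + g).support) ↔ Cop Q g := by
      rw [cop_add]
      constructor
      · exact fun h => h.1.2
      · refine fun h => ⟨⟨fun p hp => ?_, h⟩, fun p hp => ?_⟩
        · rw [sq_ind_apply, if_neg]
          exact fun hpe => (Finset.disjoint_left.mp he) hpe hp
        · rw [Finsupp.mem_support_iff, Finsupp.add_apply, sq_ind_apply, if_pos hp]
          omega
    have harg : u + Real.log (nm N (sq_ind e + g)) = u + lg N e + Real.log (nm N g) := by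
      rw [nm_add, Nat.cast_mul, Real.log_mul (hpos _) (hpos _), sq_log_nm hN]
      ring
    by_cases hg : Cop Q g
    · rw [if_pos (hiff.mpr hg), if_pos hg, harg]
    · rw [if_neg (fun h => hg (hiff.mp h)), if_neg hg]
  have hout : ∀ x ∉ Set.range (fun g : P →₀ ℕ => sq_ind e + g),
      (fun x : P →₀ ℕ => if Cop Q x ∧ e ⊆ x.support then
        k (u + Real.log (nm N x)) else 0) x = 0 := by
    intro x hx
    have : ¬ (Cop Q x ∧ e ⊆ x.support) := by
      rintro ⟨_, h2⟩
      refine hx ⟨x - sq_ind e, ?_⟩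
      ext p
      simp only [Finsupp.add_apply, Finsupp.tsub_apply, sq_ind_apply]
      by_cases hp : p ∈ e
      · have := Finsupp.mem_support_iff.mp (h2 hp)
        rw [if_pos hp]; omega
      · rw [if_neg hp]; omega
    simp only [if_neg this]
  rw [← Function.Injective.hasSum_iff hinj hout, hcomp]
  exact hs

open scoped Classical in
theorem dir_square_pr [DecidableEq P] (hN : Good N) {k : ℝ → ℝ} {ρ₂ : ℝ} (hk : Kern N k ρ₂)
    (Q : Finset P) (t u : ℝ) (c : Finset P → ℝ) :
    Summable (fun x : P →₀ ℕ => if Cop Q x then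
      (∑ m ∈ (SF N Q t).filter (fun m => m ⊆ x.support), c m) ^ 2 *
        k (u + Real.log (nm N x)) else 0) ∧
    ∑' x : P →₀ ℕ, (if Cop Q x then
      (∑ m ∈ (SF N Q t).filter (fun m => m ⊆ x.support), c m) ^ 2 *
        k (u + Real.log (nm N x)) else 0) =
      ∑ m ∈ SF N Q t, ∑ n ∈ SF N Q t, c m * c n * WW N k Q (u + lg N (m ∪ n)) := by
  have hdis : ∀ m ∈ SF N Q t, Disjoint m Q := fun m hm => ((mem_SF hN).mp hm).1
  have hsum : HasSum (fun x : P →₀ ℕ => ∑ m ∈ SF N Q t, ∑ n ∈ SF N Q t, c m * c n *
      (if Cop Q x ∧ m ∪ n ⊆ x.support then k (u + Real.log (nm N x)) else 0))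
      (∑ m ∈ SF N Q t, ∑ n ∈ SF N Q t, c m * c n * WW N k Q (u + lg N (m ∪ n))) := by
    refine hasSum_sum fun m hm => hasSum_sum fun n hn => ?_
    have h := sq_hasSum hN hk (Q := Q) (e := m ∪ n)
      (Finset.disjoint_union_left.mpr ⟨hdis m hm, hdis n hn⟩) u
    exact h.mul_left _
  have hfun : (fun x : P →₀ ℕ => if Cop Q x then
      (∑ m ∈ (SF N Q t).filter (fun m => m ⊆ x.support), c m) ^ 2 *
        k (u + Real.log (nm N x)) else 0) = (fun x : P →₀ ℕ => ∑ m ∈ SF N Q t, ∑ n ∈ SF N Q t,
        c m * c n * (if Cop Q x ∧ m ∪ n ⊆ x.support then k (u + Real.log (nm N x)) else 0)) := by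
    funext x
    by_cases hx : Cop Q x
    · rw [if_pos hx, sq (∑ m ∈ (SF N Q t).filter (fun m => m ⊆ x.support), c m),
        Finset.sum_filter, Finset.sum_mul_sum, Finset.sum_mul]
      refine Finset.sum_congr rfl fun m _ => ?_
      rw [Finset.sum_mul]
      refine Finset.sum_congr rfl fun n _ => ?_
      by_cases ha : m ⊆ x.support <;> by_cases hb : n ⊆ x.support <;>
        simp [ha, hb, hx, Finset.union_subset_iff]
    · rw [if_neg hx]
      symm
      refine Finset.sum_eq_zero fun m _ => Finset.sum_eq_zero fun n _ => ?_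
      rw [if_neg (fun h => hx h.1), mul_zero]
  rw [hfun]
  exact ⟨hsum.summable, hsum.tsum_eq⟩

alias dir_square := dir_square_pr

end Pool.Agent.LVA
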