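import Pool.Agent.Lib_helper92.LVAF.BA
import Pool.Agent.Lib_helper92.LVAF.BB
import Pool.Agent.Lib_helper92.LVAF.CN
import Pool.Agent.Lib_helper92.LVAF.SH
import Pool.Agent.Lib_helper92.LVAF.LS
import Pool.Agent.Lib_helper92.LVAF.MV
import Pool.Agent.Lib_helper92.LVAF.MP
import Pool.Agent.Lib_helper92.LVAF.FI
import Pool.Agent.Lib_helper92.LVAF.GU
import Pool.Agent.Lib_helper92.LVAF.GA
import Pool.Agent.Lib_helper92.LVAF.AB
import Pool.Agent.Lib_helper92.LVAF.GW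
import Pool.Agent.Lib_helper92.LVAF.LA
import Pool.Agent.Lib_helper92.LVAF.ZE
import Pool.Agent.Lib_helper92.LVAF.DA1
import Pool.Agent.Lib_helper92.LVAF.DA2
import Pool.Agent.Lib_helper92.LVAF.DA3
import Pool.Agent.Lib_helper92.LVAF.DB
import Pool.Agent.Lib_helper92.LVAF.MA1
import Pool.Agent.Lib_helper92.LVAF.MA2
import Pool.Agent.Lib_helper92.LVAF.KA
import Pool.Agent.Lib_helper92.LVAF.KB1
import Pool.Agent.Lib_helper92.LVAF.KB2
import Pool.Agent.Lib_helper92.LVAF.KC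
import Pool.Agent.Lib_helper92.LVAF.CI
import Pool.Agent.Lib_helper92.LVAF.KD
import Pool.Agent.Lib_helper92.LVAF.KE
import Pool.Agent.Lib_helper92.LVAF.KF1
import Pool.Agent.Lib_helper92.LVAF.KF2
import Pool.Agent.Lib_helper92.LVAF.LP
import Pool.Agent.Lib_helper92.LVAF.BE
import Pool.Agent.Lib_helper92.LVAF.SQ
import Pool.Agent.Lib_helper92.LVAF.NU
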